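import Mathlib

/-! Bookkeeping of the action of a `gl_n` by derivations on matrices of functions. -/

namespace Pool.Agent.H495

variable {R : Type} [CommRing R] [Algebra ℂ R] {n : ℕ} (D : Fin n → Fin n → Derivation ℂ R R)

/-- A semi-invariant scalar. -/
def Sc (c : ℤ) (f : R) : Prop := ∀ i j, D i j f = if i = j then (c : R) * f else 0

/-- A vector of functions transforming as coordinates of a vector. -/
def RowV (c : ℤ) (x : Fin n → R) : Prop :=
  ∀ i j k, D i j (x k) = (if i = k then x j else 0) + (if i = j then (c : R) * x k else 0)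

/-- A vector of functions transforming as coordinates of a covector. -/
def ColV (c : ℤ) (x : Fin n → R) : Prop :=
  ∀ i j k, D i j (x k) = -(if j = k then x i else 0) + (if i = j then (c : R) * x k else 0)

variable {D}

theorem Sc.congr {c c' : ℤ} {f : R} (h : Sc D c f) (hc : c = c') : Sc D c' f := hc ▸ h

theorem Sc.zero (c : ℤ) : Sc D c (0 : R) := fun i j => by simp

theorem Sc.one : Sc D 0 (1 : R) := fun i j => by simp

theorem Sc.add {c : ℤ} {f g : R} (hf : Sc D c f) (hg : Sc D c g) : Sc D c (f + g) := by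
  intro i j; rw [map_add, hf, hg]; split_ifs <;> ring

theorem Sc.neg {c : ℤ} {f : R} (hf : Sc D c f) : Sc D c (-f) := by
  intro i j; rw [map_neg, hf]; split_ifs <;> ring

theorem Sc.sub {c : ℤ} {f g : R} (hf : Sc D c f) (hg : Sc D c g) : Sc D c (f - g) := by
  intro i j; rw [map_sub, hf, hg]; split_ifs <;> ring

theorem Sc.mul {c c' : ℤ} {f g : R} (hf : Sc D c f) (hg : Sc D c' g) : Sc D (c + c') (f * g) := by
  intro i j
  rw [Derivation.leibniz, hf, hg, smul_eq_mul, smul_eq_mul]
  split_ifs <;> push_cast <;> ring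

theorem Sc.pow {c : ℤ} {f : R} (hf : Sc D c f) (k : ℕ) : Sc D (k * c) (f ^ k) := by
  induction k with
  | zero => simpa using Sc.one
  | succ k ih => rw [pow_succ]; exact (ih.mul hf).congr (by push_cast; ring)

theorem Sc.sum {κ : Type*} (s : Finset κ) {c : ℤ} {f : κ → R} (hf : ∀ k ∈ s, Sc D c (f k)) :
    Sc D c (∑ k ∈ s, f k) := by
  classical
  induction s using Finset.induction_on with
  | empty => simpa using Sc.zero c
  | insert a s ha ih =>
    rw [Finset.sum_insert ha]
    exact (hf a (Finset.mem_insert_self _ _)).add (ih fun k hk => hf k (Finset.mem_insert_of_mem hk))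

theorem RowV.add {c : ℤ} {x y : Fin n → R} (hx : RowV D c x) (hy : RowV D c y) :
    RowV D c (fun k => x k + y k) := by
  intro i j k; simp only [map_add, hx i j k, hy i j k]; split_ifs <;> ring

theorem RowV.sub {c : ℤ} {x y : Fin n → R} (hx : RowV D c x) (hy : RowV D c y) :
    RowV D c (fun k => x k - y k) := by
  intro i j k; simp only [map_sub, hx i j k, hy i j k]; split_ifs <;> ring

theorem ColV.add {c : ℤ} {x y : Fin n → R} (hx : ColV D c x) (hy : ColV D c y) :
    ColV D c (fun k => x k + y k) := by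
  intro i j k; simp only [map_add, hx i j k, hy i j k]; split_ifs <;> ring

theorem ColV.sub {c : ℤ} {x y : Fin n → R} (hx : ColV D c x) (hy : ColV D c y) :
    ColV D c (fun k => x k - y k) := by
  intro i j k; simp only [map_sub, hx i j k, hy i j k]; split_ifs <;> ring

theorem RowV.mul_sc {c c' : ℤ} {x : Fin n → R} {f : R} (hx : RowV D c x) (hf : Sc D c' f) :
    RowV D (c + c') (fun k => x k * f) := by
  intro i j k
  simp only [Derivation.leibniz, hx i j k, hf i j, smul_eq_mul]
  split_ifs <;> push_cast <;> ring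

theorem ColV.sc_mul {c c' : ℤ} {x : Fin n → R} {f : R} (hf : Sc D c' f) (hx : ColV D c x) :
    ColV D (c + c') (fun k => f * x k) := by
  intro i j k
  simp only [Derivation.leibniz, hx i j k, hf i j, smul_eq_mul]
  split_ifs <;> push_cast <;> ring

theorem dot_sc {c c' : ℤ} {x y : Fin n → R} (hx : ColV D c x) (hy : RowV D c' y) :
    Sc D (c + c') (∑ k, x k * y k) := by
  intro i j
  rw [map_sum]
  have h : ∀ k, D i j (x k * y k) = (if i = k then x k * y j else 0) -
      (if j = k then x i * y k else 0) + (if i = j then ((c + c' : ℤ) : R) * (x k * y k) else 0) := by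
    intro k
    rw [Derivation.leibniz, hx, hy, smul_eq_mul, smul_eq_mul]
    split_ifs <;> push_cast <;> ring
  simp only [h, Finset.sum_add_distrib, Finset.sum_sub_distrib, Finset.sum_ite_eq,
    Finset.mem_univ, if_true]
  split_ifs with hij
  · rw [Finset.mul_sum]; ring
  · simp

variable (D)

/-- Matrix versions. -/
def RowM {B : Type} (c : ℤ) (M : Matrix (Fin n) B R) : Prop := ∀ l, RowV D c (fun k => M k l)

def ColM {A : Type} (c : ℤ) (M : Matrix A (Fin n) R) : Prop := ∀ k, ColV D c (fun l => M k l)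

def ScM {A B : Type} (c : ℤ) (M : Matrix A B R) : Prop := ∀ k l, Sc D c (M k l)

variable {D}

theorem RowM.mul {A B : Type} [Fintype A] {c c' : ℤ} {M : Matrix (Fin n) A R} {N : Matrix A B R}
    (hM : RowM D c M) (hN : ScM D c' N) : RowM D (c + c') (M * N) := by
  intro l i j k
  simp only [Matrix.mul_apply, map_sum]
  have h : ∀ a, D i j (M k a * N a l) = (if i = k then M j a * N a l else 0) +
      (if i = j then ((c + c' : ℤ) : R) * (M k a * N a l) else 0) := by
    intro a
    rw [Derivation.leibniz, hM a i j k, hN a l i j, smul_eq_mul, smul_eq_mul]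
    split_ifs <;> push_cast <;> ring
  simp only [h, Finset.sum_add_distrib]
  congr 1
  · split_ifs <;> simp
  · split_ifs <;> simp [Finset.mul_sum]

theorem ColM.mul {A B : Type} [Fintype A] {c c' : ℤ} {M : Matrix B A R} {N : Matrix A (Fin n) R}
    (hM : ScM D c M) (hN : ColM D c' N) : ColM D (c + c') (M * N) := by
  intro k i j l
  simp only [Matrix.mul_apply, map_sum]
  have h : ∀ a, D i j (M k a * N a l) = -(if j = l then M k a * N a i else 0) +
      (if i = j then ((c + c' : ℤ) : R) * (M k a * N a l) else 0) := by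
    intro a
    rw [Derivation.leibniz, hN a i j l, hM k a i j, smul_eq_mul, smul_eq_mul]
    split_ifs <;> push_cast <;> ring
  simp only [h, Finset.sum_add_distrib, Finset.sum_neg_distrib]
  congr 1
  · split_ifs <;> simp
  · split_ifs <;> simp [Finset.mul_sum]

theorem ColM.mul_row {A B : Type} {c c' : ℤ} {M : Matrix A (Fin n) R} {N : Matrix (Fin n) B R}
    (hM : ColM D c M) (hN : RowM D c' N) : ScM D (c + c') (M * N) :=
  fun k l => dot_sc (hM k) (hN l)

theorem ScM.mul {A B C : Type} [Fintype B] {c c' : ℤ} {M : Matrix A B R} {N : Matrix B C R}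
    (hM : ScM D c M) (hN : ScM D c' N) : ScM D (c + c') (M * N) := by
  intro k l
  rw [Matrix.mul_apply]
  exact Sc.sum _ fun a _ => (hM k a).mul (hN a l)

theorem RowV.congr {c c' : ℤ} {f : Fin n → R} (h : RowV D c f) (hc : c = c') : RowV D c' f :=
  hc ▸ h
theorem ColV.congr {c c' : ℤ} {f : Fin n → R} (h : ColV D c f) (hc : c = c') : ColV D c' f :=
  hc ▸ h
theorem ScM.congr {A B : Type} {c c' : ℤ} {M : Matrix A B R} (h : ScM D c M) (hc : c = c') :
    ScM D c' M := hc ▸ h
theorem RowM.congr {B : Type} {c c' : ℤ} {M : Matrix (Fin n) B R} (h : RowM D c M)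
    (hc : c = c') : RowM D c' M := hc ▸ h
theorem ColM.congr {A : Type} {c c' : ℤ} {M : Matrix A (Fin n) R} (h : ColM D c M)
    (hc : c = c') : ColM D c' M := hc ▸ h

/-- `2 × 2` determinants. -/
def det2 (x y : Fin 2 → R) : R := x 0 * y 1 - x 1 * y 0

/-- `3 × 3` determinants. -/
def det3 (x y z : Fin 3 → R) : R :=
  x 0 * (y 1 * z 2 - y 2 * z 1) - x 1 * (y 0 * z 2 - y 2 * z 0) + x 2 * (y 0 * z 1 - y 1 * z 0)

theorem det2_row {D : Fin 2 → Fin 2 → Derivation ℂ R R} {c c' : ℤ} {x y : Fin 2 → R}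
    (hx : RowV D c x) (hy : RowV D c' y) : Sc D (c + c' + 1) (det2 x y) := by
  intro i j
  simp only [det2, map_sub, Derivation.leibniz, hx _ _ _, hy _ _ _, smul_eq_mul]
  fin_cases i <;> fin_cases j <;> simp <;> ring

theorem det2_col {D : Fin 2 → Fin 2 → Derivation ℂ R R} {c c' : ℤ} {x y : Fin 2 → R}
    (hx : ColV D c x) (hy : ColV D c' y) : Sc D (c + c' - 1) (det2 x y) := by
  intro i j
  simp only [det2, map_sub, Derivation.leibniz, hx _ _ _, hy _ _ _, smul_eq_mul]
  fin_cases i <;> fin_cases j <;> simp <;> ring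

theorem det2_cols {D : Fin 2 → Fin 2 → Derivation ℂ R R} {M : Matrix (Fin 2) (Fin 2) R}
    (hM : ColM D 0 M) : Sc D (-1) (det2 (fun k => M k 0) (fun k => M k 1)) := by
  intro i j
  have h1 := fun k i j l => hM k i j l
  simp only at h1
  simp only [det2, map_sub, Derivation.leibniz, h1, smul_eq_mul]
  fin_cases i <;> fin_cases j <;> simp <;> ring

theorem det2_sc {c c' : ℤ} {x y : Fin 2 → R}
    (hx : ∀ k, Sc D c (x k)) (hy : ∀ k, Sc D c' (y k)) : Sc D (c + c') (det2 x y) :=
  ((hx 0).mul (hy 1)).sub ((hx 1).mul (hy 0))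

theorem det3_row {D : Fin 3 → Fin 3 → Derivation ℂ R R} {c c' c'' : ℤ} {x y z : Fin 3 → R}
    (hx : RowV D c x) (hy : RowV D c' y) (hz : RowV D c'' z) :
    Sc D (c + c' + c'' + 1) (det3 x y z) := by
  intro i j
  simp only [det3, map_sub, map_add, Derivation.leibniz, hx _ _ _, hy _ _ _, hz _ _ _,
    smul_eq_mul]
  fin_cases i <;> fin_cases j <;> simp <;> ring

theorem det3_sc {c c' c'' : ℤ} {x y z : Fin 3 → R}
    (hx : ∀ k, Sc D c (x k)) (hy : ∀ k, Sc D c' (y k)) (hz : ∀ k, Sc D c'' (z k)) :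
    Sc D (c + c' + c'') (det3 x y z) := by
  have h : ∀ a b d : Fin 3, Sc D (c + c' + c'') (x a * (y b * z d)) := fun a b d =>
    ((hx a).mul ((hy b).mul (hz d))).congr (by ring)
  have h2 : det3 x y z = x 0 * (y 1 * z 2) - x 0 * (y 2 * z 1) - (x 1 * (y 0 * z 2) -
      x 1 * (y 2 * z 0)) + (x 2 * (y 0 * z 1) - x 2 * (y 1 * z 0)) := by
    unfold det3; ring
  rw [h2]
  exact (((h _ _ _).sub (h _ _ _)).sub ((h _ _ _).sub (h _ _ _))).add ((h _ _ _).sub (h _ _ _))

/-- `det3 α₀ α₁ z` when `α` is a matrix with columns permuted by a `gl_2`. -/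
theorem det3_cols {D : Fin 2 → Fin 2 → Derivation ℂ R R} {M : Matrix (Fin 3) (Fin 2) R}
    (hM : ColM D 0 M) {z : Fin 3 → R} (hz : ∀ k, Sc D 0 (z k)) :
    Sc D (-1) (det3 (fun k => M k 0) (fun k => M k 1) z) := by
  intro i j
  have h1 := fun k i j l => hM k i j l
  simp only at h1
  simp only [det3, map_sub, map_add, Derivation.leibniz, h1, hz _ _ _, smul_eq_mul]
  fin_cases i <;> fin_cases j <;> simp <;> ring

/-- `m ↦ det3 x y u_m` when the columns of `u` are permuted by a `gl_2`. -/
theorem det3_colV {D : Fin 2 → Fin 2 → Derivation ℂ R R} {M : Matrix (Fin 3) (Fin 2) R}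
    (hM : ColM D 0 M) {x y : Fin 3 → R} (hx : ∀ k, Sc D 0 (x k)) (hy : ∀ k, Sc D 0 (y k)) :
    ColV D 0 (fun m => det3 x y (fun k => M k m)) := by
  intro i j l
  have h1 := fun k i j l => hM k i j l
  simp only at h1
  simp only [det3, map_sub, map_add, Derivation.leibniz, h1, hx _ _ _, hy _ _ _, smul_eq_mul]
  fin_cases i <;> fin_cases j <;> fin_cases l <;> simp <;> ring

/-- `k ↦ det2 (M k ·) y` when the rows of `M` are permuted by a `gl_2`. -/
theorem det2_rowV {D : Fin 2 → Fin 2 → Derivation ℂ R R} {c : ℤ} {M : Matrix (Fin 2) (Fin 2) R}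
    (hM : RowM D c M) {y : Fin 2 → R} (hy : ∀ k, Sc D 0 (y k)) :
    RowV D c (fun k => det2 (fun l => M k l) y) := by
  intro i j l
  have h1 := fun k i j l => hM k i j l
  simp only at h1
  simp only [det2, map_sub, Derivation.leibniz, h1, hy _ _ _, smul_eq_mul]
  fin_cases i <;> fin_cases j <;> fin_cases l <;> simp <;> ring

/-- `2 × 2` minors of a pair of vectors. -/
def mn {n : ℕ} (i j : Fin n) (x y : Fin n → R) : R := x i * y j - x j * y i

/-- `4 × 4` determinants (Laplace expansion). -/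
def det4 (x y z t : Fin 4 → R) : R :=
  mn 0 1 x y * mn 2 3 z t - mn 0 2 x y * mn 1 3 z t + mn 0 3 x y * mn 1 2 z t +
  mn 1 2 x y * mn 0 3 z t - mn 1 3 x y * mn 0 2 z t + mn 2 3 x y * mn 0 1 z t

theorem mn_row {D : Fin 4 → Fin 4 → Derivation ℂ R R} {x y : Fin 4 → R}
    (hx : RowV D 0 x) (hy : RowV D 0 y) (i j k l : Fin 4) : D i j (mn k l x y) =
      (if i = k then mn j l x y else 0) + (if i = l then mn k j x y else 0) := by
  simp only [mn, map_sub, Derivation.leibniz, hx _ _ _, hy _ _ _, smul_eq_mul]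
  split_ifs <;> simp <;> ring

theorem det4_row {D : Fin 4 → Fin 4 → Derivation ℂ R R} {x y z t : Fin 4 → R}
    (hx : RowV D 0 x) (hy : RowV D 0 y) (hz : RowV D 0 z) (ht : RowV D 0 t) :
    Sc D 1 (det4 x y z t) := by
  intro i j
  simp only [det4, map_sub, map_add, Derivation.leibniz, mn_row hx hy, mn_row hz ht,
    smul_eq_mul]
  have h1 : ∀ k l, mn k l x y = x k * y l - x l * y k := fun k l => rfl
  have h2 : ∀ k l, mn k l z t = z k * t l - z l * t k := fun k l => rfl
  fin_cases i <;> fin_cases j <;> simp [h1, h2] <;> ring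

theorem det_eq_det4 (M : Matrix (Fin 4) (Fin 4) R) :
    M.det = det4 (fun i => M i 0) (fun i => M i 1) (fun i => M i 2) (fun i => M i 3) := by
  simp [Matrix.det_succ_row_zero, Fin.sum_univ_succ, det4, mn, Fin.succAbove, Matrix.submatrix]
  ring

theorem det_eq_det3 (M : Matrix (Fin 3) (Fin 3) R) :
    M.det = det3 (fun i => M i 0) (fun i => M i 1) (fun i => M i 2) := by
  rw [Matrix.det_fin_three]; simp [det3]; ring

theorem det_eq_det2 (M : Matrix (Fin 2) (Fin 2) R) :
    M.det = det2 (fun i => M i 0) (fun i => M i 1) := by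
  rw [Matrix.det_fin_two]; simp [det2]; ring

end Pool.Agent.H495
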