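import Pool.Agent.H495.Defs

namespace Pool.Agent.H495

open MvPolynomial

namespace WeylModule

variable {J : Type} [DecidableEq J] {L : Type} [AddCommGroup L] [Module ℂ L]

@[simp] theorem fn_X (W : WeylModule J L) (i : J) : W.fn (X i) = W.x i := commAeval_X _ _ _

@[simp] theorem dop_X (W : WeylModule J L) (i : J) : W.dop (X i) = W.d i := commAeval_X _ _ _

theorem fn_C (W : WeylModule J L) (c : ℂ) : W.fn (C c) = algebraMap ℂ _ c := by
  rw [← MvPolynomial.algebraMap_eq, AlgHom.commutes]

theorem dop_C (W : WeylModule J L) (c : ℂ) : W.dop (C c) = algebraMap ℂ _ c := by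
  rw [← MvPolynomial.algebraMap_eq, AlgHom.commutes]

theorem fn_comm (W : WeylModule J L) (f g : MvPolynomial J ℂ) :
    W.fn f * W.fn g = W.fn g * W.fn f := by
  rw [← map_mul, mul_comm, map_mul]

/-- Leibniz rule. -/
theorem d_mul_fn (W : WeylModule J L) (i : J) (f : MvPolynomial J ℂ) :
    W.d i * W.fn f = W.fn f * W.d i + W.fn (pderiv i f) := by
  induction f using MvPolynomial.induction_on with
  | C a =>
    rw [pderiv_C, map_zero, add_zero, fn_C]
    exact (Algebra.commutes a (W.d i)).symm
  | add p q hp hq =>
    rw [map_add, mul_add, hp, hq, map_add, map_add]; noncomm_ring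
  | mul_X p j hp =>
    have hc : W.fn (pderiv i p) * W.x j = W.x j * W.fn (pderiv i p) := by
      have := W.fn_comm (X j) (pderiv i p); rw [fn_X] at this; exact this.symm
    rw [map_mul, ← mul_assoc, hp, add_mul, mul_assoc, fn_X, W.comm i j, Derivation.leibniz,
      pderiv_X, map_add, smul_eq_mul, smul_eq_mul, map_mul, map_mul, fn_X, mul_add, hc]
    by_cases h : i = j
    · subst h; simp only [if_true, Pi.single_eq_same, map_one, mul_one, mul_add, mul_assoc]; abel
    · simp [h, mul_assoc, Ne.symm h]

theorem d_fn_apply (W : WeylModule J L) (i : J) (f : MvPolynomial J ℂ) (u : L) :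
    W.d i (W.fn f u) = W.fn f (W.d i u) + W.fn (pderiv i f) u := by
  have := congrArg (fun T => T u) (W.d_mul_fn i f)
  simpa using this

/-- A submodule stable under the `x j` and the `d j`. -/
def Stable (W : WeylModule J L) (U : Submodule ℂ L) : Prop :=
  (∀ j, ∀ u ∈ U, W.x j u ∈ U) ∧ (∀ j, ∀ u ∈ U, W.d j u ∈ U)

theorem IsSimple.eq_top {W : WeylModule J L} (h : W.IsSimple) {U : Submodule ℂ L}
    (hU : W.Stable U) {u : L} (hu : u ∈ U) (h0 : u ≠ 0) : U = ⊤ := by
  rcases h.2 U hU.1 hU.2 with h1 | h1
  · rw [h1] at hu; exact absurd ((Submodule.mem_bot ℂ).1 hu) h0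
  · exact h1

theorem fn_mul_apply (W : WeylModule J L) (f g : MvPolynomial J ℂ) (u : L) :
    W.fn (f * g) u = W.fn f (W.fn g u) := by rw [map_mul, Module.End.mul_apply]

/-- The vectors killed by a power of a function. -/
def torsion (W : WeylModule J L) (f : MvPolynomial J ℂ) : Submodule ℂ L where
  carrier := {u | ∃ k : ℕ, W.fn (f ^ k) u = 0}
  zero_mem' := ⟨0, by simp⟩
  add_mem' := by
    rintro a b ⟨k, hk⟩ ⟨l, hl⟩
    refine ⟨k + l, ?_⟩
    rw [map_add, pow_add, mul_comm, fn_mul_apply, hk, mul_comm, fn_mul_apply, hl, map_zero,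
      map_zero, add_zero]
  smul_mem' := by
    rintro c a ⟨k, hk⟩
    exact ⟨k, by rw [map_smul, hk, smul_zero]⟩

theorem torsion_stable (W : WeylModule J L) (f : MvPolynomial J ℂ) : W.Stable (W.torsion f) := by
  constructor
  · rintro j u ⟨k, hk⟩
    refine ⟨k, ?_⟩
    rw [← fn_X, ← fn_mul_apply, mul_comm, fn_mul_apply, hk, map_zero]
  · rintro j u ⟨k, hk⟩
    refine ⟨k + 1, ?_⟩
    have h1 := W.d_fn_apply j (f ^ (k + 1)) u
    have h2 : W.fn (f ^ (k + 1)) u = 0 := by
      rw [pow_succ', fn_mul_apply, hk, map_zero]
    have h3 : W.fn (pderiv j (f ^ (k + 1))) u = 0 := by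
      rw [Derivation.leibniz_pow, Nat.add_sub_cancel, smul_eq_mul, nsmul_eq_mul,
        show ((k + 1 : ℕ) : MvPolynomial J ℂ) * (f ^ k * pderiv j f) =
          (((k + 1 : ℕ) : MvPolynomial J ℂ) * pderiv j f) * f ^ k by ring, fn_mul_apply, hk,
        map_zero]
    rw [h2, h3, map_zero, add_zero] at h1
    exact h1.symm

/-- On a simple module a function is injective or locally nilpotent. -/
theorem IsSimple.nilp_of_ker {W : WeylModule J L} (h : W.IsSimple) (f : MvPolynomial J ℂ)
    {u : L} (h0 : u ≠ 0) {k : ℕ} (hu : W.fn (f ^ k) u = 0) (v : L) : ∃ l, W.fn (f ^ l) v = 0 := by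
  have := h.eq_top (W.torsion_stable f) (u := u) ⟨k, hu⟩ h0
  have hv : v ∈ W.torsion f := this ▸ Submodule.mem_top
  exact hv

/-! ### Normally ordered operators -/

theorem op_eq_sum (W : WeylModule J L) (P : MvPolynomial J (MvPolynomial J ℂ))
    (s : Finset (J →₀ ℕ)) (hs : P.support ⊆ s) :
    W.op P = ∑ m ∈ s, W.fn (P.coeff m) * W.dop (monomial m 1) := by
  rw [op]
  refine Finset.sum_subset hs fun m _ hm => ?_
  rw [notMem_support_iff.1 hm, map_zero, zero_mul]

theorem op_add (W : WeylModule J L) (P Q : MvPolynomial J (MvPolynomial J ℂ)) :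
    W.op (P + Q) = W.op P + W.op Q := by
  classical
  rw [W.op_eq_sum (P + Q) (P.support ∪ Q.support) support_add,
    W.op_eq_sum P (P.support ∪ Q.support) Finset.subset_union_left,
    W.op_eq_sum Q (P.support ∪ Q.support) Finset.subset_union_right, ← Finset.sum_add_distrib]
  refine Finset.sum_congr rfl fun m _ => ?_
  rw [coeff_add, map_add, add_mul]

theorem op_C_mul (W : WeylModule J L) (f : MvPolynomial J ℂ)
    (P : MvPolynomial J (MvPolynomial J ℂ)) : W.op (C f * P) = W.fn f * W.op P := by
  classical
  rw [W.op_eq_sum (C f * P) P.support, op, Finset.mul_sum]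
  · refine Finset.sum_congr rfl fun m _ => ?_
    rw [coeff_C_mul, map_mul, mul_assoc]
  · intro m hm
    rw [mem_support_iff] at hm ⊢
    intro h; apply hm; rw [coeff_C_mul, h, mul_zero]

theorem op_monomial (W : WeylModule J L) (m : J →₀ ℕ) (f : MvPolynomial J ℂ) :
    W.op (monomial m f) = W.fn f * W.dop (monomial m 1) := by
  classical
  rw [W.op_eq_sum (monomial m f) {m} support_monomial_subset, Finset.sum_singleton, coeff_monomial,
    if_pos rfl]

theorem op_mul_X (W : WeylModule J L) (P : MvPolynomial J (MvPolynomial J ℂ)) (j : J) :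
    W.op (P * X j) = W.op P * W.d j := by
  induction P using MvPolynomial.induction_on' with
  | monomial m f =>
    rw [X, monomial_mul, op_monomial, op_monomial, mul_one, ← dop_X, mul_assoc, ← map_mul, X,
      monomial_mul, mul_one]
  | add P Q hP hQ => rw [add_mul, op_add, hP, hQ, op_add, add_mul]

theorem op_one (W : WeylModule J L) : W.op 1 = 1 := by
  rw [← map_one C, C_apply, op_monomial]
  simp

theorem op_sum (W : WeylModule J L) {κ : Type*} (s : Finset κ)
    (P : κ → MvPolynomial J (MvPolynomial J ℂ)) : W.op (∑ i ∈ s, P i) = ∑ i ∈ s, W.op (P i) := by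
  classical
  induction s using Finset.induction_on with
  | empty => simp [op]
  | insert a s ha ih => rw [Finset.sum_insert ha, Finset.sum_insert ha, op_add, ih]

/-! ### Partial Fourier transform -/

/-- Partial Fourier transform in the variables `j` with `S j`. -/
def fourier (W : WeylModule J L) (S : J → Prop) [DecidablePred S] : WeylModule J L where
  x j := if S j then W.d j else W.x j
  d j := if S j then -W.x j else W.d j
  x_comm := by
    intro i j
    by_cases hi : S i <;> by_cases hj : S j <;> simp only [hi, hj, if_true, if_false]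
    · exact W.d_comm i j
    · have := W.comm i j
      rw [if_neg (by rintro rfl; exact hj hi), add_zero] at this
      exact this
    · have := W.comm j i
      rw [if_neg (by rintro rfl; exact hi hj), add_zero] at this
      exact this.symm
    · exact W.x_comm i j
  d_comm := by
    intro i j
    by_cases hi : S i <;> by_cases hj : S j <;> simp only [hi, hj, if_true, if_false]
    · rw [neg_mul_neg, neg_mul_neg, W.x_comm i j]
    · have := W.comm j i
      rw [if_neg (by rintro rfl; exact hj hi), add_zero] at this
      rw [neg_mul, mul_neg, this]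
    · have := W.comm i j
      rw [if_neg (by rintro rfl; exact hi hj), add_zero] at this
      rw [neg_mul, mul_neg, this]
    · exact W.d_comm i j
  comm := by
    intro i j
    by_cases hi : S i <;> by_cases hj : S j <;> simp only [hi, hj, if_true, if_false]
    · have := W.comm j i
      rw [mul_neg, this, neg_mul]
      by_cases h : i = j
      · subst h; simp
      · simp [h, Ne.symm h]
    · rw [neg_mul, mul_neg, W.x_comm i j, if_neg (by rintro rfl; exact hj hi), add_zero]
    · rw [W.d_comm i j, if_neg (by rintro rfl; exact hi hj), add_zero]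
    · exact W.comm i j

variable (S : J → Prop) [DecidablePred S]

theorem fourier_stable {W : WeylModule J L} {U : Submodule ℂ L} (h : (W.fourier S).Stable U) :
    W.Stable U := by
  constructor
  · intro j u hu
    by_cases hj : S j
    · have := h.2 j u hu
      simp only [fourier, hj, if_true] at this
      simpa using U.neg_mem this
    · have := h.1 j u hu
      simpa only [fourier, hj, if_false] using this
  · intro j u hu
    by_cases hj : S j
    · have := h.1 j u hu
      simpa only [fourier, hj, if_true] using this
    · have := h.2 j u hu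
      simpa only [fourier, hj, if_false] using this

theorem IsSimple.fourier {W : WeylModule J L} (h : W.IsSimple) : (W.fourier S).IsSimple :=
  ⟨h.1, fun U h1 h2 => h.2 U (fourier_stable S ⟨h1, h2⟩).1 (fourier_stable S ⟨h1, h2⟩).2⟩

/-- The polynomial `f` in the mixed variables, as a symbol. -/
noncomputable def psi : MvPolynomial J ℂ →ₐ[ℂ] MvPolynomial J (MvPolynomial J ℂ) :=
  aeval fun j => if S j then X j else C (X j)

theorem op_psi (W : WeylModule J L) (f : MvPolynomial J ℂ) :
    W.op (psi S f) = (W.fourier S).fn f := by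
  induction f using MvPolynomial.induction_on with
  | C a =>
    have h1 : psi S (C a) = C (C a) * 1 := by
      rw [mul_one]; exact (psi S).commutes a
    rw [fn_C, h1, op_C_mul, op_one, mul_one, fn_C]
  | add p q hp hq => rw [map_add, op_add, hp, hq, map_add]
  | mul_X p j hp =>
    rw [map_mul, map_mul, fn_X, psi, aeval_X, ← psi]
    by_cases hj : S j
    · rw [if_pos hj, op_mul_X, hp, fourier]
      simp only [hj, if_true]
    · rw [if_neg hj, mul_comm, op_C_mul, hp, fn_X]
      have := (W.fourier S).fn_comm (X j) p
      rw [fn_X] at this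
      rw [← this]
      simp only [fourier, hj, if_false]

theorem eval_psi (a b : J → ℂ) (f : MvPolynomial J ℂ) :
    eval b (map (eval a) (psi S f)) = eval (fun j => if S j then b j else a j) f := by
  induction f using MvPolynomial.induction_on with
  | C c =>
    have h1 : psi S (C c) = C (C c) := (psi S).commutes c
    rw [h1]; simp
  | add p q hp hq => simp only [map_add, hp, hq]
  | mul_X p j hp =>
    rw [map_mul, map_mul, map_mul, map_mul, hp, psi, aeval_X]
    by_cases hj : S j <;> simp [hj]

/-- `f` is homogeneous of degree `n` in the Fourier-transformed variables. -/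
def FTHom (n : ℕ) (f : MvPolynomial J ℂ) : Prop := (psi S f).IsHomogeneous n

/-- If the conormal vector `(a, b)` is in the characteristic variety of a simple module, then every
function in the mixed variables which is homogeneous in the Fourier-transformed variables and
non-zero at the point acts injectively. -/
theorem IsSimple.inj_of_inChar {W : WeylModule J L} (h : W.IsSimple) {a b : J → ℂ}
    (hc : W.InChar a b) {n : ℕ} {f : MvPolynomial J ℂ} (hf : FTHom S n f)
    (h0 : eval (fun j => if S j then b j else a j) f ≠ 0) (u : L)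
    (hu : (W.fourier S).fn f u = 0) : u = 0 := by
  by_contra hne
  obtain ⟨v, hv⟩ := hc
  obtain ⟨k, hk⟩ := (h.fourier S).nilp_of_ker f hne (k := 1) (by rwa [pow_one]) v
  have hh : (psi S (f ^ k)).IsHomogeneous (n * k) := by
    rw [map_pow]; exact IsHomogeneous.pow hf k
  have h1 := hv (n * k) (psi S (f ^ k)) hh.totalDegree_le (by rw [op_psi]; exact hk)
  rw [homogeneousComponent_eq_self hh, eval_psi, map_pow] at h1
  exact (pow_ne_zero k h0) h1

end WeylModule

end Pool.Agent.H495
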