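import Pool.Agent.H495.Basic

namespace Pool.Agent.H495

open MvPolynomial

namespace WeylModule

variable {J J' : Type} [DecidableEq J] [DecidableEq J'] {L : Type} [AddCommGroup L] [Module ℂ L]

/-- Relabelling of the coordinates. -/
def comap (W : WeylModule J L) (f : J' ≃ J) : WeylModule J' L where
  x j := W.x (f j)
  d j := W.d (f j)
  x_comm i j := W.x_comm _ _
  d_comm i j := W.d_comm _ _
  comm i j := by
    rw [W.comm]; simp

theorem comap_fn (W : WeylModule J L) (f : J' ≃ J) (p : MvPolynomial J' ℂ) :
    (W.comap f).fn p = W.fn (rename f p) := by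
  induction p using MvPolynomial.induction_on with
  | C a => rw [rename_C, fn_C, fn_C]
  | add p q hp hq => simp only [map_add, hp, hq]
  | mul_X p j hp => simp only [map_mul, hp, rename_X, fn_X]; rfl

theorem comap_dop (W : WeylModule J L) (f : J' ≃ J) (p : MvPolynomial J' ℂ) :
    (W.comap f).dop p = W.dop (rename f p) := by
  induction p using MvPolynomial.induction_on with
  | C a => rw [rename_C, dop_C, dop_C]
  | add p q hp hq => simp only [map_add, hp, hq]
  | mul_X p j hp => simp only [map_mul, hp, rename_X, dop_X]; rfl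

/-- Relabelling of a symbol. -/
noncomputable def relab (f : J' ≃ J) (P : MvPolynomial J' (MvPolynomial J' ℂ)) :
    MvPolynomial J (MvPolynomial J ℂ) :=
  map (rename f : MvPolynomial J' ℂ →ₐ[ℂ] MvPolynomial J ℂ).toRingHom (rename f P)

theorem comap_op (W : WeylModule J L) (f : J' ≃ J) (P : MvPolynomial J' (MvPolynomial J' ℂ)) :
    (W.comap f).op P = W.op (relab f P) := by
  induction P using MvPolynomial.induction_on' with
  | monomial m a =>
    rw [op_monomial, relab, rename_monomial, map_monomial, op_monomial, comap_fn, comap_dop,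
      rename_monomial]
    rfl
  | add P Q hP hQ => rw [op_add, hP, hQ, relab, relab, relab, map_add, map_add, op_add]

theorem eval_relab (f : J' ≃ J) (a b : J → ℂ) (P : MvPolynomial J' (MvPolynomial J' ℂ)) :
    eval b (map (eval a) (relab f P)) = eval (b ∘ f) (map (eval (a ∘ f)) P) := by
  induction P using MvPolynomial.induction_on' with
  | monomial m p =>
    rw [relab, rename_monomial, map_monomial, map_monomial, map_monomial]
    have : (eval a) ((rename f : MvPolynomial J' ℂ →ₐ[ℂ] MvPolynomial J ℂ).toRingHom p) =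
        eval (a ∘ f) p := by
      show (eval a) (rename f p) = _
      rw [eval_rename]
    rw [this, ← rename_monomial, eval_rename]
  | add P Q hP hQ =>
    have : relab f (P + Q) = relab f P + relab f Q := by rw [relab, relab, relab, map_add, map_add]
    rw [this]
    simp only [map_add, hP, hQ]

theorem homogeneousComponent_relab (f : J' ≃ J) (m : ℕ)
    (P : MvPolynomial J' (MvPolynomial J' ℂ)) :
    homogeneousComponent m (relab f P) = relab f (homogeneousComponent m P) := by
  rw [relab, relab, rename_homogeneousComponent]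
  ext n
  rw [coeff_homogeneousComponent, coeff_map, coeff_map, coeff_homogeneousComponent]
  split_ifs <;> simp

theorem totalDegree_relab_le (f : J' ≃ J) (P : MvPolynomial J' (MvPolynomial J' ℂ)) :
    (relab f P).totalDegree ≤ P.totalDegree := by
  refine le_trans ?_ (totalDegree_rename_le f P)
  unfold relab totalDegree
  exact Finset.sup_mono (support_map_subset _ _)

theorem InChar.comap {W : WeylModule J L} {a b : J → ℂ} (h : W.InChar a b) (f : J' ≃ J) :
    (W.comap f).InChar (a ∘ f) (b ∘ f) := by
  obtain ⟨u, hu⟩ := h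
  refine ⟨u, fun m P hP h0 => ?_⟩
  have := hu m (relab f P) ((totalDegree_relab_le f P).trans hP) (by rw [← comap_op]; exact h0)
  rwa [homogeneousComponent_relab, eval_relab] at this

theorem IsSimple.comap {W : WeylModule J L} (h : W.IsSimple) (f : J' ≃ J) :
    (W.comap f).IsSimple := by
  refine ⟨h.1, fun U h1 h2 => h.2 U (fun j u hu => ?_) (fun j u hu => ?_)⟩
  · have := h1 (f.symm j) u hu
    simpa [WeylModule.comap] using this
  · have := h2 (f.symm j) u hu
    simpa [WeylModule.comap] using this

theorem mem_supp_comap {W : WeylModule J L} (f : J' ≃ J) (v : J' → ℂ) :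
    v ∈ (W.comap f).supp ↔ v ∘ f.symm ∈ W.supp := by
  constructor
  · intro h g hg
    have := h (rename f.symm g) (fun u => by
      obtain ⟨k, hk⟩ := hg u
      refine ⟨k, ?_⟩
      rw [comap_fn, rename_rename]
      simpa using hk)
    rw [eval_rename] at this
    exact this
  · intro h g hg
    have := h (rename f g) (fun u => by
      obtain ⟨k, hk⟩ := hg u
      refine ⟨k, ?_⟩
      rwa [comap_fn] at hk)
    rw [eval_rename] at this
    simpa [Function.comp_assoc] using this

end WeylModule

theorem mem_zclosure_comp {J J' : Type} (f : J' ≃ J) (A : Set (J → ℂ)) (A' : Set (J' → ℂ))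
    (h : ∀ v, v ∈ A' ↔ v ∘ f.symm ∈ A) (v : J' → ℂ) :
    v ∈ zclosure A' ↔ v ∘ f.symm ∈ zclosure A := by
  constructor
  · intro hv g hg
    have := hv (rename f.symm g) (fun s hs => by
      rw [eval_rename]; exact hg _ ((h s).1 hs))
    rwa [eval_rename] at this
  · intro hv g hg
    have := hv (rename f g) (fun s hs => by
      rw [eval_rename]
      refine hg _ ((h _).2 ?_)
      simpa [Function.comp_assoc] using hs)
    rw [eval_rename] at this
    simpa [Function.comp_assoc] using this

section

variable {ι ι' : Type} [Fintype ι] [DecidableEq ι] [Fintype ι'] [DecidableEq ι']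

theorem InABV.transport {e : ι → ℚ} {e' : ι' → ℚ} (f : Idx e' ≃ Idx e)
    {N M : Matrix ι ι ℂ} {N' M' : Matrix ι' ι' ℂ}
    (hvf : ∀ (L : Type) [AddCommGroup L] [Module ℂ L] (W : WeylModule (Idx e) L),
      IsEquivariant W → IsEquivariant (W.comap f))
    (hN : coord e' N' = coord e N ∘ f)
    (horb : ∀ v, v ∈ orbit e' M' ↔ v ∘ f.symm ∈ orbit e M)
    (hcon : ∀ ξ, IsConormal e' N' ξ → IsConormal e N (ξ ∘ f.symm))
    (h : InABV e N M) : InABV e' N' M' := by
  obtain ⟨L, i1, i2, W, ⟨hs, he, hsupp⟩, hc⟩ := h
  refine ⟨L, i1, i2, W.comap f, ⟨hs.comap f, hvf L W he, ?_⟩, fun ξ hξ => ?_⟩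
  · ext v
    rw [WeylModule.mem_supp_comap, hsupp, mem_zclosure_comp f _ _ horb]
  · have := (hc _ (hcon ξ hξ)).comap f
    rw [hN]
    simpa [Function.comp_assoc] using this

end

end Pool.Agent.H495
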