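import Pool.Agent.H495.Vanish
import Pool.Agent.H495.Transport

/-! The negative half, in adapted coordinates. -/

namespace Pool.Agent.H495

open MvPolynomial Ix WeylModule

section

variable {ι : Type} [Fintype ι] [DecidableEq ι]

theorem sum_idx (e : ι → ℚ) (F : ι → ι → ℂ) (hF : ∀ p q, e p ≠ e q + 1 → F p q = 0) :
    ∑ j : Idx e, F j.1.1 j.1.2 = ∑ p, ∑ q, F p q := by
  rw [← Finset.sum_product', Finset.univ_product_univ]
  have h1 : ∑ x ∈ Finset.univ.filter fun x : ι × ι => e x.1 = e x.2 + 1, F x.1 x.2 =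
      ∑ j : Idx e, F j.1.1 j.1.2 :=
    Finset.sum_subtype _ (fun x => by simp) (fun x : ι × ι => F x.1 x.2)
  refine Eq.trans h1.symm ?_
  refine Finset.sum_subset (Finset.subset_univ _) fun x _ hx => hF _ _ ?_
  simpa using hx

theorem conormal_of {e : ι → ℚ} {N Ξ : Matrix ι ι ℂ} (hΞ : Ξ ∈ Vogan e)
    (h : ∀ p r, e p = e r → ∑ q, Ξ p q * N r q = ∑ q, Ξ q r * N q p) :
    IsConormal e N (coord e Ξ) := by
  intro Y hY
  have h1 := sum_idx e (fun p q => Ξ p q * (Y * N - N * Y) p q) (fun p q hpq => by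
    show Ξ p q * _ = 0; rw [show Ξ p q = 0 from hΞ p q hpq, zero_mul])
  refine Eq.trans h1 ?_
  simp only [Matrix.sub_apply, Matrix.mul_apply, mul_sub, Finset.sum_sub_distrib, Finset.mul_sum]
  have h2 : ∑ p, ∑ q, ∑ r, Ξ p q * (Y p r * N r q) = ∑ p, ∑ r, Y p r * ∑ q, Ξ p q * N r q := by
    refine Finset.sum_congr rfl fun p _ => ?_
    rw [Finset.sum_comm]
    refine Finset.sum_congr rfl fun r _ => ?_
    rw [Finset.mul_sum]
    exact Finset.sum_congr rfl fun q _ => by ring
  have h3 : ∑ p, ∑ q, ∑ r, Ξ p q * (N p r * Y r q) = ∑ r, ∑ q, Y r q * ∑ p, Ξ p q * N p r := by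
    calc ∑ p, ∑ q, ∑ r, Ξ p q * (N p r * Y r q) = ∑ p, ∑ r, ∑ q, Ξ p q * (N p r * Y r q) :=
          Finset.sum_congr rfl fun p _ => Finset.sum_comm
      _ = ∑ r, ∑ p, ∑ q, Ξ p q * (N p r * Y r q) := Finset.sum_comm
      _ = ∑ r, ∑ q, ∑ p, Ξ p q * (N p r * Y r q) :=
          Finset.sum_congr rfl fun p _ => Finset.sum_comm
      _ = _ := by
          refine Finset.sum_congr rfl fun r _ => Finset.sum_congr rfl fun q _ => ?_
          rw [Finset.mul_sum]
          exact Finset.sum_congr rfl fun p _ => by ring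
  rw [h2, h3, sub_eq_zero]
  refine Finset.sum_congr rfl fun p _ => Finset.sum_congr rfl fun r _ => ?_
  by_cases hpr : e p = e r
  · rw [h p r hpr]
  · rw [show Y p r = 0 from hY p r hpr, zero_mul, zero_mul]

theorem coord_mem_orbit (e : ι → ℚ) (M : Matrix ι ι ℂ) : coord e M ∈ orbit e M := by
  refine ⟨1, ⟨isUnit_one, fun p q h => Matrix.one_apply_ne (by rintro rfl; exact h rfl)⟩, ?_⟩
  simp

end

/-- The base point. -/
def NN : Matrix (Ix 3) (Ix 3) ℂ := fun p q => if wt p = wt q + 1 then 0 else val p q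
/-- The conormal vector. -/
def ΞΞ : Matrix (Ix 3) (Ix 3) ℂ := fun p q => if wt p = wt q + 1 then val p q else 0

theorem val_vogan {p q : Ix 3} (h : lev p ≠ lev q + 1) : val p q = 0 := by
  cases p <;> cases q <;> first | rfl | (exfalso; revert h; norm_num [lev])

theorem NN_conormal : IsConormal lev NN (coord lev ΞΞ) := by
  apply conormal_of
  · intro p q h
    simp only [ΞΞ, val_vogan h, ite_self]
  · intro p r hpr
    rw [sum_ix, sum_ix]
    cases p <;> cases r <;> first
      | (exfalso; revert hpr; norm_num [lev]; done)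
      | skip
    all_goals (simp only [NN, ΞΞ, wt, val]; norm_num [-Fin.sum_univ_two])
    · rename_i i j
      fin_cases i <;> fin_cases j <;> simp [Fin.sum_univ_four]
    · rename_i i j
      fin_cases i <;> fin_cases j <;> simp [Fin.sum_univ_four]

theorem xi_eq : (fun j => if SS j then coord lev ΞΞ j else coord lev NN j) = eta := by
  funext j
  show (if SS j then ΞΞ j.1.1 j.1.2 else NN j.1.1 j.1.2) = val j.1.1 j.1.2
  by_cases h : wt j.1.1 = wt j.1.2 + 1
  · rw [if_pos (show SS j from h), ΞΞ, if_pos h]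
  · rw [if_neg (show ¬ SS j from h), NN, if_neg h]

/-- If the base point is in the wave-front of `M` then `f₂ f₁` vanishes at `M`. -/
theorem inABV_vanish {M : Matrix (Ix 3) (Ix 3) ℂ} (hM : M ∈ Vogan lev) (h : InABV lev NN M)
    (i : Fin 4) (j : Fin 2) : (M * M) (e3 i) (e1 j) = 0 := by
  obtain ⟨L, i1, i2, W, ⟨hs, he, hsupp⟩, hc⟩ := h
  have hinj : ∀ (f : RR 3) (n : ℕ), FTHom SS n f → ev f ≠ 0 → ∀ u : L,
      FF wt W f u = 0 → u = 0 := by
    intro f n hf h0 u hu
    refine hs.inj_of_inChar SS (hc _ NN_conormal) hf ?_ u hu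
    rw [xi_eq]; exact h0
  have h1 := TT_vanish hs he hinj i j
  have h2 : coord lev M ∈ W.supp := by
    rw [hsupp]; intro f hf; exact hf _ (coord_mem_orbit lev M)
  have h3 := h2 (TT i j) h1
  have h4 : ∀ p q, eval (coord lev M) (yv lev p q) = M p q := by
    intro p q
    unfold yv
    split_ifs with h
    · rw [eval_X]; rfl
    · rw [map_zero, hM p q h]
  rw [TT, map_add, map_sum, map_sum] at h3
  simp only [map_mul, h4] at h3
  rw [Matrix.mul_apply, sum_ix]
  have hz : ∀ p q : Ix 3, lev p ≠ lev q + 1 → M p q = 0 := hM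
  simp only [hz (e3 i) (e1 _) (by norm_num [lev]), hz (e3 i) (e3 _) (by norm_num [lev]),
    hz (e3 i) (p4 _) (by norm_num [lev]), hz (e3 i) (b4 _) (by norm_num [lev]),
    hz (e3 i) (e5 _) (by norm_num [lev]), zero_mul, Finset.sum_const_zero, zero_add, add_zero]
  exact h3

end Pool.Agent.H495
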