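import Pool.Agent.H495.ZZgrp

/-! The main vanishing. -/

namespace Pool.Agent.H495

open MvPolynomial Ix WeylModule

/-- The row of `2 × 2` minors of `α`. -/
noncomputable def erow : Matrix (Fin 1) (Fin 3) (RR 3) := fun _ =>
  ![mα 3 1 0 * mα 3 2 1 - mα 3 2 0 * mα 3 1 1, -(mα 3 0 0 * mα 3 2 1 - mα 3 2 0 * mα 3 0 1),
    mα 3 0 0 * mα 3 1 1 - mα 3 1 0 * mα 3 0 1]

theorem erow_mul : erow * mα 3 = 0 := by
  refine Matrix.ext fun i j => ?_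
  rw [Matrix.mul_apply, Fin.sum_univ_three]
  fin_cases j <;> simp [erow] <;> ring

section

variable {L : Type} [AddCommGroup L] [Module ℂ L] (W : WeylModule (Idx (lev (m := 3))) L)
  {w : L} {g : RR 3}

/-- `G i j` -/
noncomputable def GG (g : RR 3) (w : L) (i : Fin 4) (j : Fin 2) : L :=
  ∑ k, FF wt W (mα 3 k j) (-zz W g w (e3 i) (b k)) +
    ∑ l, FF wt W (mβ 3 i l) (-zz W g w (p2 l) (e1 j))

theorem core {mE3 mB mE1 mE5 mP2 mB4 mP4 : ℤ} {nE3 nB nE1 nE5 nP2 nB4 nP4 : ℤ}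
    (hw : w ∈ UU W)
    (hE3 : ∀ i, vf W (e3 i) (e3 i) w = (mE3 : ℂ) • w)
    (hB : ∀ i, vf W (b i) (b i) w = (mB : ℂ) • w)
    (hE1 : ∀ i, vf W (e1 i) (e1 i) w = (mE1 : ℂ) • w)
    (hE5 : ∀ i, vf W (e5 i) (e5 i) w = (mE5 : ℂ) • w)
    (hP2 : ∀ i, vf W (p2 i) (p2 i) w = (mP2 : ℂ) • w)
    (hB4 : ∀ i, vf W (b4 i) (b4 i) w = (mB4 : ℂ) • w)
    (hP4 : ∀ i, vf W (p4 i) (p4 i) w = (mP4 : ℂ) • w)
    (gE3 : Sc (DD (m := 3) e3) nE3 g) (gB : Sc (DD (m := 3) b) nB g)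
    (gE1 : Sc (DD (m := 3) e1) nE1 g) (gE5 : Sc (DD (m := 3) e5) nE5 g)
    (gP2 : Sc (DD (m := 3) p2) nP2 g) (gB4 : Sc (DD (m := 3) b4) nB4 g)
    (gP4 : Sc (DD (m := 3) p4) nP4 g)
    (h1 : mE1 - nE1 = 2) (h2 : mB - nB = 2) (h3 : mP2 - nP2 = 1) (h4 : mE3 - nE3 = -1)
    (h5 : mP4 - nP4 = 0) (h6 : mB4 - nB4 = -2) (h7 : mE5 - nE5 = -2) :
    (∀ k l, ∑ i, FF wt W (mc 3 k i) (∑ j, FF wt W (mas 3 j l) (GG W g w i j)) = 0) ∧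
    (∀ l, FF wt W mg.det (∑ i, FF wt W ((erow * mc 3 * (md 3 * mg.adjugate * mγ 3)) 0 i)
      (∑ j, FF wt W (mas 3 j l) (GG W g w i j))) = 0) := by
  letI : Module (RR 3) L := Module.compHom L (FF wt W).toRingHom
  have hsm : ∀ (f : RR 3) (u : L), f • u = FF wt W f u := fun _ _ => rfl
  have key := linAlgMod (mα 3) (mas 3) (mc 3) (mβ 3) (mγ 3) (md 3) (mδ 3) (mbs 3)
    (fun j k => zz W g w (b k) (e1 j)) (fun l j => -zz W g w (p2 l) (e1 j))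
    (fun i k => -zz W g w (e3 i) (b k)) (fun l i => zz W g w (e3 i) (p2 l))
    (fun i k => zz W g w (p4 k) (e3 i)) (fun k i => -zz W g w (b4 k) (e3 i))
    (fun m k => -zz W g w (e5 m) (p4 k)) (fun k m => zz W g w (e5 m) (b4 k))
    (FF wt W g w) erow erow_mul
    (qE1 W hw.1.1.1.1.2 hE1 gE1 h1) (qB W hw.1.1.1.1.1.2 hB gB h2)
    (qP2 W hw.1.1.2 hP2 gP2 h3) (qE3 W hw.1.1.1.1.1.1.2 hE3 gE3 h4)
    (qP4 W hw.2 hP4 gP4 h5) (qB4 W hw.1.2 hB4 gB4 h6) (qE5 W hw.1.1.1.2 hE5 gE5 h7)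
    (w1 W hw.1.1.1.1.1.1.1) (wz2 W hw.1.1.1.1.1.1.1) (w3 W hw.1.1.1.1.1.1.1)
    (w4 W hw.1.1.1.1.1.1.1) (w5 W hw.1.1.1.1.1.1.1) (w6 W hw.1.1.1.1.1.1.1)
    (w7 W hw.1.1.1.1.1.1.1)
  exact key

end

end Pool.Agent.H495
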