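import Pool.Agent.H495.Core

/-! The main vanishing. -/

namespace Pool.Agent.H495

open MvPolynomial Ix WeylModule

/-- The row `q = e c d adj(γ d) γ`. -/
noncomputable def qrow : Matrix (Fin 1) (Fin 4) (RR 3) :=
  erow * mc 3 * (md 3 * mg.adjugate * mγ 3)

noncomputable def Mt : Matrix (Fin 4) (Fin 4) (RR 3) := ![mc 3 0, mc 3 1, mc 3 2, qrow 0]

theorem FTHom.neg {J : Type} {S : J → Prop} [DecidablePred S] {a : ℕ} {f : MvPolynomial J ℂ}
    (hf : FTHom S a f) : FTHom S a (-f) := by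
  unfold FTHom at *; rw [map_neg]; exact IsHomogeneous.neg hf

theorem FTHom.mulM {A B C : Type} [Fintype B] {J : Type} {S : J → Prop} [DecidablePred S]
    {a b : ℕ} {M : Matrix A B (MvPolynomial J ℂ)} {N : Matrix B C (MvPolynomial J ℂ)}
    (hM : ∀ i j, FTHom S a (M i j)) (hN : ∀ i j, FTHom S b (N i j)) (i j) :
    FTHom S (a + b) ((M * N) i j) := by
  rw [Matrix.mul_apply]; exact FTHom.sum _ fun k _ => (hM _ _).mul (hN _ _)

theorem herow (i k) : FTHom SS 0 (erow i k) := by
  unfold erow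
  fin_cases k
  · exact (((hα _ _).mul (hα _ _)).sub ((hα _ _).mul (hα _ _)))
  · exact FTHom.neg (((hα _ _).mul (hα _ _)).sub ((hα _ _).mul (hα _ _)))
  · exact (((hα _ _).mul (hα _ _)).sub ((hα _ _).mul (hα _ _)))

theorem hadj (i k) : FTHom SS 1 (mg.adjugate i k) := by
  rw [Matrix.adjugate_fin_two]
  fin_cases i <;> fin_cases k
  · exact hg 1 1
  · exact FTHom.neg (hg 0 1)
  · exact FTHom.neg (hg 1 0)
  · exact hg 0 0

theorem hqrow (i k) : FTHom SS 3 (qrow i k) := by
  unfold qrow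
  exact (FTHom.mulM (FTHom.mulM herow hc) (FTHom.mulM (FTHom.mulM hd hadj) hγ) i k).congr
    (by norm_num)

theorem hMt (i k) : FTHom SS (![1, 1, 1, 3] k) (Mt.transpose i k) := by
  fin_cases k
  · exact hc 0 i
  · exact hc 1 i
  · exact hc 2 i
  · exact hqrow 0 i

theorem hMtdet : FTHom SS 6 Mt.det := by
  rw [← Matrix.det_transpose]
  exact (FTHom.det _ hMt).congr (by simp [Fin.sum_univ_succ])

theorem eerow (k) : ev (erow 0 k) = ![0, 0, 1] k := by
  unfold erow
  fin_cases k <;> simp [eα]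

theorem eadj (i k) : ev (mg.adjugate i k) = if i = k then 1 else 0 := by
  rw [Matrix.adjugate_fin_two]
  fin_cases i <;> fin_cases k
  · refine (eg 1 1).trans ?_; simp
  · refine (map_neg ev _).trans ?_; rw [eg 0 1]; simp
  · refine (map_neg ev _).trans ?_; rw [eg 1 0]; simp
  · refine (eg 0 0).trans ?_; simp

theorem eqrow (k) : ev (qrow 0 k) = ![1, 0, 0, 0] k := by
  unfold qrow
  have h1 : ∀ k, ev ((erow * mc 3) 0 k) = ![0, 0, 1, 0] k := by
    intro k
    rw [Matrix.mul_apply, map_sum, Fin.sum_univ_three]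
    simp only [map_mul, eerow, ec]
    fin_cases k <;> simp
  have h2 : ∀ i k, ev ((md 3 * mg.adjugate) i k) = if (i : ℕ) = k ∨ (i : ℕ) = k + 2 then 1 else 0 := by
    intro i k
    rw [Matrix.mul_apply, map_sum, Fin.sum_univ_two]
    simp only [map_mul, eadj, ed]
    fin_cases i <;> fin_cases k <;> simp
  have h3 : ∀ i k, ev ((md 3 * mg.adjugate * mγ 3) i k) =
      (!![1, 0, 0, 0; 0, 1, 0, 0; 1, 0, 0, 0; 0, 1, 0, 0] : Matrix (Fin 4) (Fin 4) ℂ) i k := by
    intro i k
    rw [Matrix.mul_apply, map_sum, Fin.sum_univ_two]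
    simp only [map_mul, h2, eγ]
    fin_cases i <;> fin_cases k <;> simp
  rw [Matrix.mul_apply, map_sum, Fin.sum_univ_four]
  simp only [map_mul, h1, h3]
  fin_cases k <;> simp

theorem eMt (i k) : ev (Mt i k) =
    (!![1, 0, 0, 1; 0, 1, 0, 0; 0, 0, 1, 0; 1, 0, 0, 0] : Matrix (Fin 4) (Fin 4) ℂ) i k := by
  fin_cases i
  · refine (ec 0 k).trans ?_; fin_cases k <;> simp
  · refine (ec 1 k).trans ?_; fin_cases k <;> simp
  · refine (ec 2 k).trans ?_; fin_cases k <;> simp
  · refine (eqrow k).trans ?_; fin_cases k <;> simp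

theorem eMtdet : ev Mt.det = -1 := by
  rw [RingHom.map_det]
  have : ev.mapMatrix Mt =
      (!![1, 0, 0, 1; 0, 1, 0, 0; 0, 0, 1, 0; 1, 0, 0, 0] : Matrix (Fin 4) (Fin 4) ℂ) := by
    ext i j; simp only [RingHom.mapMatrix_apply, Matrix.map_apply, eMt]
  rw [this, det_eq_det4]; simp [det4, mn]

theorem hmgdet : FTHom SS 2 mg.det :=
  (FTHom.det (fun _ => 1) hg).congr (by simp)

theorem emgdet : ev mg.det = 1 := by
  rw [Matrix.det_fin_two]; simp only [map_sub, map_mul, eg]; simp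

theorem hasdet : FTHom SS 2 (mas 3).det :=
  (FTHom.det (fun _ => 1) has).congr (by simp)

theorem easdet : ev (mas 3).det = 1 := by
  rw [Matrix.det_fin_two]; simp only [map_sub, map_mul, eas]; simp

section

variable {L : Type} [AddCommGroup L] [Module ℂ L] {W : WeylModule (Idx (lev (m := 3))) L}

/-- Cramer. -/
theorem cramer {n : ℕ} (M : Matrix (Fin n) (Fin n) (RR 3)) (X : Fin n → L) (i : Fin n) :
    FF wt W M.det (X i) = ∑ r, FF wt W (M.adjugate i r) (∑ i', FF wt W (M r i') (X i')) := by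
  have h := congrFun (Matrix.adjugate_mul M) i
  have h1 : ∀ i', ∑ r, M.adjugate i r * M r i' = if i = i' then M.det else 0 := by
    intro i'
    have := congrFun h i'
    rw [Matrix.mul_apply, Matrix.smul_apply, Matrix.one_apply] at this
    rw [this]; simp
  calc FF wt W M.det (X i) = ∑ i', FF wt W (if i = i' then M.det else 0) (X i') := by
        rw [Finset.sum_eq_single i]
        · rw [if_pos rfl]
        · intro j _ hj; rw [if_neg (Ne.symm hj)]; simp
        · intro hh; exact absurd (Finset.mem_univ _) hh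
    _ = ∑ i', ∑ r, FF wt W (M.adjugate i r) (FF wt W (M r i') (X i')) := by
        refine Finset.sum_congr rfl fun i' _ => ?_
        rw [← h1 i', map_sum, LinearMap.sum_apply]
        refine Finset.sum_congr rfl fun r _ => ?_
        rw [map_mul, Module.End.mul_apply]
    _ = _ := by
        rw [Finset.sum_comm]
        refine Finset.sum_congr rfl fun r _ => ?_
        rw [map_sum]

theorem GG_zero (hinj : ∀ (f : RR 3) (n : ℕ), FTHom SS n f → ev f ≠ 0 → ∀ u : L,
      FF wt W f u = 0 → u = 0) {w : L} {g : RR 3}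
    (hA : ∀ k l, ∑ i, FF wt W (mc 3 k i) (∑ j, FF wt W (mas 3 j l) (GG W g w i j)) = 0)
    (hB : ∀ l, FF wt W mg.det (∑ i, FF wt W ((erow * mc 3 * (md 3 * mg.adjugate * mγ 3)) 0 i)
      (∑ j, FF wt W (mas 3 j l) (GG W g w i j))) = 0) (i : Fin 4) (j : Fin 2) :
    GG W g w i j = 0 := by
  have h1 : ∀ l i, ∑ j, FF wt W (mas 3 j l) (GG W g w i j) = 0 := by
    intro l i
    refine hinj Mt.det _ hMtdet (by rw [eMtdet]; norm_num) _ ?_
    rw [cramer Mt (fun i => ∑ j, FF wt W (mas 3 j l) (GG W g w i j)) i, Fin.sum_univ_four]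
    have e0 : ∑ i', FF wt W (Mt 0 i') (∑ j, FF wt W (mas 3 j l) (GG W g w i' j)) = 0 := hA 0 l
    have e1 : ∑ i', FF wt W (Mt 1 i') (∑ j, FF wt W (mas 3 j l) (GG W g w i' j)) = 0 := hA 1 l
    have e2 : ∑ i', FF wt W (Mt 2 i') (∑ j, FF wt W (mas 3 j l) (GG W g w i' j)) = 0 := hA 2 l
    have e3 : ∑ i', FF wt W (Mt 3 i') (∑ j, FF wt W (mas 3 j l) (GG W g w i' j)) = 0 :=
      hinj mg.det _ hmgdet (by rw [emgdet]; norm_num) _ (hB l)
    rw [e0, e1, e2, e3]; simp
  refine hinj (mas 3).det _ hasdet (by rw [easdet]; norm_num) _ ?_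
  have := cramer (W := W) (mas 3).transpose (fun j => GG W g w i j) j
  rw [Matrix.det_transpose] at this
  rw [this]
  refine Finset.sum_eq_zero fun r _ => ?_
  have := h1 r i
  simp only [Matrix.transpose_apply]
  rw [this, map_zero]

end

end Pool.Agent.H495
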