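import Pool.Agent.H495.Core2

/-! Nilpotency of `f₂ f₁`. -/

namespace Pool.Agent.H495

open MvPolynomial Ix WeylModule

theorem iter_mul {R : Type} [CommRing R] [Algebra ℂ R] (D : Derivation ℂ R R) (N : ℕ) :
    ∀ m n : ℕ, m + n = N → ∀ f g : R, D^[m] f = 0 → D^[n] g = 0 → D^[m + n] (f * g) = 0 := by
  have hz : ∀ k : ℕ, D^[k] (0 : R) = 0 := by
    intro k; induction k with
    | zero => rfl
    | succ k ih => rw [Function.iterate_succ_apply, map_zero, ih]
  have hadd : ∀ k : ℕ, ∀ a b : R, D^[k] (a + b) = D^[k] a + D^[k] b := by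
    intro k; induction k with
    | zero => intro a b; rfl
    | succ k ih => intro a b; simp only [Function.iterate_succ_apply, map_add, ih]
  induction N with
  | zero =>
    intro m n hmn f g hf hg
    obtain ⟨rfl, rfl⟩ : m = 0 ∧ n = 0 := by omega
    simp only [Function.iterate_zero, id_eq, add_zero] at hf ⊢
    rw [hf, zero_mul]
  | succ N ih =>
    intro m n hmn f g hf hg
    rcases m with _ | m
    · simp only [Function.iterate_zero, id_eq] at hf
      rw [hf, zero_mul, hz]
    rcases n with _ | n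
    · simp only [Function.iterate_zero, id_eq] at hg
      rw [hg, mul_zero, hz]
    rw [show m + 1 + (n + 1) = (m + n + 1) + 1 by ring, Function.iterate_succ_apply,
      Derivation.leibniz, hadd, smul_eq_mul, smul_eq_mul]
    rw [show m + n + 1 = (m + 1) + n by ring, ih (m + 1) n (by omega) f (D g) hf
      (by rwa [← Function.iterate_succ_apply]), show (m + 1) + n = (n + 1) + m by ring,
      ih (n + 1) m (by omega) g (D f) hg (by rwa [← Function.iterate_succ_apply]), add_zero]

theorem loc_nilp {σ : Type} (D : Derivation ℂ (MvPolynomial σ ℂ) (MvPolynomial σ ℂ))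
    (h : ∀ j, D (D (X j)) = 0) (f : MvPolynomial σ ℂ) : ∃ n, D^[n] f = 0 := by
  have hz : ∀ k : ℕ, D^[k] (0 : MvPolynomial σ ℂ) = 0 := by
    intro k; induction k with
    | zero => rfl
    | succ k ih => rw [Function.iterate_succ_apply, map_zero, ih]
  have hadd : ∀ k : ℕ, ∀ a b : MvPolynomial σ ℂ, D^[k] (a + b) = D^[k] a + D^[k] b := by
    intro k; induction k with
    | zero => intro a b; rfl
    | succ k ih => intro a b; simp only [Function.iterate_succ_apply, map_add, ih]
  induction f using MvPolynomial.induction_on with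
  | C a => exact ⟨1, by simp⟩
  | add p q hp hq =>
    obtain ⟨a, ha⟩ := hp
    obtain ⟨b, hb⟩ := hq
    refine ⟨a + b, ?_⟩
    have h1 : D^[a + b] p = 0 := by rw [add_comm, Function.iterate_add_apply, ha, hz]
    have h2 : D^[a + b] q = 0 := by rw [Function.iterate_add_apply, hb, hz]
    rw [hadd, h1, h2, add_zero]
  | mul_X p j hp =>
    obtain ⟨a, ha⟩ := hp
    exact ⟨a + 2, iter_mul D _ a 2 rfl p (X j) ha (by simpa using h j)⟩

section

variable (i : Fin 4) (j : Fin 2)

/-- The entry of `f₂ f₁`. -/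
noncomputable def TT : RR 3 :=
  ∑ k : Fin 3, yv lev (e3 i) (b k) * yv lev (b k) (e1 j) +
    ∑ l : Fin 2, yv lev (e3 i) (p2 l) * yv lev (p2 l) (e1 j)

/-- Its commutator derivation. -/
noncomputable def δδ : Derivation ℂ (RR 3) (RR 3) :=
  -(∑ k, mα 3 k j • pd lev (e3 i) (b k) + ∑ l, mβ 3 i l • pd lev (p2 l) (e1 j))

theorem δδ_apply (f : RR 3) : δδ i j f =
    -(∑ k, mα 3 k j * pd lev (e3 i) (b k) f + ∑ l, mβ 3 i l * pd lev (p2 l) (e1 j) f) := by
  rw [δδ, Derivation.neg_apply, Derivation.add_apply, derivation_sum_apply, derivation_sum_apply]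
  simp only [Derivation.smul_apply, smul_eq_mul]

theorem δδ_α (k : Fin 3) (j' : Fin 2) : δδ i j (mα 3 k j') = 0 := by
  rw [δδ_apply]; simp [mα, pd_yv]

theorem δδ_β (i' : Fin 4) (l : Fin 2) : δδ i j (mβ 3 i' l) = 0 := by
  rw [δδ_apply]; simp [mβ, pd_yv]

theorem δδ_nilp (f : RR 3) : ∃ n, (δδ i j)^[n] f = 0 := by
  refine loc_nilp _ ?_ f
  rintro ⟨⟨p, q⟩, h⟩
  have hX : (X ⟨(p, q), h⟩ : RR 3) = yv lev p q := by rw [yv, dif_pos h]
  rw [hX, δδ_apply i j (yv lev p q)]
  simp only [pd_yv, map_neg, map_add, map_sum]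
  rw [Finset.sum_eq_zero, Finset.sum_eq_zero]
  · simp
  · intro l _; split_ifs <;> simp [δδ_β]
  · intro k _; split_ifs <;> simp [δδ_α]

variable {L : Type} [AddCommGroup L] [Module ℂ L] {W : WeylModule (Idx (lev (m := 3))) L}

theorem fn_yv (p q : Ix 3) : W.fn (yv lev p q) = xop W p q := by
  unfold yv xop
  split_ifs
  · exact W.fn_X _
  · exact map_zero _

theorem fn_TT : W.fn (TT i j) = -(∑ k, FF wt W (mα 3 k j) * ZZ wt W (e3 i) (b k) +
    ∑ l, FF wt W (mβ 3 i l) * ZZ wt W (p2 l) (e1 j)) := by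
  rw [TT, map_add, map_sum, map_sum, neg_add, ← Finset.sum_neg_distrib, ← Finset.sum_neg_distrib]
  congr 1
  · refine Finset.sum_congr rfl fun k _ => ?_
    rw [map_mul, fn_yv, fn_yv, Fα, ZZ_eq, if_pos (by simp [wt]), mul_neg, neg_neg, xop_comm]
  · refine Finset.sum_congr rfl fun k _ => ?_
    rw [map_mul, fn_yv, fn_yv, Fβ, ZZ_eq, if_pos (by simp [wt]), mul_neg, neg_neg]

theorem TT_FF (f : RR 3) : W.fn (TT i j) * FF wt W f =
    FF wt W f * W.fn (TT i j) + FF wt W (δδ i j f) := by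
  have key : ∀ (a : RR 3) (r s : Ix 3), (FF wt W a * ZZ wt W r s) * FF wt W f =
      FF wt W f * (FF wt W a * ZZ wt W r s) + FF wt W (a * pd lev r s f) := by
    intro a r s
    rw [mul_assoc, ZZ_FF, mul_add, ← mul_assoc, ← map_mul, mul_comm a f, map_mul, mul_assoc,
      ← map_mul]
  rw [fn_TT, neg_mul, add_mul, Finset.sum_mul, Finset.sum_mul, δδ_apply]
  simp only [key, Finset.sum_add_distrib, map_neg, map_add, map_sum, mul_neg, mul_add,
    Finset.mul_sum]
  abel

theorem GG_eq (g : RR 3) (w : L) : GG W g w i j =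
    FF wt W g (W.fn (TT i j) w) - FF wt W (δδ i j g) w := by
  have key : ∀ (a : RR 3) (r s : Ix 3), FF wt W a (-zz W g w r s) =
      -FF wt W g ((FF wt W a * ZZ wt W r s) w) + FF wt W (a * pd lev r s g) w := by
    intro a r s
    rw [map_neg, zz, map_sub, FF_comm, map_mul, Module.End.mul_apply, Module.End.mul_apply]
    abel
  rw [GG, fn_TT, δδ_apply]
  simp only [key, Finset.sum_add_distrib, map_neg, map_add, map_sum, LinearMap.neg_apply,
    LinearMap.add_apply, LinearMap.sum_apply, Finset.sum_neg_distrib]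
  abel

theorem TT_iter {g : RR 3} {w : L} (hg : ∀ u : L, FF wt W g u = 0 → u = 0)
    (hG : GG W g w i j = 0) (n : ℕ) :
    FF wt W g (((W.fn (TT i j)) ^ n) w) = FF wt W ((δδ i j)^[n] g) w := by
  have h1 : FF wt W g (W.fn (TT i j) w) = FF wt W (δδ i j g) w := by
    rw [← sub_eq_zero, ← GG_eq, hG]
  have hc : ∀ (f : RR 3) (u : L), W.fn (TT i j) (FF wt W f u) =
      FF wt W f (W.fn (TT i j) u) + FF wt W (δδ i j f) u := by
    intro f u
    have := congrArg (fun T => T u) (TT_FF (W := W) i j f)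
    simpa using this
  induction n with
  | zero => simp
  | succ n ih =>
    apply sub_eq_zero.1
    apply hg
    have h2 := hc g (((W.fn (TT i j)) ^ n) w)
    rw [ih, hc] at h2
    have h3 := congrArg (FF wt W g) h2
    rw [map_add, map_add, FF_comm W g ((δδ i j)^[n] g), h1, FF_comm W g (δδ i j g), ih,
      FF_comm W (δδ i j g) ((δδ i j)^[n] g), add_comm, add_left_inj] at h3
    rw [map_sub, sub_eq_zero, pow_succ', Module.End.mul_apply, Function.iterate_succ_apply', ← h3]

theorem TT_nilp (hs : W.IsSimple) {g : RR 3} {w : L} (hw : w ≠ 0)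
    (hg : ∀ u : L, FF wt W g u = 0 → u = 0) (hG : GG W g w i j = 0) (v : L) :
    ∃ l, ((W.fn (TT i j)) ^ l) v = 0 := by
  obtain ⟨n, hn⟩ := δδ_nilp i j g
  have h1 := TT_iter i j hg hG n
  rw [hn, map_zero, LinearMap.zero_apply] at h1
  have h2 := hg _ h1
  obtain ⟨l, hl⟩ := hs.nilp_of_ker (TT i j) hw (k := n) (by rw [map_pow]; exact h2) v
  exact ⟨l, by rw [← map_pow]; exact hl⟩

end

end Pool.Agent.H495
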