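import Mathlib

/-!
# `D`-modules on Vogan varieties and ABV-packets for `GL_n`

Definitions used for the problem `MP_fe6ac3_nt`.
-/

namespace Pool.Agent.H495

open MvPolynomial

/-! ### Modules over the Weyl algebra of an affine space -/

/-- Evaluation of a polynomial at a family of pairwise commuting operators. -/
noncomputable def commAeval {K : Type} {L : Type} [AddCommGroup L] [Module ℂ L]
    (T : K → Module.End ℂ L) (hT : ∀ i j, T i * T j = T j * T i) :
    MvPolynomial K ℂ →ₐ[ℂ] Module.End ℂ L :=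
  letI : CommRing (Algebra.adjoin ℂ (Set.range T)) := Algebra.adjoinCommRingOfComm ℂ (by
    rintro _ ⟨i, rfl⟩ _ ⟨j, rfl⟩
    exact hT i j)
  (Algebra.adjoin ℂ (Set.range T)).val.comp
    (MvPolynomial.aeval fun i => (⟨T i, Algebra.subset_adjoin ⟨i, rfl⟩⟩ :
      Algebra.adjoin ℂ (Set.range T)))

theorem commAeval_X {K : Type} {L : Type} [AddCommGroup L] [Module ℂ L]
    (T : K → Module.End ℂ L) (hT : ∀ i j, T i * T j = T j * T i) (i : K) :
    commAeval T hT (X i) = T i := by
  simp [commAeval]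

/-- A left module `L` over the Weyl algebra (the ring of algebraic differential operators) of the
affine space `ℂ^J`: `x j` is the action of the `j`-th coordinate function, `d j` the action of
`∂/∂x_j`. -/
structure WeylModule (J : Type) [DecidableEq J] (L : Type) [AddCommGroup L] [Module ℂ L] where
  x : J → Module.End ℂ L
  d : J → Module.End ℂ L
  x_comm : ∀ i j, x i * x j = x j * x i
  d_comm : ∀ i j, d i * d j = d j * d i
  comm : ∀ i j, d i * x j = x j * d i + (if i = j then 1 else 0)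

namespace WeylModule

variable {J : Type} [DecidableEq J] {L : Type} [AddCommGroup L] [Module ℂ L]

/-- Action of a polynomial function `f(x)`. -/
noncomputable def fn (W : WeylModule J L) : MvPolynomial J ℂ →ₐ[ℂ] Module.End ℂ L :=
  commAeval W.x W.x_comm

/-- Action of a constant coefficient operator `f(∂)`. -/
noncomputable def dop (W : WeylModule J L) : MvPolynomial J ℂ →ₐ[ℂ] Module.End ℂ L :=
  commAeval W.d W.d_comm

/-- A polynomial `P = ∑_β p_β(x) ξ^β` in variables `ξ` with coefficients in `ℂ[x]` gives the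
differential operator `∑_β p_β(x) ∂^β`; every differential operator arises exactly once. -/
noncomputable def op (W : WeylModule J L) (P : MvPolynomial J (MvPolynomial J ℂ)) :
    Module.End ℂ L :=
  ∑ m ∈ P.support, W.fn (P.coeff m) * W.dop (monomial m 1)

/-- The point `(x₀, ξ₀)` of the cotangent bundle lies in the characteristic variety
`Char L = ⋃_u V(σ(Ann u))`: for some `u`, the `m`-symbol of every operator of order `≤ m` killing
`u` vanishes at `(x₀, ξ₀)`. -/
def InChar (W : WeylModule J L) (x₀ ξ₀ : J → ℂ) : Prop :=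
  ∃ u : L, ∀ (m : ℕ) (P : MvPolynomial J (MvPolynomial J ℂ)), P.totalDegree ≤ m → W.op P u = 0 →
    eval ξ₀ (map (eval x₀) (homogeneousComponent m P)) = 0

/-- The support of `L`: the common zeros of the functions acting locally nilpotently on `L`. -/
def supp (W : WeylModule J L) : Set (J → ℂ) :=
  {x₀ | ∀ f : MvPolynomial J ℂ, (∀ u : L, ∃ k : ℕ, ((W.fn f) ^ k) u = 0) → eval x₀ f = 0}

/-- `L` is a simple module over the Weyl algebra. -/
def IsSimple (W : WeylModule J L) : Prop :=
  Nontrivial L ∧ ∀ U : Submodule ℂ L, (∀ j, ∀ u ∈ U, W.x j u ∈ U) → (∀ j, ∀ u ∈ U, W.d j u ∈ U) →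
    U = ⊥ ∨ U = ⊤

end WeylModule

/-- Zariski closure of a subset of `ℂ^J`. -/
def zclosure {J : Type} (S : Set (J → ℂ)) : Set (J → ℂ) :=
  {v | ∀ f : MvPolynomial J ℂ, (∀ s ∈ S, eval s f = 0) → eval v f = 0}

/-! ### Vogan varieties

An (unramified) infinitesimal parameter of `GL_n` is given by the exponents `e : ι → ℚ`,
`n = |ι|`: it is `⊕_p |·|^{e p}`.  The Vogan variety is
`V_e = {x ∈ gl_n : x_{pq} = 0 unless e_p = e_q + 1}`, acted on by
`H_e = {h ∈ GL_n : h_{pq} = 0 unless e_p = e_q}` by conjugation.  -/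

section Vogan

variable {ι : Type} [Fintype ι] [DecidableEq ι]

/-- The index set of the coordinates of the Vogan variety `V_e`. -/
abbrev Idx (e : ι → ℚ) : Type := {pq : ι × ι // e pq.1 = e pq.2 + 1}

/-- The Vogan variety `V_e` inside `gl_n`. -/
def Vogan (e : ι → ℚ) : Set (Matrix ι ι ℂ) := {x | ∀ p q, e p ≠ e q + 1 → x p q = 0}

/-- The group `H_e`. -/
def HGroup (e : ι → ℚ) : Set (Matrix ι ι ℂ) := {h | IsUnit h ∧ ∀ p q, e p ≠ e q → h p q = 0}

/-- The Lie algebra of `H_e`. -/
def hLie (e : ι → ℚ) : Set (Matrix ι ι ℂ) := {Y | ∀ p q, e p ≠ e q → Y p q = 0}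

/-- The coordinates of a point of `V_e`. -/
def coord (e : ι → ℚ) (x : Matrix ι ι ℂ) : Idx e → ℂ := fun pq => x pq.1.1 pq.1.2

/-- The `H_e`-orbit of `M ∈ V_e`. -/
def orbit (e : ι → ℚ) (M : Matrix ι ι ℂ) : Set (Idx e → ℂ) :=
  {v | ∃ h ∈ HGroup e, v = coord e (h * M * h⁻¹)}

/-- `ξ ∈ V_e^*` is conormal at `N` to the orbit `H_e · N`: it kills the tangent space
`{[Y, N] : Y ∈ Lie H_e}`. -/
def IsConormal (e : ι → ℚ) (N : Matrix ι ι ℂ) (ξ : Idx e → ℂ) : Prop :=
  ∀ Y ∈ hLie e, ∑ j, ξ j * coord e (Y * N - N * Y) j = 0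

variable {e : ι → ℚ} {L : Type} [AddCommGroup L] [Module ℂ L]

/-- The coordinate function `x_{pq}` of `gl_n`, restricted to `V_e`, acting on a `D`-module. -/
def xop (W : WeylModule (Idx e) L) (p q : ι) : Module.End ℂ L :=
  if h : e p = e q + 1 then W.x ⟨(p, q), h⟩ else 0

/-- `∂/∂x_{pq}` (zero if `x_{pq}` is not a coordinate of `V_e`). -/
def dop (W : WeylModule (Idx e) L) (p q : ι) : Module.End ℂ L :=
  if h : e p = e q + 1 then W.d ⟨(p, q), h⟩ else 0

/-- The vector field `∑_{r,s} [E_{pq}, x]_{rs} ∂/∂x_{rs}` on `V_e` generating the conjugation action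
of the one-parameter group `exp(t E_{pq})` of `H_e` (for `e p = e q`). -/
def vf (W : WeylModule (Idx e) L) (p q : ι) : Module.End ℂ L :=
  ∑ r, (xop W q r * dop W p r - xop W r p * dop W r q)

/-- `H_e`-equivariance of a `D`-module on `V_e`: the action of `Lie H_e` through vector fields
integrates to an algebraic action of `H_e = ∏ GL`, i.e. the root vectors `E_{pq}` act locally
nilpotently and the `E_{pp}` act diagonalisably with integral eigenvalues (every vector is killed by
a polynomial in `E_{pp}` with distinct integral roots). -/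
def IsEquivariant (W : WeylModule (Idx e) L) : Prop :=
  (∀ p q, e p = e q → p ≠ q → ∀ u : L, ∃ k : ℕ, ((vf W p q) ^ k) u = 0) ∧
  (∀ p, ∀ u : L, ∃ s : Finset ℤ,
    Polynomial.aeval (vf W p p) (∏ j ∈ s, (Polynomial.X - Polynomial.C (j : ℂ))) u = 0)

/-- `W` realises the simple `H_e`-equivariant perverse sheaf with support the closure of the orbit
of `M`: a simple `H_e`-equivariant `D`-module on `V_e` with that support. -/
def IsIC (e : ι → ℚ) (M : Matrix ι ι ℂ) {L : Type} [AddCommGroup L] [Module ℂ L]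
    (W : WeylModule (Idx e) L) : Prop :=
  W.IsSimple ∧ IsEquivariant W ∧ W.supp = zclosure (orbit e M)

/-- `π ∈ Π^ABV_φ`, where the L-parameters of `φ` and `π` are given by `N, M ∈ V_e`: the
characteristic variety of the `D`-module attached to `π` contains the conormal bundle of the orbit
of `φ`. -/
def InABV (e : ι → ℚ) (N M : Matrix ι ι ℂ) : Prop :=
  ∃ (L : Type) (_ : AddCommGroup L) (_ : Module ℂ L) (W : WeylModule (Idx e) L),
    IsIC e M W ∧ ∀ ξ : Idx e → ℂ, IsConormal e N ξ → W.InChar (coord e N) ξ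

/-- Infinitesimal parameter of `φ_α`. -/
def liftE (e : ι → ℚ) (α : ℕ) : ι ⊕ Fin α → ℚ :=
  Sum.elim (fun p => -e p) (fun i => ((α : ℚ) - 1) / 2 - (i : ℕ))

/-- L-parameter `φ_α = φ^∨ ⊕ ⨁_{i<α} |·|^{(α-1)/2-i} ⊗ S_1` of an L-parameter `N ∈ V_e`. -/
def liftN (N : Matrix ι ι ℂ) (α : ℕ) : Matrix (ι ⊕ Fin α) (ι ⊕ Fin α) ℂ :=
  Matrix.fromBlocks N.transpose 0 0 0

end Vogan

end Pool.Agent.H495
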