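import Pool.Agent.H495.Core3

/-! Normalisation of the semi-invariant vector. -/

namespace Pool.Agent.H495

open MvPolynomial Ix WeylModule

/-- Products of the basic semi-invariants. -/
noncomputable def sp (a1 a2 a3 a4 a5 a6 : ℕ) : RR 3 :=
  s1 ^ a1 * s2 ^ a2 * s3 ^ a3 * s4 ^ a4 * s5 ^ a5 * s6 ^ a6

theorem Sc.sp {n : ℕ} {D : Fin n → Fin n → Derivation ℂ (RR 3) (RR 3)} {c1 c2 c3 c4 c5 c6 : ℤ}
    (h1 : Sc D c1 s1) (h2 : Sc D c2 s2) (h3 : Sc D c3 s3) (h4 : Sc D c4 s4) (h5 : Sc D c5 s5)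
    (h6 : Sc D c6 s6) (a1 a2 a3 a4 a5 a6 : ℕ) :
    Sc D (a1 * c1 + a2 * c2 + a3 * c3 + a4 * c4 + a5 * c5 + a6 * c6) (sp a1 a2 a3 a4 a5 a6) :=
  (((((h1.pow a1).mul (h2.pow a2)).mul (h3.pow a3)).mul (h4.pow a4)).mul (h5.pow a5)).mul
    (h6.pow a6)

theorem WeylModule.FTHom.pow' {J : Type} {S : J → Prop} [DecidablePred S] {a : ℕ} {f : MvPolynomial J ℂ}
    (hf : FTHom S a f) (k : ℕ) : FTHom S (k * a) (f ^ k) := by
  unfold FTHom at *; rw [map_pow, mul_comm]; exact IsHomogeneous.pow hf k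

theorem hsp (a1 a2 a3 a4 a5 a6 : ℕ) : FTHom SS
    (a1 * 2 + a2 * 0 + a3 * 2 + a4 * 0 + a5 * 2 + a6 * 8) (sp a1 a2 a3 a4 a5 a6) :=
  (((((hs1.pow' a1).mul (hs2.pow' a2)).mul (hs3.pow' a3)).mul (hs4.pow' a4)).mul
    (hs5.pow' a5)).mul (hs6.pow' a6)

theorem esp (a1 a2 a3 a4 a5 a6 : ℕ) : ev (sp a1 a2 a3 a4 a5 a6) ≠ 0 := by
  unfold sp
  simp only [map_mul, map_pow, es1, es2, es3, es4, es5, es6]
  simp

section

variable {L : Type} [AddCommGroup L] [Module ℂ L] {W : WeylModule (Idx (lev (m := 3))) L}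

theorem KG_self {n : ℕ} {pos : Fin n → Ix 3} (hp : IsGrp pos) {u : L} (hu : u ∈ KG W pos)
    (k : Fin n) : vf W (pos k) (pos k) u ∈ KG W pos := by
  have hc : ∀ i j, vf W (pos i) (pos j) (vf W (pos k) (pos k) u) =
      vf W (pos k) (pos k) (vf W (pos i) (pos j) u) +
      ((if k = i then vf W (pos k) (pos j) u else 0) -
        (if j = k then vf W (pos i) (pos k) u else 0)) := by
    intro i j
    have := congrArg (fun T => T u) (vf_vf W (r := pos k) (s := pos k) (hp.lev i j))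
    simp only [hp.inj.eq_iff, LinearMap.sub_apply, Module.End.mul_apply] at this
    rw [sub_eq_iff_eq_add] at this
    rw [this, add_comm]
    congr 1
    split_ifs <;> simp
  refine ⟨fun i j hij => ?_, fun i j => ?_⟩
  · rw [hc, hu.1 i j hij, map_zero, zero_add]
    by_cases h1 : k = i
    · subst h1; rw [if_pos rfl, if_neg (Ne.symm hij), hu.1 k j hij, sub_zero]
    · rw [if_neg h1]
      by_cases h2 : j = k
      · subst h2; rw [if_pos rfl, hu.1 i j hij, sub_zero]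
      · rw [if_neg h2, sub_zero]
  · have hd : ∀ i, vf W (pos i) (pos i) (vf W (pos k) (pos k) u) =
        vf W (pos k) (pos k) (vf W (pos i) (pos i) u) := by
      intro i
      rw [hc]
      by_cases h1 : k = i
      · subst h1; simp
      · rw [if_neg h1, if_neg (Ne.symm h1)]; simp
    rw [hd, hd, hu.2 i j]

theorem UU_vf {u : L} (hu : u ∈ UU W) (p : Ix 3) : vf W p p u ∈ UU W := by
  obtain ⟨⟨⟨⟨⟨⟨⟨h0, hE3⟩, hB⟩, hE1⟩, hE5⟩, hP2⟩, hB4⟩, hP4⟩ := hu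
  cases p with
  | e1 k => exact ⟨⟨⟨⟨⟨⟨⟨L0_E1 k k h0, KG_vf gE3 (by simp) hE3 k k⟩, KG_vf gB (by simp) hB k k⟩,
      KG_self gE1 hE1 k⟩, KG_vf gE5 (by simp) hE5 k k⟩, KG_vf gP2 (by simp) hP2 k k⟩,
      KG_vf gB4 (by simp) hB4 k k⟩, KG_vf gP4 (by simp) hP4 k k⟩
  | b k => exact ⟨⟨⟨⟨⟨⟨⟨L0_B k k h0, KG_vf gE3 (by simp) hE3 k k⟩, KG_self gB hB k⟩,
      KG_vf gE1 (by simp) hE1 k k⟩, KG_vf gE5 (by simp) hE5 k k⟩, KG_vf gP2 (by simp) hP2 k k⟩,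
      KG_vf gB4 (by simp) hB4 k k⟩, KG_vf gP4 (by simp) hP4 k k⟩
  | p2 k => exact ⟨⟨⟨⟨⟨⟨⟨L0_P2 k k h0, KG_vf gE3 (by simp) hE3 k k⟩, KG_vf gB (by simp) hB k k⟩,
      KG_vf gE1 (by simp) hE1 k k⟩, KG_vf gE5 (by simp) hE5 k k⟩, KG_self gP2 hP2 k⟩,
      KG_vf gB4 (by simp) hB4 k k⟩, KG_vf gP4 (by simp) hP4 k k⟩
  | e3 k => exact ⟨⟨⟨⟨⟨⟨⟨L0_E3 k k h0, KG_self gE3 hE3 k⟩, KG_vf gB (by simp) hB k k⟩,
      KG_vf gE1 (by simp) hE1 k k⟩, KG_vf gE5 (by simp) hE5 k k⟩, KG_vf gP2 (by simp) hP2 k k⟩,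
      KG_vf gB4 (by simp) hB4 k k⟩, KG_vf gP4 (by simp) hP4 k k⟩
  | p4 k => exact ⟨⟨⟨⟨⟨⟨⟨L0_P4 k k h0, KG_vf gE3 (by simp) hE3 k k⟩, KG_vf gB (by simp) hB k k⟩,
      KG_vf gE1 (by simp) hE1 k k⟩, KG_vf gE5 (by simp) hE5 k k⟩, KG_vf gP2 (by simp) hP2 k k⟩,
      KG_vf gB4 (by simp) hB4 k k⟩, KG_self gP4 hP4 k⟩
  | b4 k => exact ⟨⟨⟨⟨⟨⟨⟨L0_B4 k k h0, KG_vf gE3 (by simp) hE3 k k⟩, KG_vf gB (by simp) hB k k⟩,
      KG_vf gE1 (by simp) hE1 k k⟩, KG_vf gE5 (by simp) hE5 k k⟩, KG_vf gP2 (by simp) hP2 k k⟩,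
      KG_self gB4 hB4 k⟩, KG_vf gP4 (by simp) hP4 k k⟩
  | e5 k => exact ⟨⟨⟨⟨⟨⟨⟨L0_E5 k k h0, KG_vf gE3 (by simp) hE3 k k⟩, KG_vf gB (by simp) hB k k⟩,
      KG_vf gE1 (by simp) hE1 k k⟩, KG_self gE5 hE5 k⟩, KG_vf gP2 (by simp) hP2 k k⟩,
      KG_vf gB4 (by simp) hB4 k k⟩, KG_vf gP4 (by simp) hP4 k k⟩

theorem sum_vf : ∑ p, vf W p p = 0 := by
  simp only [vf, Finset.sum_sub_distrib]
  rw [Finset.sum_comm, sub_self]

theorem exists_eig (he : IsEquivariant W) (hL : Nontrivial L)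
    (hinj : ∀ (f : RR 3) (n : ℕ), FTHom SS n f → ev f ≠ 0 → ∀ u : L,
      FF wt W f u = 0 → u = 0) : ∃ w ∈ UU W, w ≠ 0 ∧ ∃ mE1 mB mP2 mE3 mP4 mB4 mE5 : ℤ,
      (∀ i, vf W (e1 i) (e1 i) w = (mE1 : ℂ) • w) ∧ (∀ i, vf W (b i) (b i) w = (mB : ℂ) • w) ∧
      (∀ i, vf W (p2 i) (p2 i) w = (mP2 : ℂ) • w) ∧ (∀ i, vf W (e3 i) (e3 i) w = (mE3 : ℂ) • w) ∧
      (∀ i, vf W (p4 i) (p4 i) w = (mP4 : ℂ) • w) ∧ (∀ i, vf W (b4 i) (b4 i) w = (mB4 : ℂ) • w) ∧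
      (∀ i, vf W (e5 i) (e5 i) w = (mE5 : ℂ) • w) ∧
      2 * mE1 + 3 * mB + 2 * mP2 + 4 * mE3 + 2 * mP4 + 2 * mB4 + 2 * mE5 = 0 := by
  obtain ⟨w0, hw0, hne⟩ := UU_ne he hL hinj
  obtain ⟨w, hw, hw0, hT⟩ := common_eigen (fun p : Ix 3 => vf W p p)
    (fun p q => by
      have h := vf_vf W (p := p) (q := p) (r := q) (s := q) rfl
      by_cases hpq : q = p
      · subst hpq; rfl
      · rw [if_neg hpq, if_neg (Ne.symm hpq), sub_zero, sub_eq_zero] at h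
        exact h)
    (fun p => he.2 p) (UU W) (fun p w hw => UU_vf hw p) Finset.univ hw0 hne
  have hT' : ∀ p, ∃ m : ℤ, vf W p p w = (m : ℂ) • w := fun p => hT p (Finset.mem_univ _)
  choose m hm using hT'
  obtain ⟨⟨⟨⟨⟨⟨⟨h0, hE3⟩, hB⟩, hE1⟩, hE5⟩, hP2⟩, hB4⟩, hP4⟩ := id hw
  have e1' : ∀ i, vf W (e1 i) (e1 i) w = (m (e1 0) : ℂ) • w := fun i => by rw [hE1.2 i 0, hm]
  have e2' : ∀ i, vf W (b i) (b i) w = (m (b 0) : ℂ) • w := fun i => by rw [hB.2 i 0, hm]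
  have e3' : ∀ i, vf W (p2 i) (p2 i) w = (m (p2 0) : ℂ) • w := fun i => by rw [hP2.2 i 0, hm]
  have e4' : ∀ i, vf W (e3 i) (e3 i) w = (m (e3 0) : ℂ) • w := fun i => by rw [hE3.2 i 0, hm]
  have e5' : ∀ i, vf W (p4 i) (p4 i) w = (m (p4 0) : ℂ) • w := fun i => by rw [hP4.2 i 0, hm]
  have e6' : ∀ i, vf W (b4 i) (b4 i) w = (m (b4 0) : ℂ) • w := fun i => by rw [hB4.2 i 0, hm]
  have e7' : ∀ i, vf W (e5 i) (e5 i) w = (m (e5 0) : ℂ) • w := fun i => by rw [hE5.2 i 0, hm]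
  refine ⟨w, hw, hw0, m (e1 0), m (b 0), m (p2 0), m (e3 0), m (p4 0), m (b4 0), m (e5 0),
    e1', e2', e3', e4', e5', e6', e7', ?_⟩
  have h := congrArg (fun T => T w) (sum_vf (W := W))
  simp only [LinearMap.sum_apply, LinearMap.zero_apply] at h
  rw [sum_ix] at h
  simp only [e1', e2', e3', e4', e5', e6', e7', Finset.sum_const, Finset.card_univ,
    Fintype.card_fin, ← smul_assoc, ← add_smul, nsmul_eq_mul, smul_eq_mul] at h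
  have h2 := (smul_eq_zero.1 h).resolve_right hw0
  have h3 : (((2 * m (e1 0) + 3 * m (b 0) + 2 * m (p2 0) + 4 * m (e3 0) + 2 * m (p4 0) +
      2 * m (b4 0) + 2 * m (e5 0) : ℤ)) : ℂ) = 0 := by
    rw [← h2]; push_cast; ring
  exact Int.cast_eq_zero.1 h3

end

end Pool.Agent.H495
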