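import Pool.Agent.H495.Basic

/-! Extension of derivations to the field of fractions. -/

namespace Pool.Agent.H495

open nonZeroDivisors

section

variable {R : Type} [CommRing R] [IsDomain R] [Algebra ℂ R]

/-- the homomorphism `r ↦ r + ε D r` -/
noncomputable def dualHom (D : Derivation ℂ R R) :
    R →+* TrivSqZeroExt (FractionRing R) (FractionRing R) where
  toFun r := TrivSqZeroExt.inl (algebraMap R (FractionRing R) r) +
    TrivSqZeroExt.inr (algebraMap R (FractionRing R) (D r))
  map_one' := by
    rw [Derivation.map_one_eq_zero, map_zero, map_one, TrivSqZeroExt.inr_zero, add_zero,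
      TrivSqZeroExt.inl_one]
  map_zero' := by
    simp only [map_zero, TrivSqZeroExt.inr_zero, TrivSqZeroExt.inl_zero, add_zero]
  map_add' a b := by
    rw [map_add, map_add, map_add, TrivSqZeroExt.inl_add, TrivSqZeroExt.inr_add]; abel
  map_mul' a b := by
    refine TrivSqZeroExt.ext ?_ ?_
    · simp only [TrivSqZeroExt.fst_add, TrivSqZeroExt.fst_inl, TrivSqZeroExt.fst_inr,
        TrivSqZeroExt.fst_mul, add_zero, map_mul]
    · simp only [TrivSqZeroExt.snd_add, TrivSqZeroExt.snd_inl, TrivSqZeroExt.snd_inr,
        TrivSqZeroExt.snd_mul, TrivSqZeroExt.fst_add, TrivSqZeroExt.fst_inl,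
        TrivSqZeroExt.fst_inr, add_zero, zero_add, map_add, map_mul, Derivation.leibniz,
        smul_eq_mul, MulOpposite.smul_eq_mul_unop, MulOpposite.unop_op]
      ring

theorem dualHom_isUnit (D : Derivation ℂ R R) (y : nonZeroDivisors R) :
    IsUnit (dualHom D y) := by
  rw [TrivSqZeroExt.isUnit_iff_isUnit_fst]
  change IsUnit (TrivSqZeroExt.fst (TrivSqZeroExt.inl (algebraMap R (FractionRing R) y) +
    TrivSqZeroExt.inr (algebraMap R (FractionRing R) (D y))))
  rw [TrivSqZeroExt.fst_add, TrivSqZeroExt.fst_inl, TrivSqZeroExt.fst_inr, add_zero]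
  exact IsLocalization.map_units (FractionRing R) y

/-- lift of the previous homomorphism -/
noncomputable def dualLift (D : Derivation ℂ R R) :
    FractionRing R →+* TrivSqZeroExt (FractionRing R) (FractionRing R) :=
  IsLocalization.lift (dualHom_isUnit D)

theorem dualLift_alg (D : Derivation ℂ R R) (r : R) :
    dualLift D (algebraMap R (FractionRing R) r) = dualHom D r :=
  IsLocalization.lift_eq _ _

theorem dualLift_fst (D : Derivation ℂ R R) (x : FractionRing R) :
    TrivSqZeroExt.fst (dualLift D x) = x := by
  have h : ((TrivSqZeroExt.fstHom (FractionRing R) (FractionRing R) (FractionRing R)).toRingHom.comp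
      (dualLift D)) = RingHom.id _ := by
    apply IsLocalization.ringHom_ext (nonZeroDivisors R)
    ext r
    change TrivSqZeroExt.fst (dualLift D (algebraMap R (FractionRing R) r)) = _
    rw [dualLift_alg]
    change TrivSqZeroExt.fst (TrivSqZeroExt.inl (algebraMap R (FractionRing R) r) +
      TrivSqZeroExt.inr (algebraMap R (FractionRing R) (D r))) = _
    rw [TrivSqZeroExt.fst_add, TrivSqZeroExt.fst_inl, TrivSqZeroExt.fst_inr, add_zero]
    rfl
  exact RingHom.congr_fun h x

/-- Extension of a derivation to the field of fractions. -/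
noncomputable def exD (D : Derivation ℂ R R) :
    Derivation ℂ (FractionRing R) (FractionRing R) where
  toFun x := TrivSqZeroExt.snd (dualLift D x)
  map_add' a b := by rw [map_add, TrivSqZeroExt.snd_add]
  map_smul' c a := by
    rw [Algebra.smul_def, map_mul, TrivSqZeroExt.snd_mul, dualLift_fst, dualLift_fst,
      IsScalarTower.algebraMap_apply ℂ R (FractionRing R), dualLift_alg]
    have h1 : TrivSqZeroExt.snd (dualHom D (algebraMap ℂ R c)) = 0 := by
      change TrivSqZeroExt.snd (TrivSqZeroExt.inl (algebraMap R (FractionRing R) _) +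
        TrivSqZeroExt.inr (algebraMap R (FractionRing R) (D _))) = _
      rw [TrivSqZeroExt.snd_add, TrivSqZeroExt.snd_inl, TrivSqZeroExt.snd_inr, zero_add,
        Derivation.map_algebraMap, map_zero]
    rw [h1, smul_zero, add_zero, smul_eq_mul, RingHom.id_apply, Algebra.smul_def,
      IsScalarTower.algebraMap_apply ℂ R (FractionRing R)]
  map_one_eq_zero' := by
    simp only [LinearMap.coe_mk, AddHom.coe_mk, map_one, TrivSqZeroExt.snd_one]
  leibniz' a b := by
    simp only [LinearMap.coe_mk, AddHom.coe_mk, map_mul, TrivSqZeroExt.snd_mul, dualLift_fst,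
      smul_eq_mul, MulOpposite.smul_eq_mul_unop, MulOpposite.unop_op]
    ring

theorem exD_alg (D : Derivation ℂ R R) (r : R) :
    exD D (algebraMap R (FractionRing R) r) = algebraMap R (FractionRing R) (D r) := by
  change TrivSqZeroExt.snd (dualLift D (algebraMap R (FractionRing R) r)) = _
  rw [dualLift_alg]
  change TrivSqZeroExt.snd (TrivSqZeroExt.inl (algebraMap R (FractionRing R) r) +
    TrivSqZeroExt.inr (algebraMap R (FractionRing R) (D r))) = _
  rw [TrivSqZeroExt.snd_add, TrivSqZeroExt.snd_inl, TrivSqZeroExt.snd_inr, zero_add]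

theorem der_frac_ext {D D' : Derivation ℂ (FractionRing R) (FractionRing R)}
    (h : ∀ r : R, D (algebraMap R (FractionRing R) r) = D' (algebraMap R (FractionRing R) r)) :
    D = D' := by
  refine Derivation.ext fun x => ?_
  obtain ⟨a, b, hb, rfl⟩ := IsFractionRing.div_surjective (A := R) x
  have hb' : algebraMap R (FractionRing R) b ≠ 0 :=
    IsFractionRing.to_map_ne_zero_of_mem_nonZeroDivisors hb
  have h1 : ∀ E : Derivation ℂ (FractionRing R) (FractionRing R),
      E (algebraMap R (FractionRing R) a / algebraMap R (FractionRing R) b) =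
      (E (algebraMap R (FractionRing R) a) - (algebraMap R (FractionRing R) a /
        algebraMap R (FractionRing R) b) * E (algebraMap R (FractionRing R) b)) /
        algebraMap R (FractionRing R) b := by
    intro E
    have h2 : E (algebraMap R (FractionRing R) a) = E ((algebraMap R (FractionRing R) a /
        algebraMap R (FractionRing R) b) * algebraMap R (FractionRing R) b) := by
      rw [div_mul_cancel₀ _ hb']
    rw [Derivation.leibniz, smul_eq_mul, smul_eq_mul] at h2
    rw [eq_div_iff hb', h2]; ring
  rw [h1, h1, h, h]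

end

end Pool.Agent.H495
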