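import Pool.Agent.H495.Ix
import Pool.Agent.H495.Defs

/-! The Kashiwara-Saito pair of L-parameters of `GL_16`. -/

namespace Pool.Agent.H495

open Ix

/-- Exponents of the infinitesimal parameter `2·|·|^1 + 4·|·|^0 + 4·|·|^{-1} + 4·|·|^{-2} + 2·|·|^{-3}`
of `GL_16`. -/
def ksE : Ix 2 → ℚ := fun p => -lev p

/-- The L-parameter `φ`: its Jordan blocks have the exponents
`{0, 1}` twice, `{-2, -1, 0}` twice, `{-1}` twice, `{-3, -2}` twice. -/
def ksN : Matrix (Ix 2) (Ix 2) ℂ := fun p q =>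
  match p, q with
  | .e1 j, .b i => if i = j then 1 else 0
  | .p2 l, .e3 i => if (i : ℕ) = l then 1 else 0
  | .e3 i, .p4 k => if (i : ℕ) = k then 1 else 0
  | .b4 k, .e5 i => if i = k then 1 else 0
  | _, _ => 0

/-- The L-parameter of `π`: its Jordan blocks have the exponents
`{-2, -1, 0, 1}`, `{-3, -2, -1, 0}`, `{0, 1}`, `{-1, 0}`, `{-2, -1}`, `{-3, -2}`. -/
def ksM : Matrix (Ix 2) (Ix 2) ℂ := fun p q =>
  match p, q with
  | .e1 j, .b i => if i = j then 1 else 0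
  | .b i, .e3 k => if (i : ℕ) = 0 ∧ (k : ℕ) = 0 then 1 else 0
  | .p2 i, .e3 k => if (k : ℕ) = i + 1 then 1 else 0
  | .e3 i, .p4 k => if ((i : ℕ) = 0 ∧ (k : ℕ) = 0) ∨ ((i : ℕ) = 3 ∧ (k : ℕ) = 1) then 1 else 0
  | .e3 i, .b4 k => if (i : ℕ) = 1 ∧ (k : ℕ) = 0 then 1 else 0
  | .b4 k, .e5 i => if i = k then 1 else 0
  | _, _ => 0

end Pool.Agent.H495
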