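import Pool.Agent.H495.Basic

namespace Pool.Agent.H495

open MvPolynomial

section

variable {ι : Type} [Fintype ι] [DecidableEq ι] {e : ι → ℚ} {L : Type} [AddCommGroup L]
  [Module ℂ L] (W : WeylModule (Idx e) L)

theorem xop_zero {p q : ι} (h : e p ≠ e q + 1) : xop W p q = 0 := by rw [xop, dif_neg h]

theorem dop_zero {p q : ι} (h : e p ≠ e q + 1) : dop W p q = 0 := by rw [dop, dif_neg h]

theorem xop_comm (p q r s : ι) : xop W p q * xop W r s = xop W r s * xop W p q := by
  unfold xop
  split_ifs with h1 h2 <;> simp [W.x_comm _ ⟨(r, s), _⟩]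

theorem dop_comm (p q r s : ι) : dop W p q * dop W r s = dop W r s * dop W p q := by
  unfold dop
  split_ifs with h1 h2 <;> simp [W.d_comm _ ⟨(r, s), _⟩]

theorem dop_xop (p q r s : ι) : dop W p q * xop W r s = xop W r s * dop W p q +
    (if p = r ∧ q = s ∧ e p = e q + 1 then 1 else 0) := by
  unfold xop dop
  by_cases h1 : e p = e q + 1
  · by_cases h2 : e r = e s + 1
    · rw [dif_pos h1, dif_pos h2, W.comm]
      congr 1
      by_cases h3 : p = r ∧ q = s
      · obtain ⟨rfl, rfl⟩ := h3
        simp [h1]
      · rw [if_neg (by simpa using h3), if_neg (fun h => h3 ⟨h.1, h.2.1⟩)]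
    · rw [dif_pos h1, dif_neg h2, if_neg]
      · simp
      · rintro ⟨rfl, rfl, -⟩; exact h2 h1
  · rw [dif_neg h1, if_neg (fun h => h1 h.2.2)]; simp

theorem vf_xop {p q : ι} (hpq : e p = e q) (r s : ι) :
    vf W p q * xop W r s = xop W r s * vf W p q +
      ((if p = r then xop W q s else 0) - (if q = s then xop W r p else 0)) := by
  have h1 : ∀ t, (xop W q t * dop W p t) * xop W r s = xop W r s * (xop W q t * dop W p t) +
      (if t = s then (if p = r then xop W q s else 0) else 0) := by
    intro t
    rw [mul_assoc, dop_xop, mul_add, ← mul_assoc, xop_comm, mul_assoc]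
    congr 1
    by_cases hts : t = s
    · subst hts
      by_cases hpr : p = r
      · subst hpr
        by_cases he : e p = e t + 1
        · simp [he]
        · rw [if_neg (fun h => he h.2.2), mul_zero, if_pos rfl, if_pos rfl,
            xop_zero W (by rwa [← hpq])]
      · rw [if_neg (fun h => hpr h.1), if_pos rfl, if_neg hpr, mul_zero]
    · rw [if_neg (fun h => hts h.2.1), if_neg hts, mul_zero]
  have h2 : ∀ t, (xop W t p * dop W t q) * xop W r s = xop W r s * (xop W t p * dop W t q) +
      (if t = r then (if q = s then xop W r p else 0) else 0) := by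
    intro t
    rw [mul_assoc, dop_xop, mul_add, ← mul_assoc, xop_comm, mul_assoc]
    congr 1
    by_cases htr : t = r
    · subst htr
      by_cases hqs : q = s
      · subst hqs
        by_cases he : e t = e q + 1
        · simp [he]
        · rw [if_neg (fun h => he h.2.2), mul_zero, if_pos rfl, if_pos rfl,
            xop_zero W (by rwa [hpq])]
      · rw [if_neg (fun h => hqs h.2.1), if_pos rfl, if_neg hqs, mul_zero]
    · rw [if_neg (fun h => htr h.1), if_neg htr, mul_zero]
  rw [vf, Finset.sum_mul, Finset.mul_sum]
  simp only [sub_mul, mul_sub, h1, h2]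
  simp only [add_sub_add_comm, Finset.sum_add_distrib, Finset.sum_sub_distrib,
    Finset.sum_ite_eq', Finset.mem_univ, if_true]

theorem vf_dop {p q : ι} (hpq : e p = e q) (r s : ι) :
    vf W p q * dop W r s = dop W r s * vf W p q +
      ((if p = s then dop W r q else 0) - (if q = r then dop W p s else 0)) := by
  have h1 : ∀ t, (xop W q t * dop W p t) * dop W r s = dop W r s * (xop W q t * dop W p t) -
      (if t = s then (if q = r then dop W p s else 0) else 0) := by
    intro t
    have hx : xop W q t * dop W r s = dop W r s * xop W q t -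
        (if r = q ∧ s = t ∧ e r = e s + 1 then 1 else 0) := by rw [dop_xop]; abel
    rw [mul_assoc, dop_comm, ← mul_assoc, hx, sub_mul, mul_assoc]
    congr 1
    by_cases hts : t = s
    · subst hts
      by_cases hqr : q = r
      · subst hqr
        by_cases he : e q = e t + 1
        · simp [he]
        · rw [if_neg (fun h => he h.2.2), zero_mul, if_pos rfl, if_pos rfl,
            dop_zero W (by rwa [hpq])]
      · rw [if_neg (fun h => hqr h.1.symm), if_pos rfl, if_neg hqr, zero_mul]
    · rw [if_neg (fun h => hts h.2.1.symm), if_neg hts, zero_mul]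
  have h2 : ∀ t, (xop W t p * dop W t q) * dop W r s = dop W r s * (xop W t p * dop W t q) -
      (if t = r then (if p = s then dop W r q else 0) else 0) := by
    intro t
    have hx : xop W t p * dop W r s = dop W r s * xop W t p -
        (if r = t ∧ s = p ∧ e r = e s + 1 then 1 else 0) := by rw [dop_xop]; abel
    rw [mul_assoc, dop_comm, ← mul_assoc, hx, sub_mul, mul_assoc]
    congr 1
    by_cases htr : t = r
    · subst htr
      by_cases hps : p = s
      · subst hps
        by_cases he : e t = e p + 1
        · simp [he]
        · rw [if_neg (fun h => he h.2.2), zero_mul, if_pos rfl, if_pos rfl,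
            dop_zero W (by rwa [← hpq])]
      · rw [if_neg (fun h => hps h.2.1.symm), if_pos rfl, if_neg hps, zero_mul]
    · rw [if_neg (fun h => htr h.1.symm), if_neg htr, zero_mul]
  rw [vf, Finset.sum_mul, Finset.mul_sum]
  simp only [sub_mul, mul_sub, h1, h2]
  simp only [sub_sub_sub_comm, Finset.sum_sub_distrib,
    Finset.sum_ite_eq', Finset.mem_univ, if_true]
  abel

/-- Commutators of the vector fields. -/
theorem vf_vf {p q r s : ι} (hpq : e p = e q) :
    vf W p q * vf W r s - vf W r s * vf W p q =
      (if s = p then vf W r q else 0) - (if q = r then vf W p s else 0) := by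
  have h : vf W p q * vf W r s = vf W r s * vf W p q +
      ((if s = p then vf W r q else 0) - (if q = r then vf W p s else 0)) := by
    have h1 : ∀ t, vf W p q * (xop W s t * dop W r t) = xop W s t * dop W r t * vf W p q +
        ((if p = s then xop W q t * dop W r t else 0) - (if q = t then xop W s p * dop W r t else 0)
        + ((if p = t then xop W s t * dop W r q else 0) -
          (if q = r then xop W s t * dop W p t else 0))) := by
      intro t
      rw [← mul_assoc, vf_xop W hpq, add_mul, mul_assoc, vf_dop W hpq, mul_add, sub_mul, ite_mul,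
        ite_mul, zero_mul, mul_sub, mul_ite, mul_ite, mul_zero, mul_assoc]
      abel
    have h2 : ∀ t, vf W p q * (xop W t r * dop W t s) = xop W t r * dop W t s * vf W p q +
        ((if p = t then xop W q r * dop W t s else 0) - (if q = r then xop W t p * dop W t s else 0)
        + ((if p = s then xop W t r * dop W t q else 0) -
          (if q = t then xop W t r * dop W p s else 0))) := by
      intro t
      rw [← mul_assoc, vf_xop W hpq, add_mul, mul_assoc, vf_dop W hpq, mul_add, sub_mul, ite_mul,
        ite_mul, zero_mul, mul_sub, mul_ite, mul_ite, mul_zero, mul_assoc]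
      abel
    nth_rewrite 2 [vf]
    rw [Finset.mul_sum]
    simp only [mul_sub, h1, h2]
    simp only [Finset.sum_add_distrib, Finset.sum_sub_distrib, Finset.sum_ite_eq, Finset.mem_univ,
      if_true, ← Finset.sum_mul]
    have h3 : ∀ a b c d : ι, (∑ x, (xop W a x * dop W b x - xop W x c * dop W x d)) =
      (∑ x, xop W a x * dop W b x) - ∑ x, xop W x c * dop W x d := by
      intro a b c d; rw [Finset.sum_sub_distrib]
    simp only [vf, h3]
    by_cases hps : p = s
    · subst hps
      by_cases hqr : q = r
      · subst hqr; simp; noncomm_ring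
      · simp [hqr]; noncomm_ring
    · by_cases hqr : q = r
      · subst hqr; simp [hps, Ne.symm hps]; noncomm_ring
      · simp [hps, hqr, Ne.symm hps]; noncomm_ring
  rw [h]; abel

end

end Pool.Agent.H495
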