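import Pool.Agent.H495.Transport
import Pool.Agent.H495.Lie

/-! Invariance of `InABV` under relabelling and transposition. -/

namespace Pool.Agent.H495

open MvPolynomial Matrix

theorem hgroup_inv {ι : Type} [Fintype ι] [DecidableEq ι] {e : ι → ℚ} {g : Matrix ι ι ℂ}
    (h1 : IsUnit g) (h2 : ∀ p q, e p ≠ e q → g p q = 0) (p q : ι) (hpq : e p ≠ e q) :
    g⁻¹ p q = 0 := by
  have hgu : IsUnit g.det := (Matrix.isUnit_iff_isUnit_det g).1 h1
  set D : Matrix ι ι ℂ := Matrix.diagonal fun p => ((e p : ℚ) : ℂ) with hD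
  have hc : D * g = g * D := by
    ext p q
    rw [hD, Matrix.diagonal_mul, Matrix.mul_diagonal]
    by_cases h : e p = e q
    · rw [h, mul_comm]
    · rw [h2 p q h]; ring
  have hc' : g⁻¹ * D = D * g⁻¹ := by
    calc g⁻¹ * D = g⁻¹ * (D * g) * g⁻¹ := by
          rw [Matrix.mul_assoc, Matrix.mul_assoc, Matrix.mul_nonsing_inv _ hgu, Matrix.mul_one]
      _ = D * g⁻¹ := by
          rw [hc, ← Matrix.mul_assoc, Matrix.nonsing_inv_mul _ hgu, Matrix.one_mul]
  have := congrFun (congrFun hc' p) q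
  rw [hD, Matrix.mul_diagonal, Matrix.diagonal_mul, mul_comm, ← sub_eq_zero, ← sub_mul] at this
  refine (mul_eq_zero.1 this).resolve_left ?_
  rw [sub_eq_zero]
  intro h
  exact hpq (by exact_mod_cast h.symm)

section relabel

variable {ι ι' : Type} [Fintype ι] [DecidableEq ι] [Fintype ι'] [DecidableEq ι']
  {e : ι → ℚ} {e' : ι' → ℚ} (σ : ι' ≃ ι) (hσ : ∀ p, e (σ p) = e' p)

/-- Relabelling of coordinates. -/
def relIdx : Idx e' ≃ Idx e where
  toFun j := ⟨(σ j.1.1, σ j.1.2), by rw [hσ, hσ]; exact j.2⟩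
  invFun j := ⟨(σ.symm j.1.1, σ.symm j.1.2), by
    rw [← hσ, ← hσ, σ.apply_symm_apply, σ.apply_symm_apply]; exact j.2⟩
  left_inv j := by simp
  right_inv j := by simp

variable {L : Type} [AddCommGroup L] [Module ℂ L] (W : WeylModule (Idx e) L)

theorem xop_rel (p q : ι') : xop (W.comap (relIdx σ hσ)) p q = xop W (σ p) (σ q) := by
  unfold xop
  by_cases h : e' p = e' q + 1
  · rw [dif_pos h, dif_pos (by rw [hσ, hσ]; exact h)]; rfl
  · rw [dif_neg h, dif_neg (by rw [hσ, hσ]; exact h)]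

theorem dop_rel (p q : ι') : dop (W.comap (relIdx σ hσ)) p q = dop W (σ p) (σ q) := by
  unfold dop
  by_cases h : e' p = e' q + 1
  · rw [dif_pos h, dif_pos (by rw [hσ, hσ]; exact h)]; rfl
  · rw [dif_neg h, dif_neg (by rw [hσ, hσ]; exact h)]

theorem vf_rel (p q : ι') : vf (W.comap (relIdx σ hσ)) p q = vf W (σ p) (σ q) := by
  unfold vf
  simp only [xop_rel, dop_rel]
  exact σ.sum_comp (fun r => xop W (σ q) r * dop W (σ p) r - xop W r (σ p) * dop W r (σ q))

theorem equiv_rel (h : IsEquivariant W) : IsEquivariant (W.comap (relIdx σ hσ)) := by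
  refine ⟨fun p q hpq hne u => ?_, fun p u => ?_⟩
  · rw [vf_rel]
    exact h.1 (σ p) (σ q) (by rw [hσ, hσ, hpq]) (fun h => hne (σ.injective h)) u
  · rw [vf_rel]
    exact h.2 (σ p) u

include hσ in
theorem InABV.relabel {N M : Matrix ι ι ℂ} (h : InABV e N M) :
    InABV e' (N.submatrix σ σ) (M.submatrix σ σ) := by
  have hsub : ∀ A B : Matrix ι ι ℂ, (A * B).submatrix σ σ = A.submatrix σ σ * B.submatrix σ σ :=
    fun A B => (Matrix.submatrix_mul_equiv A B σ σ σ).symm
  refine InABV.transport (relIdx σ hσ) (fun L _ _ W hW => equiv_rel σ hσ W hW) ?_ ?_ ?_ h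
  · funext j; rfl
  · intro v
    constructor
    · rintro ⟨g, ⟨hg1, hg2⟩, hv⟩
      refine ⟨g.submatrix σ.symm σ.symm, ⟨?_, fun p q hpq => ?_⟩, ?_⟩
      · rw [Matrix.isUnit_submatrix_equiv]; exact hg1
      · exact hg2 _ _ (by rw [← hσ, ← hσ]; simpa using hpq)
      · rw [hv]
        funext j
        have h1 : (g.submatrix σ.symm σ.symm * M * (g.submatrix σ.symm σ.symm)⁻¹) =
            (g * M.submatrix σ σ * g⁻¹).submatrix σ.symm σ.symm := by
          rw [Matrix.inv_submatrix_equiv, ← Matrix.submatrix_mul_equiv _ _ _ σ.symm _,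
            ← Matrix.submatrix_mul_equiv _ _ _ σ.symm _]
          simp
        rw [h1]; rfl
    · rintro ⟨g, ⟨hg1, hg2⟩, hv⟩
      refine ⟨g.submatrix σ σ, ⟨?_, fun p q hpq => ?_⟩, ?_⟩
      · rw [Matrix.isUnit_submatrix_equiv]; exact hg1
      · exact hg2 _ _ (by rw [hσ, hσ]; exact hpq)
      · have h1 : (g.submatrix σ σ * M.submatrix σ σ * (g.submatrix σ σ)⁻¹) =
            (g * M * g⁻¹).submatrix σ σ := by
          rw [Matrix.inv_submatrix_equiv, hsub, hsub]
        rw [h1]
        funext j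
        have := congrFun hv (relIdx σ hσ j)
        rw [Function.comp_apply, Equiv.symm_apply_apply] at this
        rw [this]; rfl
  · intro ξ hξ Y hY
    have h1 := hξ (Y.submatrix σ σ) (fun p q hpq => hY _ _ (by rw [hσ, hσ]; exact hpq))
    rw [← (relIdx σ hσ).sum_comp]
    refine Eq.trans (Finset.sum_congr rfl fun j _ => ?_) h1
    rw [Function.comp_apply, Equiv.symm_apply_apply]
    congr 1
    have h2 : (Y.submatrix σ σ * N.submatrix σ σ - N.submatrix σ σ * Y.submatrix σ σ) =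
        (Y * N - N * Y).submatrix σ σ := by
      rw [← hsub, ← hsub]; rfl
    rw [h2]; rfl

end relabel

section transpose

variable {ι : Type} [Fintype ι] [DecidableEq ι] {e : ι → ℚ}

/-- Transposition of coordinates. -/
def trIdx : Idx (fun p => -e p) ≃ Idx e where
  toFun j := ⟨(j.1.2, j.1.1), by have := j.2; simp only at this ⊢; linarith⟩
  invFun j := ⟨(j.1.2, j.1.1), by have := j.2; simp only at this ⊢; linarith⟩
  left_inv j := by simp
  right_inv j := by simp

variable {L : Type} [AddCommGroup L] [Module ℂ L] (W : WeylModule (Idx e) L)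

theorem xop_tr (p q : ι) : xop (W.comap trIdx) p q = xop W q p := by
  unfold xop
  by_cases h : e q = e p + 1
  · rw [dif_pos h, dif_pos (show -e p = -e q + 1 by linarith)]; rfl
  · rw [dif_neg h, dif_neg (show ¬ -e p = -e q + 1 by intro h'; apply h; linarith)]

theorem dop_tr (p q : ι) : dop (W.comap trIdx) p q = dop W q p := by
  unfold dop
  by_cases h : e q = e p + 1
  · rw [dif_pos h, dif_pos (show -e p = -e q + 1 by linarith)]; rfl
  · rw [dif_neg h, dif_neg (show ¬ -e p = -e q + 1 by intro h'; apply h; linarith)]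

theorem vf_tr (p q : ι) : vf (W.comap trIdx) p q = -vf W q p := by
  unfold vf
  simp only [xop_tr, dop_tr]
  rw [← Finset.sum_neg_distrib]
  exact Finset.sum_congr rfl fun r _ => by abel

theorem neg_diag' {T : Module.End ℂ L} (h : ∀ u : L, ∃ s : Finset ℤ,
      Polynomial.aeval T (∏ j ∈ s, (Polynomial.X - Polynomial.C (j : ℂ))) u = 0) (u : L) :
    ∃ s : Finset ℤ,
      Polynomial.aeval (-T) (∏ j ∈ s, (Polynomial.X - Polynomial.C (j : ℂ))) u = 0 := by
  obtain ⟨s, hs⟩ := h u
  refine ⟨s.map (Equiv.neg ℤ).toEmbedding, ?_⟩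
  have h1 : ((∏ j ∈ s.map (Equiv.neg ℤ).toEmbedding, (Polynomial.X - Polynomial.C (j : ℂ))) :
      Polynomial ℂ).comp (-Polynomial.X) =
      (-1) ^ s.card * ∏ j ∈ s, (Polynomial.X - Polynomial.C (j : ℂ)) := by
    rw [Finset.prod_map, ← Finset.prod_const, ← Finset.prod_mul_distrib, Polynomial.prod_comp]
    refine Finset.prod_congr rfl fun j _ => ?_
    simp; ring
  have h2 := Polynomial.aeval_comp (x := T) (p := ((∏ j ∈ s.map (Equiv.neg ℤ).toEmbedding,
      (Polynomial.X - Polynomial.C (j : ℂ))) : Polynomial ℂ)) (q := -Polynomial.X)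
  rw [map_neg, Polynomial.aeval_X] at h2
  rw [← h2, h1, map_mul, Module.End.mul_apply, hs, map_zero]

theorem equiv_tr (h : IsEquivariant W) : IsEquivariant (W.comap trIdx) := by
  refine ⟨fun p q hpq hne u => ?_, fun p u => ?_⟩
  · obtain ⟨k, hk⟩ := h.1 q p (by have : -e p = -e q := hpq; linarith) (Ne.symm hne) u
    refine ⟨k, ?_⟩
    rw [vf_tr, neg_pow, Module.End.mul_apply, hk, map_zero]
  · rw [vf_tr]
    exact neg_diag' (h.2 p) u

theorem InABV.tr {N M : Matrix ι ι ℂ} (h : InABV e N M) :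
    InABV (fun p => -e p) Nᵀ Mᵀ := by
  refine InABV.transport trIdx (fun L _ _ W hW => equiv_tr W hW) ?_ ?_ ?_ h
  · funext j; rfl
  · intro v
    constructor
    · rintro ⟨g, ⟨hg1, hg2⟩, hv⟩
      have hgu : IsUnit g.det := (Matrix.isUnit_iff_isUnit_det g).1 hg1
      refine ⟨(gᵀ)⁻¹, ⟨?_, fun p q hpq => ?_⟩, ?_⟩
      · rw [Matrix.isUnit_nonsing_inv_iff, Matrix.isUnit_transpose]; exact hg1
      · rw [← Matrix.transpose_nonsing_inv, Matrix.transpose_apply]
        refine hgroup_inv hg1 hg2 q p ?_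
        simpa [eq_comm] using hpq
      · rw [hv]
        funext j
        have h1 : ((gᵀ)⁻¹ * M * ((gᵀ)⁻¹)⁻¹) = (g * Mᵀ * g⁻¹)ᵀ := by
          rw [Matrix.nonsing_inv_nonsing_inv _ (by rwa [Matrix.det_transpose]),
            Matrix.transpose_mul, Matrix.transpose_mul, Matrix.transpose_transpose,
            Matrix.transpose_nonsing_inv, Matrix.mul_assoc]
        rw [h1]; rfl
    · rintro ⟨g, ⟨hg1, hg2⟩, hv⟩
      have hgu : IsUnit g.det := (Matrix.isUnit_iff_isUnit_det g).1 hg1
      refine ⟨(gᵀ)⁻¹, ⟨?_, fun p q hpq => ?_⟩, ?_⟩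
      · rw [Matrix.isUnit_nonsing_inv_iff, Matrix.isUnit_transpose]; exact hg1
      · rw [← Matrix.transpose_nonsing_inv, Matrix.transpose_apply]
        refine hgroup_inv hg1 hg2 q p ?_
        simpa [eq_comm] using hpq
      · have h1 : ((gᵀ)⁻¹ * Mᵀ * ((gᵀ)⁻¹)⁻¹) = (g * M * g⁻¹)ᵀ := by
          rw [Matrix.nonsing_inv_nonsing_inv _ (by rwa [Matrix.det_transpose]),
            Matrix.transpose_mul, Matrix.transpose_mul,
            Matrix.transpose_nonsing_inv, Matrix.mul_assoc]
        rw [h1]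
        funext j
        have := congrFun hv (trIdx j)
        rw [Function.comp_apply, Equiv.symm_apply_apply] at this
        rw [this]; rfl
  · intro ξ hξ Y hY
    have h1 := hξ (-Yᵀ) (fun p q hpq => by
      rw [Matrix.neg_apply, Matrix.transpose_apply, show Y q p = 0 from hY q p (fun h => hpq (by
        show -e p = -e q; rw [h])), neg_zero])
    rw [← trIdx.sum_comp]
    refine Eq.trans (Finset.sum_congr rfl fun j _ => ?_) h1
    rw [Function.comp_apply, Equiv.symm_apply_apply]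
    congr 1
    have h2 : (-Yᵀ * Nᵀ - Nᵀ * -Yᵀ) = (Y * N - N * Y)ᵀ := by
      rw [Matrix.transpose_sub, Matrix.transpose_mul, Matrix.transpose_mul, Matrix.neg_mul,
        Matrix.mul_neg]
      abel
    rw [h2]; rfl

end transpose

end Pool.Agent.H495
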