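import Pool.Agent.H495.ConB
import Pool.Agent.H495.Transport2
import Pool.Agent.H495.KSdata

/-! The negative half. -/

namespace Pool.Agent.H495

open MvPolynomial Ix WeylModule Matrix

/-- Identification of the index sets. -/
def σσ : Ix 3 ≃ Ix 2 ⊕ Fin 1 where
  toFun
    | e1 i => .inl (e1 i)
    | b i => if h : (i : ℕ) < 2 then .inl (b ⟨i, h⟩) else .inr 0
    | p2 i => .inl (p2 i)
    | e3 i => .inl (e3 i)
    | p4 i => .inl (p4 i)
    | b4 i => .inl (b4 i)
    | e5 i => .inl (e5 i)
  invFun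
    | .inl (e1 i) => e1 i
    | .inl (b i) => b ⟨i, by omega⟩
    | .inl (p2 i) => p2 i
    | .inl (e3 i) => e3 i
    | .inl (p4 i) => p4 i
    | .inl (b4 i) => b4 i
    | .inl (e5 i) => e5 i
    | .inr _ => b 2
  left_inv x := by
    cases x with
    | b i => fin_cases i <;> rfl
    | _ => rfl
  right_inv x := by
    rcases x with x | x
    · cases x with
      | b i => fin_cases i <;> rfl
      | _ => rfl
    · have : x = 0 := Subsingleton.elim _ _
      subst this; rfl

theorem σσ_lev (p : Ix 3) : liftE ksE 1 (σσ p) = lev p := by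
  cases p with
  | b i => fin_cases i <;> simp [liftE, ksE, σσ, lev]
  | _ => simp [liftE, ksE, σσ, lev]

theorem NN_eq : (liftN ksN 1).submatrix σσ σσ = NN := by
  ext p q
  cases p with
  | b i =>
    cases q with
    | b j => fin_cases i <;> fin_cases j <;> simp [liftN, ksN, σσ, NN, wt, val]
    | e1 j => fin_cases i <;> fin_cases j <;> simp [liftN, ksN, σσ, NN, wt, val]
    | _ => fin_cases i <;> simp [liftN, ksN, σσ, NN, wt, val]
  | _ =>
    cases q with
    | b j => fin_cases j <;> simp [liftN, ksN, σσ, NN, wt, val]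
    | _ => simp [liftN, ksN, σσ, NN, wt, val]

theorem lift_vogan {M : Matrix (Ix 2) (Ix 2) ℂ} (hM : M ∈ Vogan ksE) :
    (liftN M 1).submatrix σσ σσ ∈ Vogan lev := by
  intro p q h
  rw [← σσ_lev, ← σσ_lev] at h
  rw [submatrix_apply]
  revert h
  generalize σσ p = p'
  generalize σσ q = q'
  intro h
  rcases p' with p' | p' <;> rcases q' with q' | q' <;> simp only [liftN, fromBlocks_apply₁₁,
    fromBlocks_apply₁₂, fromBlocks_apply₂₁, fromBlocks_apply₂₂, Matrix.zero_apply,
    Matrix.transpose_apply]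
  refine hM q' p' fun h' => h ?_
  simp only [liftE, Sum.elim_inl]
  rw [h']; ring

/-- If `M ∈ V_λ` has a non-zero composite `f₂ f₁` then its lift is not in the packet of the lift
of `φ`. -/
theorem not_inABV_lift {M : Matrix (Ix 2) (Ix 2) ℂ} (hM : M ∈ Vogan ksE) (i : Fin 4) (j : Fin 2)
    (h : (M * M) (e1 j) (e3 i) ≠ 0) : ¬ InABV (liftE ksE 1) (liftN ksN 1) (liftN M 1) := by
  intro hA
  have h1 := hA.relabel σσ σσ_lev
  rw [NN_eq] at h1
  have h2 := inABV_vanish (lift_vogan hM) h1 i j
  apply h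
  rw [submatrix_mul_equiv, submatrix_apply, liftN, fromBlocks_multiply] at h2
  change (fromBlocks _ _ _ _) (Sum.inl (e3 i)) (Sum.inl (e1 j)) = 0 at h2
  rw [fromBlocks_apply₁₁, Matrix.zero_mul, add_zero, ← Matrix.transpose_mul,
    Matrix.transpose_apply] at h2
  exact h2

theorem ksM_vogan : ksM ∈ Vogan ksE := by
  intro p q h
  cases p <;> cases q <;> first | rfl | (exfalso; revert h; norm_num [ksE, lev])

theorem ksN_vogan : ksN ∈ Vogan ksE := by
  intro p q h
  cases p <;> cases q <;> first | rfl | (exfalso; revert h; norm_num [ksE, lev])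

theorem ksM_sq : (ksM * ksM) (e1 0) (e3 0) ≠ 0 := by
  rw [Matrix.mul_apply, sum_ix]
  simp [ksM]

end Pool.Agent.H495
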