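import Pool.Agent.H495.PosMain
import Pool.Agent.H495.NegHalf

/-! The counterexample. -/

namespace Pool.Agent.H495

open MvPolynomial Ix WeylModule

theorem full : ∃ M : Matrix (Ix 2) (Ix 2) ℂ, M ∈ Vogan ksE ∧ InABV ksE ksN M ∧
    InABV (liftE ksE 0) (liftN ksN 0) (liftN M 0) ∧
    ¬ InABV (liftE ksE 1) (liftN ksN 1) (liftN M 1) := by
  obtain ⟨M, hM, ⟨i, j, hij⟩, hABV⟩ := pos_half
  have hMt : M.transpose ∈ Vogan ksE := by
    intro p q hpq
    rw [Matrix.transpose_apply]
    apply hM
    intro h
    apply hpq
    simp only [ksE]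
    rw [h]; ring
  refine ⟨M.transpose, hMt, ?_, ?_, ?_⟩
  · have := hABV.tr
    rw [Matrix.transpose_transpose] at this
    exact this
  · let σ : Ix 2 ⊕ Fin 0 ≃ Ix 2 := Equiv.sumEmpty (Ix 2) (Fin 0)
    have h := InABV.relabel (e := lev) (e' := liftE ksE 0) σ (fun p => by
      cases p with
      | inl p => simp [σ, liftE, ksE]
      | inr p => exact p.elim0) hABV
    have h1 : ksN.transpose.submatrix σ σ = liftN ksN 0 := by
      ext p q
      cases p with
      | inl p =>
        cases q with
        | inl q => rfl
        | inr q => exact q.elim0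
      | inr p => exact p.elim0
    have h2 : M.submatrix σ σ = liftN M.transpose 0 := by
      ext p q
      cases p with
      | inl p =>
        cases q with
        | inl q => rfl
        | inr q => exact q.elim0
      | inr p => exact p.elim0
    rw [h1, h2] at h
    exact h
  · refine not_inABV_lift hMt i j ?_
    rw [← Matrix.transpose_mul, Matrix.transpose_apply]
    exact hij

end Pool.Agent.H495
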