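import Mathlib

namespace Pool.Agent.H495

open Finset

variable {L : Type} [AddCommGroup L] [Module ℂ L]

/-- Common kernel of commuting locally nilpotent operators. -/
theorem common_kernel {κ : Type*} (T : κ → Module.End ℂ L)
    (hc : ∀ i j, T i * T j = T j * T i) (hn : ∀ i, ∀ u : L, ∃ k : ℕ, ((T i) ^ k) u = 0)
    (W : Submodule ℂ L) (hW : ∀ i, ∀ w ∈ W, T i w ∈ W) (s : Finset κ) {w : L} (hw : w ∈ W)
    (h0 : w ≠ 0) : ∃ v ∈ W, v ≠ 0 ∧ ∀ i ∈ s, T i v = 0 := by
  classical
  induction s using Finset.induction_on with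
  | empty => exact ⟨w, hw, h0, by simp⟩
  | insert a s ha ih =>
    obtain ⟨v, hv, hv0, hvs⟩ := ih
    have hex := hn a v
    set k := Nat.find hex with hk
    have hk1 : ((T a) ^ k) v = 0 := Nat.find_spec hex
    have hkpos : k ≠ 0 := by
      intro h; rw [h] at hk1; exact hv0 (by simpa using hk1)
    obtain ⟨m, hm⟩ := Nat.exists_eq_succ_of_ne_zero hkpos
    refine ⟨((T a) ^ m) v, ?_, ?_, ?_⟩
    · clear hk1 hm
      induction m with
      | zero => simpa using hv
      | succ m ihm => rw [pow_succ', Module.End.mul_apply]; exact hW a _ ihm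
    · exact Nat.find_min hex (by omega)
    · intro i hi
      rcases Finset.mem_insert.1 hi with rfl | hi
      · rw [← Module.End.mul_apply, ← pow_succ', ← Nat.succ_eq_add_one, ← hm]; exact hk1
      · have hcomm : T i * (T a) ^ m = (T a) ^ m * T i := by
          have : Commute (T i) (T a) := hc i a
          exact this.pow_right m
        rw [← Module.End.mul_apply, hcomm, Module.End.mul_apply, hvs i hi, map_zero]

/-- An eigenvector of a locally diagonalisable operator. -/
theorem exists_eigen (T : Module.End ℂ L)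
    (hn : ∀ u : L, ∃ s : Finset ℤ,
      Polynomial.aeval T (∏ j ∈ s, (Polynomial.X - Polynomial.C (j : ℂ))) u = 0)
    (W : Submodule ℂ L) (hW : ∀ w ∈ W, T w ∈ W) {w : L} (hw : w ∈ W)
    (h0 : w ≠ 0) : ∃ v ∈ W, v ≠ 0 ∧ ∃ m : ℤ, T v = (m : ℂ) • v := by
  classical
  obtain ⟨s, hs⟩ := hn w
  induction s using Finset.induction_on generalizing w with
  | empty => simp at hs; exact absurd hs h0
  | insert a s ha ih =>
    rw [Finset.prod_insert ha, mul_comm, map_mul, Module.End.mul_apply] at hs
    have this : Polynomial.aeval T (Polynomial.X - Polynomial.C (a : ℂ)) w = T w - (a : ℂ) • w := by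
      rw [map_sub, Polynomial.aeval_X, Polynomial.aeval_C, LinearMap.sub_apply,
        Module.algebraMap_end_apply]
    by_cases h : Polynomial.aeval T (Polynomial.X - Polynomial.C (a : ℂ)) w = 0
    · refine ⟨w, hw, h0, a, ?_⟩
      rw [this, sub_eq_zero] at h
      exact h
    · refine ih ?_ h hs
      rw [this]
      exact W.sub_mem (hW w hw) (W.smul_mem _ hw)

/-- Basic `sl₂`-theory: a primitive vector of weight `μ` on which `f` is nilpotent has `μ ∈ ℕ`, and
`f` kills it if `μ = 0`. -/
theorem sl2_prim {E F : Module.End ℂ L} {w : L} (h0 : w ≠ 0) {μ : ℂ} (he : E w = 0)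
    (hh : (E * F - F * E) w = μ • w)
    (hf : (E * F - F * E) * F - F * (E * F - F * E) = -(2 : ℂ) • F)
    (hn : ∃ k : ℕ, (F ^ k) w = 0) : ∃ n : ℕ, μ = n ∧ (n = 0 → F w = 0) := by
  classical
  set H := E * F - F * E with hH
  have hHF : ∀ k : ℕ, H ((F ^ k) w) = (μ - 2 * k) • (F ^ k) w := by
    intro k
    induction k with
    | zero => simpa using hh
    | succ k ih =>
      have h1 : H (F ((F ^ k) w)) = F (H ((F ^ k) w)) + (-(2 : ℂ)) • F ((F ^ k) w) := by
        have := congrArg (fun T => T ((F ^ k) w)) hf
        simp only [LinearMap.sub_apply, Module.End.mul_apply, LinearMap.smul_apply] at this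
        rw [sub_eq_iff_eq_add] at this
        rw [this]; abel
      rw [pow_succ', Module.End.mul_apply, h1, ih, map_smul, ← add_smul]
      congr 1; push_cast; ring
  have hEF : ∀ k : ℕ, E ((F ^ (k + 1)) w) = ((k + 1) * (μ - k) : ℂ) • (F ^ k) w := by
    intro k
    induction k with
    | zero =>
      have : E (F w) = H w + F (E w) := by simp [hH]
      simp only [zero_add, pow_one, pow_zero]
      rw [this, he, map_zero, add_zero, hh]
      simp
    | succ k ih =>
      have : E (F ((F ^ (k + 1)) w)) = H ((F ^ (k + 1)) w) + F (E ((F ^ (k + 1)) w)) := by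
        simp [hH]
      rw [pow_succ', Module.End.mul_apply, this, hHF, ih, map_smul, ← Module.End.mul_apply F,
        ← pow_succ', ← add_smul]
      congr 1; push_cast; ring
  have hex := hn
  set k := Nat.find hex with hk
  have hk1 : (F ^ k) w = 0 := Nat.find_spec hex
  have hkpos : k ≠ 0 := by
    intro h; rw [h] at hk1; exact h0 (by simpa using hk1)
  obtain ⟨m, hm⟩ := Nat.exists_eq_succ_of_ne_zero hkpos
  have hm1 : (F ^ m) w ≠ 0 := Nat.find_min hex (by omega)
  have h2 := hEF m
  rw [← Nat.succ_eq_add_one, ← hm, hk1, map_zero] at h2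
  have h3 : ((m + 1) * (μ - m) : ℂ) = 0 := by
    by_contra hne
    exact hm1 ((smul_eq_zero.1 h2.symm).resolve_left hne)
  have h4 : μ = m := by
    rcases mul_eq_zero.1 h3 with h | h
    · exact absurd h (by exact_mod_cast Nat.succ_ne_zero m)
    · exact sub_eq_zero.1 h
  refine ⟨m, h4, ?_⟩
  rintro rfl
  rw [hm] at hk1
  simpa using hk1

/-- Structure of a `gl_n`-module with integrability and a matrix of functions on it. -/
structure GLData (n : ℕ) {R : Type} [CommRing R] (F : R →+* Module.End ℂ L)
    (E : Fin n → Fin n → Module.End ℂ L) (a : Matrix (Fin n) (Fin n) R) : Prop where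
  gl : ∀ i j k l, E i j * E k l - E k l * E i j =
    (if j = k then E i l else 0) - (if i = l then E k j else 0)
  nil : ∀ i j, i ≠ j → ∀ u : L, ∃ k : ℕ, ((E i j) ^ k) u = 0
  diag : ∀ i, ∀ u : L, ∃ s : Finset ℤ,
      Polynomial.aeval (E i i) (∏ j ∈ s, (Polynomial.X - Polynomial.C (j : ℂ))) u = 0
  act : ∀ i j k l, E i j * F (a k l) = F (a k l) * E i j + (if j = k then F (a i l) else 0)
  inj : ∀ (k : ℕ) (hk : k ≤ n) (w : L),
    F ((a.submatrix (Fin.castLE hk) (Fin.castLE hk)).det) w = 0 → w = 0

theorem GLData.restrict {n : ℕ} {R : Type} [CommRing R] {F : R →+* Module.End ℂ L}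
    {E : Fin (n + 1) → Fin (n + 1) → Module.End ℂ L} {a : Matrix (Fin (n + 1)) (Fin (n + 1)) R}
    (h : GLData (n + 1) F E a) :
    GLData n F (fun i j => E i.castSucc j.castSucc) (a.submatrix Fin.castSucc Fin.castSucc) where
  gl i j k l := by simpa using h.gl i.castSucc j.castSucc k.castSucc l.castSucc
  nil i j hij := h.nil _ _ (by simpa using hij)
  diag i := h.diag _
  act i j k l := by simpa using h.act i.castSucc j.castSucc k.castSucc l.castSucc
  inj k hk w hw := h.inj k (by omega) w (by
    rw [Matrix.submatrix_submatrix] at hw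
    exact hw)

theorem gl_invariant {n : ℕ} {R : Type} [CommRing R] {F : R →+* Module.End ℂ L}
    {E : Fin n → Fin n → Module.End ℂ L} {a : Matrix (Fin n) (Fin n) R} (h : GLData n F E a)
    (W : Submodule ℂ L) (hE : ∀ i j, ∀ w ∈ W, E i j w ∈ W) (ha : ∀ i j, ∀ w ∈ W, F (a i j) w ∈ W)
    {w₀ : L} (hw₀ : w₀ ∈ W) (h0 : w₀ ≠ 0) :
    ∃ w ∈ W, w ≠ 0 ∧ (∀ i j, i ≠ j → E i j w = 0) ∧ (∀ i j, E i i w = E j j w) := by
  classical
  induction n generalizing W w₀ with
  | zero => exact ⟨w₀, hw₀, h0, fun i => i.elim0, fun i => i.elim0⟩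
  | succ n ih =>
    -- commutation rules applied to vectors
    have cE : ∀ i j k l (v : L), E i j (E k l v) = E k l (E i j v) +
        ((if j = k then E i l v else 0) - (if i = l then E k j v else 0)) := by
      intro i j k l v
      have := congrArg (fun T => T v) (h.gl i j k l)
      simp only [LinearMap.sub_apply, Module.End.mul_apply] at this
      rw [sub_eq_iff_eq_add] at this
      rw [this]
      split_ifs <;> simp [add_comm]
    have cA : ∀ i j k l (v : L), E i j (F (a k l) v) = F (a k l) (E i j v) +
        (if j = k then F (a i l) v else 0) := by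
      intro i j k l v
      have := congrArg (fun T => T v) (h.act i j k l)
      simp only [LinearMap.add_apply, Module.End.mul_apply] at this
      rw [this]
      split_ifs <;> simp
    let lst := Fin.last n
    let W' : Submodule ℂ L :=
      { carrier := {w | w ∈ W ∧ ∀ i : Fin n, E i.castSucc lst w = 0}
        zero_mem' := ⟨W.zero_mem, fun i => map_zero _⟩
        add_mem' := fun ha hb => ⟨W.add_mem ha.1 hb.1, fun i => by
          rw [map_add, ha.2 i, hb.2 i, add_zero]⟩
        smul_mem' := fun c x hx => ⟨W.smul_mem c hx.1, fun i => by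
          rw [map_smul, hx.2 i, smul_zero]⟩ }
    have hcl : ∀ i : Fin n, (i.castSucc ≠ lst) := fun i => (Fin.castSucc_lt_last i).ne
    have hlc : ∀ i : Fin n, (lst ≠ i.castSucc) := fun i => (hcl i).symm
    obtain ⟨v₁, hv₁W, hv₁0, hv₁⟩ := common_kernel (fun i : Fin n => E i.castSucc lst)
      (by
        intro i j
        have := h.gl i.castSucc lst j.castSucc lst
        rw [if_neg (hlc j), if_neg (hcl i), sub_zero] at this
        exact sub_eq_zero.1 this)
      (fun i => h.nil _ _ (hcl i)) W (fun i w hw => hE _ _ w hw) Finset.univ hw₀ h0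
    have hv₁' : v₁ ∈ W' := ⟨hv₁W, fun i => hv₁ i (mem_univ i)⟩
    have hW'E : ∀ i j : Fin n, ∀ w ∈ W', E i.castSucc j.castSucc w ∈ W' := by
      intro i j w hw
      refine ⟨hE _ _ w hw.1, fun k => ?_⟩
      rw [cE, hw.2 k, map_zero, zero_add, if_neg (hlc i)]
      split_ifs with h1
      · rw [hw.2 i]; simp
      · simp
    have hW'a : ∀ i j : Fin n, ∀ w ∈ W', F (a i.castSucc j.castSucc) w ∈ W' := by
      intro i j w hw
      refine ⟨ha _ _ w hw.1, fun k => ?_⟩
      rw [cA, hw.2 k, map_zero, zero_add, if_neg (hlc i)]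
    obtain ⟨w₁, hw₁W, hw₁0, hw₁E, hw₁d⟩ := ih h.restrict W' hW'E hW'a hv₁' hv₁0
    -- the subspace of gl_n-invariants (up to a character) in W'
    let W'' : Submodule ℂ L :=
      { carrier := {w | w ∈ W' ∧ (∀ i j : Fin n, i ≠ j → E i.castSucc j.castSucc w = 0) ∧
          ∀ i j : Fin n, E i.castSucc i.castSucc w = E j.castSucc j.castSucc w}
        zero_mem' := ⟨W'.zero_mem, fun i j _ => map_zero _, fun i j => by simp⟩
        add_mem' := fun ha hb => ⟨W'.add_mem ha.1 hb.1, fun i j hij => by
          rw [map_add, ha.2.1 i j hij, hb.2.1 i j hij, add_zero], fun i j => by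
          rw [map_add, map_add, ha.2.2 i j, hb.2.2 i j]⟩
        smul_mem' := fun c x hx => ⟨W'.smul_mem c hx.1, fun i j hij => by
          rw [map_smul, hx.2.1 i j hij, smul_zero], fun i j => by
          rw [map_smul, map_smul, hx.2.2 i j]⟩ }
    have hw₁'' : w₁ ∈ W'' := ⟨hw₁W, hw₁E, hw₁d⟩
    rcases Nat.eq_zero_or_pos n with hn | hn
    · subst hn
      refine ⟨w₁, hw₁W.1, hw₁0, fun i j hij => absurd (Subsingleton.elim (α := Fin 1) i j) hij,
        fun i j => by rw [Subsingleton.elim (α := Fin 1) i j]⟩
    let z : Fin n := ⟨0, hn⟩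
    -- stability of W''
    have hW''l : ∀ w ∈ W'', E lst lst w ∈ W'' := by
      intro w hw
      refine ⟨⟨hE _ _ w hw.1.1, fun k => ?_⟩, fun i j hij => ?_, fun i j => ?_⟩
      · rw [cE, hw.1.2 k, map_zero, zero_add, if_pos rfl, if_neg (hcl k), sub_zero]
      · rw [cE, hw.2.1 i j hij, map_zero, zero_add, if_neg (hcl j), if_neg (hcl i), sub_zero]
      · rw [cE, cE j.castSucc, hw.2.2 i j, if_neg (hcl i), if_neg (hcl i), if_neg (hcl j),
          if_neg (hcl j)]
    have hW''z : ∀ w ∈ W'', E z.castSucc z.castSucc w ∈ W'' := by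
      intro w hw
      refine ⟨⟨hE _ _ w hw.1.1, fun k => ?_⟩, fun i j hij => ?_, fun i j => ?_⟩
      · rw [cE, hw.1.2 k, map_zero, zero_add, if_neg (hlc z)]
        split_ifs with h1
        · rw [hw.1.2 z]; simp
        · simp
      · rw [cE, hw.2.1 i j hij, map_zero, zero_add]
        split_ifs with h1 h2 h2
        · exact absurd (by rw [Fin.castSucc_injective n h1, Fin.castSucc_injective n h2]) hij
        · have : i ≠ z := fun h => h2 (by rw [h])
          rw [hw.2.1 i z this, sub_zero]
        · have : z ≠ j := fun h => h1 (by rw [h])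
          rw [hw.2.1 z j this, sub_zero]
        · simp
      · have hdd : ∀ i : Fin n, E i.castSucc i.castSucc (E z.castSucc z.castSucc w) =
            E z.castSucc z.castSucc (E i.castSucc i.castSucc w) := by
          intro i
          rw [cE]
          split_ifs with h1
          · rw [Fin.castSucc_injective n h1]; simp
          · simp
        rw [hdd, hdd, hw.2.2 i j]
    -- eigenvectors
    obtain ⟨w₂, hw₂, hw₂0, m, hm⟩ := exists_eigen (E z.castSucc z.castSucc) (h.diag _) W'' hW''z
      hw₁'' hw₁0
    let W3 : Submodule ℂ L :=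
      { carrier := {w | w ∈ W'' ∧ E z.castSucc z.castSucc w = (m : ℂ) • w}
        zero_mem' := ⟨W''.zero_mem, by simp⟩
        add_mem' := fun ha hb => ⟨W''.add_mem ha.1 hb.1, by rw [map_add, ha.2, hb.2, smul_add]⟩
        smul_mem' := fun c x hx => ⟨W''.smul_mem c hx.1, by rw [map_smul, hx.2, smul_comm]⟩ }
    obtain ⟨w₃, hw₃, hw₃0, κ, hκ⟩ := exists_eigen (E lst lst) (h.diag _) W3
      (by
        intro w hw
        refine ⟨hW''l w hw.1, ?_⟩
        rw [cE, hw.2, if_neg (hcl z), if_neg (hcl z), sub_zero, add_zero, map_smul])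
      ⟨hw₂, hm⟩ hw₂0
    -- sl2 fact
    have key : ∀ w ∈ W'', w ≠ 0 → ∀ μ : ℂ, E z.castSucc z.castSucc w - E lst lst w = μ • w →
        ∃ N : ℕ, μ = N ∧ (N = 0 → ∀ i : Fin n, E lst i.castSucc w = 0) := by
      intro w hw hw0 μ hμ
      have hcomm : ∀ i : Fin n, E i.castSucc lst * E lst i.castSucc -
          E lst i.castSucc * E i.castSucc lst =
          E i.castSucc i.castSucc - E lst lst := by
        intro i
        have := h.gl i.castSucc lst lst i.castSucc
        rwa [if_pos rfl, if_pos rfl] at this
      have hF : ∀ i : Fin n, (E i.castSucc lst * E lst i.castSucc -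
          E lst i.castSucc * E i.castSucc lst) * E lst i.castSucc - E lst i.castSucc *
          (E i.castSucc lst * E lst i.castSucc - E lst i.castSucc * E i.castSucc lst) =
          -(2 : ℂ) • E lst i.castSucc := by
        intro i
        rw [hcomm]
        have h1 := h.gl i.castSucc i.castSucc lst i.castSucc
        have h2 := h.gl lst lst lst i.castSucc
        rw [if_neg (hcl i), if_pos rfl, zero_sub] at h1
        rw [if_pos rfl, if_neg (hlc i), sub_zero] at h2
        calc _ = (E i.castSucc i.castSucc * E lst i.castSucc -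
              E lst i.castSucc * E i.castSucc i.castSucc) -
              (E lst lst * E lst i.castSucc - E lst i.castSucc * E lst lst) := by noncomm_ring
          _ = _ := by rw [h1, h2, neg_smul, two_smul]; abel
      have hall : ∀ i : Fin n, ∃ N : ℕ, μ = N ∧ (N = 0 → E lst i.castSucc w = 0) := by
        intro i
        refine sl2_prim hw0 (hw.1.2 i) ?_ (hF i) (h.nil _ _ (hlc i) w)
        rw [hcomm, LinearMap.sub_apply, hw.2.2 i z, hμ]
      obtain ⟨N, hN, -⟩ := hall z
      refine ⟨N, hN, fun hN0 i => ?_⟩
      obtain ⟨N', hN', h2⟩ := hall i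
      apply h2
      rw [hN, hN0] at hN'
      exact_mod_cast hN'.symm
    -- minimal weight
    have hex : ∃ N : ℕ, ∃ w ∈ W'', w ≠ 0 ∧
        E z.castSucc z.castSucc w - E lst lst w = (N : ℂ) • w := by
      obtain ⟨N, hN, -⟩ := key w₃ hw₃.1 hw₃0 ((m : ℂ) - κ) (by rw [hw₃.2, hκ, sub_smul])
      exact ⟨N, w₃, hw₃.1, hw₃0, by rw [hw₃.2, hκ, ← sub_smul, hN]⟩
    set N := Nat.find hex with hNdef
    obtain ⟨w, hw, hw0, hwN⟩ := Nat.find_spec hex
    rw [← hNdef] at hwN
    have hmin : ∀ M : ℕ, M < N → ∀ w ∈ W'',
        E z.castSucc z.castSucc w - E lst lst w = (M : ℂ) • w → w = 0 := by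
      intro M hM w hw hw'
      by_contra hne
      exact Nat.find_min hex hM ⟨w, hw, hne, hw'⟩
    rcases Nat.eq_zero_or_pos N with hN0 | hNpos
    · -- done
      obtain ⟨N', hN', h3⟩ := key w hw hw0 N hwN
      have hN'0 : N' = 0 := by
        rw [hN0] at hN'; exact_mod_cast hN'.symm
      have h4 := h3 hN'0
      have h5 : E z.castSucc z.castSucc w = E lst lst w := by
        rw [← sub_eq_zero, hwN, hN0]; simp
      refine ⟨w, hw.1.1, hw0, fun i j hij => ?_, fun i j => ?_⟩
      · induction i using Fin.lastCases with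
        | last =>
          induction j using Fin.lastCases with
          | last => exact absurd rfl hij
          | cast j => exact h4 j
        | cast i =>
          induction j using Fin.lastCases with
          | last => exact hw.1.2 i
          | cast j => exact hw.2.1 i j (fun h => hij (by rw [h]))
      · have h6 : ∀ i : Fin (n + 1), E i i w = E lst lst w := by
          intro i
          induction i using Fin.lastCases with
          | last => rfl
          | cast i => rw [hw.2.2 i z, h5]
        rw [h6, h6 j]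
    · exfalso
      -- the vectors z_c
      let zz : Fin (n + 1) → L → L := fun c v =>
        (N : ℂ) • F (a lst c) v - ∑ i : Fin n, F (a i.castSucc c) (E lst i.castSucc v)
      have hzW : ∀ c, zz c w ∈ W := fun c =>
        W.sub_mem (W.smul_mem _ (ha _ _ w hw.1.1))
          (W.sum_mem fun i _ => ha _ _ _ (hE _ _ _ hw.1.1))
      have hz1 : ∀ c, ∀ j : Fin n, E j.castSucc lst (zz c w) = 0 := by
        intro c j
        have h1 : ∀ i : Fin n, E j.castSucc lst (F (a i.castSucc c) (E lst i.castSucc w)) =
            if j = i then F (a j.castSucc c) ((N : ℂ) • w) else 0 := by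
          intro i
          rw [cA, if_neg (hlc i), add_zero, cE, hw.1.2 j, map_zero, zero_add, if_pos rfl]
          by_cases hji : j = i
          · subst hji
            rw [if_pos rfl, if_pos rfl, hw.2.2 j z, hwN]
          · rw [if_neg (by simpa using hji), if_neg hji, hw.2.1 j i hji]; simp
        simp only [zz]
        rw [map_sub, map_sum, Finset.sum_congr rfl fun i _ => h1 i, Finset.sum_ite_eq,
          if_pos (mem_univ j), map_smul, cA, if_pos rfl, hw.1.2 j, map_zero, zero_add, map_smul,
          sub_self]
      have hz2 : ∀ c, ∀ p q : Fin n, p ≠ q → E p.castSucc q.castSucc (zz c w) = 0 := by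
        intro c p q hpq
        have h1 : ∀ i : Fin n, E p.castSucc q.castSucc (F (a i.castSucc c) (E lst i.castSucc w)) =
            (if q = i then F (a p.castSucc c) (E lst q.castSucc w) else 0) -
            (if p = i then F (a p.castSucc c) (E lst q.castSucc w) else 0) := by
          intro i
          rw [cA, cE, hw.2.1 p q hpq, map_zero, zero_add, if_neg (hcl q)]
          by_cases hqi : q = i
          · subst hqi
            simp [hpq]
          · by_cases hpi : p = i
            · subst hpi; simp [hqi]
            · simp [hqi, hpi]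
        simp only [zz]
        rw [map_sub, map_sum, Finset.sum_congr rfl fun i _ => h1 i, Finset.sum_sub_distrib,
          Finset.sum_ite_eq, Finset.sum_ite_eq, if_pos (mem_univ _), if_pos (mem_univ _), sub_self,
          map_smul, cA, if_neg (hcl q), hw.2.1 p q hpq, map_zero, add_zero, smul_zero, sub_zero]
      have hz3 : ∀ c, ∀ p : Fin n, E p.castSucc p.castSucc (zz c w) =
          zz c (E z.castSucc z.castSucc w) := by
        intro c p
        have h1 : ∀ i : Fin n, E p.castSucc p.castSucc (F (a i.castSucc c) (E lst i.castSucc w)) =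
            F (a i.castSucc c) (E lst i.castSucc (E p.castSucc p.castSucc w)) := by
          intro i
          rw [cA, cE, if_neg (hcl p)]
          by_cases hpi : p = i
          · subst hpi; simp
          · simp [hpi]
        simp only [zz]
        rw [map_sub, map_sum, Finset.sum_congr rfl fun i _ => h1 i, map_smul, cA, if_neg (hcl p),
          add_zero, hw.2.2 p z]
      have hz4 : ∀ c, E lst lst (zz c w) = zz c (E lst lst w) + zz c w := by
        intro c
        have h1 : ∀ i : Fin n, E lst lst (F (a i.castSucc c) (E lst i.castSucc w)) =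
            F (a i.castSucc c) (E lst i.castSucc (E lst lst w)) +
            F (a i.castSucc c) (E lst i.castSucc w) := by
          intro i
          rw [cA, cE, if_neg (hlc i), if_pos rfl, if_neg (hlc i), sub_zero, add_zero, map_add]
        simp only [zz]
        rw [map_sub, map_sum, Finset.sum_congr rfl fun i _ => h1 i, Finset.sum_add_distrib,
          map_smul, cA, if_pos rfl, smul_add]
        abel
      have hzz_sub : ∀ c v v', zz c (v - v') = zz c v - zz c v' := by
        intro c v v'
        simp only [zz, map_sub, smul_sub, Finset.sum_sub_distrib]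
        abel
      have hzz_smul : ∀ c (t : ℂ) v, zz c (t • v) = t • zz c v := by
        intro c t v
        simp only [zz, map_smul, smul_sub, Finset.smul_sum, smul_comm t (N : ℂ)]
      have hz0 : ∀ c, zz c w = 0 := by
        intro c
        refine hmin (N - 1) (by omega) _ ⟨⟨hzW c, hz1 c⟩, hz2 c, fun i j => ?_⟩ ?_
        · rw [hz3, hz3]
        · rw [hz3, hz4, ← sub_sub, ← hzz_sub, hwN, hzz_smul]
          have : ((N - 1 : ℕ) : ℂ) = (N : ℂ) - 1 := by
            rw [Nat.cast_sub (by omega)]; simp
          rw [this, sub_smul, one_smul]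
      -- cofactor combination
      have hdet : F a.det w = 0 := by
        have h1 : ∑ c, F (a.adjugate c lst) (zz c w) = 0 := by
          simp [hz0]
        have h2 : ∀ i : Fin (n + 1), ∀ v : L, ∑ c, F (a.adjugate c lst) (F (a i c) v) =
            if i = lst then F a.det v else 0 := by
          intro i v
          have h3 := congrFun (congrFun (Matrix.mul_adjugate a) i) lst
          rw [Matrix.mul_apply, Matrix.smul_apply, Matrix.one_apply] at h3
          have h4 : ∑ c, F (a.adjugate c lst) (F (a i c) v) = F (∑ c, a i c * a.adjugate c lst) v := by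
            rw [map_sum, LinearMap.sum_apply]
            refine Finset.sum_congr rfl fun c _ => ?_
            rw [mul_comm, map_mul, Module.End.mul_apply]
          rw [h4, h3]
          split_ifs <;> simp
        simp only [zz, map_sub, map_sum, map_smul, Finset.sum_sub_distrib] at h1
        rw [← Finset.smul_sum, h2, if_pos rfl, Finset.sum_comm] at h1
        have h5 : ∀ i : Fin n, ∑ c, F (a.adjugate c lst) (F (a i.castSucc c) (E lst i.castSucc w)) = 0 := by
          intro i
          rw [h2, if_neg (hcl i)]
        rw [Finset.sum_congr rfl fun i _ => h5 i, Finset.sum_const_zero, sub_zero] at h1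
        rcases smul_eq_zero.1 h1 with h6 | h6
        · exact absurd (by exact_mod_cast h6) (by omega : N ≠ 0)
        · exact h6
      refine hw0 (h.inj (n + 1) le_rfl w ?_)
      have : (a.submatrix (Fin.castLE (le_refl (n + 1))) (Fin.castLE (le_refl (n + 1)))) = a := by
        ext i j; simp
      rw [this]; exact hdet

end Pool.Agent.H495
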