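import Pool.Agent.H495.Lie
import Pool.Agent.H495.LemmaH

namespace Pool.Agent.H495

open MvPolynomial

/-- Basis of the `17`-dimensional (`m = 3`) or `16`-dimensional (`m = 2`) space. -/
inductive Ix (m : ℕ) : Type
  | e1 (i : Fin 2) : Ix m
  | b (i : Fin m) : Ix m
  | p2 (i : Fin 2) : Ix m
  | e3 (i : Fin 4) : Ix m
  | p4 (i : Fin 2) : Ix m
  | b4 (i : Fin 2) : Ix m
  | e5 (i : Fin 2) : Ix m
  deriving DecidableEq

namespace Ix

variable {m : ℕ}

/-- `Ix m` as a sum type. -/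
def equivSum (m : ℕ) : Ix m ≃ (Fin 2 ⊕ Fin m) ⊕ (Fin 2 ⊕ Fin 4) ⊕ (Fin 2 ⊕ Fin 2) ⊕ Fin 2 where
  toFun
    | e1 i => .inl (.inl i)
    | b i => .inl (.inr i)
    | p2 i => .inr (.inl (.inl i))
    | e3 i => .inr (.inl (.inr i))
    | p4 i => .inr (.inr (.inl (.inl i)))
    | b4 i => .inr (.inr (.inl (.inr i)))
    | e5 i => .inr (.inr (.inr i))
  invFun
    | .inl (.inl i) => e1 i
    | .inl (.inr i) => b i
    | .inr (.inl (.inl i)) => p2 i
    | .inr (.inl (.inr i)) => e3 i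
    | .inr (.inr (.inl (.inl i))) => p4 i
    | .inr (.inr (.inl (.inr i))) => b4 i
    | .inr (.inr (.inr i)) => e5 i
  left_inv x := by cases x <;> rfl
  right_inv x := by rcases x with (x | x) | ((x | x) | ((x | x) | x)) <;> rfl

instance : Fintype (Ix m) := Fintype.ofEquiv _ (equivSum m).symm

theorem sum_ix {M : Type*} [AddCommMonoid M] (f : Ix m → M) :
    ∑ r, f r = (∑ i, f (e1 i)) + (∑ i, f (b i)) + (∑ i, f (p2 i)) + (∑ i, f (e3 i)) +
      (∑ i, f (p4 i)) + (∑ i, f (b4 i)) + ∑ i, f (e5 i) := by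
  rw [← (equivSum m).symm.sum_comp]
  simp only [Fintype.sum_sum_type, equivSum, Equiv.coe_fn_symm_mk, add_assoc]

/-- The exponents. -/
def lev : Ix m → ℚ
  | e1 _ => -1
  | b _ => 0
  | p2 _ => 0
  | e3 _ => 1
  | p4 _ => 2
  | b4 _ => 2
  | e5 _ => 3

/-- The grading. -/
def wt : Ix m → ℕ
  | e1 _ => 0
  | b _ => 0
  | p2 _ => 1
  | e3 _ => 1
  | p4 _ => 1
  | b4 _ => 2
  | e5 _ => 2

/-- The Fourier-transformed coordinates: those of weight one. -/
def FT (j : Idx (lev (m := m))) : Prop := wt j.1.1 = wt j.1.2 + 1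

instance : DecidablePred (FT (m := m)) := fun _ => inferInstanceAs (Decidable (_ = _))

end Ix

end Pool.Agent.H495
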