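import Pool.Agent.H495.Mixed
import Pool.Agent.H495.Ix
import Pool.Agent.H495.Act

/-! Function matrices on the (Fourier-transformed) Vogan variety, and their transformation laws. -/

namespace Pool.Agent.H495

open MvPolynomial Ix

/-- Functions in the mixed variables. -/
abbrev RR (m : ℕ) := MvPolynomial (Idx (lev (m := m))) ℂ

section

variable (m : ℕ)

noncomputable def mα : Matrix (Fin m) (Fin 2) (RR m) := fun k j => yv lev (b k) (e1 j)
noncomputable def mas : Matrix (Fin 2) (Fin 2) (RR m) := fun j l => yv lev (p2 l) (e1 j)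
noncomputable def mc : Matrix (Fin m) (Fin 4) (RR m) := fun k i => yv lev (e3 i) (b k)
noncomputable def mβ : Matrix (Fin 4) (Fin 2) (RR m) := fun i l => yv lev (e3 i) (p2 l)
noncomputable def mγ : Matrix (Fin 2) (Fin 4) (RR m) := fun k i => yv lev (p4 k) (e3 i)
noncomputable def md : Matrix (Fin 4) (Fin 2) (RR m) := fun i k => yv lev (b4 k) (e3 i)
noncomputable def mδ : Matrix (Fin 2) (Fin 2) (RR m) := fun m' k => yv lev (e5 m') (b4 k)
noncomputable def mbs : Matrix (Fin 2) (Fin 2) (RR m) := fun k m' => yv lev (e5 m') (p4 k)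

end

/-- The derivations of a group. -/
noncomputable def DD {m n : ℕ} (pos : Fin n → Ix m) (i j : Fin n) : Derivation ℂ (RR m) (RR m) :=
  der lev wt (pos i) (pos j)

variable {m : ℕ}

section tables

-- E3
theorem E3_α : ScM (DD (m := m) e3) 0 (mα m) := by
  intro k l i j
  simp [DD, der_yv, lev, wt, mα, mas, mc, mβ, mγ, md, mδ, mbs, eq_comm]
theorem E3_as : ScM (DD (m := m) e3) 0 (mas m) := by
  intro k l i j
  simp [DD, der_yv, lev, wt, mα, mas, mc, mβ, mγ, md, mδ, mbs, eq_comm]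
theorem E3_c : ColM (DD (m := m) e3) 0 (mc m) := by
  intro k i j l
  simp [DD, der_yv, lev, wt, mα, mas, mc, mβ, mγ, md, mδ, mbs, eq_comm]
theorem E3_β : RowM (DD (m := m) e3) 0 (mβ m) := by
  intro k i j l
  simp [DD, der_yv, lev, wt, mα, mas, mc, mβ, mγ, md, mδ, mbs, eq_comm]
theorem E3_γ : ColM (DD (m := m) e3) 0 (mγ m) := by
  intro k i j l
  simp [DD, der_yv, lev, wt, mα, mas, mc, mβ, mγ, md, mδ, mbs, eq_comm]
theorem E3_d : RowM (DD (m := m) e3) 0 (md m) := by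
  intro k i j l
  simp [DD, der_yv, lev, wt, mα, mas, mc, mβ, mγ, md, mδ, mbs, eq_comm]
theorem E3_δ : ScM (DD (m := m) e3) 0 (mδ m) := by
  intro k l i j
  simp [DD, der_yv, lev, wt, mα, mas, mc, mβ, mγ, md, mδ, mbs, eq_comm]
theorem E3_bs : ScM (DD (m := m) e3) 0 (mbs m) := by
  intro k l i j
  simp [DD, der_yv, lev, wt, mα, mas, mc, mβ, mγ, md, mδ, mbs, eq_comm]
-- B
theorem B_α : RowM (DD (m := m) b) 0 (mα m) := by
  intro k l i j
  simp [DD, der_yv, lev, wt, mα, mas, mc, mβ, mγ, md, mδ, mbs, eq_comm]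
theorem B_as : ScM (DD (m := m) b) 0 (mas m) := by
  intro k l i j
  simp [DD, der_yv, lev, wt, mα, mas, mc, mβ, mγ, md, mδ, mbs, eq_comm]
theorem B_c : RowM (DD (m := m) b) 0 (mc m) := by
  intro k i j l
  simp [DD, der_yv, lev, wt, mα, mas, mc, mβ, mγ, md, mδ, mbs, eq_comm]
theorem B_β : ScM (DD (m := m) b) 0 (mβ m) := by
  intro k i j l
  simp [DD, der_yv, lev, wt, mα, mas, mc, mβ, mγ, md, mδ, mbs, eq_comm]
theorem B_γ : ScM (DD (m := m) b) 0 (mγ m) := by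
  intro k i j l
  simp [DD, der_yv, lev, wt, mα, mas, mc, mβ, mγ, md, mδ, mbs, eq_comm]
theorem B_d : ScM (DD (m := m) b) 0 (md m) := by
  intro k i j l
  simp [DD, der_yv, lev, wt, mα, mas, mc, mβ, mγ, md, mδ, mbs, eq_comm]
theorem B_δ : ScM (DD (m := m) b) 0 (mδ m) := by
  intro k l i j
  simp [DD, der_yv, lev, wt, mα, mas, mc, mβ, mγ, md, mδ, mbs, eq_comm]
theorem B_bs : ScM (DD (m := m) b) 0 (mbs m) := by
  intro k l i j
  simp [DD, der_yv, lev, wt, mα, mas, mc, mβ, mγ, md, mδ, mbs, eq_comm]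
-- E1
theorem E1_α : ColM (DD (m := m) e1) 0 (mα m) := by
  intro k l i j
  simp [DD, der_yv, lev, wt, mα, mas, mc, mβ, mγ, md, mδ, mbs, eq_comm]
theorem E1_as : RowM (DD (m := m) e1) 0 (mas m) := by
  intro k l i j
  simp [DD, der_yv, lev, wt, mα, mas, mc, mβ, mγ, md, mδ, mbs, eq_comm]
theorem E1_c : ScM (DD (m := m) e1) 0 (mc m) := by
  intro k i j l
  simp [DD, der_yv, lev, wt, mα, mas, mc, mβ, mγ, md, mδ, mbs, eq_comm]
theorem E1_β : ScM (DD (m := m) e1) 0 (mβ m) := by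
  intro k i j l
  simp [DD, der_yv, lev, wt, mα, mas, mc, mβ, mγ, md, mδ, mbs, eq_comm]
theorem E1_γ : ScM (DD (m := m) e1) 0 (mγ m) := by
  intro k i j l
  simp [DD, der_yv, lev, wt, mα, mas, mc, mβ, mγ, md, mδ, mbs, eq_comm]
theorem E1_d : ScM (DD (m := m) e1) 0 (md m) := by
  intro k i j l
  simp [DD, der_yv, lev, wt, mα, mas, mc, mβ, mγ, md, mδ, mbs, eq_comm]
theorem E1_δ : ScM (DD (m := m) e1) 0 (mδ m) := by
  intro k l i j
  simp [DD, der_yv, lev, wt, mα, mas, mc, mβ, mγ, md, mδ, mbs, eq_comm]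
theorem E1_bs : ScM (DD (m := m) e1) 0 (mbs m) := by
  intro k l i j
  simp [DD, der_yv, lev, wt, mα, mas, mc, mβ, mγ, md, mδ, mbs, eq_comm]
-- E5
theorem E5_α : ScM (DD (m := m) e5) 0 (mα m) := by
  intro k l i j
  simp [DD, der_yv, lev, wt, mα, mas, mc, mβ, mγ, md, mδ, mbs, eq_comm]
theorem E5_as : ScM (DD (m := m) e5) 0 (mas m) := by
  intro k l i j
  simp [DD, der_yv, lev, wt, mα, mas, mc, mβ, mγ, md, mδ, mbs, eq_comm]
theorem E5_c : ScM (DD (m := m) e5) 0 (mc m) := by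
  intro k i j l
  simp [DD, der_yv, lev, wt, mα, mas, mc, mβ, mγ, md, mδ, mbs, eq_comm]
theorem E5_β : ScM (DD (m := m) e5) 0 (mβ m) := by
  intro k i j l
  simp [DD, der_yv, lev, wt, mα, mas, mc, mβ, mγ, md, mδ, mbs, eq_comm]
theorem E5_γ : ScM (DD (m := m) e5) 0 (mγ m) := by
  intro k i j l
  simp [DD, der_yv, lev, wt, mα, mas, mc, mβ, mγ, md, mδ, mbs, eq_comm]
theorem E5_d : ScM (DD (m := m) e5) 0 (md m) := by
  intro k i j l
  simp [DD, der_yv, lev, wt, mα, mas, mc, mβ, mγ, md, mδ, mbs, eq_comm]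
theorem E5_δ : RowM (DD (m := m) e5) 0 (mδ m) := by
  intro k l i j
  simp [DD, der_yv, lev, wt, mα, mas, mc, mβ, mγ, md, mδ, mbs, eq_comm]
theorem E5_bs : ColM (DD (m := m) e5) 0 (mbs m) := by
  intro k l i j
  simp [DD, der_yv, lev, wt, mα, mas, mc, mβ, mγ, md, mδ, mbs, eq_comm]
-- P2
theorem P2_α : ScM (DD (m := m) p2) 0 (mα m) := by
  intro k l i j
  simp [DD, der_yv, lev, wt, mα, mas, mc, mβ, mγ, md, mδ, mbs, eq_comm]
theorem P2_as : ColM (DD (m := m) p2) 0 (mas m) := by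
  intro k l i j
  simp [DD, der_yv, lev, wt, mα, mas, mc, mβ, mγ, md, mδ, mbs, eq_comm]
theorem P2_c : ScM (DD (m := m) p2) 0 (mc m) := by
  intro k i j l
  simp [DD, der_yv, lev, wt, mα, mas, mc, mβ, mγ, md, mδ, mbs, eq_comm]
theorem P2_β : ColM (DD (m := m) p2) 0 (mβ m) := by
  intro k i j l
  simp [DD, der_yv, lev, wt, mα, mas, mc, mβ, mγ, md, mδ, mbs, eq_comm]
theorem P2_γ : ScM (DD (m := m) p2) 0 (mγ m) := by
  intro k i j l
  simp [DD, der_yv, lev, wt, mα, mas, mc, mβ, mγ, md, mδ, mbs, eq_comm]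
theorem P2_d : ScM (DD (m := m) p2) 0 (md m) := by
  intro k i j l
  simp [DD, der_yv, lev, wt, mα, mas, mc, mβ, mγ, md, mδ, mbs, eq_comm]
theorem P2_δ : ScM (DD (m := m) p2) 0 (mδ m) := by
  intro k l i j
  simp [DD, der_yv, lev, wt, mα, mas, mc, mβ, mγ, md, mδ, mbs, eq_comm]
theorem P2_bs : ScM (DD (m := m) p2) 0 (mbs m) := by
  intro k l i j
  simp [DD, der_yv, lev, wt, mα, mas, mc, mβ, mγ, md, mδ, mbs, eq_comm]
-- B4
theorem B4_α : ScM (DD (m := m) b4) 0 (mα m) := by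
  intro k l i j
  simp [DD, der_yv, lev, wt, mα, mas, mc, mβ, mγ, md, mδ, mbs, eq_comm]
theorem B4_as : ScM (DD (m := m) b4) 0 (mas m) := by
  intro k l i j
  simp [DD, der_yv, lev, wt, mα, mas, mc, mβ, mγ, md, mδ, mbs, eq_comm]
theorem B4_c : ScM (DD (m := m) b4) 0 (mc m) := by
  intro k i j l
  simp [DD, der_yv, lev, wt, mα, mas, mc, mβ, mγ, md, mδ, mbs, eq_comm]
theorem B4_β : ScM (DD (m := m) b4) 0 (mβ m) := by
  intro k i j l
  simp [DD, der_yv, lev, wt, mα, mas, mc, mβ, mγ, md, mδ, mbs, eq_comm]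
theorem B4_γ : ScM (DD (m := m) b4) 0 (mγ m) := by
  intro k i j l
  simp [DD, der_yv, lev, wt, mα, mas, mc, mβ, mγ, md, mδ, mbs, eq_comm]
theorem B4_d : ColM (DD (m := m) b4) 0 (md m) := by
  intro k i j l
  simp [DD, der_yv, lev, wt, mα, mas, mc, mβ, mγ, md, mδ, mbs, eq_comm]
theorem B4_δ : ColM (DD (m := m) b4) 0 (mδ m) := by
  intro k l i j
  simp [DD, der_yv, lev, wt, mα, mas, mc, mβ, mγ, md, mδ, mbs, eq_comm]
theorem B4_bs : ScM (DD (m := m) b4) 0 (mbs m) := by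
  intro k l i j
  simp [DD, der_yv, lev, wt, mα, mas, mc, mβ, mγ, md, mδ, mbs, eq_comm]
-- P4
theorem P4_α : ScM (DD (m := m) p4) 0 (mα m) := by
  intro k l i j
  simp [DD, der_yv, lev, wt, mα, mas, mc, mβ, mγ, md, mδ, mbs, eq_comm]
theorem P4_as : ScM (DD (m := m) p4) 0 (mas m) := by
  intro k l i j
  simp [DD, der_yv, lev, wt, mα, mas, mc, mβ, mγ, md, mδ, mbs, eq_comm]
theorem P4_c : ScM (DD (m := m) p4) 0 (mc m) := by
  intro k i j l
  simp [DD, der_yv, lev, wt, mα, mas, mc, mβ, mγ, md, mδ, mbs, eq_comm]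
theorem P4_β : ScM (DD (m := m) p4) 0 (mβ m) := by
  intro k i j l
  simp [DD, der_yv, lev, wt, mα, mas, mc, mβ, mγ, md, mδ, mbs, eq_comm]
theorem P4_γ : RowM (DD (m := m) p4) 0 (mγ m) := by
  intro k i j l
  simp [DD, der_yv, lev, wt, mα, mas, mc, mβ, mγ, md, mδ, mbs, eq_comm]
theorem P4_d : ScM (DD (m := m) p4) 0 (md m) := by
  intro k i j l
  simp [DD, der_yv, lev, wt, mα, mas, mc, mβ, mγ, md, mδ, mbs, eq_comm]
theorem P4_δ : ScM (DD (m := m) p4) 0 (mδ m) := by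
  intro k l i j
  simp [DD, der_yv, lev, wt, mα, mas, mc, mβ, mγ, md, mδ, mbs, eq_comm]
theorem P4_bs : RowM (DD (m := m) p4) 0 (mbs m) := by
  intro k l i j
  simp [DD, der_yv, lev, wt, mα, mas, mc, mβ, mγ, md, mδ, mbs, eq_comm]

end tables

end Pool.Agent.H495
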