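import Pool.Agent.H495.KSfun

namespace Pool.Agent.H495

open MvPolynomial Ix

noncomputable def mu' : Matrix (Fin 3) (Fin 2) (RR 3) := mc 3 * md 3
noncomputable def mv : Matrix (Fin 2) (Fin 2) (RR 3) := mγ 3 * mβ 3
noncomputable def mg : Matrix (Fin 2) (Fin 2) (RR 3) := mγ 3 * md 3
/-- covector on `B4` -/
noncomputable def y1 (k : Fin 2) : RR 3 :=
  det3 (fun i => mα 3 i 0) (fun i => mα 3 i 1) (fun i => mu' i k)
/-- covector on `E1` -/
noncomputable def y2 (j : Fin 2) : RR 3 :=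
  det3 (fun i => mu' i 0) (fun i => mu' i 1) (fun i => mα 3 i j)
/-- covector on `P2` -/
noncomputable def y3 (l : Fin 2) : RR 3 := ∑ j, y2 j * mas 3 j l
noncomputable def z1 (k : Fin 2) : RR 3 := det2 (fun l => mv k l) y3
noncomputable def z2 (k : Fin 2) : RR 3 := det2 (fun l => mg k l) y1
noncomputable def s1 : RR 3 := det2 (fun j => mas 3 j 0) (fun j => mas 3 j 1)
noncomputable def s2 : RR 3 := det2 (fun j => mv j 0) (fun j => mv j 1)
noncomputable def s3 : RR 3 := det2 (fun j => mbs 3 j 0) (fun j => mbs 3 j 1)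
noncomputable def s4 : RR 3 := det2 (fun j => mδ 3 j 0) (fun j => mδ 3 j 1)
noncomputable def aE3 : Matrix (Fin 4) (Fin 4) (RR 3) :=
  fun i => ![mβ 3 i 0, mβ 3 i 1, md 3 i 0, md 3 i 1]
noncomputable def aB : Matrix (Fin 3) (Fin 3) (RR 3) :=
  fun k => ![mu' k 0, mu' k 1, mα 3 k 0]
noncomputable def aP4 : Matrix (Fin 2) (Fin 2) (RR 3) := fun k => ![z1 k, z2 k]
/-- the `4 × 4` determinant `[β | d]` -/
noncomputable def s5 : RR 3 :=
  det4 (fun i => mβ 3 i 0) (fun i => mβ 3 i 1) (fun i => md 3 i 0) (fun i => md 3 i 1)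
noncomputable def s6 : RR 3 := det2 z1 z2

/-! #### transformation of the composite functions -/

theorem ScM.toFun {A B : Type} {R : Type} [CommRing R] [Algebra ℂ R] {n : ℕ}
    {D : Fin n → Fin n → Derivation ℂ R R} {c : ℤ} {M : Matrix A B R} (h : ScM D c M) (k : A)
    (l : B) : Sc D c (M k l) := h k l


section E3
theorem E3_u : ScM (DD (m := 3) e3) 0 mu' := by
  unfold mu'; exact (ColM.mul_row E3_c E3_d).congr (by norm_num)
theorem E3_v : ScM (DD (m := 3) e3) 0 mv := by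
  unfold mv; exact (ColM.mul_row E3_γ E3_β).congr (by norm_num)
theorem E3_g : ScM (DD (m := 3) e3) 0 mg := by
  unfold mg; exact (ColM.mul_row E3_γ E3_d).congr (by norm_num)
theorem E3_y1 (k) : Sc (DD (m := 3) e3) 0 (y1 k) := by
  unfold y1; exact (det3_sc (fun i => E3_α i 0) (fun i => E3_α i 1) (fun i => E3_u i k)).congr (by norm_num)
theorem E3_y2 (k) : Sc (DD (m := 3) e3) 0 (y2 k) := by
  unfold y2; exact (det3_sc (fun i => E3_u i 0) (fun i => E3_u i 1) (fun i => E3_α i k)).congr (by norm_num)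
theorem E3_y3 (k) : Sc (DD (m := 3) e3) (0) (y3 k) := by
  unfold y3; exact Sc.sum _ fun j _ => ((E3_y2 j).mul (E3_as j k)).congr (by norm_num)
theorem E3_z1 (k) : Sc (DD (m := 3) e3) (0) (z1 k) := by
  unfold z1; exact (det2_sc (fun l => E3_v k l) E3_y3).congr (by norm_num)
theorem E3_z2 (k) : Sc (DD (m := 3) e3) (0) (z2 k) := by
  unfold z2; exact (det2_sc (fun l => E3_g k l) E3_y1).congr (by norm_num)
theorem E3_s6 : Sc (DD (m := 3) e3) (0) s6 := by
  unfold s6; exact (det2_sc E3_z1 E3_z2).congr (by norm_num)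
theorem E3_s1 : Sc (DD (m := 3) e3) 0 s1 := by
  unfold s1; exact (det2_sc (fun l => E3_as l 0) (fun l => E3_as l 1)).congr (by norm_num)
theorem E3_s2 : Sc (DD (m := 3) e3) 0 s2 := by
  unfold s2; exact (det2_sc (fun l => E3_v l 0) (fun l => E3_v l 1)).congr (by norm_num)
theorem E3_s3 : Sc (DD (m := 3) e3) 0 s3 := by
  unfold s3; exact (det2_sc (fun l => E3_bs l 0) (fun l => E3_bs l 1)).congr (by norm_num)
theorem E3_s4 : Sc (DD (m := 3) e3) 0 s4 := by
  unfold s4; exact (det2_sc (fun l => E3_δ l 0) (fun l => E3_δ l 1)).congr (by norm_num)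
end E3

section B
theorem B_u : RowM (DD (m := 3) b) 0 mu' := by
  unfold mu'; exact (RowM.mul B_c B_d).congr (by norm_num)
theorem B_v : ScM (DD (m := 3) b) 0 mv := by
  unfold mv; exact (ScM.mul B_γ B_β).congr (by norm_num)
theorem B_g : ScM (DD (m := 3) b) 0 mg := by
  unfold mg; exact (ScM.mul B_γ B_d).congr (by norm_num)
theorem B_y1 (k) : Sc (DD (m := 3) b) 1 (y1 k) := by
  unfold y1; exact (det3_row (B_α 0) (B_α 1) (B_u k)).congr (by norm_num)
theorem B_y2 (k) : Sc (DD (m := 3) b) 1 (y2 k) := by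
  unfold y2; exact (det3_row (B_u 0) (B_u 1) (B_α k)).congr (by norm_num)
theorem B_y3 (k) : Sc (DD (m := 3) b) (1) (y3 k) := by
  unfold y3; exact Sc.sum _ fun j _ => ((B_y2 j).mul (B_as j k)).congr (by norm_num)
theorem B_z1 (k) : Sc (DD (m := 3) b) (1) (z1 k) := by
  unfold z1; exact (det2_sc (fun l => B_v k l) B_y3).congr (by norm_num)
theorem B_z2 (k) : Sc (DD (m := 3) b) (1) (z2 k) := by
  unfold z2; exact (det2_sc (fun l => B_g k l) B_y1).congr (by norm_num)
theorem B_s6 : Sc (DD (m := 3) b) (2) s6 := by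
  unfold s6; exact (det2_sc B_z1 B_z2).congr (by norm_num)
theorem B_s1 : Sc (DD (m := 3) b) 0 s1 := by
  unfold s1; exact (det2_sc (fun l => B_as l 0) (fun l => B_as l 1)).congr (by norm_num)
theorem B_s2 : Sc (DD (m := 3) b) 0 s2 := by
  unfold s2; exact (det2_sc (fun l => B_v l 0) (fun l => B_v l 1)).congr (by norm_num)
theorem B_s3 : Sc (DD (m := 3) b) 0 s3 := by
  unfold s3; exact (det2_sc (fun l => B_bs l 0) (fun l => B_bs l 1)).congr (by norm_num)
theorem B_s4 : Sc (DD (m := 3) b) 0 s4 := by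
  unfold s4; exact (det2_sc (fun l => B_δ l 0) (fun l => B_δ l 1)).congr (by norm_num)
end B

section E1
theorem E1_u : ScM (DD (m := 3) e1) 0 mu' := by
  unfold mu'; exact (ScM.mul E1_c E1_d).congr (by norm_num)
theorem E1_v : ScM (DD (m := 3) e1) 0 mv := by
  unfold mv; exact (ScM.mul E1_γ E1_β).congr (by norm_num)
theorem E1_g : ScM (DD (m := 3) e1) 0 mg := by
  unfold mg; exact (ScM.mul E1_γ E1_d).congr (by norm_num)
theorem E1_y1 (k) : Sc (DD (m := 3) e1) (-1) (y1 k) := by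
  unfold y1; exact (det3_cols E1_α (fun i => E1_u i k)).congr (by norm_num)
theorem E1_y2 : ColV (DD (m := 3) e1) 0 y2 := by
  unfold y2; exact (det3_colV E1_α (fun i => E1_u i 0) (fun i => E1_u i 1)).congr (by norm_num)
theorem E1_y3 (k) : Sc (DD (m := 3) e1) 0 (y3 k) := by
  unfold y3; exact (dot_sc E1_y2 (E1_as k)).congr (by norm_num)
theorem E1_z1 (k) : Sc (DD (m := 3) e1) (0) (z1 k) := by
  unfold z1; exact (det2_sc (fun l => E1_v k l) E1_y3).congr (by norm_num)
theorem E1_z2 (k) : Sc (DD (m := 3) e1) (-1) (z2 k) := by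
  unfold z2; exact (det2_sc (fun l => E1_g k l) E1_y1).congr (by norm_num)
theorem E1_s6 : Sc (DD (m := 3) e1) (-1) s6 := by
  unfold s6; exact (det2_sc E1_z1 E1_z2).congr (by norm_num)
theorem E1_s1 : Sc (DD (m := 3) e1) 1 s1 := by
  unfold s1; exact (det2_row (E1_as 0) (E1_as 1)).congr (by norm_num)
theorem E1_s2 : Sc (DD (m := 3) e1) 0 s2 := by
  unfold s2; exact (det2_sc (fun l => E1_v l 0) (fun l => E1_v l 1)).congr (by norm_num)
theorem E1_s3 : Sc (DD (m := 3) e1) 0 s3 := by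
  unfold s3; exact (det2_sc (fun l => E1_bs l 0) (fun l => E1_bs l 1)).congr (by norm_num)
theorem E1_s4 : Sc (DD (m := 3) e1) 0 s4 := by
  unfold s4; exact (det2_sc (fun l => E1_δ l 0) (fun l => E1_δ l 1)).congr (by norm_num)
end E1

section E5
theorem E5_u : ScM (DD (m := 3) e5) 0 mu' := by
  unfold mu'; exact (ScM.mul E5_c E5_d).congr (by norm_num)
theorem E5_v : ScM (DD (m := 3) e5) 0 mv := by
  unfold mv; exact (ScM.mul E5_γ E5_β).congr (by norm_num)
theorem E5_g : ScM (DD (m := 3) e5) 0 mg := by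
  unfold mg; exact (ScM.mul E5_γ E5_d).congr (by norm_num)
theorem E5_y1 (k) : Sc (DD (m := 3) e5) 0 (y1 k) := by
  unfold y1; exact (det3_sc (fun i => E5_α i 0) (fun i => E5_α i 1) (fun i => E5_u i k)).congr (by norm_num)
theorem E5_y2 (k) : Sc (DD (m := 3) e5) 0 (y2 k) := by
  unfold y2; exact (det3_sc (fun i => E5_u i 0) (fun i => E5_u i 1) (fun i => E5_α i k)).congr (by norm_num)
theorem E5_y3 (k) : Sc (DD (m := 3) e5) (0) (y3 k) := by
  unfold y3; exact Sc.sum _ fun j _ => ((E5_y2 j).mul (E5_as j k)).congr (by norm_num)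
theorem E5_z1 (k) : Sc (DD (m := 3) e5) (0) (z1 k) := by
  unfold z1; exact (det2_sc (fun l => E5_v k l) E5_y3).congr (by norm_num)
theorem E5_z2 (k) : Sc (DD (m := 3) e5) (0) (z2 k) := by
  unfold z2; exact (det2_sc (fun l => E5_g k l) E5_y1).congr (by norm_num)
theorem E5_s6 : Sc (DD (m := 3) e5) (0) s6 := by
  unfold s6; exact (det2_sc E5_z1 E5_z2).congr (by norm_num)
theorem E5_s1 : Sc (DD (m := 3) e5) 0 s1 := by
  unfold s1; exact (det2_sc (fun l => E5_as l 0) (fun l => E5_as l 1)).congr (by norm_num)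
theorem E5_s2 : Sc (DD (m := 3) e5) 0 s2 := by
  unfold s2; exact (det2_sc (fun l => E5_v l 0) (fun l => E5_v l 1)).congr (by norm_num)
theorem E5_s3 : Sc (DD (m := 3) e5) (-1) s3 := by
  unfold s3; exact (det2_cols E5_bs).congr (by norm_num)
theorem E5_s4 : Sc (DD (m := 3) e5) 1 s4 := by
  unfold s4; exact (det2_row (E5_δ 0) (E5_δ 1)).congr (by norm_num)
end E5

section P2
theorem P2_u : ScM (DD (m := 3) p2) 0 mu' := by
  unfold mu'; exact (ScM.mul P2_c P2_d).congr (by norm_num)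
theorem P2_v : ColM (DD (m := 3) p2) 0 mv := by
  unfold mv; exact (ColM.mul P2_γ P2_β).congr (by norm_num)
theorem P2_g : ScM (DD (m := 3) p2) 0 mg := by
  unfold mg; exact (ScM.mul P2_γ P2_d).congr (by norm_num)
theorem P2_y1 (k) : Sc (DD (m := 3) p2) 0 (y1 k) := by
  unfold y1; exact (det3_sc (fun i => P2_α i 0) (fun i => P2_α i 1) (fun i => P2_u i k)).congr (by norm_num)
theorem P2_y2 (k) : Sc (DD (m := 3) p2) 0 (y2 k) := by
  unfold y2; exact (det3_sc (fun i => P2_u i 0) (fun i => P2_u i 1) (fun i => P2_α i k)).congr (by norm_num)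
theorem P2_y3 : ColV (DD (m := 3) p2) 0 y3 := by
  have h : y3 = fun l => y2 0 * mas 3 0 l + y2 1 * mas 3 1 l := by
    funext l; simp [y3]
  rw [h]
  exact ((ColV.sc_mul (P2_y2 0) (P2_as 0)).add (ColV.sc_mul (P2_y2 1) (P2_as 1))).congr (by norm_num)
theorem P2_z1 (k) : Sc (DD (m := 3) p2) (-1) (z1 k) := by
  unfold z1; exact (det2_col (P2_v k) P2_y3).congr (by norm_num)
theorem P2_z2 (k) : Sc (DD (m := 3) p2) (0) (z2 k) := by
  unfold z2; exact (det2_sc (fun l => P2_g k l) P2_y1).congr (by norm_num)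
theorem P2_s6 : Sc (DD (m := 3) p2) (-1) s6 := by
  unfold s6; exact (det2_sc P2_z1 P2_z2).congr (by norm_num)
theorem P2_s1 : Sc (DD (m := 3) p2) (-1) s1 := by
  unfold s1; exact (det2_cols P2_as).congr (by norm_num)
theorem P2_s2 : Sc (DD (m := 3) p2) (-1) s2 := by
  unfold s2; exact (det2_cols P2_v).congr (by norm_num)
theorem P2_s3 : Sc (DD (m := 3) p2) 0 s3 := by
  unfold s3; exact (det2_sc (fun l => P2_bs l 0) (fun l => P2_bs l 1)).congr (by norm_num)
theorem P2_s4 : Sc (DD (m := 3) p2) 0 s4 := by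
  unfold s4; exact (det2_sc (fun l => P2_δ l 0) (fun l => P2_δ l 1)).congr (by norm_num)
end P2

section B4
theorem B4_u : ColM (DD (m := 3) b4) 0 mu' := by
  unfold mu'; exact (ColM.mul B4_c B4_d).congr (by norm_num)
theorem B4_v : ScM (DD (m := 3) b4) 0 mv := by
  unfold mv; exact (ScM.mul B4_γ B4_β).congr (by norm_num)
theorem B4_g : ColM (DD (m := 3) b4) 0 mg := by
  unfold mg; exact (ColM.mul B4_γ B4_d).congr (by norm_num)
theorem B4_y1 : ColV (DD (m := 3) b4) 0 y1 := by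
  unfold y1; exact (det3_colV B4_u (fun i => B4_α i 0) (fun i => B4_α i 1)).congr (by norm_num)
theorem B4_y2 (k) : Sc (DD (m := 3) b4) (-1) (y2 k) := by
  unfold y2; exact (det3_cols B4_u (fun i => B4_α i k)).congr (by norm_num)
theorem B4_y3 (k) : Sc (DD (m := 3) b4) (-1) (y3 k) := by
  unfold y3; exact Sc.sum _ fun j _ => ((B4_y2 j).mul (B4_as j k)).congr (by norm_num)
theorem B4_z1 (k) : Sc (DD (m := 3) b4) (-1) (z1 k) := by
  unfold z1; exact (det2_sc (fun l => B4_v k l) B4_y3).congr (by norm_num)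
theorem B4_z2 (k) : Sc (DD (m := 3) b4) (-1) (z2 k) := by
  unfold z2; exact (det2_col (B4_g k) B4_y1).congr (by norm_num)
theorem B4_s6 : Sc (DD (m := 3) b4) (-2) s6 := by
  unfold s6; exact (det2_sc B4_z1 B4_z2).congr (by norm_num)
theorem B4_s1 : Sc (DD (m := 3) b4) 0 s1 := by
  unfold s1; exact (det2_sc (fun l => B4_as l 0) (fun l => B4_as l 1)).congr (by norm_num)
theorem B4_s2 : Sc (DD (m := 3) b4) 0 s2 := by
  unfold s2; exact (det2_sc (fun l => B4_v l 0) (fun l => B4_v l 1)).congr (by norm_num)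
theorem B4_s3 : Sc (DD (m := 3) b4) 0 s3 := by
  unfold s3; exact (det2_sc (fun l => B4_bs l 0) (fun l => B4_bs l 1)).congr (by norm_num)
theorem B4_s4 : Sc (DD (m := 3) b4) (-1) s4 := by
  unfold s4; exact (det2_cols B4_δ).congr (by norm_num)
end B4

section P4
theorem P4_u : ScM (DD (m := 3) p4) 0 mu' := by
  unfold mu'; exact (ScM.mul P4_c P4_d).congr (by norm_num)
theorem P4_v : RowM (DD (m := 3) p4) 0 mv := by
  unfold mv; exact (RowM.mul P4_γ P4_β).congr (by norm_num)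
theorem P4_g : RowM (DD (m := 3) p4) 0 mg := by
  unfold mg; exact (RowM.mul P4_γ P4_d).congr (by norm_num)
theorem P4_y1 (k) : Sc (DD (m := 3) p4) 0 (y1 k) := by
  unfold y1; exact (det3_sc (fun i => P4_α i 0) (fun i => P4_α i 1) (fun i => P4_u i k)).congr (by norm_num)
theorem P4_y2 (k) : Sc (DD (m := 3) p4) 0 (y2 k) := by
  unfold y2; exact (det3_sc (fun i => P4_u i 0) (fun i => P4_u i 1) (fun i => P4_α i k)).congr (by norm_num)
theorem P4_y3 (k) : Sc (DD (m := 3) p4) (0) (y3 k) := by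
  unfold y3; exact Sc.sum _ fun j _ => ((P4_y2 j).mul (P4_as j k)).congr (by norm_num)
theorem P4_z1 : RowV (DD (m := 3) p4) 0 z1 := by
  unfold z1; exact (det2_rowV P4_v P4_y3).congr (by norm_num)
theorem P4_z2 : RowV (DD (m := 3) p4) 0 z2 := by
  unfold z2; exact (det2_rowV P4_g P4_y1).congr (by norm_num)
theorem P4_s6 : Sc (DD (m := 3) p4) 1 s6 := by
  unfold s6; exact (det2_row P4_z1 P4_z2).congr (by norm_num)
theorem P4_s1 : Sc (DD (m := 3) p4) 0 s1 := by
  unfold s1; exact (det2_sc (fun l => P4_as l 0) (fun l => P4_as l 1)).congr (by norm_num)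
theorem P4_s2 : Sc (DD (m := 3) p4) 1 s2 := by
  unfold s2; exact (det2_row (P4_v 0) (P4_v 1)).congr (by norm_num)
theorem P4_s3 : Sc (DD (m := 3) p4) 1 s3 := by
  unfold s3; exact (det2_row (P4_bs 0) (P4_bs 1)).congr (by norm_num)
theorem P4_s4 : Sc (DD (m := 3) p4) 0 s4 := by
  unfold s4; exact (det2_sc (fun l => P4_δ l 0) (fun l => P4_δ l 1)).congr (by norm_num)
end P4

theorem E3_s5 : Sc (DD (m := 3) e3) 1 s5 := by
  unfold s5; exact det4_row (E3_β 0) (E3_β 1) (E3_d 0) (E3_d 1)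

theorem det4_sc {R : Type} [CommRing R] [Algebra ℂ R] {n : ℕ}
    {D : Fin n → Fin n → Derivation ℂ R R} {c c' : ℤ} {x y z t : Fin 4 → R}
    (hx : ∀ i j, Sc D c (mn i j x y)) (hz : ∀ i j, Sc D c' (mn i j z t)) :
    Sc D (c + c') (det4 x y z t) := by
  unfold det4
  exact (((((((hx _ _).mul (hz _ _)).sub ((hx _ _).mul (hz _ _))).add
    ((hx _ _).mul (hz _ _))).add ((hx _ _).mul (hz _ _))).sub
    ((hx _ _).mul (hz _ _))).add ((hx _ _).mul (hz _ _)))

theorem mn_sc {R : Type} [CommRing R] [Algebra ℂ R] {n : ℕ}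
    {D : Fin n → Fin n → Derivation ℂ R R} {M : Matrix (Fin 4) (Fin 2) R}
    (hM : ScM D 0 M) (i j : Fin 4) : Sc D 0 (mn i j (fun k => M k 0) (fun k => M k 1)) := by
  unfold mn
  exact (((hM i 0).mul (hM j 1)).sub ((hM j 0).mul (hM i 1))).congr (by norm_num)

theorem mn_col {R : Type} [CommRing R] [Algebra ℂ R]
    {D : Fin 2 → Fin 2 → Derivation ℂ R R} {M : Matrix (Fin 4) (Fin 2) R}
    (hM : ColM D 0 M) (i j : Fin 4) : Sc D (-1) (mn i j (fun k => M k 0) (fun k => M k 1)) := by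
  have h : mn i j (fun k => M k 0) (fun k => M k 1) = det2 (M i) (M j) := by
    unfold mn det2; ring
  rw [h]
  exact (det2_col (hM i) (hM j)).congr (by norm_num)

theorem P2_s5 : Sc (DD (m := 3) p2) (-1) s5 := by
  unfold s5; exact (det4_sc (mn_col P2_β) (mn_sc P2_d)).congr (by norm_num)
theorem B4_s5 : Sc (DD (m := 3) b4) (-1) s5 := by
  unfold s5; exact (det4_sc (mn_sc B4_β) (mn_col B4_d)).congr (by norm_num)
theorem B_s5 : Sc (DD (m := 3) b) 0 s5 := by
  unfold s5; exact (det4_sc (mn_sc B_β) (mn_sc B_d)).congr (by norm_num)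
theorem E1_s5 : Sc (DD (m := 3) e1) 0 s5 := by
  unfold s5; exact (det4_sc (mn_sc E1_β) (mn_sc E1_d)).congr (by norm_num)
theorem E5_s5 : Sc (DD (m := 3) e5) 0 s5 := by
  unfold s5; exact (det4_sc (mn_sc E5_β) (mn_sc E5_d)).congr (by norm_num)
theorem P4_s5 : Sc (DD (m := 3) p4) 0 s5 := by
  unfold s5; exact (det4_sc (mn_sc P4_β) (mn_sc P4_d)).congr (by norm_num)

end Pool.Agent.H495
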