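import Pool.Agent.H495.KSfun2

/-! Homogeneity and values at a conormal point. -/

namespace Pool.Agent.H495

open MvPolynomial Ix WeylModule

namespace WeylModule

variable {J : Type} {S : J → Prop} [DecidablePred S]

theorem FTHom.mul {a b : ℕ} {f g : MvPolynomial J ℂ} (hf : FTHom S a f) (hg : FTHom S b g) :
    FTHom S (a + b) (f * g) := by
  unfold FTHom at *; rw [map_mul]; exact IsHomogeneous.mul hf hg

theorem FTHom.add {a : ℕ} {f g : MvPolynomial J ℂ} (hf : FTHom S a f) (hg : FTHom S a g) :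
    FTHom S a (f + g) := by
  unfold FTHom at *; rw [map_add]; exact IsHomogeneous.add hf hg

theorem FTHom.sub {a : ℕ} {f g : MvPolynomial J ℂ} (hf : FTHom S a f) (hg : FTHom S a g) :
    FTHom S a (f - g) := by
  unfold FTHom at *; rw [map_sub]; exact IsHomogeneous.sub hf hg

theorem FTHom.zero (a : ℕ) : FTHom S a (0 : MvPolynomial J ℂ) := by
  unfold FTHom; rw [map_zero]; exact isHomogeneous_zero _ _ _

theorem FTHom.one : FTHom S 0 (1 : MvPolynomial J ℂ) := by
  unfold FTHom; rw [map_one]; exact isHomogeneous_one _ _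

theorem FTHom.congr {a b : ℕ} {f : MvPolynomial J ℂ} (hf : FTHom S a f) (h : a = b) :
    FTHom S b f := h ▸ hf

theorem FTHom.sum {κ : Type*} (s : Finset κ) {a : ℕ} {f : κ → MvPolynomial J ℂ}
    (hf : ∀ k ∈ s, FTHom S a (f k)) : FTHom S a (∑ k ∈ s, f k) := by
  unfold FTHom at *; rw [map_sum]; exact IsHomogeneous.sum _ _ _ hf

theorem FTHom.det {n : ℕ} (dg : Fin n → ℕ) {M : Matrix (Fin n) (Fin n) (MvPolynomial J ℂ)}
    (h : ∀ i l, FTHom S (dg l) (M i l)) : FTHom S (∑ l, dg l) M.det := by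
  unfold FTHom at *
  rw [Matrix.det_apply, map_sum]
  refine IsHomogeneous.sum _ _ _ fun σ _ => ?_
  have h1 : (psi S (∏ i, M (σ i) i)).IsHomogeneous (∑ l, dg l) := by
    rw [map_prod]
    exact IsHomogeneous.prod _ _ _ fun i _ => h (σ i) i
  rcases Int.units_eq_one_or (Equiv.Perm.sign σ) with h2 | h2
  · rw [h2, one_smul]; exact h1
  · rw [h2, Units.neg_smul, one_smul, map_neg]; exact IsHomogeneous.neg h1

theorem FTHom.det2 {a b : ℕ} {x y : Fin 2 → MvPolynomial J ℂ} (hx : ∀ k, FTHom S a (x k))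
    (hy : ∀ k, FTHom S b (y k)) : FTHom S (a + b) (det2 x y) :=
  ((hx 0).mul (hy 1)).sub ((hx 1).mul (hy 0))

theorem FTHom.det3 {a b c : ℕ} {x y z : Fin 3 → MvPolynomial J ℂ} (hx : ∀ k, FTHom S a (x k))
    (hy : ∀ k, FTHom S b (y k)) (hz : ∀ k, FTHom S c (z k)) :
    FTHom S (a + (b + c)) (det3 x y z) := by
  unfold Pool.Agent.H495.det3
  exact (((hx _).mul (((hy _).mul (hz _)).sub ((hy _).mul (hz _)))).sub
    ((hx _).mul (((hy _).mul (hz _)).sub ((hy _).mul (hz _))))).add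
    ((hx _).mul (((hy _).mul (hz _)).sub ((hy _).mul (hz _))))

end WeylModule

/-- Fourier-transformed coordinates. -/
abbrev SS : Idx (lev (m := 3)) → Prop := FTset lev wt

theorem hom_yv (p q : Ix 3) : FTHom SS (if wt p = wt q + 1 then 1 else 0) (yv lev p q) := by
  unfold yv
  by_cases h1 : lev p = lev q + 1
  · rw [dif_pos h1]
    by_cases h2 : wt p = wt q + 1
    · rw [if_pos h2]; unfold FTHom psi
      rw [aeval_X, if_pos (show SS ⟨(p, q), h1⟩ from h2)]
      exact isHomogeneous_X _ _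
    · rw [if_neg h2]; unfold FTHom psi
      rw [aeval_X, if_neg (show ¬ SS ⟨(p, q), h1⟩ from h2)]
      exact isHomogeneous_C _ _
  · rw [dif_neg h1]; exact FTHom.zero _

theorem hα (k j) : FTHom SS 0 (mα 3 k j) := (hom_yv _ _).congr (by simp [wt])
theorem has (k j) : FTHom SS 1 (mas 3 k j) := (hom_yv _ _).congr (by simp [wt])
theorem hc (k j) : FTHom SS 1 (mc 3 k j) := (hom_yv _ _).congr (by simp [wt])
theorem hβ (k j) : FTHom SS 0 (mβ 3 k j) := (hom_yv _ _).congr (by simp [wt])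
theorem hγ (k j) : FTHom SS 0 (mγ 3 k j) := (hom_yv _ _).congr (by simp [wt])
theorem hd (k j) : FTHom SS 1 (md 3 k j) := (hom_yv _ _).congr (by simp [wt])
theorem hδ (k j) : FTHom SS 0 (mδ 3 k j) := (hom_yv _ _).congr (by simp [wt])
theorem hbs (k j) : FTHom SS 1 (mbs 3 k j) := (hom_yv _ _).congr (by simp [wt])
theorem hu (k j) : FTHom SS 2 (mu' k j) := by
  unfold mu'; rw [Matrix.mul_apply]; exact FTHom.sum _ fun i _ => (hc _ _).mul (hd _ _)
theorem hv (k j) : FTHom SS 0 (mv k j) := by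
  unfold mv; rw [Matrix.mul_apply]; exact FTHom.sum _ fun i _ => (hγ _ _).mul (hβ _ _)
theorem hg (k j) : FTHom SS 1 (mg k j) := by
  unfold mg; rw [Matrix.mul_apply]
  exact FTHom.sum _ fun i _ => ((hγ _ _).mul (hd _ _)).congr (by norm_num)
theorem hy1 (k) : FTHom SS 2 (y1 k) := by
  unfold y1
  exact (FTHom.det3 (fun i => hα i 0) (fun i => hα i 1) (fun i => hu i k)).congr (by norm_num)
theorem hy2 (k) : FTHom SS 4 (y2 k) := by
  unfold y2
  exact (FTHom.det3 (fun i => hu i 0) (fun i => hu i 1) (fun i => hα i k)).congr (by norm_num)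
theorem hy3 (k) : FTHom SS 5 (y3 k) := by
  unfold y3; exact FTHom.sum _ fun i _ => (hy2 _).mul (has _ _)
theorem hz1 (k) : FTHom SS 5 (z1 k) := by
  unfold z1; exact (FTHom.det2 (fun l => hv k l) hy3).congr (by norm_num)
theorem hz2 (k) : FTHom SS 3 (z2 k) := by
  unfold z2; exact (FTHom.det2 (fun l => hg k l) hy1).congr (by norm_num)
theorem hs1 : FTHom SS 2 s1 := by
  unfold s1; exact (FTHom.det2 (fun l => has l 0) (fun l => has l 1)).congr (by norm_num)
theorem hs2 : FTHom SS 0 s2 := by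
  unfold s2; exact (FTHom.det2 (fun l => hv l 0) (fun l => hv l 1)).congr (by norm_num)
theorem hs3 : FTHom SS 2 s3 := by
  unfold s3; exact (FTHom.det2 (fun l => hbs l 0) (fun l => hbs l 1)).congr (by norm_num)
theorem hs4 : FTHom SS 0 s4 := by
  unfold s4; exact (FTHom.det2 (fun l => hδ l 0) (fun l => hδ l 1)).congr (by norm_num)
theorem haE3 (k j) : FTHom SS (![0, 0, 1, 1] j) (aE3 k j) := by
  fin_cases j
  · exact hβ _ _
  · exact hβ _ _
  · exact hd _ _
  · exact hd _ _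
theorem haB (k j) : FTHom SS (![2, 2, 0] j) (aB k j) := by
  fin_cases j
  · exact hu _ _
  · exact hu _ _
  · exact hα _ _
theorem haP4 (k j) : FTHom SS (![5, 3] j) (aP4 k j) := by
  fin_cases j
  · exact hz1 _
  · exact hz2 _
theorem s5_eq : s5 = aE3.det := by rw [det_eq_det4]; rfl
theorem hs5 : FTHom SS 2 s5 := by
  rw [s5_eq]; exact (FTHom.det _ haE3).congr (by simp [Fin.sum_univ_succ])
theorem s6_eq : s6 = aP4.det := by rw [det_eq_det2]; rfl
theorem hs6 : FTHom SS 8 s6 := by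
  rw [s6_eq]; exact (FTHom.det _ haP4).congr (by simp [Fin.sum_univ_succ])

/-! #### The conormal point -/

/-- Coordinates of the chosen conormal point. -/
def val : Ix 3 → Ix 3 → ℂ
  | .b i, .e1 j => if (i : ℕ) = j then 1 else 0
  | .p2 l, .e1 j => if l = j then 1 else 0
  | .e3 i, .b k => if (i : ℕ) = k ∨ ((i : ℕ) = 3 ∧ (k : ℕ) = 0) then 1 else 0
  | .e3 i, .p2 l => if (i : ℕ) = l then 1 else 0
  | .p4 k, .e3 i => if (i : ℕ) = k then 1 else 0
  | .b4 k, .e3 i => if (i : ℕ) = k ∨ (i : ℕ) = k + 2 then 1 else 0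
  | .e5 m', .p4 k => if m' = k then 1 else 0
  | .e5 m', .b4 k => if m' = k then 1 else 0
  | _, _ => 0

def eta (j : Idx (lev (m := 3))) : ℂ := val j.1.1 j.1.2

/-- evaluation at the point -/
noncomputable abbrev ev : RR 3 →+* ℂ := eval eta

theorem ev_yv (p q : Ix 3) (h : lev p = lev q + 1) : ev (yv lev p q) = val p q := by
  unfold yv; rw [dif_pos h, eval_X]; rfl

theorem eα (k j) : ev (mα 3 k j) = if (k : ℕ) = j then 1 else 0 := ev_yv _ _ (by simp [lev])
theorem eas (j l) : ev (mas 3 j l) = if l = j then 1 else 0 := ev_yv _ _ (by norm_num [lev])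
theorem ec (k i) : ev (mc 3 k i) = if (i : ℕ) = k ∨ ((i : ℕ) = 3 ∧ (k : ℕ) = 0) then 1 else 0 :=
  ev_yv _ _ (by norm_num [lev])
theorem eβ (i l) : ev (mβ 3 i l) = if (i : ℕ) = l then 1 else 0 := ev_yv _ _ (by norm_num [lev])
theorem eγ (k i) : ev (mγ 3 k i) = if (i : ℕ) = k then 1 else 0 := ev_yv _ _ (by norm_num [lev])
theorem ed (i k) : ev (md 3 i k) = if (i : ℕ) = k ∨ (i : ℕ) = k + 2 then 1 else 0 :=
  ev_yv _ _ (by norm_num [lev])
theorem eδ (i k) : ev (mδ 3 i k) = if i = k then 1 else 0 := ev_yv _ _ (by norm_num [lev])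
theorem ebs (k i) : ev (mbs 3 k i) = if i = k then 1 else 0 := ev_yv _ _ (by norm_num [lev])

theorem eu (k j) : ev (mu' k j) = (!![1, 1; 0, 1; 1, 0] : Matrix (Fin 3) (Fin 2) ℂ) k j := by
  unfold mu'
  rw [Matrix.mul_apply, map_sum]
  simp only [map_mul, ec, ed, Fin.sum_univ_four]
  fin_cases k <;> fin_cases j <;> simp
theorem evv (k j) : ev (mv k j) = (!![1, 0; 0, 1] : Matrix (Fin 2) (Fin 2) ℂ) k j := by
  unfold mv
  rw [Matrix.mul_apply, map_sum]
  simp only [map_mul, eγ, eβ, Fin.sum_univ_four]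
  fin_cases k <;> fin_cases j <;> simp
theorem eg (k j) : ev (mg k j) = (!![1, 0; 0, 1] : Matrix (Fin 2) (Fin 2) ℂ) k j := by
  unfold mg
  rw [Matrix.mul_apply, map_sum]
  simp only [map_mul, eγ, ed, Fin.sum_univ_four]
  fin_cases k <;> fin_cases j <;> simp
theorem ey1 (k) : ev (y1 k) = ![1, 0] k := by
  unfold y1 det3
  simp only [map_mul, map_sub, map_add, eα, eu]
  fin_cases k <;> simp
theorem ey2 (k) : ev (y2 k) = ![-1, 1] k := by
  unfold y2 det3
  simp only [map_mul, map_sub, map_add, eα, eu]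
  fin_cases k <;> simp
theorem ey3 (k) : ev (y3 k) = ![-1, 1] k := by
  unfold y3
  rw [map_sum, Fin.sum_univ_two, map_mul, map_mul, ey2, ey2, eas, eas]
  fin_cases k <;> simp
theorem ez1 (k) : ev (z1 k) = ![1, 1] k := by
  unfold z1 det2
  simp only [map_mul, map_sub, evv, ey3]
  fin_cases k <;> simp
theorem ez2 (k) : ev (z2 k) = ![0, -1] k := by
  unfold z2 det2
  simp only [map_mul, map_sub, eg, ey1]
  fin_cases k <;> simp
theorem es1 : ev s1 = 1 := by unfold s1 det2; simp only [map_mul, map_sub, eas]; simp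
theorem es2 : ev s2 = 1 := by unfold s2 det2; simp only [map_mul, map_sub, evv]; simp
theorem es3 : ev s3 = 1 := by unfold s3 det2; simp only [map_mul, map_sub, ebs]; simp
theorem es4 : ev s4 = 1 := by unfold s4 det2; simp only [map_mul, map_sub, eδ]; simp
theorem es5 : ev s5 = 1 := by
  unfold s5 det4 mn; simp only [map_mul, map_sub, map_add, eβ, ed]; simp
theorem es6 : ev s6 = -1 := by unfold s6 det2; simp only [map_mul, map_sub, ez1, ez2]; simp

end Pool.Agent.H495
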