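import Mathlib

namespace Pool.Agent.H495

open Matrix

/-- The linear algebra behind the vanishing of `f₂ f₁` on flat sections. -/
theorem linAlg {S : Type*} [CommRing S] (α : Matrix (Fin 3) (Fin 2) S)
    (as : Matrix (Fin 2) (Fin 2) S) (c : Matrix (Fin 3) (Fin 4) S) (β : Matrix (Fin 4) (Fin 2) S)
    (γ : Matrix (Fin 2) (Fin 4) S) (d : Matrix (Fin 4) (Fin 2) S) (δ bs : Matrix (Fin 2) (Fin 2) S)
    (p : Matrix (Fin 2) (Fin 3) S) (A : Matrix (Fin 2) (Fin 2) S) (C : Matrix (Fin 4) (Fin 3) S)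
    (t : Matrix (Fin 2) (Fin 4) S) (s : Matrix (Fin 4) (Fin 2) S) (D : Matrix (Fin 2) (Fin 4) S)
    (B r : Matrix (Fin 2) (Fin 2) S) (ω : S) (e : Matrix (Fin 1) (Fin 3) S)
    (he : e * α = 0)
    (hE1 : p * α + as * A = 0)
    (hBb : α * p - c * C = -(2 * ω) • (1 : Matrix (Fin 3) (Fin 3) S))
    (hP2 : A * as - t * β = (3 * ω) • (1 : Matrix (Fin 2) (Fin 2) S))
    (hE3 : C * c + β * t - s * γ - d * D = 0)
    (hP4 : γ * s - bs * B = -(2 * ω) • (1 : Matrix (Fin 2) (Fin 2) S))
    (hB4 : D * d - r * δ = (2 * ω) • (1 : Matrix (Fin 2) (Fin 2) S))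
    (hE5 : B * bs + δ * r = 0)
    (h1 : p * (c * β - α * as) = (3 * ω) • as)
    (h2 : (c * β - α * as) * A = -(2 * ω) • α)
    (h3 : (c * β - α * as) * t = -(2 * ω) • c)
    (h4 : C * (c * β - α * as) = (3 * ω) • β)
    (h5 : B * (γ * d - bs * δ) = -(2 * ω) • δ)
    (h6 : (γ * d - bs * δ) * r = (2 * ω) • bs)
    (h7 : ω • (c * β - α * as) = 0) :
    c * ((C * α + β * A) * as) = 0 ∧
    (γ * d).det • ((e * c * (d * (γ * d).adjugate * γ)) * ((C * α + β * A) * as)) = 0 := by
  set μ1 := c * β - α * as with hμ1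
  set μ2 := γ * d - bs * δ with hμ2
  have hcβ : c * β = α * as + μ1 := by rw [hμ1]; abel
  have hγd : γ * d = bs * δ + μ2 := by rw [hμ2]; abel
  have hcC : c * C = α * p + (2 * ω) • (1 : Matrix (Fin 3) (Fin 3) S) := by
    have := hBb; rw [sub_eq_iff_eq_add] at this; rw [this]; simp
  have htβ : t * β = A * as - (3 * ω) • (1 : Matrix (Fin 2) (Fin 2) S) := by
    rw [← hP2]; abel
  have hγs : γ * s = bs * B - (2 * ω) • (1 : Matrix (Fin 2) (Fin 2) S) := by
    have := hP4; rw [sub_eq_iff_eq_add] at this; rw [this]; simp [sub_eq_add_neg, add_comm]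
  have hDd : D * d = r * δ + (2 * ω) • (1 : Matrix (Fin 2) (Fin 2) S) := by
    have := hB4; rw [sub_eq_iff_eq_add] at this; rw [this]; abel
  -- Θβ = G as
  have hΘβ : (C * c + β * t) * β = (C * α + β * A) * as := by
    rw [Matrix.add_mul, Matrix.mul_assoc C, hcβ, Matrix.mul_add, h4, Matrix.mul_assoc β, htβ,
      Matrix.mul_sub, Matrix.add_mul, Matrix.mul_assoc, Matrix.mul_assoc]
    simp only [Matrix.mul_smul, Matrix.mul_one]
    abel
  set Θ := C * c + β * t with hΘ
  have hΘ2 : Θ = s * γ + d * D := by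
    have : Θ - s * γ - d * D = 0 := by rw [hΘ]; exact hE3
    rw [sub_sub, sub_eq_zero] at this
    exact this
  -- (A)
  have hA : c * (Θ * β) = 0 := by
    calc c * (Θ * β) = (c * C) * (c * β) + (c * β) * (t * β) := by
          rw [hΘ]; simp only [Matrix.mul_add, Matrix.add_mul, Matrix.mul_assoc]
      _ = (α * p + (2 * ω) • (1 : Matrix (Fin 3) (Fin 3) S)) * (α * as + μ1) + (α * as + μ1) *
          (A * as - (3 * ω) • (1 : Matrix (Fin 2) (Fin 2) S)) := by rw [hcC, htβ, hcβ]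
      _ = α * ((p * α + as * A) * as) + α * (p * μ1) + (μ1 * A) * as + (2 * ω) • (α * as + μ1)
          - (3 * ω) • (α * as + μ1) := by
          simp only [Matrix.mul_add, Matrix.add_mul, Matrix.mul_sub, Matrix.mul_assoc,
            Matrix.smul_mul, Matrix.mul_smul, Matrix.one_mul, Matrix.mul_one, smul_add]
          abel
      _ = 0 := by
          rw [hE1, h1, h2]
          have h7' : ∀ k : S, (k * ω) • μ1 = 0 := by
            intro k; rw [mul_smul, h7, smul_zero]
          simp only [Matrix.zero_mul, Matrix.mul_zero, zero_add, Matrix.mul_smul, Matrix.smul_mul,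
            smul_add, h7', add_zero, neg_smul, Matrix.neg_mul]
          module
  -- (B)
  have hB : e * c * Θ = 0 := by
    calc e * c * Θ = e * (c * C) * c + e * (c * β) * t := by
          rw [hΘ]; simp only [Matrix.mul_add, Matrix.mul_assoc]
      _ = (e * α) * (p * c + as * t) + (2 * ω) • (e * c) + e * (μ1 * t) := by
          rw [hcC, hcβ]
          simp only [Matrix.mul_add, Matrix.add_mul, Matrix.mul_assoc,
            Matrix.smul_mul, Matrix.mul_smul, Matrix.one_mul, Matrix.mul_one]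
          abel
      _ = 0 := by
          rw [he, h3]
          simp only [Matrix.zero_mul, zero_add, Matrix.mul_smul, neg_smul, Matrix.mul_neg]
          abel
  -- (C)
  have hC : γ * Θ * d = 0 := by
    calc γ * Θ * d = (γ * s) * (γ * d) + (γ * d) * (D * d) := by
          rw [hΘ2]; simp only [Matrix.mul_add, Matrix.add_mul, Matrix.mul_assoc]
      _ = (bs * B) * (γ * d) + (γ * d) * (r * δ) := by
          rw [hγs, hDd]
          simp only [Matrix.mul_add, Matrix.sub_mul, Matrix.smul_mul, Matrix.mul_smul,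
            Matrix.one_mul, Matrix.mul_one]
          abel
      _ = bs * ((B * bs + δ * r) * δ) + bs * (B * μ2) + (μ2 * r) * δ := by
          rw [hγd]
          simp only [Matrix.mul_add, Matrix.add_mul, Matrix.mul_assoc]
          abel
      _ = 0 := by
          rw [hE5, h5, h6]
          simp only [Matrix.zero_mul, Matrix.mul_zero, zero_add, Matrix.mul_smul, Matrix.smul_mul,
            neg_smul, Matrix.mul_neg]
          abel
  set adj := (γ * d).adjugate with hadj
  set δ1 := (γ * d).det with hδ1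
  set Q1 := d * adj * γ with hQ1
  set Q2 := δ1 • (1 : Matrix (Fin 4) (Fin 4) S) - Q1 with hQ2
  have hQ2d : Q2 * d = 0 := by
    rw [hQ2, Matrix.sub_mul, Matrix.smul_mul, Matrix.one_mul, hQ1, Matrix.mul_assoc (d * adj),
      Matrix.mul_assoc d, hadj, Matrix.adjugate_mul, Matrix.mul_smul, Matrix.mul_one, sub_self]
  have hγQ2 : γ * Q2 = 0 := by
    rw [hQ2, Matrix.mul_sub, Matrix.mul_smul, Matrix.mul_one, hQ1, Matrix.mul_assoc d,
      ← Matrix.mul_assoc γ, ← Matrix.mul_assoc (γ * d), hadj, Matrix.mul_adjugate,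
      Matrix.smul_mul, Matrix.one_mul, sub_self]
  have hD : Q2 * Θ * Q2 = 0 := by
    rw [hΘ2, Matrix.mul_add, Matrix.add_mul, ← Matrix.mul_assoc Q2 d, hQ2d, Matrix.zero_mul,
      Matrix.zero_mul, add_zero, ← Matrix.mul_assoc, Matrix.mul_assoc (Q2 * s), hγQ2,
      Matrix.mul_zero]
  have h11 : Q1 * Θ * Q1 = 0 := by
    calc Q1 * Θ * Q1 = d * adj * (γ * Θ * d) * (adj * γ) := by
          rw [hQ1]; simp only [Matrix.mul_assoc]
      _ = 0 := by rw [hC, Matrix.mul_zero, Matrix.zero_mul]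
  clear_value Q2 Q1 Θ
  have hsum : δ1 • (1 : Matrix (Fin 4) (Fin 4) S) = Q1 + Q2 := by rw [hQ2]; abel
  have hF1 : e * c * Q1 * Θ * Q2 = 0 := by
    have h8 : (e * c * (δ1 • (1 : Matrix (Fin 4) (Fin 4) S))) * Θ * Q2 = 0 := by
      rw [Matrix.mul_smul, Matrix.mul_one, Matrix.smul_mul, hB, smul_zero, Matrix.zero_mul]
    rw [hsum, Matrix.mul_add, Matrix.add_mul, Matrix.add_mul, Matrix.mul_assoc (e * c) Q2,
      Matrix.mul_assoc (e * c) (Q2 * Θ), hD, Matrix.mul_zero, add_zero] at h8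
    exact h8
  refine ⟨by rw [← hΘβ]; exact hA, ?_⟩
  rw [← hΘβ]
  have h9 : e * c * Q1 * Θ * (δ1 • (1 : Matrix (Fin 4) (Fin 4) S)) = 0 := by
    rw [hsum, Matrix.mul_add, hF1, add_zero, Matrix.mul_assoc (e * c), Matrix.mul_assoc (e * c),
      h11, Matrix.mul_zero]
  rw [Matrix.mul_smul, Matrix.mul_one] at h9
  rw [← Matrix.mul_assoc, ← Matrix.smul_mul, h9, Matrix.zero_mul]

end Pool.Agent.H495
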