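import Pool.Agent.H495.LinAlg

namespace Pool.Agent.H495

open Matrix

section
variable {R M : Type} [CommRing R] [AddCommGroup M] [Module R M] [Module Rᵐᵒᵖ M]
  [IsCentralScalar R M]


theorem tsz_mul_inr (a : R) (m : M) : (TrivSqZeroExt.inl a : TrivSqZeroExt R M) * TrivSqZeroExt.inr m =
    TrivSqZeroExt.inr (a • m) := TrivSqZeroExt.inl_mul_inr a m

theorem tsz_inr_mul (a : R) (m : M) : (TrivSqZeroExt.inr m : TrivSqZeroExt R M) * TrivSqZeroExt.inl a =
    TrivSqZeroExt.inr (a • m) := by rw [mul_comm, tsz_mul_inr]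

theorem tsz_mul_left {A B C : Type} [Fintype B] (X : Matrix A B R) (Y : Matrix B C M) :
    (X.map (TrivSqZeroExt.inl : R → TrivSqZeroExt R M)) * (Y.map (TrivSqZeroExt.inr : M → TrivSqZeroExt R M)) =
      (Matrix.of fun a c => ∑ b, X a b • Y b c).map (TrivSqZeroExt.inr : M → TrivSqZeroExt R M) := by
  refine Matrix.ext fun a c => ?_
  rw [Matrix.mul_apply]
  simp only [Matrix.map_apply, tsz_mul_inr, Matrix.of_apply]
  exact (map_sum (TrivSqZeroExt.inrHom R M) _ _).symm

theorem tsz_mul_right {A B C : Type} [Fintype B] (X : Matrix A B M) (Y : Matrix B C R) :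
    (X.map (TrivSqZeroExt.inr : M → TrivSqZeroExt R M)) * (Y.map (TrivSqZeroExt.inl : R → TrivSqZeroExt R M)) =
      (Matrix.of fun a c => ∑ b, Y b c • X a b).map (TrivSqZeroExt.inr : M → TrivSqZeroExt R M) := by
  refine Matrix.ext fun a c => ?_
  rw [Matrix.mul_apply]
  simp only [Matrix.map_apply, tsz_inr_mul, Matrix.of_apply]
  exact (map_sum (TrivSqZeroExt.inrHom R M) _ _).symm

theorem tsz_map_mul {A B C : Type} [Fintype B] (X : Matrix A B R) (Y : Matrix B C R) :
    (X * Y).map (TrivSqZeroExt.inl : R → TrivSqZeroExt R M) = X.map (TrivSqZeroExt.inl : R → TrivSqZeroExt R M) *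
      Y.map (TrivSqZeroExt.inl : R → TrivSqZeroExt R M) :=
  Matrix.map_mul (f := TrivSqZeroExt.inlHom R M)

theorem tsz_map_sub {A B : Type} (X Y : Matrix A B R) :
    (X - Y).map (TrivSqZeroExt.inl : R → TrivSqZeroExt R M) = X.map (TrivSqZeroExt.inl : R → TrivSqZeroExt R M) -
      Y.map (TrivSqZeroExt.inl : R → TrivSqZeroExt R M) := by
  refine Matrix.ext fun a b => ?_
  simp only [Matrix.map_apply, Matrix.sub_apply]
  exact map_sub (TrivSqZeroExt.inlHom R M) _ _

theorem tsz_add {A B : Type} (X Y : Matrix A B M) :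
    X.map (TrivSqZeroExt.inr : M → TrivSqZeroExt R M) + Y.map (TrivSqZeroExt.inr : M → TrivSqZeroExt R M) =
      (X + Y).map (TrivSqZeroExt.inr : M → TrivSqZeroExt R M) := by
  refine Matrix.ext fun a b => ?_
  simp only [Matrix.map_apply, Matrix.add_apply]
  exact (map_add (TrivSqZeroExt.inrHom R M) _ _).symm

theorem tsz_sub {A B : Type} (X Y : Matrix A B M) :
    X.map (TrivSqZeroExt.inr : M → TrivSqZeroExt R M) - Y.map (TrivSqZeroExt.inr : M → TrivSqZeroExt R M) =
      (X - Y).map (TrivSqZeroExt.inr : M → TrivSqZeroExt R M) := by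
  refine Matrix.ext fun a b => ?_
  simp only [Matrix.map_apply, Matrix.sub_apply]
  exact (map_sub (TrivSqZeroExt.inrHom R M) _ _).symm

theorem tsz_smul {A B : Type} (n : ℤ) (m : M) (X : Matrix A B R) :
    (((n : TrivSqZeroExt R M) * TrivSqZeroExt.inr m) • X.map (TrivSqZeroExt.inl : R → TrivSqZeroExt R M)) =
      (Matrix.of fun a b => n • X a b • m).map (TrivSqZeroExt.inr : M → TrivSqZeroExt R M) := by
  refine Matrix.ext fun a b => ?_
  simp only [Matrix.map_apply, Matrix.smul_apply, Matrix.of_apply, smul_eq_mul]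
  rw [mul_assoc, tsz_inr_mul, ← zsmul_eq_mul]
  exact (map_zsmul (TrivSqZeroExt.inrHom R M) _ _).symm

theorem tsz_smul_one {A : Type} [DecidableEq A] (n : ℤ) (m : M) :
    (((n : TrivSqZeroExt R M) * TrivSqZeroExt.inr m) • (1 : Matrix A A (TrivSqZeroExt R M))) =
      (Matrix.of fun a b => if a = b then n • m else 0).map (TrivSqZeroExt.inr : M → TrivSqZeroExt R M) := by
  refine Matrix.ext fun a b => ?_
  simp only [Matrix.map_apply, Matrix.smul_apply, Matrix.of_apply, smul_eq_mul, Matrix.one_apply]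
  by_cases h : a = b
  · rw [if_pos h, if_pos h, mul_one, ← zsmul_eq_mul]
    exact (map_zsmul (TrivSqZeroExt.inrHom R M) _ _).symm
  · rw [if_neg h, if_neg h, mul_zero]; simp

theorem tsz_inj {A B : Type} {X Y : Matrix A B M} (h : X.map (TrivSqZeroExt.inr : M → TrivSqZeroExt R M) =
    Y.map (TrivSqZeroExt.inr : M → TrivSqZeroExt R M)) : X = Y := by
  ext a b
  have := congrFun (congrFun h a) b
  exact TrivSqZeroExt.inr_injective this

end

/-- Module version of `linAlg`. -/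
theorem linAlgMod {R M : Type} [CommRing R] [AddCommGroup M] [Module R M]
    (α : Matrix (Fin 3) (Fin 2) R)
    (as : Matrix (Fin 2) (Fin 2) R) (c : Matrix (Fin 3) (Fin 4) R) (β : Matrix (Fin 4) (Fin 2) R)
    (γ : Matrix (Fin 2) (Fin 4) R) (d : Matrix (Fin 4) (Fin 2) R) (δ bs : Matrix (Fin 2) (Fin 2) R)
    (p : Matrix (Fin 2) (Fin 3) M) (A : Matrix (Fin 2) (Fin 2) M) (C : Matrix (Fin 4) (Fin 3) M)
    (t : Matrix (Fin 2) (Fin 4) M) (s : Matrix (Fin 4) (Fin 2) M) (D : Matrix (Fin 2) (Fin 4) M)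
    (B r : Matrix (Fin 2) (Fin 2) M) (ω : M) (e : Matrix (Fin 1) (Fin 3) R)
    (he : e * α = 0)
    (hE1 : ∀ j j', ∑ k, α k j' • p j k + ∑ l, as j l • A l j' = 0)
    (hBb : ∀ k k', ∑ j, α k j • p j k' - ∑ i, c k i • C i k' = if k = k' then (-2 : ℤ) • ω else 0)
    (hP2 : ∀ l l', ∑ j, as j l' • A l j - ∑ i, β i l' • t l i = if l = l' then (3 : ℤ) • ω else 0)
    (hE3 : ∀ i i', ∑ k, c k i' • C i k + ∑ l, β i l • t l i' - ∑ k, γ k i' • s i k -
      ∑ k, d i k • D k i' = 0)
    (hP4 : ∀ k k', ∑ i, γ k i • s i k' - ∑ m, bs k m • B m k' = if k = k' then (-2 : ℤ) • ω else 0)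
    (hB4 : ∀ k k', ∑ i, d i k' • D k i - ∑ m, δ m k' • r k m = if k = k' then (2 : ℤ) • ω else 0)
    (hE5 : ∀ m m', ∑ k, bs k m' • B m k + ∑ k, δ m k • r k m' = 0)
    (h1 : ∀ j l, ∑ k, (c * β - α * as) k l • p j k = (3 : ℤ) • as j l • ω)
    (h2 : ∀ k j, ∑ l, (c * β - α * as) k l • A l j = (-2 : ℤ) • α k j • ω)
    (h3 : ∀ k i, ∑ l, (c * β - α * as) k l • t l i = (-2 : ℤ) • c k i • ω)
    (h4 : ∀ i l, ∑ k, (c * β - α * as) k l • C i k = (3 : ℤ) • β i l • ω)
    (h5 : ∀ m l, ∑ k, (γ * d - bs * δ) k l • B m k = (-2 : ℤ) • δ m l • ω)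
    (h6 : ∀ k m, ∑ l, (γ * d - bs * δ) k l • r l m = (2 : ℤ) • bs k m • ω)
    (h7 : ∀ k l, (c * β - α * as) k l • ω = 0) :
    (∀ k l, ∑ i, c k i • ∑ j, as j l • (∑ k', α k' j • C i k' + ∑ l', β i l' • A l' j) = 0) ∧
    (∀ l, (γ * d).det • ∑ i, (e * c * (d * (γ * d).adjugate * γ)) 0 i •
      ∑ j, as j l • (∑ k', α k' j • C i k' + ∑ l', β i l' • A l' j) = 0) := by
  letI : Module Rᵐᵒᵖ M := Module.compHom M ((RingHom.id R).fromOpposite fun _ _ => mul_comm _ _)
  haveI : IsCentralScalar R M := ⟨fun r m => rfl⟩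
  let f : R → TrivSqZeroExt R M := TrivSqZeroExt.inl
  let g : M → TrivSqZeroExt R M := TrivSqZeroExt.inr
  have key := linAlg (α.map f) (as.map f) (c.map f) (β.map f) (γ.map f) (d.map f) (δ.map f)
    (bs.map f) (p.map g) (A.map g) (C.map g) (t.map g) (s.map g) (D.map g) (B.map g) (r.map g)
    (g ω) (e.map f)
  have hz : ∀ {X Y : Type} , (0 : Matrix X Y M).map g = 0 := by
    intro X Y; refine Matrix.ext fun a b => ?_; simp [g]
  have hμ1 : (c.map f) * (β.map f) - (α.map f) * (as.map f) = (c * β - α * as).map f := by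
    rw [tsz_map_sub, tsz_map_mul, tsz_map_mul]
  have hμ2 : (γ.map f) * (d.map f) - (bs.map f) * (δ.map f) = (γ * d - bs * δ).map f := by
    rw [tsz_map_sub, tsz_map_mul, tsz_map_mul]
  rw [hμ1, hμ2] at key
  have e2 : ∀ k : ℤ, ((k : TrivSqZeroExt R M) * g ω) = ((k : ℤ) : TrivSqZeroExt R M) * g ω :=
    fun _ => rfl
  have n2 : -(2 * g ω) = (((-2 : ℤ)) : TrivSqZeroExt R M) * g ω := by push_cast; ring
  have p2 : (2 * g ω) = (((2 : ℤ)) : TrivSqZeroExt R M) * g ω := by push_cast; ring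
  have p3 : (3 * g ω) = (((3 : ℤ)) : TrivSqZeroExt R M) * g ω := by push_cast; ring
  have res := key
    (by rw [← tsz_map_mul, he]; refine Matrix.ext fun a b => ?_; simp [f])
    (by
      rw [tsz_mul_right, tsz_mul_left, tsz_add, ← hz]
      congr 1; ext j j'; exact hE1 j j')
    (by
      rw [n2, tsz_mul_left, tsz_mul_left, tsz_sub, tsz_smul_one]
      congr 1; ext j j'; exact hBb j j')
    (by
      rw [p3, tsz_mul_right, tsz_mul_right, tsz_sub, tsz_smul_one]
      congr 1; ext j j'; exact hP2 j j')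
    (by
      rw [tsz_mul_right, tsz_mul_left, tsz_mul_right, tsz_mul_left, tsz_add, tsz_sub, tsz_sub, ← hz]
      congr 1; ext j j'; exact hE3 j j')
    (by
      rw [n2, tsz_mul_left, tsz_mul_left, tsz_sub, tsz_smul_one]
      congr 1; ext j j'; exact hP4 j j')
    (by
      rw [p2, tsz_mul_right, tsz_mul_right, tsz_sub, tsz_smul_one]
      congr 1; ext j j'; exact hB4 j j')
    (by
      rw [tsz_mul_right, tsz_mul_left, tsz_add, ← hz]
      congr 1; ext j j'; exact hE5 j j')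
    (by rw [p3, tsz_mul_right, tsz_smul]; congr 1; ext j l; exact h1 j l)
    (by rw [n2, tsz_mul_left, tsz_smul]; congr 1; ext j l; exact h2 j l)
    (by rw [n2, tsz_mul_left, tsz_smul]; congr 1; ext j l; exact h3 j l)
    (by rw [p3, tsz_mul_right, tsz_smul]; congr 1; ext j l; exact h4 j l)
    (by rw [n2, tsz_mul_right, tsz_smul]; congr 1; ext j l; exact h5 j l)
    (by rw [p2, tsz_mul_left, tsz_smul]; congr 1; ext j l; exact h6 j l)
    (by
      refine Matrix.ext fun k l => ?_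
      simp only [Matrix.smul_apply, Matrix.map_apply, smul_eq_mul, f, g, tsz_inr_mul, h7]
      simp)
  have hG : ((C.map g) * (α.map f) + (β.map f) * (A.map g)) * (as.map f) =
      (Matrix.of fun i l => ∑ j, as j l • (∑ k', α k' j • C i k' + ∑ l', β i l' • A l' j)).map g := by
    rw [tsz_mul_right, tsz_mul_left, tsz_add, tsz_mul_right]
    rfl
  rw [hG] at res
  refine ⟨fun k l => ?_, fun l => ?_⟩
  · have h := res.1
    rw [tsz_mul_left, ← hz] at h
    have h' := tsz_inj h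
    exact congrFun (congrFun h' k) l
  · have h := res.2
    have hq : (e.map f) * (c.map f) * ((d.map f) * ((γ.map f) * (d.map f)).adjugate * (γ.map f)) =
        (e * c * (d * (γ * d).adjugate * γ)).map f := by
      rw [tsz_map_mul, tsz_map_mul, tsz_map_mul, tsz_map_mul, ← tsz_map_mul γ d]
      congr 4
      exact (RingHom.map_adjugate (TrivSqZeroExt.inlHom R M) (γ * d)).symm
    have hdet : ((γ.map f) * (d.map f)).det = f (γ * d).det := by
      rw [← tsz_map_mul]
      exact (RingHom.map_det (TrivSqZeroExt.inlHom R M) (γ * d)).symm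
    rw [hq, hdet, tsz_mul_left] at h
    have h' := congrFun (congrFun h 0) l
    simp only [Matrix.smul_apply, Matrix.map_apply, smul_eq_mul, Matrix.of_apply, f, g,
      tsz_mul_inr, Matrix.zero_apply] at h'
    exact TrivSqZeroExt.inr_injective (R := R) (h'.trans (TrivSqZeroExt.inr_zero R).symm)

end Pool.Agent.H495
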