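import Pool.Agent.H495.Lie

namespace Pool.Agent.H495

open MvPolynomial

section

variable {ι : Type} [Fintype ι] [DecidableEq ι]

theorem derivation_sum_apply {κ R : Type*} [CommRing R] [Algebra ℂ R] (s : Finset κ)
    (D : κ → Derivation ℂ R R) (f : R) : (∑ r ∈ s, D r) f = ∑ r ∈ s, D r f := by
  classical
  induction s using Finset.induction_on with
  | empty => simp
  | insert a s ha ih => rw [Finset.sum_insert ha, Finset.sum_insert ha, Derivation.add_apply, ih]

/-- The coordinates of weight one. -/
def FTset (e : ι → ℚ) (w : ι → ℕ) (j : Idx e) : Prop := w j.1.1 = w j.1.2 + 1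

instance (e : ι → ℚ) (w : ι → ℕ) : DecidablePred (FTset e w) :=
  fun _ => inferInstanceAs (Decidable (_ = _))

variable (e : ι → ℚ) (w : ι → ℕ)

/-- The coordinate `(p, q)`. -/
noncomputable def yv (p q : ι) : MvPolynomial (Idx e) ℂ :=
  if h : e p = e q + 1 then X ⟨(p, q), h⟩ else 0

/-- The derivation `∂/∂y_{pq}`. -/
noncomputable def pd (p q : ι) : Derivation ℂ (MvPolynomial (Idx e) ℂ) (MvPolynomial (Idx e) ℂ) :=
  if h : e p = e q + 1 then pderiv ⟨(p, q), h⟩ else 0

theorem pd_yv (p q r s : ι) : pd e p q (yv e r s) =
    if p = r ∧ q = s ∧ e p = e q + 1 then 1 else 0 := by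
  unfold pd yv
  by_cases h1 : e p = e q + 1
  · by_cases h2 : e r = e s + 1
    · rw [dif_pos h1, dif_pos h2, pderiv_X]
      by_cases h3 : p = r ∧ q = s
      · obtain ⟨rfl, rfl⟩ := h3
        simp [h1]
      · rw [if_neg (fun h => h3 ⟨h.1, h.2.1⟩), Pi.single_eq_of_ne]
        intro h; exact h3 (by simpa [eq_comm] using h)
    · rw [dif_neg h2, map_zero, if_neg]
      rintro ⟨rfl, rfl, -⟩; exact h2 h1
  · rw [dif_neg h1, if_neg (fun h => h1 h.2.2)]; rfl

theorem yv_zero {p q : ι} (h : e p ≠ e q + 1) : yv e p q = 0 := by rw [yv, dif_neg h]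

theorem pd_zero {p q : ι} (h : e p ≠ e q + 1) : pd e p q = 0 := by rw [pd, dif_neg h]

/-- The derivation by which `vf p q` acts on functions in the mixed variables. -/
noncomputable def der (p q : ι) :
    Derivation ℂ (MvPolynomial (Idx e) ℂ) (MvPolynomial (Idx e) ℂ) :=
  ∑ r, ((if w q = w r + 1 then -(yv e p r • pd e q r) else yv e q r • pd e p r) +
    (if w r = w p + 1 then yv e r q • pd e r p else -(yv e r p • pd e r q)))

theorem der_yv {p q : ι} (hpq : e p = e q) (hw : w p = w q) (r s : ι) :
    der e w p q (yv e r s) =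
      if w r = w s + 1 then (if p = s then yv e r q else 0) - (if q = r then yv e p s else 0)
      else (if p = r then yv e q s else 0) - (if q = s then yv e r p else 0) := by
  have h1 : ∀ t, (if w q = w t + 1 then -(yv e p t • pd e q t) else yv e q t • pd e p t :
      Derivation ℂ (MvPolynomial (Idx e) ℂ) (MvPolynomial (Idx e) ℂ)) (yv e r s) =
      if t = s then (if w r = w s + 1 then -(if q = r then yv e p s else 0) else
        (if p = r then yv e q s else 0)) else 0 := by
    intro t
    by_cases hts : t = s
    · subst hts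
      by_cases hq : w q = w t + 1
      · rw [if_pos hq, if_pos rfl]
        simp only [Derivation.neg_apply, Derivation.smul_apply, pd_yv, smul_eq_mul]
        by_cases hqr : q = r
        · subst hqr
          by_cases he : e q = e t + 1
          · simp [he, hq]
          · simp [he, hq, yv_zero e (show e p ≠ e t + 1 by rwa [hpq])]
        · by_cases hwr : w r = w t + 1
          · simp [hqr, hwr]
          · simp only [hqr, hwr, false_and, if_false, mul_zero, neg_zero]
            rw [if_neg]
            rintro rfl; exact hwr (hw.trans hq)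
      · rw [if_neg hq, if_pos rfl]
        simp only [Derivation.smul_apply, pd_yv, smul_eq_mul]
        by_cases hpr : p = r
        · subst hpr
          rw [if_neg (show ¬ w p = w t + 1 by rwa [hw])]
          by_cases he : e p = e t + 1
          · simp [he]
          · simp [he, yv_zero e (show e q ≠ e t + 1 by rwa [← hpq])]
        · by_cases hwr : w r = w t + 1
          · simp only [hpr, false_and, if_false, mul_zero, hwr, if_true]
            rw [if_neg, neg_zero]
            rintro rfl; exact hq hwr
          · simp [hpr, hwr]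
    · rw [if_neg hts]
      split_ifs <;> simp [pd_yv, hts]
  have h2 : ∀ t, (if w t = w p + 1 then yv e t q • pd e t p else -(yv e t p • pd e t q) :
      Derivation ℂ (MvPolynomial (Idx e) ℂ) (MvPolynomial (Idx e) ℂ)) (yv e r s) =
      if t = r then (if w r = w s + 1 then (if p = s then yv e r q else 0) else
        -(if q = s then yv e r p else 0)) else 0 := by
    intro t
    by_cases hts : t = r
    · subst hts
      by_cases hq : w t = w p + 1
      · rw [if_pos hq, if_pos rfl]
        simp only [Derivation.smul_apply, pd_yv, smul_eq_mul]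
        by_cases hqr : p = s
        · subst hqr
          by_cases he : e t = e p + 1
          · simp [he, hq]
          · simp [he, hq, yv_zero e (show e t ≠ e q + 1 by rwa [← hpq])]
        · by_cases hwr : w t = w s + 1
          · simp [hqr, hwr]
          · simp only [hqr, hwr, false_and, and_false, if_false, mul_zero]
            rw [if_neg, neg_zero]
            rintro rfl; exact hwr (by rw [hq, hw])
      · rw [if_neg hq, if_pos rfl]
        simp only [Derivation.neg_apply, Derivation.smul_apply, pd_yv, smul_eq_mul]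
        by_cases hpr : q = s
        · subst hpr
          rw [if_neg (show ¬ w t = w q + 1 by rwa [← hw])]
          by_cases he : e t = e q + 1
          · simp [he]
          · simp [he, yv_zero e (show e t ≠ e p + 1 by rwa [hpq])]
        · by_cases hwr : w t = w s + 1
          · simp only [hpr, false_and, and_false, if_false, mul_zero, hwr, if_true]
            rw [if_neg, neg_zero]
            rintro rfl; exact hq hwr
          · simp [hpr, hwr]
    · rw [if_neg hts]
      split_ifs <;> simp [pd_yv, hts]
  rw [der, derivation_sum_apply]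
  simp only [Derivation.add_apply, h1, h2, Finset.sum_add_distrib, Finset.sum_ite_eq',
    Finset.mem_univ, if_true]
  split_ifs <;> abel

variable {e w} {L : Type} [AddCommGroup L] [Module ℂ L] (W : WeylModule (Idx e) L)

/-- Functions in the mixed variables. -/
noncomputable def FF (w : ι → ℕ) (W : WeylModule (Idx e) L) :
    MvPolynomial (Idx e) ℂ →ₐ[ℂ] Module.End ℂ L := (W.fourier (FTset e w)).fn

/-- Derivations in the mixed variables. -/
def ZZ (w : ι → ℕ) (W : WeylModule (Idx e) L) (p q : ι) : Module.End ℂ L :=
  dop (W.fourier (FTset e w)) p q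

theorem FF_yv (p q : ι) : FF w W (yv e p q) = if w p = w q + 1 then dop W p q else xop W p q := by
  unfold yv
  by_cases h : e p = e q + 1
  · rw [dif_pos h, FF, WeylModule.fn_X]
    simp only [dop, xop, dif_pos h]
    change (if FTset e w ⟨(p, q), h⟩ then _ else _) = _
    by_cases hh : w p = w q + 1
    · rw [if_pos (show FTset e w ⟨(p, q), h⟩ from hh), if_pos hh]
    · rw [if_neg (show ¬ FTset e w ⟨(p, q), h⟩ from hh), if_neg hh]
  · rw [dif_neg h, map_zero, dop_zero W h, xop_zero W h]; simp

theorem ZZ_eq (p q : ι) : ZZ w W p q = if w p = w q + 1 then -xop W p q else dop W p q := by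
  unfold ZZ dop xop
  by_cases h : e p = e q + 1
  · simp only [dif_pos h]
    change (if FTset e w ⟨(p, q), h⟩ then _ else _) = _
    by_cases hh : w p = w q + 1
    · rw [if_pos (show FTset e w ⟨(p, q), h⟩ from hh), if_pos hh]
    · rw [if_neg (show ¬ FTset e w ⟨(p, q), h⟩ from hh), if_neg hh]
  · simp [dif_neg h]

theorem ZZ_FF (p q : ι) (f : MvPolynomial (Idx e) ℂ) :
    ZZ w W p q * FF w W f = FF w W f * ZZ w W p q + FF w W (pd e p q f) := by
  unfold ZZ dop pd
  by_cases h : e p = e q + 1
  · rw [dif_pos h, dif_pos h]
    exact (W.fourier (FTset e w)).d_mul_fn _ f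
  · rw [dif_neg h, dif_neg h]
    simp

/-- The ordering constant. -/
def kap (e : ι → ℚ) (w : ι → ℕ) (p : ι) : ℤ :=
  (Finset.univ.filter fun r => e r = e p + 1 ∧ w r = w p + 1).card -
  (Finset.univ.filter fun r => e p = e r + 1 ∧ w p = w r + 1).card

theorem vf_mixed {p q : ι} (hpq : e p = e q) (hw : w p = w q) :
    vf W p q = ∑ r, ((if w q = w r + 1 then -(FF w W (yv e p r) * ZZ w W q r)
        else FF w W (yv e q r) * ZZ w W p r) +
      (if w r = w p + 1 then FF w W (yv e r q) * ZZ w W r p
        else -(FF w W (yv e r p) * ZZ w W r q))) + (if p = q then ((kap e w p : ℤ) : ℂ) • 1 else 0) := by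
  have h1 : ∀ r, xop W q r * dop W p r = (if w q = w r + 1 then
      -(FF w W (yv e p r) * ZZ w W q r) else FF w W (yv e q r) * ZZ w W p r) -
      (if p = q then (if e p = e r + 1 ∧ w p = w r + 1 then 1 else 0) else 0) := by
    intro r
    rw [FF_yv, FF_yv, ZZ_eq, ZZ_eq, hw]
    by_cases h : w q = w r + 1
    · simp only [h, if_true, mul_neg, neg_neg, and_true]
      rw [dop_xop]
      by_cases hpq' : p = q
      · subst hpq'; simp
      · simp [hpq']
    · simp [h]
  have h2 : ∀ r, xop W r p * dop W r q = -(if w r = w p + 1 then FF w W (yv e r q) * ZZ w W r p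
        else -(FF w W (yv e r p) * ZZ w W r q)) -
      (if p = q then (if e r = e p + 1 ∧ w r = w p + 1 then 1 else 0) else 0) := by
    intro r
    rw [FF_yv, FF_yv, ZZ_eq, ZZ_eq, ← hw]
    by_cases h : w r = w p + 1
    · simp only [h, if_true, mul_neg, neg_neg, and_true]
      rw [dop_xop]
      by_cases hpq' : p = q
      · subst hpq'; simp
      · simp [hpq', Ne.symm hpq']
    · simp [h]
  rw [vf]
  simp only [h1, h2]
  have h3 : ∀ r, ((if w q = w r + 1 then -(FF w W (yv e p r) * ZZ w W q r)
        else FF w W (yv e q r) * ZZ w W p r) -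
      (if p = q then (if e p = e r + 1 ∧ w p = w r + 1 then (1 : Module.End ℂ L) else 0) else 0) -
      (-(if w r = w p + 1 then FF w W (yv e r q) * ZZ w W r p
        else -(FF w W (yv e r p) * ZZ w W r q)) -
      (if p = q then (if e r = e p + 1 ∧ w r = w p + 1 then 1 else 0) else 0))) =
      ((if w q = w r + 1 then -(FF w W (yv e p r) * ZZ w W q r)
        else FF w W (yv e q r) * ZZ w W p r) +
      (if w r = w p + 1 then FF w W (yv e r q) * ZZ w W r p
        else -(FF w W (yv e r p) * ZZ w W r q))) +
      (if p = q then ((if e r = e p + 1 ∧ w r = w p + 1 then (1 : Module.End ℂ L) else 0) -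
        (if e p = e r + 1 ∧ w p = w r + 1 then 1 else 0)) else 0) := by
    intro r
    by_cases hpq' : p = q
    · simp only [hpq', if_true]; abel
    · simp only [hpq', if_false]; abel
  simp only [h3]
  rw [Finset.sum_add_distrib]
  congr 1
  by_cases hpq' : p = q
  · simp only [hpq', if_true]
    rw [Finset.sum_sub_distrib, kap, Finset.sum_boole, Finset.sum_boole]
    push_cast
    rw [sub_smul, Nat.cast_smul_eq_nsmul, Nat.cast_smul_eq_nsmul, nsmul_one, nsmul_one]
  · simp [hpq']

theorem vf_FF {p q : ι} (hpq : e p = e q) (hw : w p = w q) (f : MvPolynomial (Idx e) ℂ) :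
    vf W p q * FF w W f = FF w W f * vf W p q + FF w W (der e w p q f) := by
  have key : ∀ (a : MvPolynomial (Idx e) ℂ) (r s : ι), (FF w W a * ZZ w W r s) * FF w W f =
      FF w W f * (FF w W a * ZZ w W r s) + FF w W (a * pd e r s f) := by
    intro a r s
    rw [mul_assoc, ZZ_FF, mul_add, ← mul_assoc, ← map_mul, mul_comm a f, map_mul, mul_assoc,
      ← map_mul]
  rw [vf_mixed W hpq hw, der, add_mul, mul_add, Finset.sum_mul, Finset.mul_sum,
    derivation_sum_apply, map_sum]
  have h1 : ∀ r, ((if w q = w r + 1 then -(FF w W (yv e p r) * ZZ w W q r)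
        else FF w W (yv e q r) * ZZ w W p r) +
      (if w r = w p + 1 then FF w W (yv e r q) * ZZ w W r p
        else -(FF w W (yv e r p) * ZZ w W r q))) * FF w W f =
      FF w W f * ((if w q = w r + 1 then -(FF w W (yv e p r) * ZZ w W q r)
        else FF w W (yv e q r) * ZZ w W p r) +
      (if w r = w p + 1 then FF w W (yv e r q) * ZZ w W r p
        else -(FF w W (yv e r p) * ZZ w W r q))) +
      FF w W (((if w q = w r + 1 then -(yv e p r • pd e q r) else yv e q r • pd e p r) +
    (if w r = w p + 1 then yv e r q • pd e r p else -(yv e r p • pd e r q)) :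
      Derivation ℂ (MvPolynomial (Idx e) ℂ) (MvPolynomial (Idx e) ℂ)) f) := by
    intro r
    rw [Derivation.add_apply, map_add, add_mul, mul_add]
    split_ifs <;>
    simp only [Derivation.neg_apply, Derivation.smul_apply, smul_eq_mul, map_neg, neg_mul,
      mul_neg, key] <;> abel
  rw [Finset.sum_congr rfl fun r _ => h1 r, Finset.sum_add_distrib]
  have h2 : (if p = q then ((kap e w p : ℤ) : ℂ) • (1 : Module.End ℂ L) else 0) * FF w W f =
      FF w W f * (if p = q then ((kap e w p : ℤ) : ℂ) • 1 else 0) := by
    split_ifs <;> simp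
  rw [h2]; abel

end

end Pool.Agent.H495
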