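import Pool.Agent.H495.KSinj

/-! Existence of a semi-invariant vector. -/

namespace Pool.Agent.H495

open MvPolynomial Ix WeylModule

theorem common_eigen {κ : Type*} {L : Type} [AddCommGroup L] [Module ℂ L]
    (T : κ → Module.End ℂ L) (hc : ∀ i j, T i * T j = T j * T i)
    (hn : ∀ i, ∀ u : L, ∃ s : Finset ℤ,
      Polynomial.aeval (T i) (∏ j ∈ s, (Polynomial.X - Polynomial.C (j : ℂ))) u = 0)
    (W : Submodule ℂ L) (hW : ∀ i, ∀ w ∈ W, T i w ∈ W) (s : Finset κ) {w : L} (hw : w ∈ W)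
    (h0 : w ≠ 0) : ∃ v ∈ W, v ≠ 0 ∧ ∀ i ∈ s, ∃ m : ℤ, T i v = (m : ℂ) • v := by
  classical
  induction s using Finset.induction_on with
  | empty => exact ⟨w, hw, h0, by simp⟩
  | insert a s ha ih =>
    obtain ⟨v, hv, hv0, hvs⟩ := ih
    choose! m hm using hvs
    let W' : Submodule ℂ L :=
      { carrier := {u | u ∈ W ∧ ∀ i ∈ s, T i u = (m i : ℂ) • u}
        zero_mem' := ⟨W.zero_mem, fun i _ => by simp⟩
        add_mem' := fun hx hy => ⟨W.add_mem hx.1 hy.1, fun i hi => by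
          rw [map_add, hx.2 i hi, hy.2 i hi, smul_add]⟩
        smul_mem' := fun c x hx => ⟨W.smul_mem c hx.1, fun i hi => by
          rw [map_smul, hx.2 i hi, smul_comm]⟩ }
    obtain ⟨v', hv', hv'0, k, hk⟩ := exists_eigen (T a) (hn a) W' (by
      intro u hu
      refine ⟨hW a u hu.1, fun i hi => ?_⟩
      rw [← Module.End.mul_apply, hc, Module.End.mul_apply, hu.2 i hi, map_smul])
      (w := v) ⟨hv, hm⟩ hv0
    refine ⟨v', hv'.1, hv'0, fun i hi => ?_⟩
    rcases Finset.mem_insert.1 hi with rfl | hi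
    · exact ⟨k, hk⟩
    · exact ⟨m i, hv'.2 i hi⟩

section

variable {L : Type} [AddCommGroup L] [Module ℂ L] (W : WeylModule (Idx (lev (m := 3))) L)

/-- Vectors killed by the `sl` of a group. -/
def KG {n : ℕ} (pos : Fin n → Ix 3) : Submodule ℂ L where
  carrier := {u | (∀ i j, i ≠ j → vf W (pos i) (pos j) u = 0) ∧
    ∀ i j, vf W (pos i) (pos i) u = vf W (pos j) (pos j) u}
  zero_mem' := ⟨fun i j _ => map_zero _, fun i j => by simp⟩
  add_mem' := fun ha hb => ⟨fun i j hij => by rw [map_add, ha.1 i j hij, hb.1 i j hij, add_zero],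
    fun i j => by rw [map_add, map_add, ha.2 i j, hb.2 i j]⟩
  smul_mem' := fun c x hx => ⟨fun i j hij => by rw [map_smul, hx.1 i j hij, smul_zero],
    fun i j => by rw [map_smul, map_smul, hx.2 i j]⟩

/-- vector killed by the entries of a matrix -/
def KM {A B : Type} (M : Matrix A B (RR 3)) : Submodule ℂ L where
  carrier := {u | ∀ k l, FF wt W (M k l) u = 0}
  zero_mem' := fun k l => map_zero _
  add_mem' := fun ha hb k l => by rw [map_add, ha k l, hb k l, add_zero]
  smul_mem' := fun c x hx k l => by rw [map_smul, hx k l, smul_zero]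

variable {W}

/-- a group: positions of equal level and weight -/
structure IsGrp {n : ℕ} (pos : Fin n → Ix 3) : Prop where
  inj : Function.Injective pos
  lev : ∀ i j, lev (pos i) = lev (pos j)
  wt : ∀ i j, wt (pos i) = wt (pos j)

theorem vf_F_apply {n : ℕ} {pos : Fin n → Ix 3} (hp : IsGrp pos) (i j : Fin n) (f : RR 3) (u : L) :
    vf W (pos i) (pos j) (FF wt W f u) = FF wt W f (vf W (pos i) (pos j) u) +
      FF wt W (DD pos i j f) u := by
  have := congrArg (fun T => T u) (vf_FF W (hp.lev i j) (hp.wt i j) f)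
  simpa [DD] using this

theorem KG_F {n : ℕ} {pos : Fin n → Ix 3} (hp : IsGrp pos) {c : ℤ} {f : RR 3}
    (hf : Sc (DD pos) c f) {u : L} (hu : u ∈ KG W pos) : FF wt W f u ∈ KG W pos := by
  refine ⟨fun i j hij => ?_, fun i j => ?_⟩
  · rw [vf_F_apply hp, hu.1 i j hij, hf, if_neg hij]; simp
  · rw [vf_F_apply hp, vf_F_apply hp, hu.2 i j, hf, hf, if_pos rfl, if_pos rfl]

theorem KG_eig {n : ℕ} {pos : Fin n → Ix 3} (hp : IsGrp pos) {c : ℤ} {f : RR 3}
    (hf : Sc (DD pos) c f) {u : L} {i : Fin n} {m : ℤ}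
    (hu : vf W (pos i) (pos i) u = (m : ℂ) • u) :
    vf W (pos i) (pos i) (FF wt W f u) = ((m + c : ℤ) : ℂ) • (FF wt W f u) := by
  rw [vf_F_apply hp, hu, hf, if_pos rfl, map_smul, map_mul, Module.End.mul_apply]
  have : FF wt W ((c : RR 3)) = ((c : ℤ) : ℂ) • (1 : Module.End ℂ L) := by
    rw [map_intCast]; ext v; simp [Int.cast_smul_eq_zsmul]
  rw [this, LinearMap.smul_apply, Module.End.one_apply, ← add_smul]
  push_cast; rfl

theorem KG_vf {n n' : ℕ} {pos : Fin n → Ix 3} {pos' : Fin n' → Ix 3} (hp : IsGrp pos)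
    (hd : ∀ i j, pos i ≠ pos' j) {u : L} (hu : u ∈ KG W pos) (k l : Fin n') :
    vf W (pos' k) (pos' l) u ∈ KG W pos := by
  have hcomm : ∀ i j, vf W (pos i) (pos j) (vf W (pos' k) (pos' l) u) =
      vf W (pos' k) (pos' l) (vf W (pos i) (pos j) u) := by
    intro i j
    have := vf_vf W (r := pos' k) (s := pos' l) (hp.lev i j)
    rw [if_neg (hd i l).symm, if_neg (hd j k), sub_zero, sub_eq_zero] at this
    rw [← Module.End.mul_apply, this, Module.End.mul_apply]
  refine ⟨fun i j hij => ?_, fun i j => ?_⟩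
  · rw [hcomm, hu.1 i j hij, map_zero]
  · rw [hcomm, hcomm, hu.2 i j]

theorem KM_F {A B : Type} {M : Matrix A B (RR 3)} (f : RR 3) {u : L} (hu : u ∈ KM W M) :
    FF wt W f u ∈ KM W M := by
  intro k l
  rw [← Module.End.mul_apply, ← map_mul, mul_comm, map_mul, Module.End.mul_apply, hu k l, map_zero]

theorem KM_vf_row {B : Type} {n : ℕ} {pos : Fin n → Ix 3} (hp : IsGrp pos)
    {M : Matrix (Fin n) B (RR 3)} (hM : RowM (DD pos) 0 M) {u : L} (hu : u ∈ KM W M)
    (i j : Fin n) : vf W (pos i) (pos j) u ∈ KM W M := by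
  intro k l
  have h1 := vf_F_apply (W := W) hp i j (M k l) u
  have h2 : FF wt W (DD pos i j (M k l)) u = 0 := by
    rw [hM l i j k, map_add, LinearMap.add_apply]
    split_ifs <;> simp [hu j l]
  rw [hu k l, map_zero, h2, add_zero] at h1
  exact h1.symm

theorem KM_vf_col {A : Type} {n : ℕ} {pos : Fin n → Ix 3} (hp : IsGrp pos)
    {M : Matrix A (Fin n) (RR 3)} (hM : ColM (DD pos) 0 M) {u : L} (hu : u ∈ KM W M)
    (i j : Fin n) : vf W (pos i) (pos j) u ∈ KM W M := by
  intro k l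
  have h1 := vf_F_apply (W := W) hp i j (M k l) u
  have h2 : FF wt W (DD pos i j (M k l)) u = 0 := by
    rw [hM k i j l, map_add, LinearMap.add_apply]
    split_ifs <;> simp [hu k i]
  rw [hu k l, map_zero, h2, add_zero] at h1
  exact h1.symm

theorem KM_vf_sc {A B : Type} {n : ℕ} {pos : Fin n → Ix 3} (hp : IsGrp pos)
    {M : Matrix A B (RR 3)} (hM : ScM (DD pos) 0 M) {u : L} (hu : u ∈ KM W M)
    (i j : Fin n) : vf W (pos i) (pos j) u ∈ KM W M := by
  intro k l
  have h1 := vf_F_apply (W := W) hp i j (M k l) u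
  have h2 : FF wt W (DD pos i j (M k l)) u = 0 := by
    rw [hM k l i j]
    split_ifs <;> simp
  rw [hu k l, map_zero, h2, add_zero] at h1
  exact h1.symm

theorem neg_diag {T : Module.End ℂ L} (h : ∀ u : L, ∃ s : Finset ℤ,
      Polynomial.aeval T (∏ j ∈ s, (Polynomial.X - Polynomial.C (j : ℂ))) u = 0) (u : L) :
    ∃ s : Finset ℤ,
      Polynomial.aeval (-T) (∏ j ∈ s, (Polynomial.X - Polynomial.C (j : ℂ))) u = 0 := by
  obtain ⟨s, hs⟩ := h u
  refine ⟨s.map (Equiv.neg ℤ).toEmbedding, ?_⟩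
  have h1 : ((∏ j ∈ s.map (Equiv.neg ℤ).toEmbedding, (Polynomial.X - Polynomial.C (j : ℂ))) :
      Polynomial ℂ).comp (-Polynomial.X) =
      (-1) ^ s.card * ∏ j ∈ s, (Polynomial.X - Polynomial.C (j : ℂ)) := by
    rw [Finset.prod_map, ← Finset.prod_const, ← Finset.prod_mul_distrib, Polynomial.prod_comp]
    refine Finset.prod_congr rfl fun j _ => ?_
    simp; ring
  have h2 := Polynomial.aeval_comp (x := T) (p := ((∏ j ∈ s.map (Equiv.neg ℤ).toEmbedding,
      (Polynomial.X - Polynomial.C (j : ℂ))) : Polynomial ℂ)) (q := -Polynomial.X)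
  rw [map_neg, Polynomial.aeval_X] at h2
  rw [← h2, h1, map_mul, Module.End.mul_apply, hs, map_zero]

theorem step_std {n : ℕ} {pos : Fin n → Ix 3} (he : IsEquivariant W) (hp : IsGrp pos)
    {a : Matrix (Fin n) (Fin n) (RR 3)} (ha : ∀ l, RowV (DD pos) 0 (fun k => a k l))
    (hminor : ∀ (k : ℕ) (hk : k ≤ n) (w : L),
      FF wt W ((a.submatrix (Fin.castLE hk) (Fin.castLE hk)).det) w = 0 → w = 0)
    (U : Submodule ℂ L) (hV : ∀ i j, ∀ w ∈ U, vf W (pos i) (pos j) w ∈ U)
    (hF : ∀ i j, ∀ w ∈ U, FF wt W (a i j) w ∈ U) {w₀ : L} (hw₀ : w₀ ∈ U) (h0 : w₀ ≠ 0) :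
    ∃ w ∈ U ⊓ KG W pos, w ≠ 0 := by
  have hG : GLData n (FF wt W).toRingHom (fun i j => vf W (pos j) (pos i)) a := by
    refine ⟨fun i j k l => ?_, fun i j hij => ?_, fun i => he.2 _, fun i j k l => ?_, hminor⟩
    · rw [vf_vf W (hp.lev j i)]
      simp only [hp.inj.eq_iff]
      by_cases h1 : j = k
      · by_cases h2 : i = l
        · subst h1 h2; simp
        · simp [h1, h2]
      · by_cases h2 : i = l
        · simp [h1, h2, Ne.symm h1]
        · simp [h1, h2, Ne.symm h1]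
    · exact he.1 _ _ (hp.lev _ _) (fun h => hij (hp.inj h).symm)
    · have := vf_FF W (hp.lev j i) (hp.wt j i) (a k l)
      refine this.trans ?_
      congr 1
      have h2 := ha l j i k
      simp only [DD] at h2
      rw [h2]
      split_ifs <;> simp
  obtain ⟨w, hw, hw0, h1, h2⟩ := gl_invariant hG U (fun i j => hV j i) hF hw₀ h0
  exact ⟨w, ⟨hw, fun i j hij => h1 j i hij.symm, fun i j => h2 i j⟩, hw0⟩

theorem step_dual {n : ℕ} {pos : Fin n → Ix 3} (he : IsEquivariant W) (hp : IsGrp pos)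
    {a : Matrix (Fin n) (Fin n) (RR 3)} (ha : ColM (DD pos) 0 a)
    (hminor : ∀ (k : ℕ) (hk : k ≤ n) (w : L),
      FF wt W ((a.transpose.submatrix (Fin.castLE hk) (Fin.castLE hk)).det) w = 0 → w = 0)
    (U : Submodule ℂ L) (hV : ∀ i j, ∀ w ∈ U, vf W (pos i) (pos j) w ∈ U)
    (hF : ∀ i j, ∀ w ∈ U, FF wt W (a i j) w ∈ U) {w₀ : L} (hw₀ : w₀ ∈ U) (h0 : w₀ ≠ 0) :
    ∃ w ∈ U ⊓ KG W pos, w ≠ 0 := by
  have hG : GLData n (FF wt W).toRingHom (fun i j => -vf W (pos i) (pos j)) a.transpose := by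
    refine ⟨fun i j k l => ?_, fun i j hij => ?_, fun i => ?_, fun i j k l => ?_, hminor⟩
    · rw [neg_mul_neg, neg_mul_neg, vf_vf W (hp.lev i j)]
      simp only [hp.inj.eq_iff]
      by_cases h1 : j = k
      · by_cases h2 : i = l
        · subst h1 h2; simp; abel
        · simp [h1, h2, Ne.symm h2]
      · by_cases h2 : i = l
        · simp [h1, h2]
        · simp [h1, h2, Ne.symm h2]
    · intro u
      obtain ⟨k, hk⟩ := he.1 _ _ (hp.lev i j) (fun h => hij (hp.inj h)) u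
      refine ⟨k, ?_⟩
      rw [neg_pow, Module.End.mul_apply, hk, map_zero]
    · intro u
      exact neg_diag (he.2 (pos i)) u
    · have := vf_FF W (hp.lev i j) (hp.wt i j) (a l k)
      simp only [Matrix.transpose_apply]
      have h2 := ha l i j k
      simp only [DD] at h2
      rw [h2] at this
      have h3 : -vf W (pos i) (pos j) * (FF wt W).toRingHom (a l k) =
          -(vf W (pos i) (pos j) * FF wt W (a l k)) := neg_mul _ _
      rw [h3, this, neg_add, mul_neg]
      congr 1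
      split_ifs <;> simp
  obtain ⟨w, hw, hw0, h1, h2⟩ := gl_invariant hG U (fun i j w hw => by
    simpa using U.neg_mem (hV i j w hw)) (fun i j w hw => hF j i w hw) hw₀ h0
  refine ⟨w, ⟨hw, fun i j hij => ?_, fun i j => ?_⟩, hw0⟩
  · simpa using h1 i j hij
  · simpa using h2 i j

end

end Pool.Agent.H495
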