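import Pool.Agent.H495.Peel

/-! Existence of a semi-invariant vector. -/

namespace Pool.Agent.H495

open MvPolynomial Ix WeylModule

theorem gE3 : IsGrp e3 := ⟨fun _ _ h => by simpa using h, fun _ _ => rfl, fun _ _ => rfl⟩
theorem gB : IsGrp b := ⟨fun _ _ h => by simpa using h, fun _ _ => rfl, fun _ _ => rfl⟩
theorem gE1 : IsGrp e1 := ⟨fun _ _ h => by simpa using h, fun _ _ => rfl, fun _ _ => rfl⟩
theorem gE5 : IsGrp e5 := ⟨fun _ _ h => by simpa using h, fun _ _ => rfl, fun _ _ => rfl⟩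
theorem gP2 : IsGrp p2 := ⟨fun _ _ h => by simpa using h, fun _ _ => rfl, fun _ _ => rfl⟩
theorem gB4 : IsGrp b4 := ⟨fun _ _ h => by simpa using h, fun _ _ => rfl, fun _ _ => rfl⟩
theorem gP4 : IsGrp p4 := ⟨fun _ _ h => by simpa using h, fun _ _ => rfl, fun _ _ => rfl⟩

noncomputable def μ1 : Matrix (Fin 3) (Fin 2) (RR 3) := mc 3 * mβ 3 - mα 3 * mas 3
noncomputable def μ2 : Matrix (Fin 2) (Fin 2) (RR 3) := mγ 3 * md 3 - mbs 3 * mδ 3

section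

variable {L : Type} [AddCommGroup L] [Module ℂ L] {W : WeylModule (Idx (lev (m := 3))) L}

theorem Fα (k j) : FF wt W (mα 3 k j) = xop W (b k) (e1 j) := by simp [mα, FF_yv, wt]
theorem Fas (j l) : FF wt W (mas 3 j l) = dop W (p2 l) (e1 j) := by simp [mas, FF_yv, wt]
theorem Fc (k i) : FF wt W (mc 3 k i) = dop W (e3 i) (b k) := by simp [mc, FF_yv, wt]
theorem Fβ (i l) : FF wt W (mβ 3 i l) = xop W (e3 i) (p2 l) := by simp [mβ, FF_yv, wt]
theorem Fγ (k i) : FF wt W (mγ 3 k i) = xop W (p4 k) (e3 i) := by simp [mγ, FF_yv, wt]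
theorem Fd (i k) : FF wt W (md 3 i k) = dop W (b4 k) (e3 i) := by simp [md, FF_yv, wt]
theorem Fδ (i k) : FF wt W (mδ 3 i k) = xop W (e5 i) (b4 k) := by simp [mδ, FF_yv, wt]
theorem Fbs (k i) : FF wt W (mbs 3 k i) = dop W (e5 i) (p4 k) := by simp [mbs, FF_yv, wt]

theorem F_μ1 (k l) : FF wt W (μ1 k l) = -vf W (p2 l) (b k) := by
  rw [μ1, Matrix.sub_apply, Matrix.mul_apply, Matrix.mul_apply, map_sub, map_sum, map_sum, vf,
    sum_ix]
  simp only [map_mul, Fα, Fas, Fc, Fβ]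
  have hz : ∀ p q : Ix 3, lev p ≠ lev q + 1 → xop W p q = 0 := fun p q h => xop_zero W h
  have hz' : ∀ p q : Ix 3, lev p ≠ lev q + 1 → dop W p q = 0 := fun p q h => dop_zero W h
  simp only [hz (b k) (b _) (by norm_num [lev]), hz (b k) (p2 _) (by norm_num [lev]),
    hz (b k) (e3 _) (by norm_num [lev]), hz (b k) (p4 _) (by norm_num [lev]),
    hz (b k) (b4 _) (by norm_num [lev]), hz (b k) (e5 _) (by norm_num [lev]),
    hz' (e1 _) (b k) (by norm_num [lev]), hz' (b _) (b k) (by norm_num [lev]),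
    hz' (p2 _) (b k) (by norm_num [lev]), hz' (p4 _) (b k) (by norm_num [lev]),
    hz' (b4 _) (b k) (by norm_num [lev]), hz' (e5 _) (b k) (by norm_num [lev]),
    mul_zero, zero_mul, sub_zero, zero_sub, Finset.sum_const_zero, add_zero,
    Finset.sum_neg_distrib]
  have h1 : ∀ i, dop W (e3 i) (b k) * xop W (e3 i) (p2 l) =
      xop W (e3 i) (p2 l) * dop W (e3 i) (b k) := by
    intro i; rw [dop_xop, if_neg (by simp), add_zero]
  simp only [h1]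
  abel

theorem F_μ2 (k l) : FF wt W (μ2 k l) = vf W (b4 l) (p4 k) := by
  rw [μ2, Matrix.sub_apply, Matrix.mul_apply, Matrix.mul_apply, map_sub, map_sum, map_sum, vf,
    sum_ix]
  simp only [map_mul, Fγ, Fd, Fbs, Fδ]
  have hz : ∀ p q : Ix 3, lev p ≠ lev q + 1 → xop W p q = 0 := fun p q h => xop_zero W h
  have hz' : ∀ p q : Ix 3, lev p ≠ lev q + 1 → dop W p q = 0 := fun p q h => dop_zero W h
  simp only [hz (p4 k) (b _) (by norm_num [lev]), hz (p4 k) (p2 _) (by norm_num [lev]),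
    hz (p4 k) (e1 _) (by norm_num [lev]), hz (p4 k) (p4 _) (by norm_num [lev]),
    hz (p4 k) (b4 _) (by norm_num [lev]), hz (p4 k) (e5 _) (by norm_num [lev]),
    hz' (e1 _) (p4 k) (by norm_num [lev]), hz' (b _) (p4 k) (by norm_num [lev]),
    hz' (p2 _) (p4 k) (by norm_num [lev]), hz' (e3 _) (p4 k) (by norm_num [lev]),
    hz' (p4 _) (p4 k) (by norm_num [lev]),
    hz' (b4 _) (p4 k) (by norm_num [lev]),
    mul_zero, zero_mul, sub_zero, zero_sub, Finset.sum_const_zero, add_zero, zero_add,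
    Finset.sum_neg_distrib]
  have h1 : ∀ i, dop W (e5 i) (p4 k) * xop W (e5 i) (b4 l) =
      xop W (e5 i) (b4 l) * dop W (e5 i) (p4 k) := by
    intro i; rw [dop_xop, if_neg (by simp), add_zero]
  simp only [h1]
  abel

variable (W) in
/-- Vectors killed by the Lie algebra of weight one. -/
noncomputable def L0 : Submodule ℂ L := KM W μ1 ⊓ KM W μ2

theorem L0_F (f : RR 3) {u : L} (hu : u ∈ L0 W) : FF wt W f u ∈ L0 W :=
  ⟨KM_F f hu.1, KM_F f hu.2⟩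

theorem L0_ne (he : IsEquivariant W) (hL : Nontrivial L) : ∃ u ∈ L0 W, u ≠ 0 := by
  obtain ⟨w, hw⟩ := exists_ne (0 : L)
  obtain ⟨v, -, hv0, hv⟩ := common_kernel
    (fun i : (Fin 3 × Fin 2) ⊕ (Fin 2 × Fin 2) => Sum.elim (fun kl => FF wt W (μ1 kl.1 kl.2))
      (fun kl => FF wt W (μ2 kl.1 kl.2)) i)
    (by
      rintro (i | i) (j | j) <;> simp only [Sum.elim_inl, Sum.elim_inr, ← map_mul, mul_comm])
    (by
      rintro (⟨k, l⟩ | ⟨k, l⟩) u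
      · obtain ⟨n, hn⟩ := he.1 (p2 l) (b k) (by simp [lev]) (by simp) u
        refine ⟨n, ?_⟩
        simp only [Sum.elim_inl, F_μ1]
        rw [neg_pow, Module.End.mul_apply, hn, map_zero]
      · obtain ⟨n, hn⟩ := he.1 (b4 l) (p4 k) (by simp [lev]) (by simp) u
        refine ⟨n, ?_⟩
        simp only [Sum.elim_inr, F_μ2]
        exact hn)
    ⊤ (fun i w _ => Submodule.mem_top) Finset.univ (w := w) Submodule.mem_top hw
  exact ⟨v, ⟨fun k l => hv (Sum.inl (k, l)) (Finset.mem_univ _),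
    fun k l => hv (Sum.inr (k, l)) (Finset.mem_univ _)⟩, hv0⟩

theorem ScM.sub {A B R : Type} [CommRing R] [Algebra ℂ R] {n : ℕ}
    {D : Fin n → Fin n → Derivation ℂ R R} {c : ℤ} {M N : Matrix A B R} (hM : ScM D c M)
    (hN : ScM D c N) : ScM D c (M - N) := fun k l => (hM k l).sub (hN k l)
theorem RowM.sub {B R : Type} [CommRing R] [Algebra ℂ R] {n : ℕ}
    {D : Fin n → Fin n → Derivation ℂ R R} {c : ℤ} {M N : Matrix (Fin n) B R} (hM : RowM D c M)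
    (hN : RowM D c N) : RowM D c (M - N) := fun l => (hM l).sub (hN l)
theorem ColM.sub {A R : Type} [CommRing R] [Algebra ℂ R] {n : ℕ}
    {D : Fin n → Fin n → Derivation ℂ R R} {c : ℤ} {M N : Matrix A (Fin n) R} (hM : ColM D c M)
    (hN : ColM D c N) : ColM D c (M - N) := fun l => (hM l).sub (hN l)

theorem E3_μ1 : ScM (DD (m := 3) e3) 0 μ1 :=
  ScM.sub ((ColM.mul_row E3_c E3_β).congr (by norm_num)) ((ScM.mul E3_α E3_as).congr (by norm_num))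
theorem E3_μ2 : ScM (DD (m := 3) e3) 0 μ2 :=
  ScM.sub ((ColM.mul_row E3_γ E3_d).congr (by norm_num)) ((ScM.mul E3_bs E3_δ).congr (by norm_num))
theorem B_μ1 : RowM (DD (m := 3) b) 0 μ1 :=
  RowM.sub ((RowM.mul B_c B_β).congr (by norm_num)) ((RowM.mul B_α B_as).congr (by norm_num))
theorem B_μ2 : ScM (DD (m := 3) b) 0 μ2 :=
  ScM.sub ((ScM.mul B_γ B_d).congr (by norm_num)) ((ScM.mul B_bs B_δ).congr (by norm_num))
theorem E1_μ1 : ScM (DD (m := 3) e1) 0 μ1 :=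
  ScM.sub ((ScM.mul E1_c E1_β).congr (by norm_num)) ((ColM.mul_row E1_α E1_as).congr (by norm_num))
theorem E1_μ2 : ScM (DD (m := 3) e1) 0 μ2 :=
  ScM.sub ((ScM.mul E1_γ E1_d).congr (by norm_num)) ((ScM.mul E1_bs E1_δ).congr (by norm_num))
theorem E5_μ1 : ScM (DD (m := 3) e5) 0 μ1 :=
  ScM.sub ((ScM.mul E5_c E5_β).congr (by norm_num)) ((ScM.mul E5_α E5_as).congr (by norm_num))
theorem E5_μ2 : ScM (DD (m := 3) e5) 0 μ2 :=
  ScM.sub ((ScM.mul E5_γ E5_d).congr (by norm_num)) ((ColM.mul_row E5_bs E5_δ).congr (by norm_num))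
theorem P2_μ1 : ColM (DD (m := 3) p2) 0 μ1 :=
  ColM.sub ((ColM.mul P2_c P2_β).congr (by norm_num)) ((ColM.mul P2_α P2_as).congr (by norm_num))
theorem P2_μ2 : ScM (DD (m := 3) p2) 0 μ2 :=
  ScM.sub ((ScM.mul P2_γ P2_d).congr (by norm_num)) ((ScM.mul P2_bs P2_δ).congr (by norm_num))
theorem B4_μ1 : ScM (DD (m := 3) b4) 0 μ1 :=
  ScM.sub ((ScM.mul B4_c B4_β).congr (by norm_num)) ((ScM.mul B4_α B4_as).congr (by norm_num))
theorem B4_μ2 : ColM (DD (m := 3) b4) 0 μ2 :=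
  ColM.sub ((ColM.mul B4_γ B4_d).congr (by norm_num)) ((ColM.mul B4_bs B4_δ).congr (by norm_num))
theorem P4_μ1 : ScM (DD (m := 3) p4) 0 μ1 :=
  ScM.sub ((ScM.mul P4_c P4_β).congr (by norm_num)) ((ScM.mul P4_α P4_as).congr (by norm_num))
theorem P4_μ2 : RowM (DD (m := 3) p4) 0 μ2 :=
  RowM.sub ((RowM.mul P4_γ P4_d).congr (by norm_num)) ((RowM.mul P4_bs P4_δ).congr (by norm_num))

theorem L0_E3 (i j) {u : L} (hu : u ∈ L0 W) : vf W (e3 i) (e3 j) u ∈ L0 W :=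
  ⟨KM_vf_sc gE3 E3_μ1 hu.1 i j, KM_vf_sc gE3 E3_μ2 hu.2 i j⟩
theorem L0_B (i j) {u : L} (hu : u ∈ L0 W) : vf W (b i) (b j) u ∈ L0 W :=
  ⟨KM_vf_row gB B_μ1 hu.1 i j, KM_vf_sc gB B_μ2 hu.2 i j⟩
theorem L0_E1 (i j) {u : L} (hu : u ∈ L0 W) : vf W (e1 i) (e1 j) u ∈ L0 W :=
  ⟨KM_vf_sc gE1 E1_μ1 hu.1 i j, KM_vf_sc gE1 E1_μ2 hu.2 i j⟩
theorem L0_E5 (i j) {u : L} (hu : u ∈ L0 W) : vf W (e5 i) (e5 j) u ∈ L0 W :=
  ⟨KM_vf_sc gE5 E5_μ1 hu.1 i j, KM_vf_sc gE5 E5_μ2 hu.2 i j⟩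
theorem L0_P2 (i j) {u : L} (hu : u ∈ L0 W) : vf W (p2 i) (p2 j) u ∈ L0 W :=
  ⟨KM_vf_col gP2 P2_μ1 hu.1 i j, KM_vf_sc gP2 P2_μ2 hu.2 i j⟩
theorem L0_B4 (i j) {u : L} (hu : u ∈ L0 W) : vf W (b4 i) (b4 j) u ∈ L0 W :=
  ⟨KM_vf_sc gB4 B4_μ1 hu.1 i j, KM_vf_col gB4 B4_μ2 hu.2 i j⟩
theorem L0_P4 (i j) {u : L} (hu : u ∈ L0 W) : vf W (p4 i) (p4 j) u ∈ L0 W :=
  ⟨KM_vf_sc gP4 P4_μ1 hu.1 i j, KM_vf_row gP4 P4_μ2 hu.2 i j⟩

end

end Pool.Agent.H495
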