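import Pool.Agent.H495.Peel2

/-! Existence of a semi-invariant vector. -/

namespace Pool.Agent.H495

open MvPolynomial Ix WeylModule

section

variable {L : Type} [AddCommGroup L] [Module ℂ L] {W : WeylModule (Idx (lev (m := 3))) L}

theorem minor_inj (hinj : ∀ (f : RR 3) (n : ℕ), FTHom SS n f → ev f ≠ 0 → ∀ u : L,
      FF wt W f u = 0 → u = 0) {n : ℕ} (dg : Fin n → ℕ) {a : Matrix (Fin n) (Fin n) (RR 3)}
    (hh : ∀ i l, FTHom SS (dg l) (a i l)) {A : Matrix (Fin n) (Fin n) ℂ}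
    (hA : ∀ i l, ev (a i l) = A i l)
    (hdet : ∀ (k : ℕ) (hk : k ≤ n), (A.submatrix (Fin.castLE hk) (Fin.castLE hk)).det ≠ 0)
    (k : ℕ) (hk : k ≤ n) (w : L)
    (hw : FF wt W ((a.submatrix (Fin.castLE hk) (Fin.castLE hk)).det) w = 0) : w = 0 := by
  refine hinj _ _ (FTHom.det (M := a.submatrix (Fin.castLE hk) (Fin.castLE hk))
    (fun l => dg (Fin.castLE hk l)) fun i l => hh _ _) ?_ w hw
  rw [RingHom.map_det]
  have : (ev.mapMatrix (a.submatrix (Fin.castLE hk) (Fin.castLE hk))) =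
      A.submatrix (Fin.castLE hk) (Fin.castLE hk) := by
    ext i j; simp only [RingHom.mapMatrix_apply, Matrix.map_apply, Matrix.submatrix_apply, hA]
  rw [this]; exact hdet k hk

theorem dE3 (k : ℕ) (hk : k ≤ 4) : ((!![1, 0, 1, 0; 0, 1, 0, 1; 0, 0, 1, 0; 0, 0, 0, 1] :
    Matrix (Fin 4) (Fin 4) ℂ).submatrix (Fin.castLE hk) (Fin.castLE hk)).det ≠ 0 := by
  interval_cases k
  · simp
  · simp [Matrix.det_fin_one]
  · simp [Matrix.det_fin_two]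
  · simp [Matrix.det_fin_three]
  · rw [det_eq_det4]; simp [det4, mn]

theorem dB (k : ℕ) (hk : k ≤ 3) : ((!![1, 1, 1; 0, 1, 0; 1, 0, 0] :
    Matrix (Fin 3) (Fin 3) ℂ).submatrix (Fin.castLE hk) (Fin.castLE hk)).det ≠ 0 := by
  interval_cases k
  · simp
  · simp [Matrix.det_fin_one]
  · simp [Matrix.det_fin_two]
  · simp [Matrix.det_fin_three]

theorem dI (k : ℕ) (hk : k ≤ 2) : ((!![1, 0; 0, 1] :
    Matrix (Fin 2) (Fin 2) ℂ).submatrix (Fin.castLE hk) (Fin.castLE hk)).det ≠ 0 := by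
  interval_cases k
  · simp
  · simp [Matrix.det_fin_one]
  · simp [Matrix.det_fin_two]

theorem dP (k : ℕ) (hk : k ≤ 2) : ((!![1, 0; 1, -1] :
    Matrix (Fin 2) (Fin 2) ℂ).submatrix (Fin.castLE hk) (Fin.castLE hk)).det ≠ 0 := by
  interval_cases k
  · simp
  · simp [Matrix.det_fin_one]
  · simp [Matrix.det_fin_two]

theorem eaE3 (i l) : ev (aE3 i l) =
    (!![1, 0, 1, 0; 0, 1, 0, 1; 0, 0, 1, 0; 0, 0, 0, 1] : Matrix (Fin 4) (Fin 4) ℂ) i l := by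
  fin_cases l
  · refine (eβ i 0).trans ?_; fin_cases i <;> simp
  · refine (eβ i 1).trans ?_; fin_cases i <;> simp
  · refine (ed i 0).trans ?_; fin_cases i <;> simp
  · refine (ed i 1).trans ?_; fin_cases i <;> simp

theorem eaB (i l) : ev (aB i l) = (!![1, 1, 1; 0, 1, 0; 1, 0, 0] : Matrix (Fin 3) (Fin 3) ℂ) i l := by
  fin_cases l
  · refine (eu i 0).trans ?_; fin_cases i <;> simp
  · refine (eu i 1).trans ?_; fin_cases i <;> simp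
  · refine (eα i 0).trans ?_; fin_cases i <;> simp

theorem eaP4 (i l) : ev (aP4 i l) = (!![1, 0; 1, -1] : Matrix (Fin 2) (Fin 2) ℂ) i l := by
  fin_cases l
  · refine (ez1 i).trans ?_; fin_cases i <;> simp
  · refine (ez2 i).trans ?_; fin_cases i <;> simp

theorem eas' (j l) : ev (mas 3 j l) = (!![1, 0; 0, 1] : Matrix (Fin 2) (Fin 2) ℂ) j l := by
  rw [eas]; fin_cases j <;> fin_cases l <;> simp

theorem ebs' (j l) : ev ((mbs 3).transpose j l) = (!![1, 0; 0, 1] : Matrix (Fin 2) (Fin 2) ℂ) j l := by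
  rw [Matrix.transpose_apply, ebs]; fin_cases j <;> fin_cases l <;> simp

theorem evv' (j l) : ev (mv.transpose j l) = (!![1, 0; 0, 1] : Matrix (Fin 2) (Fin 2) ℂ) j l := by
  rw [Matrix.transpose_apply, evv]; fin_cases j <;> fin_cases l <;> simp

theorem eg' (j l) : ev (mg.transpose j l) = (!![1, 0; 0, 1] : Matrix (Fin 2) (Fin 2) ℂ) j l := by
  rw [Matrix.transpose_apply, eg]; fin_cases j <;> fin_cases l <;> simp

/-- The space of semi-invariants. -/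
noncomputable def UU (W : WeylModule (Idx (lev (m := 3))) L) : Submodule ℂ L :=
  L0 W ⊓ KG W e3 ⊓ KG W b ⊓ KG W e1 ⊓ KG W e5 ⊓ KG W p2 ⊓ KG W b4 ⊓ KG W p4

theorem UU_ne (he : IsEquivariant W) (hL : Nontrivial L)
    (hinj : ∀ (f : RR 3) (n : ℕ), FTHom SS n f → ev f ≠ 0 → ∀ u : L,
      FF wt W f u = 0 → u = 0) : ∃ w ∈ UU W, w ≠ 0 := by
  obtain ⟨u0, hu0, hne0⟩ := L0_ne he hL
  -- E3
  obtain ⟨u1, hu1, hne1⟩ := step_std he gE3 (a := aE3) (by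
      intro l
      fin_cases l
      · exact E3_β 0
      · exact E3_β 1
      · exact E3_d 0
      · exact E3_d 1) (minor_inj hinj _ haE3 eaE3 dE3) (L0 W) (fun i j w hw => L0_E3 i j hw)
      (fun i j w hw => L0_F _ hw) hu0 hne0
  -- B
  obtain ⟨u2, hu2, hne2⟩ := step_std he gB (a := aB) (by
      intro l
      fin_cases l
      · exact B_u 0
      · exact B_u 1
      · exact B_α 0) (minor_inj hinj _ haB eaB dB) (L0 W ⊓ KG W e3)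
      (fun i j w hw => ⟨L0_B i j hw.1, KG_vf gE3 (by simp) hw.2 i j⟩)
      (fun i j w hw => ⟨L0_F _ hw.1, by
        fin_cases j
        · exact KG_F gE3 (E3_u i 0) hw.2
        · exact KG_F gE3 (E3_u i 1) hw.2
        · exact KG_F gE3 (E3_α i 0) hw.2⟩) hu1 hne1
  -- E1
  obtain ⟨u3, hu3, hne3⟩ := step_std he gE1 (a := mas 3) E1_as
      (minor_inj hinj (fun _ => 1) has eas' dI) (L0 W ⊓ KG W e3 ⊓ KG W b)
      (fun i j w hw => ⟨⟨L0_E1 i j hw.1.1, KG_vf gE3 (by simp) hw.1.2 i j⟩,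
        KG_vf gB (by simp) hw.2 i j⟩)
      (fun i j w hw => ⟨⟨L0_F _ hw.1.1, KG_F gE3 (E3_as i j) hw.1.2⟩,
        KG_F gB (B_as i j) hw.2⟩) hu2 hne2
  -- E5
  obtain ⟨u4, hu4, hne4⟩ := step_dual he gE5 (a := mbs 3) E5_bs
      (minor_inj hinj (fun _ => 1) (fun i l => hbs l i) ebs' dI)
      (L0 W ⊓ KG W e3 ⊓ KG W b ⊓ KG W e1)
      (fun i j w hw => ⟨⟨⟨L0_E5 i j hw.1.1.1, KG_vf gE3 (by simp) hw.1.1.2 i j⟩,
        KG_vf gB (by simp) hw.1.2 i j⟩, KG_vf gE1 (by simp) hw.2 i j⟩)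
      (fun i j w hw => ⟨⟨⟨L0_F _ hw.1.1.1, KG_F gE3 (E3_bs i j) hw.1.1.2⟩,
        KG_F gB (B_bs i j) hw.1.2⟩, KG_F gE1 (E1_bs i j) hw.2⟩) hu3 hne3
  -- P2
  obtain ⟨u5, hu5, hne5⟩ := step_dual he gP2 (a := mv) P2_v
      (minor_inj hinj (fun _ => 0) (fun i l => hv l i) evv' dI)
      (L0 W ⊓ KG W e3 ⊓ KG W b ⊓ KG W e1 ⊓ KG W e5)
      (fun i j w hw => ⟨⟨⟨⟨L0_P2 i j hw.1.1.1.1, KG_vf gE3 (by simp) hw.1.1.1.2 i j⟩,
        KG_vf gB (by simp) hw.1.1.2 i j⟩, KG_vf gE1 (by simp) hw.1.2 i j⟩,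
        KG_vf gE5 (by simp) hw.2 i j⟩)
      (fun i j w hw => ⟨⟨⟨⟨L0_F _ hw.1.1.1.1, KG_F gE3 (E3_v i j) hw.1.1.1.2⟩,
        KG_F gB (B_v i j) hw.1.1.2⟩, KG_F gE1 (E1_v i j) hw.1.2⟩,
        KG_F gE5 (E5_v i j) hw.2⟩) hu4 hne4
  -- B4
  obtain ⟨u6, hu6, hne6⟩ := step_dual he gB4 (a := mg) B4_g
      (minor_inj hinj (fun _ => 1) (fun i l => hg l i) eg' dI)
      (L0 W ⊓ KG W e3 ⊓ KG W b ⊓ KG W e1 ⊓ KG W e5 ⊓ KG W p2)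
      (fun i j w hw => ⟨⟨⟨⟨⟨L0_B4 i j hw.1.1.1.1.1, KG_vf gE3 (by simp) hw.1.1.1.1.2 i j⟩,
        KG_vf gB (by simp) hw.1.1.1.2 i j⟩, KG_vf gE1 (by simp) hw.1.1.2 i j⟩,
        KG_vf gE5 (by simp) hw.1.2 i j⟩, KG_vf gP2 (by simp) hw.2 i j⟩)
      (fun i j w hw => ⟨⟨⟨⟨⟨L0_F _ hw.1.1.1.1.1, KG_F gE3 (E3_g i j) hw.1.1.1.1.2⟩,
        KG_F gB (B_g i j) hw.1.1.1.2⟩, KG_F gE1 (E1_g i j) hw.1.1.2⟩,
        KG_F gE5 (E5_g i j) hw.1.2⟩, KG_F gP2 (P2_g i j) hw.2⟩) hu5 hne5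
  -- P4
  obtain ⟨u7, hu7, hne7⟩ := step_std he gP4 (a := aP4) (by
      intro l
      fin_cases l
      · exact P4_z1
      · exact P4_z2) (minor_inj hinj _ haP4 eaP4 dP)
      (L0 W ⊓ KG W e3 ⊓ KG W b ⊓ KG W e1 ⊓ KG W e5 ⊓ KG W p2 ⊓ KG W b4)
      (fun i j w hw => ⟨⟨⟨⟨⟨⟨L0_P4 i j hw.1.1.1.1.1.1, KG_vf gE3 (by simp) hw.1.1.1.1.1.2 i j⟩,
        KG_vf gB (by simp) hw.1.1.1.1.2 i j⟩, KG_vf gE1 (by simp) hw.1.1.1.2 i j⟩,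
        KG_vf gE5 (by simp) hw.1.1.2 i j⟩, KG_vf gP2 (by simp) hw.1.2 i j⟩,
        KG_vf gB4 (by simp) hw.2 i j⟩)
      (fun i j w hw => by
        fin_cases j
        · exact ⟨⟨⟨⟨⟨⟨L0_F _ hw.1.1.1.1.1.1, KG_F gE3 (E3_z1 i) hw.1.1.1.1.1.2⟩,
            KG_F gB (B_z1 i) hw.1.1.1.1.2⟩, KG_F gE1 (E1_z1 i) hw.1.1.1.2⟩,
            KG_F gE5 (E5_z1 i) hw.1.1.2⟩, KG_F gP2 (P2_z1 i) hw.1.2⟩,
            KG_F gB4 (B4_z1 i) hw.2⟩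
        · exact ⟨⟨⟨⟨⟨⟨L0_F _ hw.1.1.1.1.1.1, KG_F gE3 (E3_z2 i) hw.1.1.1.1.1.2⟩,
            KG_F gB (B_z2 i) hw.1.1.1.1.2⟩, KG_F gE1 (E1_z2 i) hw.1.1.1.2⟩,
            KG_F gE5 (E5_z2 i) hw.1.1.2⟩, KG_F gP2 (P2_z2 i) hw.1.2⟩,
            KG_F gB4 (B4_z2 i) hw.2⟩) hu6 hne6
  exact ⟨u7, hu7, hne7⟩

/-- Stability of the space of semi-invariants under a function which is semi-invariant. -/
theorem UU_F {f : RR 3} {c1 c2 c3 c4 c5 c6 c7 : ℤ} (h1 : Sc (DD (m := 3) e3) c1 f)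
    (h2 : Sc (DD (m := 3) b) c2 f) (h3 : Sc (DD (m := 3) e1) c3 f) (h4 : Sc (DD (m := 3) e5) c4 f)
    (h5 : Sc (DD (m := 3) p2) c5 f) (h6 : Sc (DD (m := 3) b4) c6 f)
    (h7 : Sc (DD (m := 3) p4) c7 f) {u : L} (hw : u ∈ UU W) : FF wt W f u ∈ UU W :=
  ⟨⟨⟨⟨⟨⟨⟨L0_F _ hw.1.1.1.1.1.1.1, KG_F gE3 h1 hw.1.1.1.1.1.1.2⟩,
    KG_F gB h2 hw.1.1.1.1.1.2⟩, KG_F gE1 h3 hw.1.1.1.1.2⟩, KG_F gE5 h4 hw.1.1.1.2⟩,
    KG_F gP2 h5 hw.1.1.2⟩, KG_F gB4 h6 hw.1.2⟩, KG_F gP4 h7 hw.2⟩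

end

end Pool.Agent.H495
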