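import Pool.Agent.H495.PosVf2
import Pool.Agent.H495.S4

/-! The common denominator and homogeneity. -/

namespace Pool.Agent.H495

open MvPolynomial Ix WeylModule

/-- The Fourier transformed coordinates. -/
abbrev Sf : J2 → Prop := FTset lev w2

/-- homogeneous of degree `n` -/
def Hm (n : ℤ) (f : RR 2) : Prop := eul Sf f = (n : ℂ) • f

theorem Hm.mul {m n : ℤ} {f g : RR 2} (hf : Hm m f) (hg : Hm n g) : Hm (m + n) (f * g) := by
  unfold Hm at *
  rw [Derivation.leibniz, hf, hg]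
  simp only [smul_eq_mul, MvPolynomial.smul_eq_C_mul]
  push_cast
  rw [C_add]; ring

theorem Hm.add {n : ℤ} {f g : RR 2} (hf : Hm n f) (hg : Hm n g) : Hm n (f + g) := by
  unfold Hm at *; rw [map_add, hf, hg, smul_add]

theorem Hm.sub {n : ℤ} {f g : RR 2} (hf : Hm n f) (hg : Hm n g) : Hm n (f - g) := by
  unfold Hm at *; rw [map_sub, hf, hg, smul_sub]

theorem Hm.congr {m n : ℤ} {f : RR 2} (hf : Hm m f) (h : m = n) : Hm n f := h ▸ hf

theorem Hm.four {f : RR 2} {n : ℤ} (hf : Hm n f) : Hm n (4 * f) := by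
  have h4 : (4 : RR 2) = C (4 : ℂ) := by rw [map_ofNat]
  unfold Hm at *
  rw [h4, ← MvPolynomial.smul_eq_C_mul, Derivation.map_smul, hf, smul_comm]

theorem Hm.sum {n : ℤ} {κ : Type} [Fintype κ] {f : κ → RR 2} (hf : ∀ k, Hm n (f k)) :
    Hm n (∑ k, f k) := by
  unfold Hm at *
  rw [map_sum, Finset.smul_sum]
  exact Finset.sum_congr rfl fun k _ => hf k

def HmM (n : ℤ) {A B : Type} (M : Matrix A B (RR 2)) : Prop := ∀ a b, Hm n (M a b)

theorem HmM.mul {m n : ℤ} {A B C : Type} [Fintype B] {M : Matrix A B (RR 2)}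
    {N : Matrix B C (RR 2)} (hM : HmM m M) (hN : HmM n N) : HmM (m + n) (M * N) := fun a c => by
  rw [Matrix.mul_apply]
  exact Hm.sum fun b => (hM a b).mul (hN b c)

theorem HmM.dt {n : ℤ} {M : Matrix (Fin 2) (Fin 2) (RR 2)} (hM : HmM n M) :
    Hm (n + n) (dt M) :=
  ((hM 0 0).mul (hM 1 1)).sub ((hM 0 1).mul (hM 1 0))

theorem Hm_mn {m n : ℤ} {x y : Fin 4 → RR 2} (hx : ∀ i, Hm m (x i)) (hy : ∀ i, Hm n (y i))
    (i j : Fin 4) : Hm (m + n) (mn i j x y) :=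
  ((hx i).mul (hy j)).sub ((hx j).mul (hy i))

theorem Hm_det4 {m n k l : ℤ} {x y z t : Fin 4 → RR 2} (hx : ∀ i, Hm m (x i))
    (hy : ∀ i, Hm n (y i)) (hz : ∀ i, Hm k (z i)) (ht : ∀ i, Hm l (t i)) :
    Hm ((m + n) + (k + l)) (det4 x y z t) := by
  have h := fun a b c d => (Hm_mn hx hy a b).mul (Hm_mn hz ht c d)
  unfold det4
  exact (((((h _ _ _ _).sub (h _ _ _ _)).add (h _ _ _ _)).add (h _ _ _ _)).sub
    (h _ _ _ _)).add (h _ _ _ _)

theorem eul_yv (p q : Ix 2) (h : lev p = lev q + 1) :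
    eul Sf (yv lev p q) = if w2 p = w2 q + 1 then yv lev p q else 0 := by
  unfold yv
  rw [dif_pos h, S4.eul_X]
  rfl

theorem H_α : HmM 0 (mα 2) := fun a b => by
  unfold Hm mα; rw [eul_yv _ _ (by norm_num [lev]), if_neg (by norm_num [w2])]; simp
theorem H_a : HmM 0 ma := fun a b => by
  unfold Hm ma; rw [eul_yv _ _ (by norm_num [lev]), if_neg (by norm_num [w2])]; simp
theorem H_c : HmM 1 (mc 2) := fun a b => by
  unfold Hm mc; rw [eul_yv _ _ (by norm_num [lev]), if_pos (by norm_num [w2])]; simp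
theorem H_β : HmM 0 (mβ 2) := fun a b => by
  unfold Hm mβ; rw [eul_yv _ _ (by norm_num [lev]), if_neg (by norm_num [w2])]; simp
theorem H_γ : HmM 0 (mγ 2) := fun a b => by
  unfold Hm mγ; rw [eul_yv _ _ (by norm_num [lev]), if_neg (by norm_num [w2])]; simp
theorem H_d : HmM 1 (md 2) := fun a b => by
  unfold Hm md; rw [eul_yv _ _ (by norm_num [lev]), if_pos (by norm_num [w2])]; simp
theorem H_δ : HmM 0 (mδ 2) := fun a b => by
  unfold Hm mδ; rw [eul_yv _ _ (by norm_num [lev]), if_neg (by norm_num [w2])]; simp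
theorem H_b : HmM 0 mb := fun a b => by
  unfold Hm mb; rw [eul_yv _ _ (by norm_num [lev]), if_neg (by norm_num [w2])]; simp

theorem H_dα : Hm 0 dα := H_α.dt.congr (by norm_num)
theorem H_dδ : Hm 0 dδ := H_δ.dt.congr (by norm_num)

theorem H_trad {n : ℤ} {a α v : Matrix (Fin 2) (Fin 2) (RR 2)} (ha : HmM 0 a) (hα : HmM 0 α)
    (hv : HmM n v) : Hm n (trad a α v) := by
  rw [trad_eq]
  have h : ∀ i j k l s t, Hm n (a i j * (α k l * v s t)) := fun i j k l s t =>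
    ((ha i j).mul ((hα k l).mul (hv s t))).congr (by ring)
  have h' : ∀ i j k l s t k' l' s' t', Hm n (a i j * (α k l * v s t - α k' l' * v s' t')) :=
    fun i j k l s t k' l' s' t' => by rw [mul_sub]; exact (h _ _ _ _ _ _).sub (h _ _ _ _ _ _)
  exact (((h' _ _ _ _ _ _ _ _ _ _).add (h' _ _ _ _ _ _ _ _ _ _)).add
    (h' _ _ _ _ _ _ _ _ _ _)).add (h' _ _ _ _ _ _ _ _ _ _)

theorem H_φ1 : Hm 1 φ1 :=
  H_trad H_a H_α (fun a b => ((H_c.mul H_β) a b).congr (by norm_num))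
theorem H_φ2 : Hm 1 φ2 := H_trad (fun a b => H_b b a) (fun a b => H_δ b a)
  (fun a b => ((H_γ.mul H_d) b a).congr (by norm_num))

theorem H_lam : Hm 8 lam := by
  have hA : Hm 4 (dt (mc 2 * mβ 2) * dt (mγ 2 * md 2)) :=
    ((H_c.mul H_β).dt.mul (H_γ.mul H_d).dt).congr (by norm_num)
  have hB : Hm 4 (dt (mc 2 * md 2) * dt (mγ 2 * mβ 2)) :=
    ((H_c.mul H_d).dt.mul (H_γ.mul H_β).dt).congr (by norm_num)
  have hC : Hm 4 (v1 * v2) :=
    ((Hm_det4 (H_c 0) (H_c 1) (H_γ 0) (H_γ 1)).mul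
      (Hm_det4 (fun i => H_β i 0) (fun i => H_β i 1) (fun i => H_d i 0)
        (fun i => H_d i 1))).congr (by norm_num)
  unfold lam
  rw [sq]
  exact ((((hA.sub hB).sub hC).mul ((hA.sub hB).sub hC)).congr (by norm_num)).sub
    ((hB.four.mul hC).congr (by norm_num))

/-- the common denominator -/
noncomputable def ΔΔ : RR 2 := (dα * dδ) * (dα * dδ) * lam

theorem H_Δ : Hm 8 ΔΔ := by
  have h : Hm (0 + 0 + (0 + 0) + 8) ΔΔ := ((H_dα.mul H_dδ).mul (H_dα.mul H_dδ)).mul H_lam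
  exact h.congr (by norm_num)

theorem Δ_ne : ΔΔ ≠ 0 :=
  mul_ne_zero (mul_ne_zero (mul_ne_zero dα_ne dδ_ne) (mul_ne_zero dα_ne dδ_ne)) lam_ne

end Pool.Agent.H495
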