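import Pool.Agent.H495.PosDelta

/-! Homogeneity of the connection form. -/

namespace Pool.Agent.H495

open MvPolynomial Ix WeylModule

/-- Euler field -/
noncomputable abbrev EK : Derivation ℂ (KK J2) (KK J2) := exD (eul Sf)

theorem EK_alg {n : ℤ} {f : RR 2} (h : Hm n f) : EK (ι0 f) = (n : KK J2) * ι0 f := by
  unfold EK
  rw [exD_alg, h, MvPolynomial.smul_eq_C_mul, map_mul, map_intCast, map_intCast]

theorem EK_div {m n : ℤ} {f g : RR 2} (hf : Hm m f) (hg : Hm n g) (h0 : ι0 g ≠ (0 : KK J2)) :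
    EK (ι0 f / ι0 g) = ((m - n : ℤ) : KK J2) * (ι0 f / ι0 g) := by
  rw [Derivation.leibniz_div, EK_alg hf, EK_alg hg]
  simp only [smul_eq_mul]
  push_cast
  field_simp

theorem EK_Φ : EK Φ = Φ := by
  rw [Φ, map_add, EK_div H_φ1 H_dα (ι0_ne dα_ne), EK_div H_φ2 H_dδ (ι0_ne dδ_ne)]
  norm_num

theorem hθ1 (j : J2) (hj : ¬ Sf j) : EK (dd j Φ) = dd j Φ := by
  have h := S4.EE_dd Sf j Φ
  rw [if_neg hj, sub_zero] at h
  rw [EK, h]
  exact congrArg _ EK_Φ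

theorem hθ0 (j : J2) (hj : Sf j) : EK (dd j Φ) = 0 := by
  have h := S4.EE_dd Sf j Φ
  rw [if_pos hj] at h
  rw [EK, h, show exD (eul Sf) Φ = Φ from EK_Φ, sub_self]

theorem EK_lg (j : J2) {n : ℤ} {g : RR 2} (hg : Hm n g) (h0 : ι0 g ≠ (0 : KK J2)) :
    EK (dd j (ι0 g) / ι0 g) = -(if Sf j then dd j (ι0 g) / ι0 g else 0) := by
  have h := S4.EE_dd Sf j (ι0 g)
  rw [show exD (eul Sf) (ι0 g) = (n : KK J2) * ι0 g from EK_alg hg, Derivation.leibniz,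
    show dd j (n : KK J2) = 0 by simpa using (dd j).map_intCast n] at h
  rw [Derivation.leibniz_div, EK_alg hg, EK, h]
  by_cases hj : Sf j
  · rw [if_pos hj, if_pos hj]
    simp only [smul_eq_mul]
    field_simp
    ring
  · rw [if_neg hj, if_neg hj]
    simp only [smul_eq_mul]
    field_simp
    ring

theorem EK_two (f : KK J2) : EK (2 * f) = 2 * EK f := by
  have : EK (2 : KK J2) = 0 := by simpa using EK.map_natCast 2
  rw [Derivation.leibniz, this]; simp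

theorem EK_half (f : KK J2) : EK (1 / 2 * f) = 1 / 2 * EK f := by
  have h := EK_two (1 / 2 * f)
  have e : (2 : KK J2) * (1 / 2 * f) = f := by ring
  rw [e] at h
  rw [h]; ring

theorem ω2_sub (j : J2) : ω2 j - dd j Φ = -(2 * (dd j (ι0 dα) / ι0 dα)) -
    2 * (dd j (ι0 dδ) / ι0 dδ) - 1 / 2 * (dd j (ι0 lam) / ι0 lam) := by
  rw [ω2, om]; ring

theorem EK_l (j : J2) : EK (ω2 j - dd j Φ) = -(if Sf j then ω2 j - dd j Φ else 0) := by
  rw [ω2_sub, map_sub, map_sub, map_neg, EK_two, EK_two, EK_half,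
    EK_lg j H_dα (ι0_ne dα_ne), EK_lg j H_dδ (ι0_ne dδ_ne), EK_lg j H_lam (ι0_ne lam_ne)]
  by_cases hj : Sf j
  · simp only [if_pos hj]; ring
  · simp only [if_neg hj]; ring

theorem hl1 (j : J2) (hj : ¬ Sf j) : EK (ω2 j - dd j Φ) = 0 := by
  rw [EK_l, if_neg hj, neg_zero]

theorem hl0 (j : J2) (hj : Sf j) : EK (ω2 j - dd j Φ) = -(ω2 j - dd j Φ) := by
  rw [EK_l, if_pos hj]

/-- `Δ ω` is polynomial. -/
theorem hq (j : J2) : ∃ q : RR 2, ω2 j * ι0 ΔΔ = ι0 q := by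
  refine ⟨(dα * pderiv j φ1 - φ1 * pderiv j dα) * (dδ * dδ) * lam +
    (dδ * pderiv j φ2 - φ2 * pderiv j dδ) * (dα * dα) * lam - 2 * pderiv j dα * dα * (dδ * dδ) * lam
    - 2 * pderiv j dδ * dδ * (dα * dα) * lam -
    C (1 / 2) * pderiv j lam * ((dα * dδ) * (dα * dδ)), ?_⟩
  have e1 : (ι0 dα : KK J2) ≠ 0 := ι0_ne dα_ne
  have e2 : (ι0 dδ : KK J2) ≠ 0 := ι0_ne dδ_ne
  have e3 : (ι0 lam : KK J2) ≠ 0 := ι0_ne lam_ne
  have hC : (ι0 (C (1 / 2) : RR 2) : KK J2) = 1 / 2 := by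
    have : (C (1 / 2 : ℂ) : RR 2) * 2 = 1 := by
      have h2 : (2 : RR 2) = C (2 : ℂ) := by rw [map_ofNat]
      rw [h2, ← C_mul]; norm_num
    have h := congrArg (ι0 (J := J2)) this
    rw [map_mul, map_one, map_ofNat] at h
    rw [eq_div_iff (by norm_num), h]
  rw [ω2, om, Φ, map_add, Derivation.leibniz_div, Derivation.leibniz_div, dd_alg, dd_alg, dd_alg,
    dd_alg, dd_alg, ΔΔ]
  simp only [map_add, map_sub, map_mul, map_ofNat, hC, smul_eq_mul]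
  field_simp

end Pool.Agent.H495
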