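import Pool.Agent.H495.PosVf2

/-! The constant function `1` is semi-invariant: cross directions. -/

namespace Pool.Agent.H495

open MvPolynomial Ix WeylModule

theorem yz2 {p q : Ix 2} (h : ¬ lev p = lev q + 1) : yv lev p q = 0 := yv_zero lev h
theorem pz2 {p q : Ix 2} (h : ¬ lev p = lev q + 1) : pd lev p q = 0 := pd_zero lev h

/-- Images in the field. -/
noncomputable def mp {A B : Type} (M : Matrix A B (RR 2)) : Matrix A B (KK J2) := fun a b => ι0 (M a b)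

theorem mp_mul {A B C : Type} [Fintype B] (M : Matrix A B (RR 2)) (N : Matrix B C (RR 2)) :
    mp (M * N) = mp M * mp N := by
  ext a b; simp only [mp, Matrix.mul_apply, map_sum, map_mul]

theorem mp_dt (M : Matrix (Fin 2) (Fin 2) (RR 2)) : dt (mp M) = ι0 (dt M) := by
  simp only [mp, dt, map_sub, map_mul]

theorem mp_trad (a α v : Matrix (Fin 2) (Fin 2) (RR 2)) :
    trad (mp a) (mp α) (mp v) = ι0 (trad a α v) := by
  rw [trad_eq, trad_eq]; simp only [mp, map_add, map_sub, map_mul]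

theorem pdK_yv (p q r s : Ix 2) : pdK p q (ι0 (yv lev r s)) =
    if p = r ∧ q = s ∧ lev p = lev q + 1 then 1 else 0 := by
  rw [pdK_alg, pd_yv]; split_ifs <;> simp

theorem om_of_kil {p q : Ix 2} (h2 : pd lev p q φ2 = 0) (hδ : pd lev p q dδ = 0) :
    om (pdK p q) = pdK p q (ι0 φ1 / ι0 dα) - 2 * (pdK p q (ι0 dα) / ι0 dα) -
      1 / 2 * (pdK p q (ι0 lam) / ι0 lam) := by
  have h : pdK p q (ι0 φ2 / ι0 dδ) = 0 := by
    rw [Derivation.leibniz_div, pdK_alg, pdK_alg, h2, hδ]; simp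
  rw [om, Φ, map_add, h, pdK_alg p q dδ, hδ]
  simp

theorem om_of_kil' {p q : Ix 2} (h2 : pd lev p q φ1 = 0) (hδ : pd lev p q dα = 0) :
    om (pdK p q) = pdK p q (ι0 φ2 / ι0 dδ) - 2 * (pdK p q (ι0 dδ) / ι0 dδ) -
      1 / 2 * (pdK p q (ι0 lam) / ι0 lam) := by
  have h : pdK p q (ι0 φ1 / ι0 dα) = 0 := by
    rw [Derivation.leibniz_div, pdK_alg, pdK_alg, h2, hδ]; simp
  rw [om, Φ, map_add, h, pdK_alg p q dα, hδ]
  simp

theorem trad_a (a α v : Matrix (Fin 2) (Fin 2) (RR 2)) (D : Derivation ℂ (RR 2) (RR 2))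
    (l j : Fin 2) (ha : ∀ x y, D (a x y) = if x = l ∧ y = j then 1 else 0)
    (hα : ∀ x y, D (α x y) = 0) (hv : ∀ x y, D (v x y) = 0) :
    D (trad a α v) = (α.adjugate * v) j l := by
  rw [trad_eq]
  simp only [map_add, map_sub, Derivation.leibniz, ha, hα, hv, smul_eq_mul]
  fin_cases l <;> fin_cases j <;>
  simp [Matrix.mul_apply, Matrix.adjugate_fin_two] <;> ring

/-- the direction `E_{p2,b}` -/
theorem V_P2B (l k : Fin 2) : vf WP (p2 l) (b k) 1 = 0 := by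
  have h1 : vf WP (p2 l) (b k) = ∑ j, FF w2 WP (mα 2 k j) * ZZ w2 WP (p2 l) (e1 j) -
      ∑ i, FF w2 WP (mβ 2 i l) * FF w2 WP (mc 2 k i) := by
    rw [vf, sum_ix]
    have hz : ∀ p q : Ix 2, lev p ≠ lev q + 1 → xop WP p q = 0 := fun p q h => xop_zero WP h
    have hz' : ∀ p q : Ix 2, lev p ≠ lev q + 1 → dop WP p q = 0 := fun p q h => dop_zero WP h
    simp only [hz (b k) (b _) (by norm_num [lev]), hz (b k) (p2 _) (by norm_num [lev]),
      hz (b k) (e3 _) (by norm_num [lev]), hz (b k) (p4 _) (by norm_num [lev]),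
      hz (b k) (b4 _) (by norm_num [lev]), hz (b k) (e5 _) (by norm_num [lev]),
      hz' (e1 _) (b k) (by norm_num [lev]), hz' (b _) (b k) (by norm_num [lev]),
      hz' (p2 _) (b k) (by norm_num [lev]), hz' (p4 _) (b k) (by norm_num [lev]),
      hz' (b4 _) (b k) (by norm_num [lev]), hz' (e5 _) (b k) (by norm_num [lev]),
      mul_zero, zero_mul, sub_zero, zero_sub, Finset.sum_const_zero, add_zero,
      Finset.sum_neg_distrib]
    simp only [mα, mβ, mc, FF_yv, ZZ_eq, w2]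
    norm_num
    abel
  have hc := (kil_pd (p2 l) (e1 0)).2.2.1 (by simp)
  have hα' : ∀ j, Kil (pd lev (p2 l) (e1 j)) (mα 2) := fun j => (kil_pd _ _).1 (by simp)
  have hc' : ∀ j, Kil (pd lev (p2 l) (e1 j)) (mc 2) := fun j => (kil_pd _ _).2.2.1 (by simp)
  have hβ' : ∀ j, Kil (pd lev (p2 l) (e1 j)) (mβ 2) := fun j => (kil_pd _ _).2.2.2.1 (by simp)
  have hγ' : ∀ j, Kil (pd lev (p2 l) (e1 j)) (mγ 2) := fun j => (kil_pd _ _).2.2.2.2.1 (by simp)
  have hd' : ∀ j, Kil (pd lev (p2 l) (e1 j)) (md 2) := fun j => (kil_pd _ _).2.2.2.2.2.1 (by simp)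
  have hδ' : ∀ j, Kil (pd lev (p2 l) (e1 j)) (mδ 2) :=
    fun j => (kil_pd _ _).2.2.2.2.2.2.1 (by simp)
  have hb' : ∀ j, Kil (pd lev (p2 l) (e1 j)) mb := fun j => (kil_pd _ _).2.2.2.2.2.2.2 (by simp)
  have hcb : ∀ j x y, pd lev (p2 l) (e1 j) ((mc 2 * mβ 2) x y) = 0 := by
    intro j x y; rw [der_mulM]; simp [hc' j _ _, hβ' j _ _]
  have hω : ∀ j, om (pdK (p2 l) (e1 j)) =
      ι0 (((mα 2).adjugate * (mc 2 * mβ 2)) j l) / ι0 dα := by
    intro j
    rw [om_of_kil (φ2_kil (hb' j) (hδ' j) (hγ' j) (hd' j)) (dδ_kil (hδ' j)),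
      Derivation.leibniz_div, pdK_alg, pdK_alg, pdK_alg, dα_kil (hα' j),
      lam_kil (hc' j) (hβ' j) (hγ' j) (hd' j), φ1,
      trad_a ma (mα 2) (mc 2 * mβ 2) (pd lev (p2 l) (e1 j)) l j
        (fun x y => by
          simp only [ma, pd_yv]
          by_cases h : x = l ∧ y = j
          · rw [if_pos h, if_pos (by obtain ⟨rfl, rfl⟩ := h; simp [lev])]
          · rw [if_neg h, if_neg (by rintro ⟨h1, h2, -⟩; apply h; simp at h1 h2; simp [h1, h2])])
        (hα' j) (hcb j)]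
    have e1 := ι0_ne dα_ne
    simp only [map_zero, zero_div, mul_zero, sub_zero, smul_eq_mul]
    field_simp
  rw [h1, LinearMap.sub_apply, LinearMap.sum_apply, LinearMap.sum_apply]
  simp only [Module.End.mul_apply, FF_WP, ZZ_WP, TD_one, hω, mul_one]
  have h2 : ∑ j, ι0 (mα 2 k j) * (ι0 (((mα 2).adjugate * (mc 2 * mβ 2)) j l) / ι0 dα) =
      ι0 ((mc 2 * mβ 2) k l) := by
    have h3 : ∑ j, mα 2 k j * ((mα 2).adjugate * (mc 2 * mβ 2)) j l = dα * (mc 2 * mβ 2) k l := by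
      rw [← Matrix.mul_apply, ← Matrix.mul_assoc, Matrix.mul_adjugate, dt_eq, Matrix.smul_mul,
        Matrix.one_mul, Matrix.smul_apply, smul_eq_mul]; rfl
    have h4 := congrArg (ι0 (J := J2)) h3
    rw [map_sum, map_mul] at h4
    simp only [map_mul] at h4
    simp only [← mul_div_assoc, ← Finset.sum_div]
    rw [h4, mul_div_cancel_left₀ _ (ι0_ne dα_ne)]
  rw [h2, Matrix.mul_apply, map_sum, sub_eq_zero]
  exact Finset.sum_congr rfl fun i _ => by rw [map_mul, mul_comm]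

end Pool.Agent.H495
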