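import Pool.Agent.H495.PosDelta2
import Pool.Agent.H495.PosVf3

/-! The function `x ↦ (x²)_{31}` acts as a first order operator. -/

namespace Pool.Agent.H495

open MvPolynomial Ix WeylModule

/-- The composite function. -/
noncomputable def ff : RR 2 := ∑ k, yv lev (e3 0) (b k) * yv lev (b k) (e1 0) +
  ∑ l, yv lev (e3 0) (p2 l) * yv lev (p2 l) (e1 0)

theorem DC_φ1 : ∑ k, mα 2 k 0 * pd lev (e3 0) (b k) φ1 = dα * ∑ l, mβ 2 0 l * ma l 0 := by
  have K := fun k => kil_pd (e3 0) (b k)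
  have ha : ∀ k x y, pd lev (e3 0) (b k) (ma x y) = 0 := fun k => (K k).2.1 (by simp)
  have hα : ∀ k x y, pd lev (e3 0) (b k) (mα 2 x y) = 0 := fun k => (K k).1 (by simp)
  have hβ : ∀ k x y, pd lev (e3 0) (b k) (mβ 2 x y) = 0 := fun k => (K k).2.2.2.1 (by simp)
  have hc : ∀ k x y, pd lev (e3 0) (b k) (mc 2 x y) = if x = k ∧ y = 0 then 1 else 0 := by
    intro k x y; simp only [mc, pd_yv]; simp [lev, eq_comm, and_comm]
  have hD : ∀ k k' j, pd lev (e3 0) (b k) ((mc 2 * mβ 2) k' j) =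
      if k' = k then mβ 2 0 j else 0 := by
    intro k k' j
    rw [der_mulM]
    simp only [hβ, hc, mul_zero, zero_add]
    by_cases h : k' = k <;> simp [h]
  rw [φ1, trad_eq]
  simp only [map_add, map_sub, Derivation.leibniz, hD, ha, hα, smul_eq_mul, Fin.sum_univ_two, dα,
    dt]
  simp
  ring

theorem TD_mul_kil {D : Derivation ℂ (KK J2) (KK J2)} {a : KK J2} (h : D a = 0) (u : KK J2) :
    TD D (a * u) = a * TD D u := by
  simp only [TD, Derivation.leibniz, h, smul_eq_mul, mul_zero, add_zero]; ring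

theorem fn_yvP {e : Ix 2 → ℚ} {L : Type} [AddCommGroup L] [Module ℂ L]
    (W : WeylModule (Idx e) L) (p q : Ix 2) : W.fn (yv e p q) = xop W p q := by
  unfold yv xop
  by_cases h : e p = e q + 1
  · rw [dif_pos h, dif_pos h, fn_X]
  · rw [dif_neg h, dif_neg h, map_zero]

theorem xop_C (k : Fin 2) (u : KK J2) : xop WP (e3 0) (b k) u = -TD (pdK (e3 0) (b k)) u := by
  have h := ZZ_eq (w := w2) (W := WP) (e3 0) (b k)
  rw [if_pos (by norm_num [w2])] at h
  have h2 := congrArg (fun T => T u) h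
  simp only [LinearMap.neg_apply] at h2
  rw [ZZ_WP] at h2
  rw [h2, neg_neg]

theorem xop_F {p q : Ix 2} (hw : w2 p ≠ w2 q + 1) (u : KK J2) :
    xop WP p q u = ι0 (yv lev p q) * u := by
  have h := FF_yv (w := w2) (W := WP) p q
  rw [if_neg hw] at h
  rw [← h, FF_WP]

/-- The action of `ff`. -/
theorem ff_act (u : KK J2) : WP.fn ff u =
    -((∑ k, ι0 (mα 2 k 0) * pdK (e3 0) (b k) u) -
      1 / 2 * (ι0 (∑ k, mα 2 k 0 * pd lev (e3 0) (b k) lam) / ι0 lam) * u) := by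
  have K := fun k => kil_pd (e3 0) (b k)
  have hα : ∀ k, pdK (e3 0) (b k) (ι0 (mα 2 k 0)) = 0 := fun k => by
    rw [pdK_alg, (K k).1 (by simp) k 0, map_zero]
  have hom : ∀ k, om (pdK (e3 0) (b k)) = ι0 (pd lev (e3 0) (b k) φ1) / ι0 dα -
      1 / 2 * (ι0 (pd lev (e3 0) (b k) lam) / ι0 lam) := by
    intro k
    rw [om_of_kil (φ2_kil ((K k).2.2.2.2.2.2.2 (by simp)) ((K k).2.2.2.2.2.2.1 (by simp))
      ((K k).2.2.2.2.1 (by simp)) ((K k).2.2.2.2.2.1 (by simp)))
      (dδ_kil ((K k).2.2.2.2.2.2.1 (by simp))), Derivation.leibniz_div, pdK_alg, pdK_alg, pdK_alg,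
      dα_kil ((K k).1 (by simp))]
    have e1 := ι0_ne dα_ne
    simp only [map_zero, zero_div, mul_zero, sub_zero, smul_eq_mul]
    field_simp
  have hsum : ∑ k, ι0 (mα 2 k 0) * (ι0 (pd lev (e3 0) (b k) φ1) / ι0 dα) =
      (∑ l, ι0 (mβ 2 0 l) * ι0 (ma l 0) : KK J2) := by
    have h := congrArg (ι0 (J := J2)) DC_φ1
    rw [map_sum, map_mul, map_sum] at h
    simp only [map_mul] at h
    simp only [← mul_div_assoc, ← Finset.sum_div]
    rw [h, mul_div_cancel_left₀ _ (ι0_ne dα_ne)]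
  rw [ff, map_add, map_sum, map_sum, LinearMap.add_apply, LinearMap.sum_apply, LinearMap.sum_apply]
  simp only [map_mul, Module.End.mul_apply, fn_yvP]
  have h1 : ∀ k, xop WP (e3 0) (b k) (xop WP (b k) (e1 0) u) =
      -(ι0 (mα 2 k 0) * (pdK (e3 0) (b k) u + om (pdK (e3 0) (b k)) * u)) := by
    intro k
    rw [xop_F (p := b k) (q := e1 0) (by norm_num [w2]), xop_C]
    have := TD_mul_kil (hα k) u
    simp only [mα] at this
    rw [this]
    rfl
  have h2 : ∀ l, xop WP (e3 0) (p2 l) (xop WP (p2 l) (e1 0) u) =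
      ι0 (mβ 2 0 l) * ι0 (ma l 0) * u := by
    intro l
    rw [xop_F (p := p2 l) (q := e1 0) (by norm_num [w2]),
      xop_F (p := e3 0) (q := p2 l) (by norm_num [w2]), mul_assoc]
    rfl
  simp only [h1, h2, hom]
  rw [← Finset.sum_mul, ← hsum, map_sum]
  simp only [map_mul, Fin.sum_univ_two]
  ring

end Pool.Agent.H495
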