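import Pool.Agent.H495.Star

/-! Matrix form of the second order identity. -/

namespace Pool.Agent.H495

open Matrix

section

variable {R : Type} [CommRing R]

theorem dt_eq (M : Matrix (Fin 2) (Fin 2) R) : M.det = dt M := by
  rw [det_fin_two, dt]

/-- Schur complement. -/
theorem schur [IsDomain R] (c : Matrix (Fin 2) (Fin 4) R) (β : Matrix (Fin 4) (Fin 2) R)
    (γ : Matrix (Fin 2) (Fin 4) R) (d : Matrix (Fin 4) (Fin 2) R) (h : (γ * d).det ≠ 0) :
    (c * ((γ * d).det • (1 : Matrix (Fin 4) (Fin 4) R) - d * (γ * d).adjugate * γ) * β).det =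
      (γ * d).det * (fromBlocks (c * β) (c * d) (γ * β) (γ * d)).det := by
  set κ := (γ * d).det with hκ
  have h1 : fromBlocks (c * β) (c * d) (γ * β) (γ * d) *
      fromBlocks (κ • (1 : Matrix (Fin 2) (Fin 2) R)) 0 (-((γ * d).adjugate * (γ * β))) 1 =
      fromBlocks (c * (κ • (1 : Matrix (Fin 4) (Fin 4) R) - d * (γ * d).adjugate * γ) * β) (c * d) 0
        (γ * d) := by
    rw [fromBlocks_multiply]
    congr 1
    · simp only [Matrix.mul_sub, Matrix.sub_mul, Matrix.mul_smul, Matrix.smul_mul, Matrix.mul_one,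
        Matrix.mul_neg, Matrix.mul_assoc]
      abel
    · simp
    · rw [Matrix.mul_neg, ← Matrix.mul_assoc (γ * d), Matrix.mul_adjugate, ← hκ, Matrix.smul_mul,
        Matrix.mul_smul, Matrix.mul_one, Matrix.one_mul, add_neg_cancel]
    · simp
  have h2 := congrArg Matrix.det h1
  rw [det_mul, det_fromBlocks_zero₁₂, det_fromBlocks_zero₂₁, det_one, mul_one, det_smul,
    det_one, mul_one, Fintype.card_fin, ← hκ] at h2
  have h3 : κ * ((c * (κ • (1 : Matrix (Fin 4) (Fin 4) R) - d * (γ * d).adjugate * γ) * β).det) =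
      κ * (κ * (fromBlocks (c * β) (c * d) (γ * β) (γ * d)).det) := by
    linear_combination -h2
  exact mul_left_cancel₀ h h3

/-- The function `λ`. -/
def lamM (c : Matrix (Fin 2) (Fin 4) R) (β : Matrix (Fin 4) (Fin 2) R)
    (γ : Matrix (Fin 2) (Fin 4) R) (d : Matrix (Fin 4) (Fin 2) R) : R :=
  ((c * β).det * (γ * d).det - (c * d).det * (γ * β).det -
    (fromBlocks (c * β) (c * d) (γ * β) (γ * d)).det) ^ 2 - 4 * ((c * d).det * (γ * β).det) *
    (fromBlocks (c * β) (c * d) (γ * β) (γ * d)).det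

theorem lamM_eq [IsDomain R] (c : Matrix (Fin 2) (Fin 4) R) (β : Matrix (Fin 4) (Fin 2) R)
    (γ : Matrix (Fin 2) (Fin 4) R) (d : Matrix (Fin 4) (Fin 2) R) (h : (γ * d).det ≠ 0) :
    qq (c * (d * (γ * d).adjugate * γ) * β)
      (c * ((γ * d).det • (1 : Matrix (Fin 4) (Fin 4) R) - d * (γ * d).adjugate * γ) * β) =
    (γ * d).det ^ 2 * lamM c β γ d := by
  set κ := (γ * d).det with hκ
  set Y := c * (d * (γ * d).adjugate * γ) * β with hY
  set Z := c * (κ • (1 : Matrix (Fin 4) (Fin 4) R) - d * (γ * d).adjugate * γ) * β with hZ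
  have hYZ : Y + Z = κ • (c * β) := by
    rw [hY, hZ]
    simp only [Matrix.mul_sub, Matrix.sub_mul, Matrix.mul_smul, Matrix.smul_mul, Matrix.mul_one]
    abel
  have h1 : dt (Y + Z) = κ ^ 2 * (c * β).det := by
    rw [hYZ, ← dt_eq, det_smul, Fintype.card_fin]
  have h2 : dt Y = κ * ((c * d).det * (γ * β).det) := by
    have : Y = (c * d) * (γ * d).adjugate * (γ * β) := by
      rw [hY]; simp only [Matrix.mul_assoc]
    rw [this, ← dt_eq, det_mul, det_mul, det_adjugate, Fintype.card_fin, ← hκ]; ring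
  have h3 : dt Z = κ * (fromBlocks (c * β) (c * d) (γ * β) (γ * d)).det := by
    rw [hZ, ← dt_eq]; exact schur c β γ d h
  have h4 : mmx Y Z = dt (Y + Z) - dt Y - dt Z := by
    unfold mmx dt; simp only [Matrix.add_apply]; ring
  rw [qq, h4, h1, h2, h3, lamM, ← hκ]; ring

theorem blk_swap (A B C D : Matrix (Fin 2) (Fin 2) R) :
    (fromBlocks A B C D).det = (fromBlocks D C B A).det := by
  have h : fromBlocks D C B A = (fromBlocks A B C D).submatrix (Equiv.sumComm _ _)
      (Equiv.sumComm _ _) := by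
    ext (i | i) (j | j) <;> rfl
  rw [h, det_submatrix_equiv_self]

theorem lamM_symm (c : Matrix (Fin 2) (Fin 4) R) (β : Matrix (Fin 4) (Fin 2) R)
    (γ : Matrix (Fin 2) (Fin 4) R) (d : Matrix (Fin 4) (Fin 2) R) :
    lamM γ d c β = lamM c β γ d := by
  unfold lamM
  rw [← blk_swap (c * β) (c * d) (γ * β) (γ * d)]; ring

end

section

variable {R : Type} [CommRing R] [Algebra ℂ R]

theorem der_mulM {A B C : Type} [Fintype B] (D : Derivation ℂ R R) (M : Matrix A B R)
    (N : Matrix B C R) (a : A) (c : C) :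
    D ((M * N) a c) = ∑ b, (M a b * D (N b c) + N b c * D (M a b)) := by
  rw [Matrix.mul_apply, map_sum]
  simp only [Derivation.leibniz, smul_eq_mul]

theorem star_mat (E G : Fin 4 → Derivation ℂ R R) (c : Matrix (Fin 2) (Fin 4) R)
    (β : Matrix (Fin 4) (Fin 2) R) (N : Matrix (Fin 4) (Fin 4) R) (κ : R) (k l : Fin 2)
    (hEc : ∀ i a j, E i (c a j) = if a = k ∧ j = i then 1 else 0) (hEβ : ∀ i j b, E i (β j b) = 0)
    (hEN : ∀ i j j', E i (N j j') = 0) (hEκ : ∀ i, E i κ = 0)
    (hGβ : ∀ i j b, G i (β j b) = if b = l ∧ j = i then 1 else 0) (hGc : ∀ i a j, G i (c a j) = 0)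
    (hGN : ∀ i j j', G i (N j j') = 0) (hGκ : ∀ i, G i κ = 0)
    (hN : N * N = κ • N) (htr : N.trace = 2 * κ) :
    ∑ i, (2 * qq (c * N * β) (c * (κ • (1 : Matrix (Fin 4) (Fin 4) R) - N) * β) *
      E i (G i (qq (c * N * β) (c * (κ • (1 : Matrix (Fin 4) (Fin 4) R) - N) * β))) -
      3 * (E i (qq (c * N * β) (c * (κ • (1 : Matrix (Fin 4) (Fin 4) R) - N) * β)) *
       G i (qq (c * N * β) (c * (κ • (1 : Matrix (Fin 4) (Fin 4) R) - N) * β)))) = 0 := by
  have main : ∀ M : Matrix (Fin 4) (Fin 4) R, (∀ i j j', E i (M j j') = 0) →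
      (∀ i j j', G i (M j j') = 0) →
      (∀ i a b, E i ((c * M * β) a b) = if a = k then (M * β) i b else 0) ∧
      (∀ i a b, G i ((c * M * β) a b) = if b = l then (c * M) a i else 0) ∧
      (∀ i a, E i ((c * M) a i) = if a = k then M i i else 0) := by
    intro M hE hG
    refine ⟨fun i a b => ?_, fun i a b => ?_, fun i a => ?_⟩
    · rw [Matrix.mul_assoc, der_mulM]
      have h0 : ∀ j, E i ((M * β) j b) = 0 := by
        intro j; rw [der_mulM]; simp [hE, hEβ]
      simp only [h0, hEc, mul_zero, zero_add, mul_ite, mul_one]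
      by_cases h : a = k
      · simp [h]
      · simp [h]
    · rw [der_mulM]
      have h0 : ∀ j, G i ((c * M) a j) = 0 := by
        intro j; rw [der_mulM]; simp [hG, hGc]
      simp only [h0, hGβ, mul_zero, add_zero, mul_ite, mul_one]
      by_cases h : b = l
      · simp [h]
      · simp [h]
    · rw [der_mulM]
      simp only [hE, hEc, mul_zero, zero_add, mul_ite, mul_one]
      by_cases h : a = k
      · simp [h]
      · simp [h]
  set N' := κ • (1 : Matrix (Fin 4) (Fin 4) R) - N with hN'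
  have hEN' : ∀ i j j', E i (N' j j') = 0 := by
    intro i j j'
    rw [hN', Matrix.sub_apply, map_sub, hEN, sub_zero, Matrix.smul_apply, smul_eq_mul,
      Derivation.leibniz, hEκ, Matrix.one_apply]
    split_ifs <;> simp
  have hGN' : ∀ i j j', G i (N' j j') = 0 := by
    intro i j j'
    rw [hN', Matrix.sub_apply, map_sub, hGN, sub_zero, Matrix.smul_apply, smul_eq_mul,
      Derivation.leibniz, hGκ, Matrix.one_apply]
    split_ifs <;> simp
  have hNN' : N * N' = 0 := by
    rw [hN', Matrix.mul_sub, hN, Matrix.mul_smul, Matrix.mul_one, sub_self]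
  have hN'N : N' * N = 0 := by
    rw [hN', Matrix.sub_mul, hN, Matrix.smul_mul, Matrix.one_mul, sub_self]
  have hN'N' : N' * N' = κ • N' := by
    nth_rewrite 1 [hN']
    rw [Matrix.sub_mul, hNN', sub_zero, Matrix.smul_mul, Matrix.one_mul]
  obtain ⟨a1, a2, a3⟩ := main N hEN hGN
  obtain ⟨b1, b2, b3⟩ := main N' hEN' hGN'
  have hc : ∀ (M1 M2 : Matrix (Fin 4) (Fin 4) R) (a b : Fin 2),
      ∑ i, (M2 * β) i b * (c * M1) a i = (c * (M1 * M2) * β) a b := by
    intro M1 M2 a b
    have : c * (M1 * M2) * β = (c * M1) * (M2 * β) := by simp only [Matrix.mul_assoc]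
    rw [this, Matrix.mul_apply]
    exact Finset.sum_congr rfl fun i _ => mul_comm _ _
  refine star E G (c * N * β) (c * N' * β) (fun i b => (N * β) i b) (fun i b => (N' * β) i b)
    (fun a i => (c * N) a i) (fun a i => (c * N') a i) (fun i => N i i) (fun i => N' i i) k l κ
    a1 b1 a2 b2 a3 b3 ?_ ?_ ?_ ?_ htr ?_
  · intro a b; rw [hc, hN, Matrix.mul_smul, Matrix.smul_mul, Matrix.smul_apply, smul_eq_mul]
  · intro a b; rw [hc, hNN']; simp
  · intro a b; rw [hc, hN'N]; simp
  · intro a b; rw [hc, hN'N', Matrix.mul_smul, Matrix.smul_mul, Matrix.smul_apply, smul_eq_mul]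
  · have : N'.trace = 4 * κ - 2 * κ := by
      rw [hN', Matrix.trace_sub, Matrix.trace_smul, Matrix.trace_one, htr, Fintype.card_fin,
        smul_eq_mul]; push_cast; ring
    change N'.trace = _
    rw [this]; ring

/-- The second order identity for `λ`. -/
theorem star_lam [IsDomain R] (E G : Fin 4 → Derivation ℂ R R) (c : Matrix (Fin 2) (Fin 4) R)
    (β : Matrix (Fin 4) (Fin 2) R) (γ : Matrix (Fin 2) (Fin 4) R) (d : Matrix (Fin 4) (Fin 2) R)
    (k l : Fin 2) (h : (γ * d).det ≠ 0)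
    (hEc : ∀ i a j, E i (c a j) = if a = k ∧ j = i then 1 else 0) (hEβ : ∀ i j b, E i (β j b) = 0)
    (hEγ : ∀ i a j, E i (γ a j) = 0) (hEd : ∀ i j b, E i (d j b) = 0)
    (hGβ : ∀ i j b, G i (β j b) = if b = l ∧ j = i then 1 else 0) (hGc : ∀ i a j, G i (c a j) = 0)
    (hGγ : ∀ i a j, G i (γ a j) = 0) (hGd : ∀ i j b, G i (d j b) = 0) :
    ∑ i, (2 * lamM c β γ d * E i (G i (lamM c β γ d)) -
      3 * (E i (lamM c β γ d) * G i (lamM c β γ d))) = 0 := by
  set κ := (γ * d).det with hκ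
  have hD : ∀ D : Derivation ℂ R R, (∀ a j, D (γ a j) = 0) → (∀ j b, D (d j b) = 0) →
      D κ = 0 ∧ ∀ j j', D ((d * (γ * d).adjugate * γ) j j') = 0 := by
    intro D h1 h2
    have h3 : ∀ a b, D ((γ * d) a b) = 0 := by
      intro a b; rw [der_mulM]; simp [h1, h2]
    have h4 : ∀ a b, D ((γ * d).adjugate a b) = 0 := by
      intro a b
      rw [adjugate_fin_two]
      fin_cases a <;> fin_cases b <;> simp [h3]
    refine ⟨?_, fun j j' => ?_⟩
    · rw [hκ, det_fin_two, map_sub, Derivation.leibniz, Derivation.leibniz]; simp [h3]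
    · rw [der_mulM]
      have h5 : ∀ a b, D ((d * (γ * d).adjugate) a b) = 0 := by
        intro a b; rw [der_mulM]; simp [h4, h2]
      simp [h5, h1]
  have hNN : (d * (γ * d).adjugate * γ) * (d * (γ * d).adjugate * γ) =
      κ • (d * (γ * d).adjugate * γ) := by
    calc (d * (γ * d).adjugate * γ) * (d * (γ * d).adjugate * γ) =
        d * ((γ * d).adjugate * (γ * d)) * ((γ * d).adjugate * γ) := by
          simp only [Matrix.mul_assoc]
      _ = _ := by
          rw [Matrix.adjugate_mul, ← hκ, Matrix.mul_smul, Matrix.smul_mul, Matrix.mul_one,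
            Matrix.mul_assoc]
  have htr : (d * (γ * d).adjugate * γ).trace = 2 * κ := by
    rw [Matrix.mul_assoc, Matrix.trace_mul_comm, Matrix.mul_assoc, Matrix.adjugate_mul,
      Matrix.trace_smul, Matrix.trace_one, Fintype.card_fin, smul_eq_mul, ← hκ]
    push_cast; ring
  have hs := star_mat E G c β (d * (γ * d).adjugate * γ) κ k l hEc hEβ
    (fun i => (hD (E i) (hEγ i) (hEd i)).2) (fun i => (hD (E i) (hEγ i) (hEd i)).1)
    hGβ hGc (fun i => (hD (G i) (hGγ i) (hGd i)).2) (fun i => (hD (G i) (hGγ i) (hGd i)).1)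
    hNN htr
  rw [hκ, lamM_eq c β γ d h, ← hκ] at hs
  have hE : ∀ i f, E i (κ ^ 2 * f) = κ ^ 2 * E i f := by
    intro i f
    rw [Derivation.leibniz, Derivation.leibniz_pow, (hD (E i) (hEγ i) (hEd i)).1]; simp
  have hG : ∀ i f, G i (κ ^ 2 * f) = κ ^ 2 * G i f := by
    intro i f
    rw [Derivation.leibniz, Derivation.leibniz_pow, (hD (G i) (hGγ i) (hGd i)).1]; simp
  simp only [hG, hE] at hs
  have h4 : κ ^ 4 * ∑ i, (2 * lamM c β γ d * E i (G i (lamM c β γ d)) -
      3 * (E i (lamM c β γ d) * G i (lamM c β γ d))) = 0 := by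
    rw [← hs, Finset.mul_sum]
    exact Finset.sum_congr rfl fun i _ => by ring
  exact (mul_eq_zero.1 h4).resolve_left (pow_ne_zero 4 h)

end

end Pool.Agent.H495
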