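import Pool.Agent.H495.PosTab
import Pool.Agent.H495.Star2
import Pool.Agent.H495.KSfun2

/-! The semi-invariants of the positive half. -/

namespace Pool.Agent.H495

open MvPolynomial Ix

section gen

variable {R : Type} [CommRing R] [Algebra ℂ R]

theorem dt_row {D : Fin 2 → Fin 2 → Derivation ℂ R R} {M : Matrix (Fin 2) (Fin 2) R}
    (hM : RowM D 0 M) : Sc D 1 (dt M) := by
  have h : dt M = det2 (fun k => M k 0) (fun k => M k 1) := by unfold dt det2; ring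
  rw [h]; exact (det2_row (hM 0) (hM 1)).congr (by norm_num)

theorem dt_col {D : Fin 2 → Fin 2 → Derivation ℂ R R} {M : Matrix (Fin 2) (Fin 2) R}
    (hM : ColM D 0 M) : Sc D (-1) (dt M) := by
  have h : dt M = det2 (fun k => M k 0) (fun k => M k 1) := by unfold dt det2; ring
  rw [h]; exact det2_cols hM

theorem dt_sc {n : ℕ} {D : Fin n → Fin n → Derivation ℂ R R} {M : Matrix (Fin 2) (Fin 2) R}
    (hM : ScM D 0 M) : Sc D 0 (dt M) := by
  have h : dt M = det2 (fun k => M k 0) (fun k => M k 1) := by unfold dt det2; ring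
  rw [h]; exact (det2_sc (fun k => hM k 0) (fun k => hM k 1)).congr (by norm_num)

theorem mn_rowpair {D : Fin 2 → Fin 2 → Derivation ℂ R R} {M : Matrix (Fin 2) (Fin 4) R}
    (hM : RowM D 0 M) (i j : Fin 4) : Sc D 1 (mn i j (M 0) (M 1)) := by
  have h : mn i j (M 0) (M 1) = det2 (fun k => M k i) (fun k => M k j) := by
    unfold mn det2; ring
  rw [h]; exact (det2_row (hM i) (hM j)).congr (by norm_num)

theorem mn_scpair {n : ℕ} {D : Fin n → Fin n → Derivation ℂ R R} {M : Matrix (Fin 2) (Fin 4) R}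
    (hM : ScM D 0 M) (i j : Fin 4) : Sc D 0 (mn i j (M 0) (M 1)) := by
  unfold mn
  exact (((hM 0 i).mul (hM 1 j)).sub ((hM 0 j).mul (hM 1 i))).congr (by norm_num)

theorem mn_colv {D : Fin 4 → Fin 4 → Derivation ℂ R R} {x y : Fin 4 → R}
    (hx : ColV D 0 x) (hy : ColV D 0 y) (i j k l : Fin 4) : D i j (mn k l x y) =
      -(if j = k then mn i l x y else 0) - (if j = l then mn k i x y else 0) := by
  simp only [mn, map_sub, Derivation.leibniz, hx _ _ _, hy _ _ _, smul_eq_mul]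
  split_ifs <;> simp <;> ring

theorem det4_colv {D : Fin 4 → Fin 4 → Derivation ℂ R R} {x y z t : Fin 4 → R}
    (hx : ColV D 0 x) (hy : ColV D 0 y) (hz : ColV D 0 z) (ht : ColV D 0 t) :
    Sc D (-1) (det4 x y z t) := by
  intro i j
  simp only [det4, map_sub, map_add, Derivation.leibniz, mn_colv hx hy, mn_colv hz ht,
    smul_eq_mul]
  have h1 : ∀ k l, mn k l x y = x k * y l - x l * y k := fun k l => rfl
  have h2 : ∀ k l, mn k l z t = z k * t l - z l * t k := fun k l => rfl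
  fin_cases i <;> fin_cases j <;> simp [h1, h2] <;> ring

/-- The trace `tr (a adj(α) v)`. -/
def trad (a α v : Matrix (Fin 2) (Fin 2) R) : R :=
  ∑ j, ∑ l, a l j * (α.adjugate * v) j l

theorem trad_eq (a α v : Matrix (Fin 2) (Fin 2) R) : trad a α v =
    a 0 0 * (α 1 1 * v 0 0 - α 0 1 * v 1 0) + a 1 0 * (α 1 1 * v 0 1 - α 0 1 * v 1 1) +
    a 0 1 * (α 0 0 * v 1 0 - α 1 0 * v 0 0) + a 1 1 * (α 0 0 * v 1 1 - α 1 0 * v 0 1) := by
  unfold trad
  simp only [Fin.sum_univ_two, Matrix.mul_apply, Matrix.adjugate_fin_two]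
  simp
  ring

/-- rows of `α`, `v` -/
theorem trad_B {D : Fin 2 → Fin 2 → Derivation ℂ R R} {a α v : Matrix (Fin 2) (Fin 2) R}
    (ha : ScM D 0 a) (hα : RowM D 0 α) (hv : RowM D 0 v) : Sc D 1 (trad a α v) := by
  intro i j
  have h1 := fun k l i j => ha k l i j
  have h2 := fun k i j l => hα k i j l
  have h3 := fun k i j l => hv k i j l
  simp only at h1 h2 h3
  rw [trad_eq]
  simp only [map_sub, map_add, Derivation.leibniz, h1, h2, h3, smul_eq_mul]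
  fin_cases i <;> fin_cases j <;> simp <;> ring

/-- columns of `a`, `α` -/
theorem trad_E {D : Fin 2 → Fin 2 → Derivation ℂ R R} {a α v : Matrix (Fin 2) (Fin 2) R}
    (ha : ColM D 0 a) (hα : ColM D 0 α) (hv : ScM D 0 v) : Sc D (-1) (trad a α v) := by
  intro i j
  have h1 := fun k i j l => ha k i j l
  have h2 := fun k i j l => hα k i j l
  have h3 := fun k l i j => hv k l i j
  simp only at h1 h2 h3
  rw [trad_eq]
  simp only [map_sub, map_add, Derivation.leibniz, h1, h2, h3, smul_eq_mul]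
  fin_cases i <;> fin_cases j <;> simp <;> ring

/-- rows of `a`, columns of `v` -/
theorem trad_P {D : Fin 2 → Fin 2 → Derivation ℂ R R} {a α v : Matrix (Fin 2) (Fin 2) R}
    (ha : RowM D 0 a) (hα : ScM D 0 α) (hv : ColM D 0 v) : Sc D 0 (trad a α v) := by
  intro i j
  have h1 := fun k i j l => ha k i j l
  have h2 := fun k l i j => hα k l i j
  have h3 := fun k i j l => hv k i j l
  simp only at h1 h2 h3
  rw [trad_eq]
  simp only [map_sub, map_add, Derivation.leibniz, h1, h2, h3, smul_eq_mul]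
  fin_cases i <;> fin_cases j <;> simp <;> ring

/-- everything invariant -/
theorem trad_S {n : ℕ} {D : Fin n → Fin n → Derivation ℂ R R} {a α v : Matrix (Fin 2) (Fin 2) R}
    (ha : ScM D 0 a) (hα : ScM D 0 α) (hv : ScM D 0 v) : Sc D 0 (trad a α v) := by
  intro i j
  have h1 := fun k l i j => ha k l i j
  have h2 := fun k l i j => hα k l i j
  have h3 := fun k l i j => hv k l i j
  rw [trad_eq]
  simp only [map_sub, map_add, Derivation.leibniz, h1, h2, h3, smul_eq_mul]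
  by_cases h : i = j <;> simp [h]

theorem tradT_B {D : Fin 2 → Fin 2 → Derivation ℂ R R} {a α v : Matrix (Fin 2) (Fin 2) R}
    (ha : ScM D 0 a) (hα : ColM D 0 α) (hv : ColM D 0 v) :
    Sc D (-1) (trad a.transpose α.transpose v.transpose) := by
  intro i j
  have h1 := fun k l i j => ha k l i j
  have h2 := fun k i j l => hα k i j l
  have h3 := fun k i j l => hv k i j l
  simp only at h2 h3
  rw [trad_eq]
  simp only [Matrix.transpose_apply, map_sub, map_add, Derivation.leibniz, h1, h2, h3, smul_eq_mul]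
  fin_cases i <;> fin_cases j <;> simp <;> ring

theorem tradT_E {D : Fin 2 → Fin 2 → Derivation ℂ R R} {a α v : Matrix (Fin 2) (Fin 2) R}
    (ha : RowM D 0 a) (hα : RowM D 0 α) (hv : ScM D 0 v) :
    Sc D 1 (trad a.transpose α.transpose v.transpose) := by
  intro i j
  have h1 := fun k i j l => ha k i j l
  have h2 := fun k i j l => hα k i j l
  have h3 := fun k l i j => hv k l i j
  simp only at h1 h2
  rw [trad_eq]
  simp only [Matrix.transpose_apply, map_sub, map_add, Derivation.leibniz, h1, h2, h3, smul_eq_mul]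
  fin_cases i <;> fin_cases j <;> simp <;> ring

theorem tradT_P {D : Fin 2 → Fin 2 → Derivation ℂ R R} {a α v : Matrix (Fin 2) (Fin 2) R}
    (ha : ColM D 0 a) (hα : ScM D 0 α) (hv : RowM D 0 v) :
    Sc D 0 (trad a.transpose α.transpose v.transpose) := by
  intro i j
  have h1 := fun k i j l => ha k i j l
  have h2 := fun k l i j => hα k l i j
  have h3 := fun k i j l => hv k i j l
  simp only at h1 h3
  rw [trad_eq]
  simp only [Matrix.transpose_apply, map_sub, map_add, Derivation.leibniz, h1, h2, h3, smul_eq_mul]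
  fin_cases i <;> fin_cases j <;> simp <;> ring

theorem tradT_S {n : ℕ} {D : Fin n → Fin n → Derivation ℂ R R} {a α v : Matrix (Fin 2) (Fin 2) R}
    (ha : ScM D 0 a) (hα : ScM D 0 α) (hv : ScM D 0 v) :
    Sc D 0 (trad a.transpose α.transpose v.transpose) :=
  trad_S (fun k l => ha l k) (fun k l => hα l k) (fun k l => hv l k)

theorem Sc.kallen {n : ℕ} {D : Fin n → Fin n → Derivation ℂ R R} {c : ℤ} {P r w : R}
    (hP : Sc D c P) (hr : Sc D c r) (hw : Sc D c w) :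
    Sc D (2 * c) ((P - r - w) ^ 2 - 4 * r * w) := by
  intro i j
  have h4 : D i j (4 : R) = 0 := by
    have := (D i j).map_natCast 4; simpa using this
  rw [map_sub, Derivation.leibniz_pow, map_sub, map_sub, Derivation.leibniz, Derivation.leibniz,
    h4, hP, hr, hw]
  by_cases h : i = j
  · simp only [h, if_true, smul_eq_mul, nsmul_eq_mul]; push_cast; ring
  · simp [h]

theorem blk_eq (c : Matrix (Fin 2) (Fin 4) R) (β : Matrix (Fin 4) (Fin 2) R)
    (γ : Matrix (Fin 2) (Fin 4) R) (d : Matrix (Fin 4) (Fin 2) R) :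
    (Matrix.fromBlocks (c * β) (c * d) (γ * β) (γ * d)).det =
      det4 (c 0) (c 1) (γ 0) (γ 1) *
      det4 (fun i => β i 0) (fun i => β i 1) (fun i => d i 0) (fun i => d i 1) := by
  let e : Fin 4 ≃ Fin 2 ⊕ Fin 2 := (finSumFinEquiv (m := 2) (n := 2)).symm
  have h1 : (Matrix.fromBlocks (c * β) (c * d) (γ * β) (γ * d)).submatrix e e =
      ((Matrix.fromRows c γ).submatrix e id) * ((Matrix.fromCols β d).submatrix id e) := by
    rw [← Matrix.fromRows_mul_fromCols]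
    ext i j; rfl
  rw [← Matrix.det_submatrix_equiv_self e, h1, Matrix.det_mul]
  congr 1
  · rw [← Matrix.det_transpose, det_eq_det4]
    rfl
  · rw [det_eq_det4]
    rfl

end gen

/-- the determinants -/
noncomputable def dα : RR 2 := dt (mα 2)
noncomputable def dδ : RR 2 := dt (mδ 2)
noncomputable def φ1 : RR 2 := trad ma (mα 2) (mc 2 * mβ 2)
noncomputable def φ2 : RR 2 := trad mb.transpose (mδ 2).transpose (mγ 2 * md 2).transpose
noncomputable def v1 : RR 2 := det4 (mc 2 0) (mc 2 1) (mγ 2 0) (mγ 2 1)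
noncomputable def v2 : RR 2 :=
  det4 (fun i => mβ 2 i 0) (fun i => mβ 2 i 1) (fun i => md 2 i 0) (fun i => md 2 i 1)
noncomputable def lam : RR 2 :=
  (dt (mc 2 * mβ 2) * dt (mγ 2 * md 2) - dt (mc 2 * md 2) * dt (mγ 2 * mβ 2) - v1 * v2) ^ 2 -
    4 * (dt (mc 2 * md 2) * dt (mγ 2 * mβ 2)) * (v1 * v2)

theorem lam_eq : lam = lamM (mc 2) (mβ 2) (mγ 2) (md 2) := by
  rw [lamM, blk_eq, dt_eq, dt_eq, dt_eq, dt_eq, lam, v1, v2]


theorem E32_cb : ScM (DD2 e3) 0 (mc 2 * mβ 2) :=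
  (ColM.mul_row E32_c E32_β).congr (by norm_num)
theorem E32_cd : ScM (DD2 e3) 0 (mc 2 * md 2) :=
  (ColM.mul_row E32_c E32_d).congr (by norm_num)
theorem E32_gb : ScM (DD2 e3) 0 (mγ 2 * mβ 2) :=
  (ColM.mul_row E32_γ E32_β).congr (by norm_num)
theorem E32_gd : ScM (DD2 e3) 0 (mγ 2 * md 2) :=
  (ColM.mul_row E32_γ E32_d).congr (by norm_num)
theorem E32_dα : Sc (DD2 e3) (0) dα := dt_sc E32_α
theorem E32_dδ : Sc (DD2 e3) (0) dδ := dt_sc E32_δ
theorem E32_φ1 : Sc (DD2 e3) (0) φ1 := trad_S E32_a E32_α E32_cb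
theorem E32_φ2 : Sc (DD2 e3) (0) φ2 := tradT_S E32_bb E32_δ E32_gd
theorem E32_v1 : Sc (DD2 e3) (-1) v1 := det4_colv (E32_c 0) (E32_c 1) (E32_γ 0) (E32_γ 1)
theorem E32_v2 : Sc (DD2 e3) 1 v2 := det4_row (E32_β 0) (E32_β 1) (E32_d 0) (E32_d 1)
theorem E32_lam : Sc (DD2 e3) (0) lam := by
  have h1 : Sc (DD2 e3) (0) (dt (mc 2 * mβ 2) * dt (mγ 2 * md 2)) :=
    ((dt_sc E32_cb).mul (dt_sc E32_gd)).congr (by norm_num)
  have h2 : Sc (DD2 e3) (0) (dt (mc 2 * md 2) * dt (mγ 2 * mβ 2)) :=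
    ((dt_sc E32_cd).mul (dt_sc E32_gb)).congr (by norm_num)
  have h3 : Sc (DD2 e3) (0) (v1 * v2) := (E32_v1.mul E32_v2).congr (by norm_num)
  exact (Sc.kallen h1 h2 h3).congr (by norm_num)
theorem B2_cb : RowM (DD2 b) 0 (mc 2 * mβ 2) :=
  (RowM.mul B2_c B2_β).congr (by norm_num)
theorem B2_cd : RowM (DD2 b) 0 (mc 2 * md 2) :=
  (RowM.mul B2_c B2_d).congr (by norm_num)
theorem B2_gb : ScM (DD2 b) 0 (mγ 2 * mβ 2) :=
  (ScM.mul B2_γ B2_β).congr (by norm_num)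
theorem B2_gd : ScM (DD2 b) 0 (mγ 2 * md 2) :=
  (ScM.mul B2_γ B2_d).congr (by norm_num)
theorem B2_dα : Sc (DD2 b) (1) dα := dt_row B2_α
theorem B2_dδ : Sc (DD2 b) (0) dδ := dt_sc B2_δ
theorem B2_φ1 : Sc (DD2 b) (1) φ1 := trad_B B2_a B2_α B2_cb
theorem B2_φ2 : Sc (DD2 b) (0) φ2 := tradT_S B2_bb B2_δ B2_gd
theorem B2_v1 : Sc (DD2 b) (1) v1 := (det4_sc (mn_rowpair B2_c) (mn_scpair B2_γ)).congr (by norm_num)
theorem B2_v2 : Sc (DD2 b) (0) v2 := (det4_sc (mn_sc B2_β) (mn_sc B2_d)).congr (by norm_num)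
theorem B2_lam : Sc (DD2 b) (2) lam := by
  have h1 : Sc (DD2 b) (1) (dt (mc 2 * mβ 2) * dt (mγ 2 * md 2)) :=
    ((dt_row B2_cb).mul (dt_sc B2_gd)).congr (by norm_num)
  have h2 : Sc (DD2 b) (1) (dt (mc 2 * md 2) * dt (mγ 2 * mβ 2)) :=
    ((dt_row B2_cd).mul (dt_sc B2_gb)).congr (by norm_num)
  have h3 : Sc (DD2 b) (1) (v1 * v2) := (B2_v1.mul B2_v2).congr (by norm_num)
  exact (Sc.kallen h1 h2 h3).congr (by norm_num)
theorem E12_cb : ScM (DD2 e1) 0 (mc 2 * mβ 2) :=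
  (ScM.mul E12_c E12_β).congr (by norm_num)
theorem E12_cd : ScM (DD2 e1) 0 (mc 2 * md 2) :=
  (ScM.mul E12_c E12_d).congr (by norm_num)
theorem E12_gb : ScM (DD2 e1) 0 (mγ 2 * mβ 2) :=
  (ScM.mul E12_γ E12_β).congr (by norm_num)
theorem E12_gd : ScM (DD2 e1) 0 (mγ 2 * md 2) :=
  (ScM.mul E12_γ E12_d).congr (by norm_num)
theorem E12_dα : Sc (DD2 e1) (-1) dα := dt_col E12_α
theorem E12_dδ : Sc (DD2 e1) (0) dδ := dt_sc E12_δ
theorem E12_φ1 : Sc (DD2 e1) (-1) φ1 := trad_E E12_a E12_α E12_cb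
theorem E12_φ2 : Sc (DD2 e1) (0) φ2 := tradT_S E12_bb E12_δ E12_gd
theorem E12_v1 : Sc (DD2 e1) (0) v1 := (det4_sc (mn_scpair E12_c) (mn_scpair E12_γ)).congr (by norm_num)
theorem E12_v2 : Sc (DD2 e1) (0) v2 := (det4_sc (mn_sc E12_β) (mn_sc E12_d)).congr (by norm_num)
theorem E12_lam : Sc (DD2 e1) (0) lam := by
  have h1 : Sc (DD2 e1) (0) (dt (mc 2 * mβ 2) * dt (mγ 2 * md 2)) :=
    ((dt_sc E12_cb).mul (dt_sc E12_gd)).congr (by norm_num)
  have h2 : Sc (DD2 e1) (0) (dt (mc 2 * md 2) * dt (mγ 2 * mβ 2)) :=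
    ((dt_sc E12_cd).mul (dt_sc E12_gb)).congr (by norm_num)
  have h3 : Sc (DD2 e1) (0) (v1 * v2) := (E12_v1.mul E12_v2).congr (by norm_num)
  exact (Sc.kallen h1 h2 h3).congr (by norm_num)
theorem E52_cb : ScM (DD2 e5) 0 (mc 2 * mβ 2) :=
  (ScM.mul E52_c E52_β).congr (by norm_num)
theorem E52_cd : ScM (DD2 e5) 0 (mc 2 * md 2) :=
  (ScM.mul E52_c E52_d).congr (by norm_num)
theorem E52_gb : ScM (DD2 e5) 0 (mγ 2 * mβ 2) :=
  (ScM.mul E52_γ E52_β).congr (by norm_num)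
theorem E52_gd : ScM (DD2 e5) 0 (mγ 2 * md 2) :=
  (ScM.mul E52_γ E52_d).congr (by norm_num)
theorem E52_dα : Sc (DD2 e5) (0) dα := dt_sc E52_α
theorem E52_dδ : Sc (DD2 e5) (1) dδ := dt_row E52_δ
theorem E52_φ1 : Sc (DD2 e5) (0) φ1 := trad_S E52_a E52_α E52_cb
theorem E52_φ2 : Sc (DD2 e5) (1) φ2 := tradT_E E52_bb E52_δ E52_gd
theorem E52_v1 : Sc (DD2 e5) (0) v1 := (det4_sc (mn_scpair E52_c) (mn_scpair E52_γ)).congr (by norm_num)
theorem E52_v2 : Sc (DD2 e5) (0) v2 := (det4_sc (mn_sc E52_β) (mn_sc E52_d)).congr (by norm_num)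
theorem E52_lam : Sc (DD2 e5) (0) lam := by
  have h1 : Sc (DD2 e5) (0) (dt (mc 2 * mβ 2) * dt (mγ 2 * md 2)) :=
    ((dt_sc E52_cb).mul (dt_sc E52_gd)).congr (by norm_num)
  have h2 : Sc (DD2 e5) (0) (dt (mc 2 * md 2) * dt (mγ 2 * mβ 2)) :=
    ((dt_sc E52_cd).mul (dt_sc E52_gb)).congr (by norm_num)
  have h3 : Sc (DD2 e5) (0) (v1 * v2) := (E52_v1.mul E52_v2).congr (by norm_num)
  exact (Sc.kallen h1 h2 h3).congr (by norm_num)
theorem P22_cb : ColM (DD2 p2) 0 (mc 2 * mβ 2) :=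
  (ColM.mul P22_c P22_β).congr (by norm_num)
theorem P22_cd : ScM (DD2 p2) 0 (mc 2 * md 2) :=
  (ScM.mul P22_c P22_d).congr (by norm_num)
theorem P22_gb : ColM (DD2 p2) 0 (mγ 2 * mβ 2) :=
  (ColM.mul P22_γ P22_β).congr (by norm_num)
theorem P22_gd : ScM (DD2 p2) 0 (mγ 2 * md 2) :=
  (ScM.mul P22_γ P22_d).congr (by norm_num)
theorem P22_dα : Sc (DD2 p2) (0) dα := dt_sc P22_α
theorem P22_dδ : Sc (DD2 p2) (0) dδ := dt_sc P22_δ
theorem P22_φ1 : Sc (DD2 p2) (0) φ1 := trad_P P22_a P22_α P22_cb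
theorem P22_φ2 : Sc (DD2 p2) (0) φ2 := tradT_S P22_bb P22_δ P22_gd
theorem P22_v1 : Sc (DD2 p2) (0) v1 := (det4_sc (mn_scpair P22_c) (mn_scpair P22_γ)).congr (by norm_num)
theorem P22_v2 : Sc (DD2 p2) (-1) v2 := (det4_sc (mn_col P22_β) (mn_sc P22_d)).congr (by norm_num)
theorem P22_lam : Sc (DD2 p2) (-2) lam := by
  have h1 : Sc (DD2 p2) (-1) (dt (mc 2 * mβ 2) * dt (mγ 2 * md 2)) :=
    ((dt_col P22_cb).mul (dt_sc P22_gd)).congr (by norm_num)
  have h2 : Sc (DD2 p2) (-1) (dt (mc 2 * md 2) * dt (mγ 2 * mβ 2)) :=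
    ((dt_sc P22_cd).mul (dt_col P22_gb)).congr (by norm_num)
  have h3 : Sc (DD2 p2) (-1) (v1 * v2) := (P22_v1.mul P22_v2).congr (by norm_num)
  exact (Sc.kallen h1 h2 h3).congr (by norm_num)
theorem B42_cb : ScM (DD2 b4) 0 (mc 2 * mβ 2) :=
  (ScM.mul B42_c B42_β).congr (by norm_num)
theorem B42_cd : ColM (DD2 b4) 0 (mc 2 * md 2) :=
  (ColM.mul B42_c B42_d).congr (by norm_num)
theorem B42_gb : ScM (DD2 b4) 0 (mγ 2 * mβ 2) :=
  (ScM.mul B42_γ B42_β).congr (by norm_num)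
theorem B42_gd : ColM (DD2 b4) 0 (mγ 2 * md 2) :=
  (ColM.mul B42_γ B42_d).congr (by norm_num)
theorem B42_dα : Sc (DD2 b4) (0) dα := dt_sc B42_α
theorem B42_dδ : Sc (DD2 b4) (-1) dδ := dt_col B42_δ
theorem B42_φ1 : Sc (DD2 b4) (0) φ1 := trad_S B42_a B42_α B42_cb
theorem B42_φ2 : Sc (DD2 b4) (-1) φ2 := tradT_B B42_bb B42_δ B42_gd
theorem B42_v1 : Sc (DD2 b4) (0) v1 := (det4_sc (mn_scpair B42_c) (mn_scpair B42_γ)).congr (by norm_num)
theorem B42_v2 : Sc (DD2 b4) (-1) v2 := (det4_sc (mn_sc B42_β) (mn_col B42_d)).congr (by norm_num)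
theorem B42_lam : Sc (DD2 b4) (-2) lam := by
  have h1 : Sc (DD2 b4) (-1) (dt (mc 2 * mβ 2) * dt (mγ 2 * md 2)) :=
    ((dt_sc B42_cb).mul (dt_col B42_gd)).congr (by norm_num)
  have h2 : Sc (DD2 b4) (-1) (dt (mc 2 * md 2) * dt (mγ 2 * mβ 2)) :=
    ((dt_col B42_cd).mul (dt_sc B42_gb)).congr (by norm_num)
  have h3 : Sc (DD2 b4) (-1) (v1 * v2) := (B42_v1.mul B42_v2).congr (by norm_num)
  exact (Sc.kallen h1 h2 h3).congr (by norm_num)
theorem P42_cb : ScM (DD2 p4) 0 (mc 2 * mβ 2) :=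
  (ScM.mul P42_c P42_β).congr (by norm_num)
theorem P42_cd : ScM (DD2 p4) 0 (mc 2 * md 2) :=
  (ScM.mul P42_c P42_d).congr (by norm_num)
theorem P42_gb : RowM (DD2 p4) 0 (mγ 2 * mβ 2) :=
  (RowM.mul P42_γ P42_β).congr (by norm_num)
theorem P42_gd : RowM (DD2 p4) 0 (mγ 2 * md 2) :=
  (RowM.mul P42_γ P42_d).congr (by norm_num)
theorem P42_dα : Sc (DD2 p4) (0) dα := dt_sc P42_α
theorem P42_dδ : Sc (DD2 p4) (0) dδ := dt_sc P42_δ
theorem P42_φ1 : Sc (DD2 p4) (0) φ1 := trad_S P42_a P42_α P42_cb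
theorem P42_φ2 : Sc (DD2 p4) (0) φ2 := tradT_P P42_bb P42_δ P42_gd
theorem P42_v1 : Sc (DD2 p4) (1) v1 := (det4_sc (mn_scpair P42_c) (mn_rowpair P42_γ)).congr (by norm_num)
theorem P42_v2 : Sc (DD2 p4) (0) v2 := (det4_sc (mn_sc P42_β) (mn_sc P42_d)).congr (by norm_num)
theorem P42_lam : Sc (DD2 p4) (2) lam := by
  have h1 : Sc (DD2 p4) (1) (dt (mc 2 * mβ 2) * dt (mγ 2 * md 2)) :=
    ((dt_sc P42_cb).mul (dt_row P42_gd)).congr (by norm_num)
  have h2 : Sc (DD2 p4) (1) (dt (mc 2 * md 2) * dt (mγ 2 * mβ 2)) :=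
    ((dt_sc P42_cd).mul (dt_row P42_gb)).congr (by norm_num)
  have h3 : Sc (DD2 p4) (1) (v1 * v2) := (P42_v1.mul P42_v2).congr (by norm_num)
  exact (Sc.kallen h1 h2 h3).congr (by norm_num)

end Pool.Agent.H495
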