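import Pool.Agent.H495.Frac

/-! Twisted modules of rational functions. -/

namespace Pool.Agent.H495

open MvPolynomial

namespace WeylModule

variable {J : Type} [DecidableEq J] {L : Type} [AddCommGroup L] [Module ℂ L]

/-- Inverse partial Fourier transform. -/
def unfourier (W : WeylModule J L) (S : J → Prop) [DecidablePred S] : WeylModule J L where
  x j := if S j then -W.d j else W.x j
  d j := if S j then W.x j else W.d j
  x_comm := by
    intro i j
    by_cases hi : S i <;> by_cases hj : S j <;> simp only [hi, hj, if_true, if_false]
    · rw [neg_mul_neg, neg_mul_neg, W.d_comm i j]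
    · have := W.comm i j
      rw [if_neg (by rintro rfl; exact hj hi), add_zero] at this
      rw [neg_mul, mul_neg, this]
    · have := W.comm j i
      rw [if_neg (by rintro rfl; exact hi hj), add_zero] at this
      rw [neg_mul, mul_neg, this]
    · exact W.x_comm i j
  d_comm := by
    intro i j
    by_cases hi : S i <;> by_cases hj : S j <;> simp only [hi, hj, if_true, if_false]
    · exact W.x_comm i j
    · have := W.comm j i
      rw [if_neg (by rintro rfl; exact hj hi), add_zero] at this
      exact this.symm
    · have := W.comm i j
      rw [if_neg (by rintro rfl; exact hi hj), add_zero] at this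
      exact this
    · exact W.d_comm i j
  comm := by
    intro i j
    by_cases hi : S i <;> by_cases hj : S j <;> simp only [hi, hj, if_true, if_false]
    · have := W.comm j i
      rw [mul_neg, neg_mul, this]
      by_cases h : i = j
      · subst h; simp
      · simp [h, Ne.symm h]
    · rw [W.x_comm i j, if_neg (by rintro rfl; exact hj hi), add_zero]
    · rw [mul_neg, neg_mul, W.d_comm i j, if_neg (by rintro rfl; exact hi hj), add_zero]
    · exact W.comm i j

theorem unfourier_fourier (W : WeylModule J L) (S : J → Prop) [DecidablePred S] :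
    (W.unfourier S).fourier S = W := by
  cases W
  simp only [unfourier, fourier, WeylModule.mk.injEq]
  constructor
  · funext j; by_cases h : S j <;> simp [h]
  · funext j; by_cases h : S j <;> simp [h]

end WeylModule

section

variable {J : Type} [DecidableEq J]

/-- The field of rational functions. -/
abbrev KK (J : Type) := FractionRing (MvPolynomial J ℂ)

/-- Inclusion of polynomials. -/
noncomputable abbrev ι0 {J : Type} : MvPolynomial J ℂ →+* KK J := algebraMap _ _

/-- Partial derivatives. -/
noncomputable def dd (j : J) : Derivation ℂ (KK J) (KK J) := exD (pderiv j)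

theorem dd_alg (j : J) (f : MvPolynomial J ℂ) :
    dd j (ι0 f) = ι0 (pderiv (R := ℂ) j f) := exD_alg _ _

theorem pderiv_comm' (i j : J) (f : MvPolynomial J ℂ) :
    pderiv i (pderiv j f) = pderiv j (pderiv i f) := by
  have h : ⁅(pderiv i : Derivation ℂ (MvPolynomial J ℂ) (MvPolynomial J ℂ)),
      (pderiv j : Derivation ℂ (MvPolynomial J ℂ) (MvPolynomial J ℂ))⁆ = 0 := by
    apply MvPolynomial.derivation_ext
    intro k
    rw [Derivation.commutator_apply, pderiv_X, pderiv_X]
    simp only [Derivation.zero_apply]
    have : ∀ (a b : J), pderiv (R := ℂ) a ((Pi.single b 1 : J → MvPolynomial J ℂ) k) = 0 := by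
      intro a b
      by_cases hb : k = b
      · subst hb; simp
      · rw [Pi.single_eq_of_ne hb, map_zero]
    rw [this, this, sub_zero]
  have h2 := congrArg (fun D => D f) h
  rw [Derivation.commutator_apply] at h2
  exact sub_eq_zero.1 h2

theorem dd_comm (i j : J) (f : KK J) : dd i (dd j f) = dd j (dd i f) := by
  have h : ⁅dd i, dd j⁆ = (0 : Derivation ℂ (KK J) (KK J)) := by
    apply der_frac_ext
    intro r
    rw [Derivation.commutator_apply, dd_alg, dd_alg, dd_alg, dd_alg, pderiv_comm', sub_self]
    rfl
  have h2 := congrArg (fun D => D f) h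
  rw [Derivation.commutator_apply] at h2
  exact sub_eq_zero.1 h2

/-- The module of functions times `exp φ ∏ g^n`. -/
noncomputable def twist (ω : J → KK J) (hω : ∀ i j, dd i (ω j) = dd j (ω i)) :
    WeylModule J (KK J) where
  x j := LinearMap.mulLeft ℂ (ι0 (X j))
  d j := (dd j : KK J →ₗ[ℂ] KK J) + LinearMap.mulLeft ℂ (ω j)
  x_comm i j := by
    ext f; simp only [Module.End.mul_apply, LinearMap.mulLeft_apply]; ring
  d_comm i j := by
    refine LinearMap.ext fun f => ?_
    simp only [Module.End.mul_apply, LinearMap.add_apply, LinearMap.mulLeft_apply,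
      Derivation.coeFn_coe, map_add, Derivation.leibniz, smul_eq_mul]
    rw [dd_comm i j, hω i j]; ring
  comm i j := by
    refine LinearMap.ext fun f => ?_
    simp only [Module.End.mul_apply, LinearMap.add_apply, LinearMap.mulLeft_apply,
      Derivation.coeFn_coe, Derivation.leibniz,
      smul_eq_mul, dd_alg, pderiv_X]
    by_cases h : i = j
    · subst h; simp; ring
    · rw [Pi.single_eq_of_ne (Ne.symm h), if_neg h]; simp; ring

theorem twist_x (ω : J → KK J) (hω) (j : J) (f : KK J) :
    (twist ω hω).x j f = ι0 (X j) * f := rfl

theorem twist_d (ω : J → KK J) (hω) (j : J) (f : KK J) :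
    (twist ω hω).d j f = dd j f + ω j * f := rfl

theorem twist_fn (ω : J → KK J) (hω) (p : MvPolynomial J ℂ) (f : KK J) :
    (twist ω hω).fn p f = ι0 p * f := by
  induction p using MvPolynomial.induction_on generalizing f with
  | C a =>
    rw [WeylModule.fn_C, Module.algebraMap_end_apply, Algebra.smul_def]
    rfl
  | add p q hp hq => rw [map_add, LinearMap.add_apply, hp, hq, map_add, add_mul]
  | mul_X p j hp => rw [map_mul, Module.End.mul_apply, WeylModule.fn_X, twist_x, hp, map_mul]; ring

end

/-- The Euler derivation in the variables of `S`. -/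
noncomputable def eul {J : Type} [Fintype J] (S : J → Prop) [DecidablePred S] :
    Derivation ℂ (MvPolynomial J ℂ) (MvPolynomial J ℂ) :=
  ∑ j ∈ Finset.univ.filter S, (X j : MvPolynomial J ℂ) • (pderiv j : Derivation ℂ _ _)

end Pool.Agent.H495
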