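import Pool.Agent.H495.PosFun
import Pool.Agent.H495.Twist

/-! The twisted module of the positive half. -/

namespace Pool.Agent.H495

open MvPolynomial Ix WeylModule

section exD

variable {J : Type} [DecidableEq J]

theorem exD_add (D D' : Derivation ℂ (MvPolynomial J ℂ) (MvPolynomial J ℂ)) :
    exD (D + D') = exD D + exD D' := by
  apply der_frac_ext; intro r
  rw [exD_alg, Derivation.add_apply, Derivation.add_apply, exD_alg, exD_alg, map_add]

theorem exD_zero : exD (0 : Derivation ℂ (MvPolynomial J ℂ) (MvPolynomial J ℂ)) = 0 := by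
  apply der_frac_ext; intro r
  rw [exD_alg]; simp

theorem exD_neg (D : Derivation ℂ (MvPolynomial J ℂ) (MvPolynomial J ℂ)) :
    exD (-D) = -exD D := by
  apply der_frac_ext; intro r
  rw [exD_alg, Derivation.neg_apply, Derivation.neg_apply, exD_alg, map_neg]

theorem exD_smul (f : MvPolynomial J ℂ)
    (D : Derivation ℂ (MvPolynomial J ℂ) (MvPolynomial J ℂ)) :
    exD (f • D) = ι0 f • exD D := by
  apply der_frac_ext; intro r
  rw [exD_alg, Derivation.smul_apply, Derivation.smul_apply, exD_alg, smul_eq_mul, smul_eq_mul,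
    map_mul]

theorem exD_sum {κ : Type*} (s : Finset κ)
    (D : κ → Derivation ℂ (MvPolynomial J ℂ) (MvPolynomial J ℂ)) :
    exD (∑ i ∈ s, D i) = ∑ i ∈ s, exD (D i) := by
  classical
  induction s using Finset.induction_on with
  | empty => simpa using exD_zero
  | insert a s ha ih => rw [Finset.sum_insert ha, Finset.sum_insert ha, exD_add, ih]

end exD

/-- index set -/
abbrev J2 := Idx (lev (m := 2))

/-- the phase -/
noncomputable def Φ : KK J2 := ι0 φ1 / ι0 dα + ι0 φ2 / ι0 dδ

/-- the connection form -/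
noncomputable def om (E : Derivation ℂ (KK J2) (KK J2)) : KK J2 :=
  E Φ - 2 * (E (ι0 dα) / ι0 dα) - 2 * (E (ι0 dδ) / ι0 dδ) - 1 / 2 * (E (ι0 lam) / ι0 lam)

theorem om_add (E E' : Derivation ℂ (KK J2) (KK J2)) : om (E + E') = om E + om E' := by
  simp only [om, Derivation.add_apply]; ring

theorem om_smul (f : KK J2) (E : Derivation ℂ (KK J2) (KK J2)) : om (f • E) = f * om E := by
  simp only [om, Derivation.smul_apply, smul_eq_mul]; ring

theorem om_zero : om 0 = 0 := by simp [om]

theorem om_neg (E : Derivation ℂ (KK J2) (KK J2)) : om (-E) = -om E := by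
  simp only [om, Derivation.neg_apply]; ring

theorem om_sum {κ : Type*} (s : Finset κ) (E : κ → Derivation ℂ (KK J2) (KK J2)) :
    om (∑ i ∈ s, E i) = ∑ i ∈ s, om (E i) := by
  classical
  induction s using Finset.induction_on with
  | empty => simpa using om_zero
  | insert a s ha ih => rw [Finset.sum_insert ha, Finset.sum_insert ha, om_add, ih]

theorem lg_comm {E E' : Derivation ℂ (KK J2) (KK J2)} (hE : ∀ f, E (E' f) = E' (E f)) (g : KK J2) :
    E (E' g / g) = E' (E g / g) := by
  by_cases hg : g = 0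
  · subst hg; simp
  rw [Derivation.leibniz_div, Derivation.leibniz_div, hE]
  simp only [smul_eq_mul]
  ring

theorem om_closed {E E' : Derivation ℂ (KK J2) (KK J2)} (hE : ∀ f, E (E' f) = E' (E f)) :
    E (om E') = E' (om E) := by
  have h2 : ∀ D : Derivation ℂ (KK J2) (KK J2), ∀ f, D (2 * f) = 2 * D f := by
    intro D f
    have : D (2 : KK J2) = 0 := by simpa using D.map_natCast 2
    rw [Derivation.leibniz, this]; simp
  have h3 : ∀ D : Derivation ℂ (KK J2) (KK J2), ∀ f, D (1 / 2 * f) = 1 / 2 * D f := by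
    intro D f
    have h := h2 D (1 / 2 * f)
    have e : (2 : KK J2) * (1 / 2 * f) = f := by ring
    rw [e] at h
    rw [h]; ring
  simp only [om, map_sub, h2, h3, hE, lg_comm hE]

/-- The twisting form. -/
noncomputable def ω2 (j : J2) : KK J2 := om (dd j)

theorem ω2_closed (i j : J2) : dd i (ω2 j) = dd j (ω2 i) :=
  om_closed (dd_comm i j)

/-- The twisted module. -/
noncomputable def W0 : WeylModule J2 (KK J2) := twist ω2 ω2_closed

/-- The `D`-module on `V`. -/
noncomputable def WP : WeylModule J2 (KK J2) := W0.unfourier (FTset lev w2)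

/-- Action of a derivation. -/
noncomputable def TD (E : Derivation ℂ (KK J2) (KK J2)) (u : KK J2) : KK J2 := E u + om E * u

noncomputable def pdK (p q : Ix 2) : Derivation ℂ (KK J2) (KK J2) := exD (pd lev p q)

theorem WP_fourier : WP.fourier (FTset lev w2) = W0 := unfourier_fourier _ _

theorem FF_WP (f : RR 2) (u : KK J2) : FF w2 WP f u = ι0 f * u := by
  unfold FF
  rw [WP_fourier]
  exact twist_fn _ _ _ _

theorem ZZ_WP (p q : Ix 2) (u : KK J2) : ZZ w2 WP p q u = TD (pdK p q) u := by
  unfold ZZ
  rw [WP_fourier]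
  unfold dop TD pdK pd
  by_cases h : lev p = lev q + 1
  · rw [dif_pos h, dif_pos h]
    rfl
  · rw [dif_neg h, dif_neg h, exD_zero, om_zero]; simp

theorem TD_add (E E' : Derivation ℂ (KK J2) (KK J2)) (u : KK J2) :
    TD (E + E') u = TD E u + TD E' u := by
  simp only [TD, om_add, Derivation.add_apply]; ring

theorem TD_smul (f : KK J2) (E : Derivation ℂ (KK J2) (KK J2)) (u : KK J2) :
    TD (f • E) u = f * TD E u := by
  simp only [TD, om_smul, Derivation.smul_apply, smul_eq_mul]; ring

theorem TD_neg (E : Derivation ℂ (KK J2) (KK J2)) (u : KK J2) : TD (-E) u = -TD E u := by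
  simp only [TD, om_neg, Derivation.neg_apply]; ring

theorem TD_sum {κ : Type*} (s : Finset κ) (E : κ → Derivation ℂ (KK J2) (KK J2)) (u : KK J2) :
    TD (∑ i ∈ s, E i) u = ∑ i ∈ s, TD (E i) u := by
  classical
  induction s using Finset.induction_on with
  | empty => simp [TD, om_zero]
  | insert a s ha ih => rw [Finset.sum_insert ha, Finset.sum_insert ha, TD_add, ih]

noncomputable def derK (p q : Ix 2) : Derivation ℂ (KK J2) (KK J2) := exD (der lev w2 p q)

theorem vf_WP {p q : Ix 2} (hpq : lev p = lev q) (hw : w2 p = w2 q) (u : KK J2) :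
    vf WP p q u = TD (derK p q) u + (if p = q then ((kap lev w2 p : ℤ) : ℂ) • u else 0) := by
  rw [vf_mixed WP hpq hw, LinearMap.add_apply, LinearMap.sum_apply, derK, der, exD_sum, TD_sum]
  congr 1
  · refine Finset.sum_congr rfl fun r _ => ?_
    rw [exD_add, TD_add, LinearMap.add_apply]
    congr 1
    · split_ifs
      · rw [LinearMap.neg_apply, Module.End.mul_apply, FF_WP, ZZ_WP, exD_neg, exD_smul, TD_neg,
          TD_smul]; rfl
      · rw [Module.End.mul_apply, FF_WP, ZZ_WP, exD_smul, TD_smul]; rfl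
    · split_ifs
      · rw [Module.End.mul_apply, FF_WP, ZZ_WP, exD_smul, TD_smul]; rfl
      · rw [LinearMap.neg_apply, Module.End.mul_apply, FF_WP, ZZ_WP, exD_neg, exD_smul, TD_neg,
          TD_smul]; rfl
  · split_ifs <;> simp

end Pool.Agent.H495
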