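import Pool.Agent.H495.PosVf5

/-! The constant function `1` is semi-invariant: second order directions (mirror). -/

namespace Pool.Agent.H495

open MvPolynomial Ix WeylModule

theorem mp_tr {A B : Type} (M : Matrix A B (RR 2)) (a : A) (b : B) :
    mp M.transpose b a = mp M a b := rfl

theorem mp_kilT {p q : Ix 2} {A B : Type} {M : Matrix A B (RR 2)} (h : Kil (pd lev p q) M)
    (a : A) (b : B) : pdK p q (mp M.transpose b a) = 0 := by rw [mp_tr, mp_kil h]

theorem dt_tr (M : Matrix (Fin 2) (Fin 2) (RR 2)) : dt M.transpose = dt M := by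
  simp only [dt, Matrix.transpose_apply]; ring

theorem V_P4B4 (k l : Fin 2) : vf WP (p4 l) (b4 k) 1 = 0 := by
  have h1 : -vf WP (p4 l) (b4 k) = ∑ j, FF w2 WP (mb j l) * ZZ w2 WP (e5 j) (b4 k) +
      ∑ i, ZZ w2 WP (b4 k) (e3 i) * ZZ w2 WP (p4 l) (e3 i) := by
    rw [vf, sum_ix]
    have hz : ∀ p q : Ix 2, lev p ≠ lev q + 1 → xop WP p q = 0 := fun p q h => xop_zero WP h
    have hz' : ∀ p q : Ix 2, lev p ≠ lev q + 1 → dop WP p q = 0 := fun p q h => dop_zero WP h
    simp only [hz (b4 k) (b _) (by norm_num [lev]), hz (b4 k) (p2 _) (by norm_num [lev]),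
      hz (b4 k) (e1 _) (by norm_num [lev]), hz (b4 k) (p4 _) (by norm_num [lev]),
      hz (b4 k) (b4 _) (by norm_num [lev]), hz (b4 k) (e5 _) (by norm_num [lev]),
      hz' (e1 _) (b4 k) (by norm_num [lev]), hz' (b _) (b4 k) (by norm_num [lev]),
      hz' (p2 _) (b4 k) (by norm_num [lev]), hz' (p4 _) (b4 k) (by norm_num [lev]),
      hz' (b4 _) (b4 k) (by norm_num [lev]), hz' (e3 _) (b4 k) (by norm_num [lev]),
      mul_zero, zero_mul, sub_zero, zero_sub, Finset.sum_const_zero, add_zero, zero_add,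
      Finset.sum_neg_distrib]
    simp only [mb, FF_yv, ZZ_eq, w2]
    norm_num [-Finset.sum_neg_distrib]
    rw [← Finset.sum_neg_distrib]
    exact Finset.sum_congr rfl fun i _ => LinearMap.ext fun _ => rfl
  have KG := fun i => kil_pd (p4 l) (e3 i)
  have KE := fun i => kil_pd (b4 k) (e3 i)
  have KA := fun j => kil_pd (e5 j) (b4 k)
  have hG2 : ∀ i, om (pdK (p4 l) (e3 i)) = _ := fun i => om_of_kil'
    (φ1_kil ((KG i).2.1 (by simp)) ((KG i).1 (by simp))
      ((KG i).2.2.1 (by simp)) ((KG i).2.2.2.1 (by simp)))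
    (dα_kil ((KG i).1 (by simp)))
  have hE2 : ∀ i, om (pdK (b4 k) (e3 i)) = _ := fun i => om_of_kil'
    (φ1_kil ((KE i).2.1 (by simp)) ((KE i).1 (by simp))
      ((KE i).2.2.1 (by simp)) ((KE i).2.2.2.1 (by simp)))
    (dα_kil ((KE i).1 (by simp)))
  have hA2 : ∀ j, om (pdK (e5 j) (b4 k)) = _ := fun i => om_of_kil'
    (φ1_kil ((KA i).2.1 (by simp)) ((KA i).1 (by simp))
      ((KA i).2.2.1 (by simp)) ((KA i).2.2.2.1 (by simp)))
    (dα_kil ((KA i).1 (by simp)))
  have key := second (mp mb.transpose) (mp (mδ 2).transpose) (mp (md 2).transpose)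
    (mp (mγ 2).transpose) (ι0 lam)
    (fun j => pdK (e5 j) (b4 k)) (fun i => pdK (b4 k) (e3 i)) (fun i => pdK (p4 l) (e3 i)) k l
    (by rw [mp_dt, dt_tr]; exact ι0_ne dδ_ne) (ι0_ne lam_ne)
    (fun j x y => mp_kilT ((KA j).2.2.2.2.2.2.2 (by simp)) y x)
    (fun j x y => mp_kilT ((KA j).2.2.2.2.2.1 (by simp)) y x)
    (fun j x y => mp_kilT ((KA j).2.2.2.2.1 (by simp)) y x)
    (fun j => by rw [pdK_alg, lam_e5b4, map_zero])
    (fun j x y => by rw [mp_tr, pdK_mp]; simp only [mδ, pd_yv]; simp [lev, eq_comm, and_comm]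
                     try norm_num
                     exact if_congr and_comm rfl rfl)
    (fun j x y => mp_kilT ((KE j).2.2.2.2.2.2.2 (by simp)) y x)
    (fun j x y => mp_kilT ((KE j).2.2.2.2.2.2.1 (by simp)) y x)
    (fun j x y => mp_kilT ((KE j).2.2.2.2.1 (by simp)) y x)
    (fun j x y => by rw [mp_tr, pdK_mp]; simp only [md, pd_yv]; simp [lev, eq_comm, and_comm]
                     try norm_num)
    (fun j x y => mp_kilT ((KG j).2.2.2.2.2.2.2 (by simp)) y x)
    (fun j x y => mp_kilT ((KG j).2.2.2.2.2.2.1 (by simp)) y x)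
    (fun j x y => mp_kilT ((KG j).2.2.2.2.2.1 (by simp)) y x)
    (fun j x y => by rw [mp_tr, pdK_mp]; simp only [mγ, pd_yv]; simp [lev, eq_comm, and_comm]
                     try norm_num)
    (fun l' => by
      have := congrArg (ι0 (J := J2)) (eu_P4 l' l)
      rw [map_sum] at this
      simp only [map_mul] at this
      simp only [pdK_alg, mp, Matrix.transpose_apply]
      rw [this]
      split_ifs
      · rw [map_mul, map_ofNat]
      · rw [map_zero])
    (fun k' => by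
      have := congrArg (ι0 (J := J2)) (eu_B4 k' k)
      rw [map_sum] at this
      simp only [map_mul] at this
      simp only [pdK_alg, mp, Matrix.transpose_apply]
      rw [this]
      split_ifs
      · rw [map_mul, map_ofNat]
      · rw [map_zero])
    (by
      have := congrArg (ι0 (J := J2)) (star_d k l)
      rw [map_sum, map_zero] at this
      simp only [pdK_alg]
      rw [← this]
      refine Finset.sum_congr rfl fun i _ => ?_
      simp only [map_sub, map_mul, map_ofNat])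
    (fun D => D (trad (mp mb.transpose) (mp (mδ 2).transpose) (mp (md 2).transpose *
      mp (mγ 2).transpose) / dt (mp (mδ 2).transpose)) -
      2 * (D (dt (mp (mδ 2).transpose)) / dt (mp (mδ 2).transpose)) -
      1 / 2 * (D (ι0 lam) / ι0 lam)) (fun D => rfl)
  rw [← mp_mul, mp_trad, mp_dt, dt_tr, ← Matrix.transpose_mul] at key
  change ∑ j, mp mb.transpose l j * (pdK (e5 j) (b4 k) (ι0 φ2 / ι0 dδ) -
    2 * (pdK (e5 j) (b4 k) (ι0 dδ) / ι0 dδ) - 1 / 2 * (pdK (e5 j) (b4 k) (ι0 lam) / ι0 lam)) +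
    ∑ i, (pdK (b4 k) (e3 i) (pdK (p4 l) (e3 i) (ι0 φ2 / ι0 dδ) -
      2 * (pdK (p4 l) (e3 i) (ι0 dδ) / ι0 dδ) - 1 / 2 * (pdK (p4 l) (e3 i) (ι0 lam) / ι0 lam)) +
      (pdK (b4 k) (e3 i) (ι0 φ2 / ι0 dδ) - 2 * (pdK (b4 k) (e3 i) (ι0 dδ) / ι0 dδ) -
        1 / 2 * (pdK (b4 k) (e3 i) (ι0 lam) / ι0 lam)) *
      (pdK (p4 l) (e3 i) (ι0 φ2 / ι0 dδ) - 2 * (pdK (p4 l) (e3 i) (ι0 dδ) / ι0 dδ) -
        1 / 2 * (pdK (p4 l) (e3 i) (ι0 lam) / ι0 lam))) = 0 at key
  simp only [← hA2, ← hG2, ← hE2] at key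
  rw [← neg_eq_zero, ← LinearMap.neg_apply, h1, LinearMap.add_apply, LinearMap.sum_apply,
    LinearMap.sum_apply]
  simp only [Module.End.mul_apply, FF_WP, ZZ_WP, TD_one]
  exact key

end Pool.Agent.H495
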