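import Pool.Agent.H495.Basic

/-! Restriction of a Weyl module to a stable submodule. -/

namespace Pool.Agent.H495

open MvPolynomial

namespace WeylModule

variable {J : Type} [DecidableEq J] {L : Type} [AddCommGroup L] [Module ℂ L]

/-- Restriction to a stable submodule. -/
def restr (W : WeylModule J L) (U : Submodule ℂ L) (hU : W.Stable U) : WeylModule J U where
  x j := (W.x j).restrict (hU.1 j)
  d j := (W.d j).restrict (hU.2 j)
  x_comm i j := by
    refine LinearMap.ext fun u => Subtype.ext ?_
    have := congrArg (fun T => T (u : L)) (W.x_comm i j)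
    simpa using this
  d_comm i j := by
    refine LinearMap.ext fun u => Subtype.ext ?_
    have := congrArg (fun T => T (u : L)) (W.d_comm i j)
    simpa using this
  comm i j := by
    refine LinearMap.ext fun u => Subtype.ext ?_
    have := congrArg (fun T => T (u : L)) (W.comm i j)
    by_cases h : i = j
    · subst h; simpa using this
    · simpa [h] using this

variable (W : WeylModule J L) (U : Submodule ℂ L) (hU : W.Stable U)

theorem restr_x (j : J) (u : U) : ((W.restr U hU).x j u : L) = W.x j u := rfl
theorem restr_d (j : J) (u : U) : ((W.restr U hU).d j u : L) = W.d j u := rfl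

theorem restr_fn (f : MvPolynomial J ℂ) (u : U) : ((W.restr U hU).fn f u : L) = W.fn f u := by
  induction f using MvPolynomial.induction_on generalizing u with
  | C a => rw [fn_C, fn_C]; rfl
  | add p q hp hq =>
    rw [map_add, map_add, LinearMap.add_apply, LinearMap.add_apply, Submodule.coe_add, hp, hq]
  | mul_X p j hp =>
    rw [map_mul, map_mul, Module.End.mul_apply, Module.End.mul_apply, fn_X, fn_X, hp, restr_x]

theorem restr_dop (f : MvPolynomial J ℂ) (u : U) : ((W.restr U hU).dop f u : L) = W.dop f u := by
  induction f using MvPolynomial.induction_on generalizing u with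
  | C a => rw [dop_C, dop_C]; rfl
  | add p q hp hq =>
    rw [map_add, map_add, LinearMap.add_apply, LinearMap.add_apply, Submodule.coe_add, hp, hq]
  | mul_X p j hp =>
    rw [map_mul, map_mul, Module.End.mul_apply, Module.End.mul_apply, dop_X, dop_X, hp, restr_d]

theorem restr_op (P : MvPolynomial J (MvPolynomial J ℂ)) (u : U) :
    ((W.restr U hU).op P u : L) = W.op P u := by
  rw [op, op, LinearMap.sum_apply, LinearMap.sum_apply, Submodule.coe_sum]
  refine Finset.sum_congr rfl fun m _ => ?_
  rw [Module.End.mul_apply, Module.End.mul_apply, restr_fn, restr_dop]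

theorem restr_simple (h0 : U ≠ ⊥) (hmin : ∀ U' ≤ U, W.Stable U' → U' = ⊥ ∨ U' = U) :
    (W.restr U hU).IsSimple := by
  refine ⟨(Submodule.nontrivial_iff_ne_bot).2 h0, fun V hx hd => ?_⟩
  have hst : W.Stable (V.map U.subtype) := by
    constructor
    · rintro j _ ⟨v, hv, rfl⟩
      exact ⟨_, hx j v hv, rfl⟩
    · rintro j _ ⟨v, hv, rfl⟩
      exact ⟨_, hd j v hv, rfl⟩
  rcases hmin (V.map U.subtype) (Submodule.map_subtype_le U V) hst with h | h
  · left
    rw [eq_bot_iff]
    intro v hv
    have hv' : (v : L) ∈ V.map U.subtype := ⟨v, hv, rfl⟩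
    rw [h, Submodule.mem_bot] at hv'
    rw [Submodule.mem_bot]
    exact Subtype.ext hv'
  · right
    rw [eq_top_iff]
    intro u _
    have hu : (u : L) ∈ V.map U.subtype := by rw [h]; exact u.2
    obtain ⟨v, hv, hvu⟩ := hu
    have : v = u := Subtype.ext hvu
    exact this ▸ hv

end WeylModule

section coe

variable {L : Type} [AddCommGroup L] [Module ℂ L] {U : Submodule ℂ L} {T' : Module.End ℂ U}
  {T : Module.End ℂ L} (h : ∀ u : U, (T' u : L) = T u)

include h

theorem coe_pow (k : ℕ) (u : U) : ((T' ^ k) u : L) = (T ^ k) u := by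
  induction k generalizing u with
  | zero => rfl
  | succ k ih => rw [pow_succ, pow_succ, Module.End.mul_apply, Module.End.mul_apply, ih, h]

theorem coe_aeval (P : Polynomial ℂ) (u : U) :
    ((Polynomial.aeval T' P) u : L) = (Polynomial.aeval T P) u := by
  induction P using Polynomial.induction_on' with
  | add p q hp hq =>
    rw [map_add, map_add, LinearMap.add_apply, LinearMap.add_apply, Submodule.coe_add, hp, hq]
  | monomial n a =>
    rw [Polynomial.aeval_monomial, Polynomial.aeval_monomial, Module.End.mul_apply,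
      Module.End.mul_apply, Module.algebraMap_end_apply, Module.algebraMap_end_apply,
      Submodule.coe_smul, coe_pow h]

end coe

section vf

variable {ι : Type} [Fintype ι] [DecidableEq ι] {e : ι → ℚ} {L : Type} [AddCommGroup L]
  [Module ℂ L] (W : WeylModule (Idx e) L) (U : Submodule ℂ L) (hU : W.Stable U)

omit [Fintype ι] in
theorem restr_xop (p q : ι) (u : U) : (xop (W.restr U hU) p q u : L) = xop W p q u := by
  unfold xop
  by_cases h : e p = e q + 1
  · rw [dif_pos h, dif_pos h]; rfl
  · rw [dif_neg h, dif_neg h]; rfl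

omit [Fintype ι] in
theorem restr_dop' (p q : ι) (u : U) : (dop (W.restr U hU) p q u : L) = dop W p q u := by
  unfold dop
  by_cases h : e p = e q + 1
  · rw [dif_pos h, dif_pos h]; rfl
  · rw [dif_neg h, dif_neg h]; rfl

theorem restr_vf (p q : ι) (u : U) : (vf (W.restr U hU) p q u : L) = vf W p q u := by
  rw [vf, vf, LinearMap.sum_apply, LinearMap.sum_apply, Submodule.coe_sum]
  refine Finset.sum_congr rfl fun r _ => ?_
  rw [LinearMap.sub_apply, LinearMap.sub_apply, Submodule.coe_sub, Module.End.mul_apply,
    Module.End.mul_apply, Module.End.mul_apply, Module.End.mul_apply, restr_xop, restr_xop,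
    restr_dop', restr_dop']

theorem restr_equivariant
    (h : ∀ u ∈ U, (∀ p q, e p = e q → p ≠ q → ∃ k : ℕ, ((vf W p q) ^ k) u = 0) ∧
      (∀ p, ∃ s : Finset ℤ,
        Polynomial.aeval (vf W p p) (∏ j ∈ s, (Polynomial.X - Polynomial.C (j : ℂ))) u = 0)) :
    IsEquivariant (W.restr U hU) := by
  constructor
  · intro p q hpq hne u
    obtain ⟨k, hk⟩ := (h u u.2).1 p q hpq hne
    refine ⟨k, Subtype.ext ?_⟩
    rw [coe_pow (restr_vf W U hU p q), hk]; rfl
  · intro p u
    obtain ⟨s, hs⟩ := (h u u.2).2 p
    refine ⟨s, Subtype.ext ?_⟩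
    rw [coe_aeval (restr_vf W U hU p p), hs]; rfl

end vf

end Pool.Agent.H495
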