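import Pool.Agent.H495.Transport2

/-!
# Subtask S1 of helper495 (MP_fe6ac3_nt): graded Jordan form (helper333)

Induction on the number of indices: remove an index `q0` of maximal degree. A graded cyclic
decomposition is a finite family of homogeneous vectors `u c` with `x ^ len c (u c) = 0`,
`∑ len c = dim` and such that the `x ^ i (u c)`, `i < len c`, span.
-/

set_option autoImplicit false
set_option linter.unusedSectionVars false
set_option linter.style.haveILetI false

namespace Pool.Agent.H495.S1

open Matrix Pool.Agent.H495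

variable {ι : Type} [Fintype ι] [DecidableEq ι]

/-- homogeneous of degree `a` -/
def Hom (e : ι → ℚ) (a : ℚ) (v : ι → ℂ) : Prop := ∀ p, e p ≠ a → v p = 0

/-- the operator -/
noncomputable abbrev op (x : Matrix ι ι ℂ) : (ι → ℂ) →ₗ[ℂ] (ι → ℂ) := Matrix.mulVecLin x

theorem op_apply (x : Matrix ι ι ℂ) (v : ι → ℂ) (p : ι) : op x v p = ∑ s, x p s * v s := by
  simp [op, Matrix.mulVec, dotProduct]

theorem hom_op {e : ι → ℚ} {x : Matrix ι ι ℂ} (hx : x ∈ Vogan e) {a : ℚ} {v : ι → ℂ}
    (hv : Hom e a v) : Hom e (a + 1) (op x v) := by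
  intro p hp
  rw [op_apply]
  refine Finset.sum_eq_zero fun s _ => ?_
  by_cases hs : e s = a
  · rw [hx p s (by rw [hs]; exact hp), zero_mul]
  · rw [hv s hs, mul_zero]

theorem hom_pow {e : ι → ℚ} {x : Matrix ι ι ℂ} (hx : x ∈ Vogan e) {a : ℚ} {v : ι → ℂ}
    (hv : Hom e a v) (i : ℕ) : Hom e (a + i) ((op x ^ i) v) := by
  induction i with
  | zero => simpa using hv
  | succ i ih =>
    rw [pow_succ', Module.End.mul_apply]
    have := hom_op hx ih
    push_cast
    rw [← add_assoc]
    exact this

theorem hom_sub {e : ι → ℚ} {a : ℚ} {v w : ι → ℂ} (hv : Hom e a v) (hw : Hom e a w) :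
    Hom e a (v - w) := fun p hp => by rw [Pi.sub_apply, hv p hp, hw p hp, sub_zero]

theorem hom_smul {e : ι → ℚ} {a : ℚ} {v : ι → ℂ} (c : ℂ) (hv : Hom e a v) :
    Hom e a (c • v) := fun p hp => by rw [Pi.smul_apply, hv p hp, smul_zero]

/-- a graded cyclic decomposition -/
structure Dec (e : ι → ℚ) (x : Matrix ι ι ℂ) (m : ℕ) (u : Fin m → ι → ℂ) (d : Fin m → ℚ)
    (len : Fin m → ℕ) : Prop where
  hom : ∀ c, Hom e (d c) (u c)
  nil : ∀ c, (op x ^ len c) (u c) = 0
  sum : ∑ c, len c = Fintype.card ι
  top : Submodule.span ℂ {v | ∃ c i, i < len c ∧ v = (op x ^ i) (u c)} = ⊤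

section step

variable (q0 : ι)

/-- restriction -/
def res : (ι → ℂ) →ₗ[ℂ] ({p // p ≠ q0} → ℂ) where
  toFun v := fun p => v p.1
  map_add' _ _ := rfl
  map_smul' _ _ := rfl

/-- extension by zero -/
def ext0 (v : {p // p ≠ q0} → ℂ) : ι → ℂ := fun p => if h : p ≠ q0 then v ⟨p, h⟩ else 0

theorem res_ext0 (v : {p // p ≠ q0} → ℂ) : res q0 (ext0 q0 v) = v := by
  funext p
  change (if h : p.1 ≠ q0 then v ⟨p.1, h⟩ else 0) = v p
  rw [dif_pos p.2]

theorem res_op {x : Matrix ι ι ℂ} (hcol : ∀ p, x p q0 = 0) (v : ι → ℂ) :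
    res q0 (op x v) = op (x.submatrix Subtype.val Subtype.val) (res q0 v) := by
  funext p
  change op x v p.1 = _
  rw [op_apply, op_apply, ← Fintype.sum_subtype_add_sum_subtype (fun s => s ≠ q0)]
  rw [show ∑ i : {s // ¬ s ≠ q0}, x p.1 i.1 * v i.1 = 0 from Finset.sum_eq_zero fun i _ => by
    rw [not_not.1 i.2, hcol, zero_mul], add_zero]
  rfl

theorem res_pow {x : Matrix ι ι ℂ} (hcol : ∀ p, x p q0 = 0) (i : ℕ) (v : ι → ℂ) :
    res q0 ((op x ^ i) v) = (op (x.submatrix Subtype.val Subtype.val) ^ i) (res q0 v) := by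
  induction i with
  | zero => rfl
  | succ i ih => rw [pow_succ', pow_succ', Module.End.mul_apply, Module.End.mul_apply, ← ih,
      res_op q0 hcol]

theorem ker_res (v : ι → ℂ) (h : res q0 v = 0) : v = v q0 • Pi.single q0 (1 : ℂ) := by
  funext p
  rw [Pi.smul_apply, smul_eq_mul]
  by_cases hp : p = q0
  · subst hp; rw [Pi.single_eq_same, mul_one]
  · rw [Pi.single_eq_of_ne hp, mul_zero]
    exact congrFun h ⟨p, hp⟩

theorem hom_ext0 {e : ι → ℚ} {a : ℚ} {v : {p // p ≠ q0} → ℂ}
    (hv : Hom (fun p : {p // p ≠ q0} => e p.1) a v) : Hom e a (ext0 q0 v) := by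
  intro p hp
  unfold ext0
  split_ifs with h
  · exact hv ⟨p, h⟩ hp
  · rfl

theorem hom_single {e : ι → ℚ} : Hom e (e q0) (Pi.single q0 (1 : ℂ)) := by
  intro p hp
  exact Pi.single_eq_of_ne (fun h => hp (by rw [h])) _

theorem op_single {x : Matrix ι ι ℂ} (hcol : ∀ p, x p q0 = 0) :
    op x (Pi.single q0 (1 : ℂ)) = 0 := by
  funext p
  rw [op_apply]
  refine Finset.sum_eq_zero fun s _ => ?_
  by_cases hs : s = q0
  · rw [hs, hcol, zero_mul]
  · rw [Pi.single_eq_of_ne hs, mul_zero]

/-- a submodule containing `e_{q0}` whose restriction is everything is everything -/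
theorem top_of_res {S : Submodule ℂ (ι → ℂ)} (h1 : Pi.single q0 (1 : ℂ) ∈ S)
    (h2 : ∀ w, ∃ v ∈ S, res q0 v = w) : S = ⊤ := by
  rw [eq_top_iff]
  intro v _
  obtain ⟨w, hw, hr⟩ := h2 (res q0 v)
  have h3 : res q0 (v - w) = 0 := by rw [map_sub, hr, sub_self]
  have h4 := ker_res q0 _ h3
  have h5 : v = (v - w) q0 • Pi.single q0 (1 : ℂ) + w := by rw [← h4]; abel
  rw [h5]
  exact S.add_mem (S.smul_mem _ h1) hw

end step

theorem exists_dec : ∀ (n : ℕ) (ι : Type) [Fintype ι] [DecidableEq ι] (e : ι → ℚ)
    (x : Matrix ι ι ℂ), Fintype.card ι = n → x ∈ Vogan e →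
    ∃ (m : ℕ) (u : Fin m → ι → ℂ) (d : Fin m → ℚ) (len : Fin m → ℕ), Dec e x m u d len := by
  intro n
  induction n with
  | zero =>
    intro ι _ _ e x hn hx
    haveI : IsEmpty ι := Fintype.card_eq_zero_iff.1 hn
    exact ⟨0, Fin.elim0, Fin.elim0, Fin.elim0, fun c => c.elim0, fun c => c.elim0,
      by rw [hn]; rfl, Subsingleton.elim _ _⟩
  | succ n ih =>
    intro ι _ _ e x hn hx
    haveI : Nonempty ι := Fintype.card_pos_iff.1 (by omega)
    obtain ⟨q0, -, hq0⟩ := Finset.exists_max_image Finset.univ e Finset.univ_nonempty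
    have hcol : ∀ p, x p q0 = 0 := by
      intro p
      apply hx
      have := hq0 p (Finset.mem_univ _)
      intro h
      linarith
    have hcard : Fintype.card {p // p ≠ q0} = n := by
      have := Fintype.card_subtype_compl (fun p : ι => p = q0)
      rw [Fintype.card_subtype_eq] at this
      have h2 : Fintype.card {p // p ≠ q0} = Fintype.card {p // ¬ p = q0} := rfl
      rw [h2, this]; omega
    obtain ⟨m, u', d, len, hD⟩ := ih {p // p ≠ q0} (fun p => e p.1)
      (x.submatrix Subtype.val Subtype.val) hcard (fun p q h => hx p.1 q.1 h)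
    set u : Fin m → ι → ℂ := fun c => ext0 q0 (u' c) with hu
    have hres : ∀ c i, res q0 ((op x ^ i) (u c)) =
        (op (x.submatrix Subtype.val Subtype.val) ^ i) (u' c) := by
      intro c i
      rw [res_pow q0 hcol, hu, res_ext0]
    have huh : ∀ c, Hom e (d c) (u c) := fun c => hom_ext0 q0 (hD.hom c)
    set r : Fin m → ℂ := fun c => ((op x ^ len c) (u c)) q0 with hr
    have hru : ∀ c, (op x ^ len c) (u c) = r c • Pi.single q0 (1 : ℂ) := by
      intro c
      exact ker_res q0 _ (by rw [hres, hD.nil])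
    have hrd : ∀ c, r c ≠ 0 → e q0 = d c + len c := by
      intro c hc
      by_contra h
      exact hc (hom_pow hx (huh c) (len c) q0 h)
    -- the restrictions of the `x ^ i (u c)` span
    have hspan : ∀ S : Submodule ℂ (ι → ℂ), (∀ c i, i < len c → (op x ^ i) (u c) ∈ S) →
        Pi.single q0 (1 : ℂ) ∈ S → S = ⊤ := by
      intro S hS h1
      refine top_of_res q0 h1 fun w => ?_
      have hw : w ∈ Submodule.span ℂ {v | ∃ c i, i < len c ∧
          v = (op (x.submatrix Subtype.val Subtype.val) ^ i) (u' c)} := by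
        rw [hD.top]; trivial
      induction hw using Submodule.span_induction with
      | mem w hw =>
        obtain ⟨c, i, hi, rfl⟩ := hw
        exact ⟨_, hS c i hi, hres c i⟩
      | zero => exact ⟨0, S.zero_mem, map_zero _⟩
      | add a b _ _ ha hb =>
        obtain ⟨v, hv, rfl⟩ := ha
        obtain ⟨v', hv', rfl⟩ := hb
        exact ⟨v + v', S.add_mem hv hv', map_add _ _ _⟩
      | smul c a _ ha =>
        obtain ⟨v, hv, rfl⟩ := ha
        exact ⟨c • v, S.smul_mem _ hv, map_smul _ _ _⟩
    by_cases hr0 : ∀ c, r c = 0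
    · refine ⟨m + 1, Fin.snoc u (Pi.single q0 (1 : ℂ)), Fin.snoc d (e q0), Fin.snoc len 1, ?_, ?_,
        ?_, ?_⟩
      · intro c
        refine Fin.lastCases ?_ (fun c => ?_) c
        · simp only [Fin.snoc_last]; exact hom_single q0
        · simp only [Fin.snoc_castSucc]; exact huh c
      · intro c
        refine Fin.lastCases ?_ (fun c => ?_) c
        · simp only [Fin.snoc_last, pow_one]; exact op_single q0 hcol
        · simp only [Fin.snoc_castSucc]; rw [hru, hr0, zero_smul]
      · rw [Fin.sum_univ_castSucc]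
        simp only [Fin.snoc_last, Fin.snoc_castSucc]
        rw [hD.sum, hcard, hn]
      · apply hspan
        · intro c i hi
          refine Submodule.subset_span ⟨c.castSucc, i, ?_, ?_⟩
          · simp only [Fin.snoc_castSucc]; exact hi
          · simp only [Fin.snoc_castSucc]
        · refine Submodule.subset_span ⟨Fin.last m, 0, ?_, ?_⟩
          · simp only [Fin.snoc_last]; exact Nat.one_pos
          · simp only [Fin.snoc_last, pow_zero]; rfl
    · push Not at hr0
      obtain ⟨c1, hc1⟩ := hr0
      obtain ⟨c0, hc0m, hc0⟩ := Finset.exists_max_image (Finset.univ.filter fun c => r c ≠ 0) len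
        ⟨c1, by simp [hc1]⟩
      have hc0r : r c0 ≠ 0 := (Finset.mem_filter.1 hc0m).2
      have hlen : ∀ c, r c ≠ 0 → len c ≤ len c0 := fun c hc => hc0 c (by simp [hc])
      set u2 : Fin m → ι → ℂ := fun c => if c = c0 then u c0 else
        u c - (r c / r c0) • (op x ^ (len c0 - len c)) (u c0) with hu2
      have hu20 : u2 c0 = u c0 := by rw [hu2]; simp
      have hu2n : ∀ c, c ≠ c0 → u2 c = u c - (r c / r c0) • (op x ^ (len c0 - len c)) (u c0) := by
        intro c hc; rw [hu2]; simp [hc]
      have hE : (op x ^ len c0) (u c0) = r c0 • Pi.single q0 (1 : ℂ) := hru c0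
      refine ⟨m, u2, d, fun c => len c + if c = c0 then 1 else 0, ?_, ?_, ?_, ?_⟩
      · intro c
        by_cases hc : c = c0
        · rw [hc, hu20]; exact huh c0
        · rw [hu2n c hc]
          by_cases hrc : r c = 0
          · rw [hrc, zero_div, zero_smul, sub_zero]; exact huh c
          · refine hom_sub (huh c) (hom_smul _ ?_)
            have h1 := hom_pow hx (huh c0) (len c0 - len c)
            have h2 := hrd c hrc
            have h3 := hrd c0 hc0r
            have h4 := hlen c hrc
            have h5 : d c0 + ((len c0 - len c : ℕ) : ℚ) = d c := by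
              push_cast [Nat.cast_sub h4]
              linarith
            rw [h5] at h1
            exact h1
      · intro c
        by_cases hc : c = c0
        · simp only [hc, if_true, hu20]
          rw [pow_succ', Module.End.mul_apply, hE, map_smul, op_single q0 hcol, smul_zero]
        · simp only [hc, if_false, add_zero]
          rw [hu2n c hc, map_sub, map_smul]
          by_cases hrc : r c = 0
          · rw [hru, hrc, zero_div, zero_smul, zero_smul, sub_zero]
          · have h4 := hlen c hrc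
            rw [← Module.End.mul_apply, ← pow_add, show len c + (len c0 - len c) = len c0 by omega,
              hE, hru, smul_smul, div_mul_cancel₀ _ hc0r, sub_self]
      · rw [Finset.sum_add_distrib, hD.sum, hcard, hn, Finset.sum_ite_eq' Finset.univ c0]
        simp
      · set S := Submodule.span ℂ {v | ∃ c i, (i < len c + if c = c0 then 1 else 0) ∧
          v = (op x ^ i) (u2 c)} with hS
        have hS0 : ∀ i, i ≤ len c0 → (op x ^ i) (u c0) ∈ S := by
          intro i hi
          refine Submodule.subset_span ⟨c0, i, ?_, by rw [hu20]⟩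
          rw [if_pos rfl]; omega
        have hS1 : Pi.single q0 (1 : ℂ) ∈ S := by
          have := S.smul_mem (r c0)⁻¹ (hS0 (len c0) le_rfl)
          rwa [hE, smul_smul, inv_mul_cancel₀ hc0r, one_smul] at this
        refine hspan S (fun c i hi => ?_) hS1
        by_cases hc : c = c0
        · subst hc; exact hS0 i hi.le
        · by_cases hrc : r c = 0
          · refine Submodule.subset_span ⟨c, i, by omega, ?_⟩
            rw [hu2n c hc, hrc, zero_div, zero_smul, sub_zero]
          · have h4 := hlen c hrc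
            have h1 : (op x ^ i) (u c) = (op x ^ i) (u2 c) +
                (r c / r c0) • (op x ^ (i + (len c0 - len c))) (u c0) := by
              rw [hu2n c hc, map_sub, map_smul, ← Module.End.mul_apply, ← pow_add]
              abel
            rw [h1]
            refine S.add_mem (Submodule.subset_span ⟨c, i, by omega, rfl⟩) (S.smul_mem _ ?_)
            exact hS0 _ (by omega)

section final

variable {e : ι → ℚ} {x : Matrix ι ι ℂ} {m : ℕ} {u : Fin m → ι → ℂ} {d : Fin m → ℚ}
  {len : Fin m → ℕ}

/-- the family of vectors -/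
noncomputable def fam (x : Matrix ι ι ℂ) (u : Fin m → ι → ℂ) (len : Fin m → ℕ) :
    (Σ c : Fin m, Fin (len c)) → ι → ℂ := fun j => (op x ^ (j.2 : ℕ)) (u j.1)

/-- the degrees -/
def dg (d : Fin m → ℚ) (len : Fin m → ℕ) : (Σ c : Fin m, Fin (len c)) → ℚ :=
  fun j => d j.1 + ((j.2 : ℕ) : ℚ)

theorem fam_hom (hx : x ∈ Vogan e) (hD : Dec e x m u d len) (j : Σ c : Fin m, Fin (len c)) :
    Hom e (dg d len j) (fam x u len j) := hom_pow hx (hD.hom j.1) _

theorem card_J (hD : Dec e x m u d len) :
    Fintype.card (Σ c : Fin m, Fin (len c)) = Fintype.card ι := by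
  rw [Fintype.card_sigma, ← hD.sum]
  exact Finset.sum_congr rfl fun c _ => Fintype.card_fin _

theorem fam_li (hD : Dec e x m u d len) : LinearIndependent ℂ (fam x u len) := by
  refine linearIndependent_of_top_le_span_of_card_eq_finrank ?_ ?_
  · rw [← hD.top]
    refine Submodule.span_mono ?_
    rintro _ ⟨c, i, hi, rfl⟩
    exact ⟨⟨c, ⟨i, hi⟩⟩, rfl⟩
  · rw [card_J hD, Module.finrank_fintype_fun_eq_card]

theorem fiber_le (hx : x ∈ Vogan e) (hD : Dec e x m u d len) (a : ℚ) :
    Fintype.card {j // dg d len j = a} ≤ Fintype.card {p // e p = a} := by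
  classical
  set L : (ι → ℂ) →ₗ[ℂ] ({p // e p = a} → ℂ) :=
    { toFun := fun v p => v p.1, map_add' := fun _ _ => rfl, map_smul' := fun _ _ => rfl } with hL
  have h1 : LinearIndependent ℂ (fun j : {j // dg d len j = a} => fam x u len j.1) :=
    (fam_li hD).comp _ Subtype.val_injective
  have h2 : LinearIndependent ℂ (L ∘ fun j : {j // dg d len j = a} => fam x u len j.1) := by
    refine h1.map ?_
    rw [Submodule.disjoint_def]
    intro v hv hk
    have hhom : Hom e a v := by
      clear hk
      induction hv using Submodule.span_induction with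
      | mem w hw =>
        obtain ⟨j, rfl⟩ := hw
        have := fam_hom hx hD j.1
        rw [j.2] at this
        exact this
      | zero => intro p _; rfl
      | add v w _ _ hv hw =>
        intro p hp
        rw [Pi.add_apply, hv p hp, hw p hp, add_zero]
      | smul c v _ hv =>
        intro p hp
        rw [Pi.smul_apply, hv p hp, smul_zero]
    funext p
    by_cases hp : e p = a
    · exact congrFun (LinearMap.mem_ker.1 hk) ⟨p, hp⟩
    · exact hhom p hp
  have := h2.fintype_card_le_finrank
  rwa [Module.finrank_fintype_fun_eq_card] at this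

theorem fiber_eq (hx : x ∈ Vogan e) (hD : Dec e x m u d len) (a : ℚ) :
    Fintype.card {p // e p = a} = Fintype.card {j // dg d len j = a} := by
  classical
  set T : Finset ℚ := Finset.univ.image e ∪ Finset.univ.image (dg d len) with hT
  have e1 : ∑ a ∈ T, (Finset.univ.filter fun p => e p = a).card = Fintype.card ι := by
    rw [← Finset.card_eq_sum_card_fiberwise (s := (Finset.univ : Finset ι)) (f := e) (t := T)]
    · exact Finset.card_univ
    · intro p _; rw [hT]; simp
  have e2 : ∑ a ∈ T, (Finset.univ.filter fun j => dg d len j = a).card =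
      Fintype.card (Σ c : Fin m, Fin (len c)) := by
    rw [← Finset.card_eq_sum_card_fiberwise
      (s := (Finset.univ : Finset (Σ c : Fin m, Fin (len c)))) (f := dg d len) (t := T)]
    · exact Finset.card_univ
    · intro p _
      rw [hT, Finset.coe_union]
      right
      simp
  have hle : ∀ a ∈ T, (Finset.univ.filter fun j => dg d len j = a).card ≤
      (Finset.univ.filter fun p => e p = a).card := by
    intro a _
    have := fiber_le hx hD a
    rwa [Fintype.card_subtype, Fintype.card_subtype] at this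
  have heq := (Finset.sum_eq_sum_iff_of_le hle).1 (by rw [e1, e2, card_J hD])
  rw [Fintype.card_subtype, Fintype.card_subtype]
  by_cases ha : a ∈ T
  · exact (heq a ha).symm
  · have f1 : (Finset.univ.filter fun p => e p = a) = ∅ :=
      Finset.filter_eq_empty_iff.2 fun p _ hp => ha (by rw [hT, ← hp]; simp)
    have f2 : (Finset.univ.filter fun j => dg d len j = a) = ∅ :=
      Finset.filter_eq_empty_iff.2 fun j _ hj => ha (by rw [hT, ← hj]; simp)
    rw [f1, f2, Finset.card_empty, Finset.card_empty]

end final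

/-- Every point of the Vogan variety is conjugate under `H_e` to a `0/1` matrix. -/
theorem graded_jordan {ι : Type} [Fintype ι] [DecidableEq ι] (e : ι → ℚ) (x : Matrix ι ι ℂ)
    (hx : x ∈ Vogan e) :
    ∃ h ∈ HGroup e, ∀ p q, (h * x * h⁻¹) p q = 0 ∨ (h * x * h⁻¹) p q = 1 := by
  classical
  obtain ⟨m, u, d, len, hD⟩ := exists_dec _ ι e x rfl hx
  set φ : ι ≃ (Σ c : Fin m, Fin (len c)) := Equiv.ofFiberEquiv (f := e) (g := dg d len)
    (fun a => Fintype.equivOfCardEq (fiber_eq hx hD a)) with hφ
  have hφe : ∀ p, dg d len (φ p) = e p := fun p => Equiv.ofFiberEquiv_map _ p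
  set g : Matrix ι ι ℂ := Matrix.of fun p q => fam x u len (φ q) p with hg
  have hgu : IsUnit g := by
    rw [← Matrix.linearIndependent_cols_iff_isUnit]
    exact (fam_li hD).comp φ φ.injective
  have hgd : IsUnit g.det := (Matrix.isUnit_iff_isUnit_det g).1 hgu
  have hgb : ∀ p q, e p ≠ e q → g p q = 0 := by
    intro p q hpq
    have := fam_hom hx hD (φ q)
    rw [hφe] at this
    exact this p hpq
  set N : Matrix ι ι ℂ := Matrix.of fun p q =>
    if (φ q).1 = (φ p).1 ∧ ((φ q).2 : ℕ) + 1 = ((φ p).2 : ℕ) then 1 else 0 with hN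
  have hcomm : x * g = g * N := by
    ext s q
    obtain ⟨⟨c, i⟩, hj⟩ : ∃ j, φ q = j := ⟨_, rfl⟩
    have e1 : (x * g) s q = ((op x ^ ((i : ℕ) + 1)) (u c)) s := by
      rw [Matrix.mul_apply, pow_succ', Module.End.mul_apply, op_apply]
      refine Finset.sum_congr rfl fun t _ => ?_
      rw [hg, Matrix.of_apply, hj]
      rfl
    have e2 : (g * N) s q = ∑ j : (Σ c : Fin m, Fin (len c)), fam x u len j s *
        (if c = j.1 ∧ (i : ℕ) + 1 = (j.2 : ℕ) then 1 else 0) := by
      rw [Matrix.mul_apply, ← Equiv.sum_comp φ]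
      refine Finset.sum_congr rfl fun t _ => ?_
      rw [hg, hN, Matrix.of_apply, Matrix.of_apply, hj]
    rw [e1, e2]
    by_cases hi : (i : ℕ) + 1 < len c
    · rw [Finset.sum_eq_single (⟨c, ⟨(i : ℕ) + 1, hi⟩⟩ : Σ c : Fin m, Fin (len c))]
      · simp [fam]
      · rintro ⟨c', i'⟩ _ hne
        rw [if_neg, mul_zero]
        rintro ⟨h1, h2⟩
        simp only at h1 h2
        subst h1
        exact hne (by congr 1; exact Fin.ext h2.symm)
      · intro h; exact absurd (Finset.mem_univ _) h
    · have hi' : (i : ℕ) + 1 = len c := by have := i.2; omega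
      rw [hi', hD.nil, Finset.sum_eq_zero]
      · rfl
      · rintro ⟨c', i'⟩ _
        rw [if_neg, mul_zero]
        rintro ⟨h1, h2⟩
        simp only at h1 h2
        subst h1
        have := i'.2
        omega
  have hfin : g⁻¹ * x * (g⁻¹)⁻¹ = N := by
    rw [Matrix.nonsing_inv_nonsing_inv _ hgd, Matrix.mul_assoc, hcomm, ← Matrix.mul_assoc,
      Matrix.nonsing_inv_mul _ hgd, Matrix.one_mul]
  refine ⟨g⁻¹, ⟨?_, fun p q hpq => hgroup_inv hgu hgb p q hpq⟩, fun p q => ?_⟩
  · exact (Matrix.isUnit_nonsing_inv_iff).2 hgu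
  · rw [hfin, hN, Matrix.of_apply]
    split_ifs
    · exact Or.inr rfl
    · exact Or.inl rfl

end Pool.Agent.H495.S1
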