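import Pool.Agent.H495.Twist

/-! Values of rational functions at a point. -/

namespace Pool.Agent.H495

open MvPolynomial

/-- The rational function `f` is regular at `pt` with value `z`. -/
def Reg {J : Type} (pt : J → ℂ) (f : KK J) (z : ℂ) : Prop :=
  ∃ P Q : MvPolynomial J ℂ, eval pt Q ≠ 0 ∧ f * ι0 Q = ι0 P ∧ z * eval pt Q = eval pt P

end Pool.Agent.H495
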