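import Pool.Agent.H495.S4
import Pool.Agent.H495.Reg

/-!
SUBTASK S10 (helper495, MP_fe6ac3_nt): points of the characteristic variety of a twisted module.

Read Pool/Agent/H495/S4.lean (theorem `symbol_vanish` and the notion `Asy S l f g`: `g` is homogeneous
of degree `l` for the Euler derivation `exD (eul S)` of `KK J` and `f - g` is a sum of homogeneous
elements of degree < l) and Reg.lean (`Reg pt f z`: f is regular at pt with value z).

PROOF.
(1) `symbol_asy`: copy the proof of `symbol_vanish`, with `hu0 : Asy S k u g` (g ≠ 0) instead of the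
    eigenvector u; the conclusion is the same.
(2) `exists_asy`: write P0 = sum of its components for the weight w j = if S j then 1 else 0
    (`weightedHomogeneousComponent w n P0`, `sum_weightedHomogeneousComponent`), the component of
    weight n satisfies eul S f = n f (Euler; check on monomials: eul S (monomial m a) =
    (∑_{j ∈ S} m j) • monomial m a, e.g. by induction or via `eul_X` and Leibniz), Δ^m has degree c*m, so
    u = ∑_n (P0)_n / Δ^m with (P0)_n/Δ^m ∈ Hs S (n - c m); take the top nonzero component.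
    (`Hs`, `Lo` in S4.lean; Hs_mul etc.)
(3) `spec`: `Reg pt` is compatible with +, *, constants (algebraMap ℂ), and Reg pt f z, Reg pt f z' imply
    z = z' (cross multiply; ι0 is injective). So by induction on polynomials,
    Reg pt (eval₂Hom (eval₂Hom (algebraMap ℂ _) Xt) Ξt R) (eval ξ (map (eval x0) R)), and Reg pt 0 z → z = 0.
-/

namespace Pool.Agent.H495.S10

open MvPolynomial S4

theorem symbol_asy {J : Type} [Fintype J] [DecidableEq J] (S : J → Prop) [DecidablePred S]
    (ω θ : J → KK J) (hω : ∀ i j, dd i (ω j) = dd j (ω i))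
    (hθ1 : ∀ j, ¬ S j → exD (eul S) (θ j) = θ j)
    (hl1 : ∀ j, ¬ S j → exD (eul S) (ω j - θ j) = 0)
    (hθ0 : ∀ j, S j → exD (eul S) (θ j) = 0)
    (hl0 : ∀ j, S j → exD (eul S) (ω j - θ j) = -(ω j - θ j))
    (u g : KK J) (hg : g ≠ 0) (k : ℤ) (hu : Asy S k u g) (m : ℕ)
    (P : MvPolynomial J (MvPolynomial J ℂ)) (hP : P.totalDegree ≤ m)
    (h0 : ((twist ω hω).unfourier S).op P u = 0) :
    eval₂Hom (eval₂Hom (algebraMap ℂ (KK J)) (fun j => if S j then -θ j else ι0 (X j)))
      (fun j => if S j then ι0 (X j) else θ j) (homogeneousComponent m P) = 0 := by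
  set Xt : J → KK J := fun j => if S j then -θ j else ι0 (X j) with hXt
  set Ξt : J → KK J := fun j => if S j then ι0 (X j) else θ j with hΞt
  set W := (twist ω hω).unfourier S with hW
  have hx : ∀ (l : ℤ) (f g : KK J), Asy S l f g → ∀ j, Asy S l (W.x j f) (Xt j * g) :=
    fun l f g h j => step_x hθ1 hl1 hθ0 hl0 h j
  have hd : ∀ (l : ℤ) (f g : KK J), Asy S l f g → ∀ j, Asy S (l + 1) (W.d j f) (Ξt j * g) :=
    fun l f g h j => step_dd hθ1 hl1 hθ0 hl0 h j
  have key : ∀ μ : J →₀ ℕ, Asy S (k + μ.degree) (W.fn (P.coeff μ) (W.dop (monomial μ 1) u))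
      (eval₂Hom (eval₂Hom (algebraMap ℂ (KK J)) Xt) Ξt (monomial μ (P.coeff μ)) * g) := by
    intro μ
    rw [eval₂Hom_monomial, mul_assoc]
    exact step_fn hx _ _ _ _ (step_dop hd μ _ _ _ hu)
  have hsum : Asy S (k + m) (W.op P u) (eval₂Hom (eval₂Hom (algebraMap ℂ (KK J)) Xt) Ξt
      (homogeneousComponent m P) * g) := by
    rw [homogeneousComponent_apply, map_sum, Finset.sum_mul, Finset.sum_filter, WeylModule.op,
      LinearMap.sum_apply]
    have h1 : ∀ s ⊆ P.support, Asy S (k + m)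
        (∑ μ ∈ s, (W.fn (P.coeff μ) * W.dop (monomial μ 1)) u)
        (∑ μ ∈ s, if μ.degree = m then eval₂Hom (eval₂Hom (algebraMap ℂ (KK J)) Xt) Ξt
          (monomial μ (P.coeff μ)) * g else 0) := by
      intro s
      induction s using Finset.induction_on with
      | empty => intro _; rw [Finset.sum_empty, Finset.sum_empty]; exact Asy.zero
      | insert a s ha ih =>
        intro hs
        rw [Finset.sum_insert ha, Finset.sum_insert ha]
        refine Asy.add ?_ (ih ((Finset.subset_insert _ _).trans hs))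
        by_cases h : a.degree = m
        · rw [if_pos h, ← h]
          exact key a
        · rw [if_neg h]
          refine ⟨Submodule.zero_mem _, ?_⟩
          rw [sub_zero]
          refine (key a).low ?_
          have h2 : a.degree ≤ m := by
            refine le_trans ?_ hP
            exact le_totalDegree (hs (Finset.mem_insert_self _ _))
          have h3 : a.degree < m := lt_of_le_of_ne h2 h
          have h4 : (a.degree : ℤ) < m := by exact_mod_cast h3
          omega
    exact h1 _ (Finset.Subset.refl _)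
  rw [h0] at hsum
  have h5 := hsum.2
  rw [zero_sub] at h5
  have h6 := Hs_inf_Lo S hsum.1 (by simpa using Submodule.neg_mem _ h5)
  exact (mul_eq_zero.1 h6).resolve_right hg

theorem eul_apply {J : Type} [Fintype J] (S : J → Prop) [DecidablePred S]
    (f : MvPolynomial J ℂ) : eul S f = ∑ j, (if S j then 1 else 0 : ℕ) • ((X j : MvPolynomial J ℂ) *
      pderiv (R := ℂ) j f) := by
  have h1 : eul S f = ∑ j ∈ Finset.univ.filter S, (X j : MvPolynomial J ℂ) *
      pderiv (R := ℂ) j f := by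
    unfold eul
    rw [← Derivation.coeFnAddMonoidHom_apply, map_sum, Finset.sum_apply]
    rfl
  rw [h1, Finset.sum_filter]
  refine Finset.sum_congr rfl fun j _ => ?_
  split_ifs
  · rw [one_smul]
  · rw [zero_smul]

theorem comp_mem_Hs {J : Type} [Fintype J] [DecidableEq J] (S : J → Prop) [DecidablePred S]
    (n : ℕ) (P0 : MvPolynomial J ℂ) :
    ι0 (weightedHomogeneousComponent (fun j => if S j then 1 else 0 : J → ℕ) n P0) ∈
      Hs S (n : ℤ) := by
  rw [mem_Hs, exD_alg, eul_apply]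
  have h1 := (weightedHomogeneousComponent_isWeightedHomogeneous
    (w := (fun j => if S j then 1 else 0 : J → ℕ)) n P0).sum_weight_X_mul_pderiv
  rw [h1, map_nsmul, Int.cast_natCast, Nat.cast_smul_eq_nsmul]

theorem inv_mem_Hs {J : Type} [Fintype J] [DecidableEq J] (S : J → Prop) [DecidablePred S]
    {l : ℤ} {D : KK J} (hD : D ≠ 0) (h : D ∈ Hs S l) : D⁻¹ ∈ Hs S (-l) := by
  rw [mem_Hs] at h ⊢
  rw [Derivation.leibniz_inv, h, smul_eq_mul, Algebra.smul_def, Algebra.smul_def, Int.cast_neg,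
    map_neg]
  field_simp

theorem pow_mem_Hs {J : Type} [Fintype J] [DecidableEq J] (S : J → Prop) [DecidablePred S]
    {l : ℤ} {D : KK J} (h : D ∈ Hs S l) (m : ℕ) : D ^ m ∈ Hs S (m * l) := by
  induction m with
  | zero =>
    rw [pow_zero, Nat.cast_zero, zero_mul, mem_Hs, Derivation.map_one_eq_zero, Int.cast_zero,
      zero_smul]
  | succ m ih =>
    rw [pow_succ]
    have := Hs_mul S ih h
    rw [Nat.cast_succ, add_mul, one_mul]
    exact this

theorem exists_asy {J : Type} [Fintype J] [DecidableEq J] (S : J → Prop) [DecidablePred S]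
    (Δ : MvPolynomial J ℂ) (hΔ : Δ ≠ 0) (c : ℤ) (hE : eul S Δ = (c : ℂ) • Δ) (u : KK J) (hu : u ≠ 0)
    (m : ℕ) (P0 : MvPolynomial J ℂ) (h : u * ι0 Δ ^ m = ι0 P0) :
    ∃ (k : ℤ) (g : KK J), g ≠ 0 ∧ Asy S k u g := by
  set w : J → ℕ := fun j => if S j then 1 else 0 with hw
  have hP0 : P0 ≠ 0 := by
    rintro rfl
    rw [map_zero, mul_eq_zero] at h
    rcases h with h | h
    · exact hu h
    · have h1 : ι0 Δ = 0 := by
        by_contra h2
        exact pow_ne_zero m h2 h
      exact hΔ (IsFractionRing.injective (MvPolynomial J ℂ) (KK J) (h1.trans (map_zero _).symm))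
  have hΔ' : (ι0 Δ : KK J) ≠ 0 := fun h1 =>
    hΔ (IsFractionRing.injective (MvPolynomial J ℂ) (KK J) (h1.trans (map_zero _).symm))
  have hΔm : (ι0 Δ : KK J) ∈ Hs S c := by
    rw [mem_Hs, exD_alg, hE, Algebra.smul_def, Algebra.smul_def, map_mul]
    rfl
  have hfin : (Function.support fun n => weightedHomogeneousComponent w n P0).Finite :=
    weightedHomogeneousComponent_finsupp (w := w) P0
  set T : Finset ℕ := hfin.toFinset with hT
  have hsum : ∑ n ∈ T, weightedHomogeneousComponent w n P0 = P0 := by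
    have h1 := sum_weightedHomogeneousComponent (w := w) P0
    rw [finsum_eq_sum _ hfin] at h1
    exact h1
  have hne : T.Nonempty := by
    rw [Finset.nonempty_iff_ne_empty]
    intro h1
    rw [h1, Finset.sum_empty] at hsum
    exact hP0 hsum.symm
  set n0 := T.max' hne with hn0
  have hn0T : n0 ∈ T := Finset.max'_mem _ _
  have hn0' : weightedHomogeneousComponent w n0 P0 ≠ 0 := by
    have h1 := hn0T
    rw [hT, Set.Finite.mem_toFinset, Function.mem_support] at h1
    exact h1
  set Dm : KK J := (ι0 Δ)⁻¹ ^ m with hDm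
  have hDm' : Dm ∈ Hs S (m * -c) := pow_mem_Hs S (inv_mem_Hs S hΔ' hΔm) m
  have hterm : ∀ n : ℕ, ι0 (weightedHomogeneousComponent w n P0) * Dm ∈ Hs S (n + m * -c) :=
    fun n => Hs_mul S (comp_mem_Hs S n P0) hDm'
  have hu' : u = ∑ n ∈ T, ι0 (weightedHomogeneousComponent w n P0) * Dm := by
    rw [← Finset.sum_mul, ← map_sum, hsum, ← h, hDm, mul_assoc, ← mul_pow, mul_inv_cancel₀ hΔ',
      one_pow, mul_one]
  refine ⟨n0 + m * -c, ι0 (weightedHomogeneousComponent w n0 P0) * Dm, ?_, hterm n0, ?_⟩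
  · refine mul_ne_zero (fun h1 => hn0' ?_) (pow_ne_zero _ (inv_ne_zero hΔ'))
    exact IsFractionRing.injective (MvPolynomial J ℂ) (KK J) (h1.trans (map_zero _).symm)
  · rw [hu', ← Finset.add_sum_erase _ _ hn0T, add_sub_cancel_left]
    refine Submodule.sum_mem _ fun n hn => ?_
    rw [Finset.mem_erase] at hn
    have h1 : n < n0 := lt_of_le_of_ne (Finset.le_max' _ _ hn.2) hn.1
    exact Hs_le_Lo S (by omega) (hterm n)

theorem Reg.add {J : Type} {pt : J → ℂ} {f f' : KK J} {z z' : ℂ} (h : Reg pt f z)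
    (h' : Reg pt f' z') : Reg pt (f + f') (z + z') := by
  obtain ⟨P, Q, h1, h2, h3⟩ := h
  obtain ⟨P', Q', h1', h2', h3'⟩ := h'
  refine ⟨P * Q' + P' * Q, Q * Q', ?_, ?_, ?_⟩
  · rw [map_mul]
    exact mul_ne_zero h1 h1'
  · rw [map_mul, map_add, map_mul, map_mul, ← h2, ← h2']
    ring
  · rw [map_mul, map_add, map_mul, map_mul, ← h3, ← h3']
    ring

theorem Reg.mul {J : Type} {pt : J → ℂ} {f f' : KK J} {z z' : ℂ} (h : Reg pt f z)
    (h' : Reg pt f' z') : Reg pt (f * f') (z * z') := by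
  obtain ⟨P, Q, h1, h2, h3⟩ := h
  obtain ⟨P', Q', h1', h2', h3'⟩ := h'
  refine ⟨P * P', Q * Q', ?_, ?_, ?_⟩
  · rw [map_mul]
    exact mul_ne_zero h1 h1'
  · rw [map_mul, map_mul, ← h2, ← h2']
    ring
  · rw [map_mul, map_mul, ← h3, ← h3']
    ring

theorem Reg.const {J : Type} (pt : J → ℂ) (a : ℂ) : Reg pt (algebraMap ℂ (KK J) a) a := by
  refine ⟨C a, 1, ?_, ?_, ?_⟩
  · rw [map_one]
    exact one_ne_zero
  · rw [map_one, mul_one]
    rfl
  · rw [map_one, mul_one, eval_C]

theorem Reg.zero {J : Type} {pt : J → ℂ} {z : ℂ} (h : Reg pt (0 : KK J) z) : z = 0 := by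
  obtain ⟨P, Q, h1, h2, h3⟩ := h
  rw [zero_mul] at h2
  have h4 : P = 0 := IsFractionRing.injective (MvPolynomial J ℂ) (KK J)
    (h2.symm.trans (map_zero _).symm)
  rw [h4, map_zero] at h3
  exact (mul_eq_zero.1 h3).resolve_right h1

theorem Reg.eval {J : Type} {pt x0 ξ : J → ℂ} {Xt Ξt : J → KK J}
    (hX : ∀ j, Reg pt (Xt j) (x0 j)) (hΞ : ∀ j, Reg pt (Ξt j) (ξ j))
    (R : MvPolynomial J (MvPolynomial J ℂ)) :
    Reg pt (eval₂Hom (eval₂Hom (algebraMap ℂ (KK J)) Xt) Ξt R)
      (MvPolynomial.eval ξ (map (MvPolynomial.eval x0) R)) := by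
  have h1 : ∀ p : MvPolynomial J ℂ, Reg pt (eval₂Hom (algebraMap ℂ (KK J)) Xt p)
      (MvPolynomial.eval x0 p) := by
    intro p
    induction p using MvPolynomial.induction_on with
    | C a =>
      rw [eval₂Hom_C, eval_C]
      exact Reg.const pt a
    | add p q hp hq =>
      rw [map_add, map_add]
      exact Reg.add hp hq
    | mul_X p j hp =>
      rw [map_mul, map_mul, eval₂Hom_X', eval_X]
      exact Reg.mul hp (hX j)
  induction R using MvPolynomial.induction_on with
  | C p =>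
    rw [eval₂Hom_C, map_C, eval_C]
    exact h1 p
  | add p q hp hq =>
    rw [map_add, map_add, map_add]
    exact Reg.add hp hq
  | mul_X p j hp =>
    rw [map_mul, map_mul, map_mul, eval₂Hom_X', map_X, eval_X]
    exact Reg.mul hp (hΞ j)

theorem spec {J : Type} [Fintype J] [DecidableEq J] (pt x0 ξ : J → ℂ) (Xt Ξt : J → KK J)
    (hX : ∀ j, Reg pt (Xt j) (x0 j)) (hΞ : ∀ j, Reg pt (Ξt j) (ξ j))
    (R : MvPolynomial J (MvPolynomial J ℂ))
    (h : eval₂Hom (eval₂Hom (algebraMap ℂ (KK J)) Xt) Ξt R = 0) :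
    eval ξ (map (eval x0) R) = 0 := by
  have h1 := Reg.eval hX hΞ R
  rw [h] at h1
  exact Reg.zero h1

theorem char_point {J : Type} [Fintype J] [DecidableEq J] (S : J → Prop) [DecidablePred S]
    (ω θ : J → KK J) (hω : ∀ i j, dd i (ω j) = dd j (ω i))
    (hθ1 : ∀ j, ¬ S j → exD (eul S) (θ j) = θ j)
    (hl1 : ∀ j, ¬ S j → exD (eul S) (ω j - θ j) = 0)
    (hθ0 : ∀ j, S j → exD (eul S) (θ j) = 0)
    (hl0 : ∀ j, S j → exD (eul S) (ω j - θ j) = -(ω j - θ j))
    (Δ : MvPolynomial J ℂ) (hΔ : Δ ≠ 0) (c : ℤ) (hE : eul S Δ = (c : ℂ) • Δ)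
    (u : KK J) (hu : u ≠ 0) (m : ℕ) (P0 : MvPolynomial J ℂ) (hu' : u * ι0 Δ ^ m = ι0 P0)
    (pt x0 ξ : J → ℂ) (hX : ∀ j, Reg pt (if S j then -θ j else ι0 (X j)) (x0 j))
    (hΞ : ∀ j, Reg pt (if S j then ι0 (X j) else θ j) (ξ j)) (n : ℕ)
    (P : MvPolynomial J (MvPolynomial J ℂ)) (hP : P.totalDegree ≤ n)
    (h0 : ((twist ω hω).unfourier S).op P u = 0) :
    eval ξ (map (eval x0) (homogeneousComponent n P)) = 0 := by
  obtain ⟨k, g, hg, hk⟩ := exists_asy S Δ hΔ c hE u hu m P0 hu'
  exact spec pt x0 ξ _ _ hX hΞ _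
    (symbol_asy S ω θ hω hθ1 hl1 hθ0 hl0 u g hg k hk n P hP h0)

end Pool.Agent.H495.S10
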