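import Pool.Agent.H495.PosVf2
import Pool.Agent.H495.KSdata
import Pool.Agent.H495.ConB
import Pool.Agent.H495.Reg

namespace Pool.Agent.H495.S11

open MvPolynomial Ix

/-- inclusion of indices -/
def f4 (l : Fin 2) : Fin 4 := ⟨l, by omega⟩

noncomputable def Xi (ξ : J2 → ℂ) (p q : Ix 2) : ℂ :=
  if h : lev p = lev q + 1 then ξ ⟨(p, q), h⟩ else 0

theorem conormal_eq {ξ : J2 → ℂ} (hξ : IsConormal lev (ksN.transpose) ξ) {p r : Ix 2}
    (hpr : lev p = lev r) : ∑ q, Xi ξ p q * ksN q r = ∑ q, Xi ξ q r * ksN p q := by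
  have h := hξ (Matrix.single p r 1) (by
    intro a b hab
    rw [Matrix.single_apply]
    rw [if_neg]
    rintro ⟨rfl, rfl⟩
    exact hab hpr)
  have h1 := sum_idx (lev (m := 2)) (fun a b => Xi ξ a b *
    (Matrix.single p r 1 * ksN.transpose - ksN.transpose * Matrix.single p r 1 :
      Matrix (Ix 2) (Ix 2) ℂ) a b)
    (fun a b hab => by
      show Xi ξ a b * _ = 0
      unfold Xi
      rw [dif_neg hab, zero_mul])
  have h2 : ∑ j : J2, ξ j * coord lev (Matrix.single p r 1 * ksN.transpose -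
      ksN.transpose * Matrix.single p r 1) j = ∑ j : J2, Xi ξ j.1.1 j.1.2 *
      (Matrix.single p r 1 * ksN.transpose - ksN.transpose * Matrix.single p r 1 :
        Matrix (Ix 2) (Ix 2) ℂ) j.1.1 j.1.2 := by
    refine Finset.sum_congr rfl fun j _ => ?_
    unfold Xi coord
    rw [dif_pos j.2]
  rw [h2, h1] at h
  simp only [Matrix.sub_apply, mul_sub, Finset.sum_sub_distrib] at h
  rw [sub_eq_zero] at h
  have e1 : ∑ a, ∑ b, Xi ξ a b * (Matrix.single p r (1 : ℂ) * ksN.transpose) a b =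
      ∑ q, Xi ξ p q * ksN q r := by
    rw [Finset.sum_eq_single p]
    · refine Finset.sum_congr rfl fun b _ => ?_
      rw [Matrix.single_mul_apply_same, one_mul, Matrix.transpose_apply]
    · intro a _ ha
      refine Finset.sum_eq_zero fun b _ => ?_
      rw [Matrix.single_mul_apply_of_ne _ _ _ _ _ ha, mul_zero]
    · intro h; exact absurd (Finset.mem_univ _) h
  have e2 : ∑ a, ∑ b, Xi ξ a b * (ksN.transpose * Matrix.single p r (1 : ℂ)) a b =
      ∑ q, Xi ξ q r * ksN p q := by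
    refine Finset.sum_congr rfl fun a _ => ?_
    rw [Finset.sum_eq_single r]
    · rw [Matrix.mul_single_apply_same, mul_one, Matrix.transpose_apply]
    · intro b _ hb
      rw [Matrix.mul_single_apply_of_ne _ _ _ _ _ hb, mul_zero]
    · intro h; exact absurd (Finset.mem_univ _) h
  rw [e1, e2] at h
  exact h

section

variable {ξ : J2 → ℂ} (hξ : IsConormal lev (ksN.transpose) ξ)

include hξ in
theorem x_ba (k i : Fin 2) : Xi ξ (b k) (e1 i) = 0 := by
  have h := conormal_eq hξ (p := b k) (r := b i) rfl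
  rw [sum_ix, sum_ix] at h
  simpa [ksN] using h

include hξ in
theorem x_pe (l i : Fin 2) : Xi ξ (p2 l) (e1 i) = Xi ξ (e3 (f4 l)) (b i) := by
  have h := conormal_eq hξ (p := p2 l) (r := b i) rfl
  rw [sum_ix, sum_ix] at h
  fin_cases l <;> simpa [ksN, Fin.sum_univ_four, f4] using h

include hξ in
theorem x_ep0 (l i : Fin 2) : Xi ξ (e3 (f4 l)) (p2 i) = 0 := by
  have h := conormal_eq hξ (p := p2 l) (r := p2 i) rfl
  rw [sum_ix, sum_ix] at h
  fin_cases l <;> simpa [ksN, Fin.sum_univ_four, f4] using h.symm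

include hξ in
theorem x_ep (i : Fin 4) (l : Fin 2) : Xi ξ (e3 i) (p2 l) = 0 := by
  by_cases hi : (i : ℕ) < 2
  · have := x_ep0 hξ ⟨i, hi⟩ l
    simpa [f4] using this
  · have h := conormal_eq hξ (p := e3 i) (r := e3 (f4 l)) rfl
    rw [sum_ix, sum_ix] at h
    have h1 : ∀ k : Fin 2, ¬ ((i : ℕ) = k) := fun k hk => hi (by rw [hk]; exact k.2)
    fin_cases l <;> simpa [ksN, Fin.sum_univ_four, f4, h1] using h

include hξ in
theorem x_pe3 (k : Fin 2) (i : Fin 4) : Xi ξ (p4 k) (e3 i) = 0 := by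
  have h := conormal_eq hξ (p := e3 (f4 k)) (r := e3 i) rfl
  rw [sum_ix, sum_ix] at h
  simp only [x_ep hξ] at h
  fin_cases k <;> simpa [ksN, f4] using h.symm

include hξ in
theorem x_eb (k i : Fin 2) : Xi ξ (e5 k) (b4 i) = 0 := by
  have h := conormal_eq hξ (p := e5 k) (r := e5 i) rfl
  rw [sum_ix, sum_ix] at h
  simpa [ksN] using h

include hξ in
theorem x_e5 (k l : Fin 2) : Xi ξ (e5 k) (p4 l) = Xi ξ (b4 k) (e3 (f4 l)) := by
  have h := conormal_eq hξ (p := b4 k) (r := p4 l) rfl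
  rw [sum_ix, sum_ix] at h
  fin_cases l <;> simpa [ksN, Fin.sum_univ_four, f4, eq_comm] using h.symm

end

/-- the values of the mixed variables -/
noncomputable def pv (ξ : J2 → ℂ) (p q : Ix 2) : ℂ :=
  if w2 p = w2 q + 1 then Xi ξ p q else ksN q p

/-- the point -/
noncomputable def pt (ξ : J2 → ℂ) (j : J2) : ℂ := pv ξ j.1.1 j.1.2

section vals

variable (ξ : J2 → ℂ)

theorem eval_yv (p q : Ix 2) (h : lev p = lev q + 1) :
    eval (pt ξ) (yv lev p q) = pv ξ p q := by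
  unfold yv; rw [dif_pos h, eval_X]; rfl

theorem vα (k j) : eval (pt ξ) (mα 2 k j) = if k = j then 1 else 0 :=
  (eval_yv ξ _ _ (by simp [lev])).trans (by simp [pv, w2, ksN])
theorem va (l j) : eval (pt ξ) (ma l j) = 0 :=
  (eval_yv ξ _ _ (by simp [lev])).trans (by simp [pv, w2, ksN])
theorem vβ (i l) : eval (pt ξ) (mβ 2 i l) = if (i : ℕ) = l then 1 else 0 :=
  (eval_yv ξ _ _ (by norm_num [lev])).trans (by simp [pv, w2, ksN])
theorem vγ (k i) : eval (pt ξ) (mγ 2 k i) = if (i : ℕ) = k then 1 else 0 :=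
  (eval_yv ξ _ _ (by norm_num [lev])).trans (by simp [pv, w2, ksN])
theorem vc (k i) : eval (pt ξ) (mc 2 k i) = Xi ξ (e3 i) (b k) :=
  (eval_yv ξ _ _ (by norm_num [lev])).trans (by simp [pv, w2])
theorem vd (i k) : eval (pt ξ) (md 2 i k) = Xi ξ (b4 k) (e3 i) :=
  (eval_yv ξ _ _ (by norm_num [lev])).trans (by simp [pv, w2])
theorem vδ (i k) : eval (pt ξ) (mδ 2 i k) = if i = k then 1 else 0 :=
  (eval_yv ξ _ _ (by norm_num [lev])).trans (by simp [pv, w2, ksN])
theorem vb (i k) : eval (pt ξ) (mb i k) = 0 :=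
  (eval_yv ξ _ _ (by norm_num [lev])).trans (by simp [pv, w2, ksN])

theorem vdα : eval (pt ξ) dα = 1 := by
  unfold dα dt; simp only [map_mul, map_sub, vα]; simp
theorem vdδ : eval (pt ξ) dδ = 1 := by
  unfold dδ dt; simp only [map_mul, map_sub, vδ]; simp

theorem vcb (j l : Fin 2) : eval (pt ξ) ((mc 2 * mβ 2) j l) = Xi ξ (e3 (f4 l)) (b j) := by
  rw [Matrix.mul_apply, map_sum]
  simp only [map_mul, vc, vβ, Fin.sum_univ_four]
  fin_cases l <;> simp [f4]

theorem vgd (l j : Fin 2) : eval (pt ξ) ((mγ 2 * md 2) l j) = Xi ξ (b4 j) (e3 (f4 l)) := by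
  rw [Matrix.mul_apply, map_sum]
  simp only [map_mul, vγ, vd, Fin.sum_univ_four]
  fin_cases l <;> simp [f4]

theorem ev_trad0 (a α v : Matrix (Fin 2) (Fin 2) (RR 2)) (ha : ∀ l j, eval (pt ξ) (a l j) = 0) :
    eval (pt ξ) (trad a α v) = 0 := by
  rw [trad_eq]; simp only [map_add, map_mul, ha, zero_mul, add_zero]

theorem ev_trad (D : Derivation ℂ (RR 2) (RR 2)) (a α v : Matrix (Fin 2) (Fin 2) (RR 2))
    (ha : ∀ l j, eval (pt ξ) (a l j) = 0)
    (hα : ∀ k j, eval (pt ξ) (α k j) = if k = j then 1 else 0) :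
    eval (pt ξ) (D (trad a α v)) =
      ∑ j, ∑ l, eval (pt ξ) (D (a l j)) * eval (pt ξ) (v j l) := by
  rw [trad_eq]
  simp only [map_add, map_sub, map_mul, Derivation.leibniz, smul_eq_mul, ha, hα,
    Fin.sum_univ_two]
  simp
  ring

theorem vφ1 : eval (pt ξ) φ1 = 0 := ev_trad0 ξ _ _ _ (va ξ)
theorem vφ2 : eval (pt ξ) φ2 = 0 := ev_trad0 ξ _ _ _ (fun l j => vb ξ j l)

theorem dφ1 (p q : Ix 2) : eval (pt ξ) (pd lev p q φ1) =
    ∑ j, ∑ l, (if p = p2 l ∧ q = e1 j ∧ lev p = lev q + 1 then 1 else 0) *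
      Xi ξ (e3 (f4 l)) (b j) := by
  rw [φ1, ev_trad ξ _ _ _ _ (va ξ) (vα ξ)]
  refine Finset.sum_congr rfl fun j _ => Finset.sum_congr rfl fun l _ => ?_
  rw [vcb, ma, pd_yv]
  split_ifs <;> simp

theorem dφ2 (p q : Ix 2) : eval (pt ξ) (pd lev p q φ2) =
    ∑ j, ∑ l, (if p = e5 j ∧ q = p4 l ∧ lev p = lev q + 1 then 1 else 0) *
      Xi ξ (b4 j) (e3 (f4 l)) := by
  rw [φ2, ev_trad ξ (pd lev p q) mb.transpose (mδ 2).transpose (mγ 2 * md 2).transpose
    (fun l j => vb ξ j l) (fun k j => (vδ ξ j k).trans (by simp only [eq_comm]))]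
  refine Finset.sum_congr rfl fun j _ => Finset.sum_congr rfl fun l _ => ?_
  rw [Matrix.transpose_apply, Matrix.transpose_apply, vgd, mb, pd_yv]
  split_ifs <;> simp

end vals

theorem dd_div (j : J2) (f g : RR 2) (hg : g ≠ 0) :
    dd j ((ι0 f : KK J2) / ι0 g) * ι0 (g ^ 2) =
      ι0 (g * pderiv (R := ℂ) j f - f * pderiv (R := ℂ) j g) := by
  have hg' := ι0_ne hg
  have h2 : dd j (ι0 f) = dd j (((ι0 f : KK J2) / ι0 g) * ι0 g) := by
    rw [div_mul_cancel₀ _ hg']
  rw [Derivation.leibniz, smul_eq_mul, smul_eq_mul, dd_alg, dd_alg] at h2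
  rw [map_pow, map_sub, map_mul, map_mul, h2]
  have h3 : (ι0 f : KK J2) = (ι0 f : KK J2) / ι0 g * ι0 g := by rw [div_mul_cancel₀ _ hg']
  generalize dd j ((ι0 f : KK J2) / ι0 g) = u at *
  generalize (ι0 f : KK J2) / ι0 g = t at *
  rw [h3]
  ring

theorem reg_dd (ξ : J2 → ℂ) (p q : Ix 2) (h : lev p = lev q + 1) :
    Reg (pt ξ) (dd ⟨(p, q), h⟩ Φ)
      (eval (pt ξ) (pd lev p q φ1) + eval (pt ξ) (pd lev p q φ2)) := by
  have hpd : pd lev p q = pderiv (⟨(p, q), h⟩ : J2) := by unfold pd; rw [dif_pos h]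
  rw [hpd]
  set j : J2 := ⟨(p, q), h⟩ with hj
  refine ⟨(dα * pderiv (R := ℂ) j φ1 - φ1 * pderiv (R := ℂ) j dα) * dδ ^ 2 +
    (dδ * pderiv (R := ℂ) j φ2 - φ2 * pderiv (R := ℂ) j dδ) * dα ^ 2, dα ^ 2 * dδ ^ 2, ?_, ?_, ?_⟩
  · rw [map_mul, map_pow, map_pow, vdα, vdδ]; norm_num
  · rw [Φ, map_add, map_add, map_mul, map_mul, map_mul, ← dd_div j φ1 dα dα_ne,
      ← dd_div j φ2 dδ dδ_ne]
    ring
  · simp only [map_add, map_mul, map_sub, map_pow, vdα, vdδ, vφ1, vφ2]
    ring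

theorem reg_X (ξ : J2 → ℂ) (j : J2) : Reg (pt ξ) (ι0 (X j)) (pt ξ j) :=
  ⟨X j, 1, by rw [map_one]; exact one_ne_zero, by rw [map_one, mul_one],
    by rw [map_one, mul_one, eval_X]⟩

theorem reg_neg {J : Type} {pt : J → ℂ} {f : KK J} {z : ℂ} (h : Reg pt f z) :
    Reg pt (-f) (-z) := by
  obtain ⟨P, Q, h1, h2, h3⟩ := h
  refine ⟨-P, Q, h1, ?_, ?_⟩
  · rw [neg_mul, h2, map_neg]
  · rw [neg_mul, h3, map_neg]

theorem phase_point (ξ : J2 → ℂ) (hξ : IsConormal lev (ksN.transpose) ξ) : ∃ pt : J2 → ℂ,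
    (∀ j, Reg pt (if FTset lev w2 j then -dd j Φ else ι0 (X j)) (coord lev ksN.transpose j)) ∧
    (∀ j, Reg pt (if FTset lev w2 j then ι0 (X j) else dd j Φ) (ξ j)) := by
  refine ⟨pt ξ, ?_, ?_⟩
  · rintro ⟨⟨p, q⟩, h⟩
    have h1 := reg_dd ξ p q h
    have h2 := reg_X ξ ⟨(p, q), h⟩
    rw [dφ1, dφ2] at h1
    by_cases hf : FTset lev w2 (⟨(p, q), h⟩ : J2)
    · rw [if_pos hf]
      have h3 := reg_neg h1
      convert h3 using 1
      show ksN q p = _
      have hf' : w2 p = w2 q + 1 := hf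
      clear h1 h2 h3 hf
      cases p <;> cases q <;> first
        | (exfalso; revert hf'; simp [w2]; done)
        | simp [ksN]
    · rw [if_neg hf]
      convert h2 using 1
      show ksN q p = _
      have hf' : ¬ w2 p = w2 q + 1 := hf
      simp only [pt, pv, if_neg hf']
  · rintro ⟨⟨p, q⟩, h⟩
    have h1 := reg_dd ξ p q h
    have h2 := reg_X ξ ⟨(p, q), h⟩
    rw [dφ1, dφ2] at h1
    have hx : Xi ξ p q = ξ ⟨(p, q), h⟩ := by unfold Xi; rw [dif_pos h]
    rw [← hx]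
    by_cases hf : FTset lev w2 (⟨(p, q), h⟩ : J2)
    · rw [if_pos hf]
      convert h2 using 1
      have hf' : w2 p = w2 q + 1 := hf
      simp only [pt, pv, if_pos hf']
    · rw [if_neg hf]
      convert h1 using 1
      have hf' : ¬ w2 p = w2 q + 1 := hf
      clear h1 h2 hf hx
      cases p <;> cases q <;> first
        | (exfalso; revert h; norm_num [lev]; done)
        | (exfalso; revert hf'; simp [w2]; done)
        | skip
      · simp [x_ba hξ]
      · rename_i l i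
        rw [x_pe hξ]
        simp only [p2.injEq, e1.injEq, reduceCtorEq, false_and, if_false, zero_mul,
          Finset.sum_const_zero, add_zero]
        rw [Finset.sum_eq_single i, Finset.sum_eq_single l]
        · simp [h]
        · intro b _ hb; rw [if_neg (fun hh => hb hh.1.symm), zero_mul]
        · intro hh; exact absurd (Finset.mem_univ _) hh
        · intro b _ hb
          refine Finset.sum_eq_zero fun c _ => ?_
          rw [if_neg (fun hh => hb hh.2.1.symm), zero_mul]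
        · intro hh; exact absurd (Finset.mem_univ _) hh
      · simp [x_ep hξ]
      · simp [x_pe3 hξ]
      · rename_i k l
        rw [x_e5 hξ]
        simp only [e5.injEq, p4.injEq, reduceCtorEq, false_and, if_false, zero_mul,
          Finset.sum_const_zero, zero_add]
        rw [Finset.sum_eq_single k, Finset.sum_eq_single l]
        · simp [h]
        · intro b _ hb; rw [if_neg (fun hh => hb hh.2.1.symm), zero_mul]
        · intro hh; exact absurd (Finset.mem_univ _) hh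
        · intro b _ hb
          refine Finset.sum_eq_zero fun c _ => ?_
          rw [if_neg (fun hh => hb hh.1.symm), zero_mul]
        · intro hh; exact absurd (Finset.mem_univ _) hh
      · simp [x_eb hξ]

end Pool.Agent.H495.S11

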