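import Pool.Agent.H495.Transport2

/-!
# Subtask S6 of helper495 (MP_fe6ac3_nt): the support of a simple equivariant D-module is an orbit closure
-/

namespace Pool.Agent.H495.S6

open Matrix MvPolynomial

section nil

variable {J : Type} [DecidableEq J] {L : Type} [AddCommGroup L] [Module ℂ L]

/-- The annihilator of a vector in the ring of functions. -/
noncomputable def annIdeal (W : WeylModule J L) (u : L) : Ideal (MvPolynomial J ℂ) where
  carrier := {f | W.fn f u = 0}
  zero_mem' := by simp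
  add_mem' := by
    intro f g hf hg
    show W.fn (f + g) u = 0
    rw [map_add, LinearMap.add_apply, show W.fn f u = 0 from hf, show W.fn g u = 0 from hg,
      add_zero]
  smul_mem' := by
    intro c f hf
    show W.fn (c * f) u = 0
    rw [WeylModule.fn_mul_apply, show W.fn f u = 0 from hf, map_zero]

/-- The ideal of the functions acting locally nilpotently. -/
noncomputable def nilIdeal (W : WeylModule J L) : Ideal (MvPolynomial J ℂ) :=
  ⨅ u : L, (annIdeal W u).radical

theorem mem_nilIdeal (W : WeylModule J L) (f : MvPolynomial J ℂ) :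
    f ∈ nilIdeal W ↔ ∀ u : L, ∃ k : ℕ, W.fn (f ^ k) u = 0 := by
  simp only [nilIdeal, Submodule.mem_iInf]
  rfl

theorem nilIdeal_radical (W : WeylModule J L) : (nilIdeal W).radical = nilIdeal W := by
  apply le_antisymm _ Ideal.le_radical
  rintro f ⟨n, hn⟩
  rw [mem_nilIdeal] at hn ⊢
  intro u
  obtain ⟨k, hk⟩ := hn u
  exact ⟨n * k, by rw [pow_mul]; exact hk⟩

theorem nilIdeal_prime (W : WeylModule J L) (hs : W.IsSimple) : (nilIdeal W).IsPrime := by
  have := hs.1
  obtain ⟨u, hu⟩ := exists_ne (0 : L)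
  constructor
  · rw [Ne, Ideal.eq_top_iff_one, mem_nilIdeal]
    intro h
    obtain ⟨k, hk⟩ := h u
    rw [one_pow, map_one] at hk
    exact hu hk
  · intro f g hfg
    rw [mem_nilIdeal] at hfg
    obtain ⟨k, hk⟩ := hfg u
    rw [mul_pow, WeylModule.fn_mul_apply] at hk
    by_cases h0 : W.fn (g ^ k) u = 0
    · right
      rw [mem_nilIdeal]
      exact fun v => hs.nilp_of_ker g hu h0 v
    · left
      rw [mem_nilIdeal]
      exact fun v => hs.nilp_of_ker f h0 hk v

theorem mem_supp_iff (W : WeylModule J L) (x : J → ℂ) :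
    x ∈ W.supp ↔ ∀ f ∈ nilIdeal W, eval x f = 0 := by
  constructor
  · intro h f hf
    refine h f ?_
    rw [mem_nilIdeal] at hf
    intro u
    obtain ⟨k, hk⟩ := hf u
    exact ⟨k, by rw [← map_pow]; exact hk⟩
  · intro h f hf
    refine h f ?_
    rw [mem_nilIdeal]
    intro u
    obtain ⟨k, hk⟩ := hf u
    exact ⟨k, by rw [map_pow]; exact hk⟩

theorem mem_nilIdeal_of_vanish [Finite J] (W : WeylModule J L) (f : MvPolynomial J ℂ)
    (h : ∀ x ∈ W.supp, eval x f = 0) : f ∈ nilIdeal W := by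
  rw [← nilIdeal_radical, ← vanishingIdeal_zeroLocus_eq_radical (K := ℂ)]
  intro x hx
  show eval x f = 0
  refine h x ((mem_supp_iff W x).2 fun g hg => ?_)
  exact hx g hg

end nil

theorem conj_vogan {ι : Type} [Fintype ι] [DecidableEq ι] {e : ι → ℚ} {h x : Matrix ι ι ℂ}
    (hh : h ∈ HGroup e) (hx : x ∈ Vogan e) : h * x * h⁻¹ ∈ Vogan e := by
  intro p q hpq
  rw [Matrix.mul_apply]
  refine Finset.sum_eq_zero fun s _ => ?_
  by_cases hsq : e s = e q
  · rw [Matrix.mul_apply, Finset.sum_mul]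
    refine Finset.sum_eq_zero fun r _ => ?_
    by_cases hpr : e p = e r
    · have : e r ≠ e s + 1 := by rw [← hpr, hsq]; exact hpq
      rw [hx r s this, mul_zero, zero_mul]
    · rw [hh.2 p r hpr, zero_mul, zero_mul]
  · rw [hgroup_inv hh.1 hh.2 s q hsq, mul_zero]

theorem inv_hgroup {ι : Type} [Fintype ι] [DecidableEq ι] {e : ι → ℚ} {h : Matrix ι ι ℂ}
    (hh : h ∈ HGroup e) : h⁻¹ ∈ HGroup e := by
  refine ⟨?_, fun p q hpq => hgroup_inv hh.1 hh.2 p q hpq⟩
  rw [Matrix.isUnit_nonsing_inv_iff]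
  exact hh.1

theorem supp_orbit {ι : Type} [Fintype ι] [DecidableEq ι] {e : ι → ℚ}
    (S1 : ∀ x ∈ Vogan e, ∃ h ∈ HGroup e, ∀ p q, (h * x * h⁻¹) p q = 0 ∨ (h * x * h⁻¹) p q = 1)
    {L : Type} [AddCommGroup L] [Module ℂ L] (W : WeylModule (Idx e) L) (hs : W.IsSimple)
    (S2 : ∀ x ∈ Vogan e, coord e x ∈ W.supp → ∀ g ∈ HGroup e, coord e (g * x * g⁻¹) ∈ W.supp) :
    ∃ M ∈ Vogan e, W.supp = zclosure (orbit e M) := by
  classical
  by_contra hcon
  push Not at hcon
  let T : (ι → ι → Bool) → Matrix ι ι ℂ := fun b p q => if b p q then 1 else 0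
  have key : ∀ b : ι → ι → Bool, T b ∈ Vogan e ∧ coord e (T b) ∈ W.supp →
      ∃ f : MvPolynomial (Idx e) ℂ, (∀ s ∈ orbit e (T b), eval s f = 0) ∧ f ∉ nilIdeal W := by
    rintro b ⟨hb1, hb2⟩
    have hsub : zclosure (orbit e (T b)) ⊆ W.supp := by
      intro v hv
      rw [mem_supp_iff]
      intro f hf
      refine hv f ?_
      rintro s ⟨g, hg, rfl⟩
      exact (mem_supp_iff W _).1 (S2 _ hb1 hb2 g hg) f hf
    have hne := hcon _ hb1
    have : ¬ W.supp ⊆ zclosure (orbit e (T b)) := fun h => hne (Set.Subset.antisymm h hsub)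
    rw [Set.not_subset] at this
    obtain ⟨v, hv, hv'⟩ := this
    have hv'' : ∃ f : MvPolynomial (Idx e) ℂ, (∀ s ∈ orbit e (T b), eval s f = 0) ∧
        eval v f ≠ 0 := by
      by_contra hcc
      push Not at hcc
      exact hv' hcc
    obtain ⟨f, hf1, hf2⟩ := hv''
    exact ⟨f, hf1, fun hf => hf2 ((mem_supp_iff W v).1 hv f hf)⟩
  choose! F hF1 hF2 using key
  have hprime := nilIdeal_prime W hs
  let S : Finset (ι → ι → Bool) :=
    Finset.univ.filter fun b => T b ∈ Vogan e ∧ coord e (T b) ∈ W.supp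
  have hprod : ∏ b ∈ S, F b ∉ nilIdeal W := by
    rw [hprime.prod_mem_iff]
    rintro ⟨b, hb, hb'⟩
    exact hF2 b (Finset.mem_filter.1 hb).2 hb'
  apply hprod
  apply mem_nilIdeal_of_vanish
  intro v hv
  let x : Matrix ι ι ℂ := fun p q => if h : e p = e q + 1 then v ⟨(p, q), h⟩ else 0
  have hx : x ∈ Vogan e := fun p q hpq => dif_neg hpq
  have hxv : coord e x = v := by
    funext j
    exact dif_pos j.2
  obtain ⟨h, hh, h01⟩ := S1 x hx
  let b : ι → ι → Bool := fun p q => decide ((h * x * h⁻¹) p q = 1)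
  have hTb : T b = h * x * h⁻¹ := by
    ext p q
    show (if b p q = true then (1 : ℂ) else 0) = _
    rcases h01 p q with h0 | h1
    · have hb : b p q = false := decide_eq_false (by rw [h0]; exact zero_ne_one)
      rw [hb, h0]; simp
    · have hb : b p q = true := decide_eq_true h1
      rw [hb, h1]; simp
  have hb1 : T b ∈ Vogan e := hTb ▸ conj_vogan hh hx
  have hb2 : coord e (T b) ∈ W.supp := by
    rw [hTb]
    exact S2 x hx (hxv ▸ hv) h hh
  have hbS : b ∈ S := Finset.mem_filter.2 ⟨Finset.mem_univ _, hb1, hb2⟩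
  have hvorb : v ∈ orbit e (T b) := by
    refine ⟨h⁻¹, inv_hgroup hh, ?_⟩
    have hu : IsUnit h.det := (Matrix.isUnit_iff_isUnit_det h).1 hh.1
    have : h⁻¹ * T b * h⁻¹⁻¹ = x := by
      rw [Matrix.nonsing_inv_nonsing_inv _ hu, hTb, Matrix.mul_assoc, Matrix.mul_assoc,
        Matrix.nonsing_inv_mul _ hu, Matrix.mul_one, ← Matrix.mul_assoc,
        Matrix.nonsing_inv_mul _ hu, Matrix.one_mul]
    rw [this, hxv]
  rw [map_prod]
  exact Finset.prod_eq_zero hbS (hF1 b ⟨hb1, hb2⟩ v hvorb)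

end Pool.Agent.H495.S6
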