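import Pool.Agent.H495.S3
import Pool.Agent.H495.Twist

/-! Twisted modules of rational functions have minimal growth. -/

namespace Pool.Agent.H495.S7

open MvPolynomial

theorem deg_pderiv {J : Type} [Fintype J] (j : J) (P : MvPolynomial J ℂ) :
    (pderiv j P).totalDegree ≤ P.totalDegree := by
  classical
  conv_lhs => rw [P.as_sum, map_sum]
  refine totalDegree_finsetSum_le fun m hm => ?_
  rw [pderiv_monomial]
  refine (totalDegree_monomial_le _ _).trans (le_trans ?_ (le_totalDegree hm))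
  rw [Finsupp.sum_fintype _ _ (fun _ => rfl), Finsupp.sum_fintype _ _ (fun _ => rfl)]
  exact Finset.sum_le_sum fun i _ => tsub_le_self

/-- The inclusion of the polynomials as a linear map. -/
noncomputable def ιL (J : Type) : MvPolynomial J ℂ →ₗ[ℂ] KK J :=
  (IsScalarTower.toAlgHom ℂ (MvPolynomial J ℂ) (KK J)).toLinearMap

theorem ιL_apply {J : Type} (P : MvPolynomial J ℂ) : ιL J P = ι0 P := rfl

theorem finrank_rtd {J : Type} [Fintype J] (N : ℕ) :
    Module.Finite ℂ (restrictTotalDegree J ℂ N) ∧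
      Module.finrank ℂ (restrictTotalDegree J ℂ N) ≤ (N + 1) ^ Fintype.card J := by
  classical
  let s : Set (J →₀ ℕ) := {n | (n.sum fun _ e => e) ≤ N}
  have hle : ∀ (n : s) (i : J), (n : J →₀ ℕ) i < N + 1 := by
    intro n i
    have h1 : ((n : J →₀ ℕ).sum fun _ e => e) ≤ N := n.2
    rw [Finsupp.sum_fintype _ _ (fun _ => rfl)] at h1
    exact Nat.lt_succ_of_le ((Finset.single_le_sum (f := fun i => (n : J →₀ ℕ) i)
      (fun _ _ => Nat.zero_le _) (Finset.mem_univ i)).trans h1)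
  let f : s → (J → Fin (N + 1)) := fun n i => ⟨(n : J →₀ ℕ) i, hle n i⟩
  have hf : Function.Injective f := by
    intro a b hab
    apply Subtype.ext
    ext i
    have := congrFun hab i
    exact congrArg Fin.val this
  have hfin : Finite s := Finite.of_injective f hf
  let b : Module.Basis s ℂ (restrictTotalDegree J ℂ N) := basisRestrictSupport ℂ s
  refine ⟨Module.Finite.of_basis b, ?_⟩
  rw [Module.finrank_eq_nat_card_basis b]
  have h2 := Nat.card_le_card_of_injective f hf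
  rwa [Nat.card_eq_fintype_card (α := J → Fin (N + 1)), Fintype.card_fun, Fintype.card_fin] at h2

section
variable {J : Type} [Fintype J] [DecidableEq J]

theorem ι0_ne {Δ : MvPolynomial J ℂ} (hΔ : Δ ≠ 0) (m : ℕ) : (ι0 Δ : KK J) ^ m ≠ 0 :=
  pow_ne_zero _ ((map_ne_zero_iff _ (IsFractionRing.injective (MvPolynomial J ℂ) (KK J))).mpr hΔ)

/-- The derivative of a fraction. -/
theorem der_frac (ω : J → KK J) (Δ : MvPolynomial J ℂ) (j : J) (q : MvPolynomial J ℂ)
    (hq : ω j * ι0 Δ = ι0 q) (u : KK J) (m : ℕ) (P : MvPolynomial J ℂ)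
    (h : u * ι0 Δ ^ m = ι0 P) :
    (dd j u + ω j * u) * ι0 Δ ^ (m + 1) =
      ι0 (pderiv j P * Δ - C (m : ℂ) * (P * pderiv j Δ) + q * P) := by
  have h1 : dd j (u * ι0 Δ ^ m) = ι0 (pderiv j P) := by rw [h, dd_alg]
  have h2 : ι0 Δ * dd j (ι0 Δ ^ m : KK J) = (m : KK J) * ι0 Δ ^ m * ι0 (pderiv j Δ) := by
    rw [Derivation.leibniz_pow, dd_alg]
    cases m with
    | zero => simp
    | succ k =>
      rw [Nat.add_sub_cancel, nsmul_eq_mul, smul_eq_mul, pow_succ]
      ring
  rw [Derivation.leibniz, smul_eq_mul, smul_eq_mul] at h1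
  have hC : (ι0 (C (m : ℂ)) : KK J) = (m : KK J) := by
    rw [map_natCast (C : ℂ →+* MvPolynomial J ℂ), map_natCast]
  simp only [map_add, map_sub, map_mul]
  rw [hC, ← h1, ← h, ← hq, pow_succ]
  linear_combination (-u) * h2

/-- The filtration. -/
noncomputable def Γ (Δ : MvPolynomial J ℂ) (c m : ℕ) : Submodule ℂ (KK J) :=
  ((restrictTotalDegree J ℂ (c * (m + 1))).map (ιL J)).comap
    (LinearMap.mulRight ℂ (ι0 Δ ^ m))

theorem mem_Γ {Δ : MvPolynomial J ℂ} {c m : ℕ} {u : KK J} :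
    u ∈ Γ Δ c m ↔ ∃ P : MvPolynomial J ℂ, P.totalDegree ≤ c * (m + 1) ∧ u * ι0 Δ ^ m = ι0 P := by
  unfold Γ
  rw [Submodule.mem_comap, Submodule.mem_map]
  constructor
  · rintro ⟨P, hP, h⟩
    exact ⟨P, (mem_restrictTotalDegree J _ P).mp hP, h.symm⟩
  · rintro ⟨P, hP, h⟩
    exact ⟨P, (mem_restrictTotalDegree J _ P).mpr hP, h.symm⟩

theorem Γ_fin {Δ : MvPolynomial J ℂ} (hΔ : Δ ≠ 0) (c m : ℕ) :
    FiniteDimensional ℂ (Γ Δ c m) ∧
      Module.finrank ℂ (Γ Δ c m) ≤ (c * (m + 1) + 1) ^ Fintype.card J := by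
  obtain ⟨h1, h2⟩ := finrank_rtd (J := J) (c * (m + 1))
  set φ : KK J →ₗ[ℂ] KK J := LinearMap.mulRight ℂ (ι0 Δ ^ m) with hφ
  have hinj : Function.Injective φ := by
    intro a b hab
    exact mul_right_cancel₀ (ι0_ne hΔ m) hab
  set M : Submodule ℂ (KK J) := (restrictTotalDegree J ℂ (c * (m + 1))).map (ιL J) with hM
  have hle : (Γ Δ c m).map φ ≤ M := Submodule.map_comap_le _ _
  have hMf : FiniteDimensional ℂ M := inferInstance
  have h3 : FiniteDimensional ℂ ((Γ Δ c m).map φ) := Submodule.finiteDimensional_of_le hle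
  let e := Submodule.equivMapOfInjective φ hinj (Γ Δ c m)
  refine ⟨e.symm.finiteDimensional, ?_⟩
  rw [e.finrank_eq]
  exact (Submodule.finrank_mono hle).trans ((Submodule.finrank_map_le _ _).trans h2)

end

theorem growth {J : Type} [Fintype J] [DecidableEq J] (S : J → Prop) [DecidablePred S]
    (ω : J → KK J) (hω : ∀ i j, dd i (ω j) = dd j (ω i)) (Δ : MvPolynomial J ℂ) (hΔ : Δ ≠ 0)
    (hq : ∀ j, ∃ q : MvPolynomial J ℂ, ω j * ι0 Δ = ι0 q) (V : Submodule ℂ (KK J))
    (hV : ((twist ω hω).unfourier S).Stable V) (h0 : V ≠ ⊥)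
    (hex : ∀ u ∈ V, ∃ (m : ℕ) (P : MvPolynomial J ℂ), u * ι0 Δ ^ m = ι0 P) :
    ∃ U ≤ V, ((twist ω hω).unfourier S).Stable U ∧ U ≠ ⊥ ∧
      ∀ U' ≤ U, ((twist ω hω).unfourier S).Stable U' → U' = ⊥ ∨ U' = U := by
  classical
  choose q hq using hq
  set D := Δ.totalDegree with hD
  set Cq := Finset.univ.sup fun j => (q j).totalDegree with hCq
  set c := D + Cq + 1 with hc
  have hqle : ∀ j, (q j).totalDegree ≤ Cq := fun j =>
    Finset.le_sup (f := fun j => (q j).totalDegree) (Finset.mem_univ j)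
  have hmono : Monotone (Γ Δ c) := by
    refine monotone_nat_of_le_succ fun m u hu => ?_
    obtain ⟨P, hP, h⟩ := mem_Γ.mp hu
    refine mem_Γ.mpr ⟨P * Δ, ?_, ?_⟩
    · refine (totalDegree_mul _ _).trans ?_
      have : c * (m + 1 + 1) = c * (m + 1) + c := by ring
      omega
    · rw [pow_succ, ← mul_assoc, h, map_mul]
  have hx : ∀ m j u, u ∈ Γ Δ c m → (ι0 (X j) : KK J) * u ∈ Γ Δ c (m + 1) := by
    intro m j u hu
    obtain ⟨P, hP, h⟩ := mem_Γ.mp hu
    refine mem_Γ.mpr ⟨X j * P * Δ, ?_, ?_⟩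
    · refine (totalDegree_mul _ _).trans ?_
      have h1 := totalDegree_mul (X j) P
      rw [totalDegree_X] at h1
      have : c * (m + 1 + 1) = c * (m + 1) + c := by ring
      omega
    · rw [map_mul, map_mul, ← h, pow_succ]; ring
  have hd : ∀ m j u, u ∈ Γ Δ c m → dd j u + ω j * u ∈ Γ Δ c (m + 1) := by
    intro m j u hu
    obtain ⟨P, hP, h⟩ := mem_Γ.mp hu
    refine mem_Γ.mpr ⟨_, ?_, der_frac ω Δ j (q j) (hq j) u m P h⟩
    have e : c * (m + 1 + 1) = c * (m + 1) + c := by ring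
    have e1 : (pderiv j P * Δ).totalDegree ≤ c * (m + 1 + 1) := by
      refine (totalDegree_mul _ _).trans ?_
      have := deg_pderiv j P
      omega
    have e2 : (C (m : ℂ) * (P * pderiv j Δ)).totalDegree ≤ c * (m + 1 + 1) := by
      refine (totalDegree_mul _ _).trans ?_
      have h2 := totalDegree_mul P (pderiv j Δ)
      have h3 := deg_pderiv j Δ
      rw [totalDegree_C]
      omega
    have e3 : (q j * P).totalDegree ≤ c * (m + 1 + 1) := by
      refine (totalDegree_mul _ _).trans ?_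
      have := hqle j
      omega
    refine (totalDegree_add _ _).trans (max_le ?_ e3)
    exact (totalDegree_sub _ _).trans (max_le e1 e2)
  have key1 : ∀ m j u, u ∈ Γ Δ c m → ((twist ω hω).unfourier S).x j u ∈ Γ Δ c (m + 1) := by
    intro m j u hu
    show (if S j then -(twist ω hω).d j else (twist ω hω).x j) u ∈ _
    by_cases h : S j
    · rw [if_pos h, LinearMap.neg_apply]
      exact Submodule.neg_mem _ (hd m j u hu)
    · rw [if_neg h]
      exact hx m j u hu
  have key2 : ∀ m j u, u ∈ Γ Δ c m → ((twist ω hω).unfourier S).d j u ∈ Γ Δ c (m + 1) := by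
    intro m j u hu
    show (if S j then (twist ω hω).x j else (twist ω hω).d j) u ∈ _
    by_cases h : S j
    · rw [if_pos h]
      exact hx m j u hu
    · rw [if_neg h]
      exact hd m j u hu
  refine S3.exists_minimal _ (Γ Δ c) hmono key1 key2 (c + 1) (fun m => (Γ_fin hΔ c m).1) ?_ V hV
    h0 ?_
  · intro m
    refine (Γ_fin hΔ c m).2.trans (Nat.pow_le_pow_left ?_ _)
    nlinarith
  · intro u hu
    obtain ⟨m, P, h⟩ := hex u hu
    refine ⟨m + P.totalDegree, mem_Γ.mpr ⟨P * Δ ^ P.totalDegree, ?_, ?_⟩⟩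
    · refine (totalDegree_mul _ _).trans ?_
      have h1 := totalDegree_pow Δ P.totalDegree
      have h2 : P.totalDegree + P.totalDegree * D ≤ c * (m + P.totalDegree + 1) := by
        have : P.totalDegree + P.totalDegree * D = (D + 1) * P.totalDegree := by ring
        rw [this]
        exact Nat.mul_le_mul (by omega) (by omega)
      exact (Nat.add_le_add_left h1 _).trans h2
    · rw [pow_add, ← mul_assoc, h, map_mul, map_pow]

/-- The rational functions with denominator a power of `Δ` form a stable submodule. -/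
theorem frac_stable {J : Type} [Fintype J] [DecidableEq J] (S : J → Prop) [DecidablePred S]
    (ω : J → KK J) (hω : ∀ i j, dd i (ω j) = dd j (ω i)) (Δ : MvPolynomial J ℂ) (hΔ : Δ ≠ 0)
    (hq : ∀ j, ∃ q : MvPolynomial J ℂ, ω j * ι0 Δ = ι0 q) :
    ∃ V : Submodule ℂ (KK J), ((twist ω hω).unfourier S).Stable V ∧
      ∀ u, u ∈ V ↔ ∃ (m : ℕ) (P : MvPolynomial J ℂ), u * ι0 Δ ^ m = ι0 P := by
  choose q hq using hq
  let V : Submodule ℂ (KK J) :=
    { carrier := {u | ∃ (m : ℕ) (P : MvPolynomial J ℂ), u * ι0 Δ ^ m = ι0 P}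
      zero_mem' := ⟨0, 0, by simp⟩
      add_mem' := by
        rintro a b ⟨m, P, h⟩ ⟨n, R, h'⟩
        refine ⟨m + n, P * Δ ^ n + R * Δ ^ m, ?_⟩
        rw [map_add, map_mul, map_mul, ← h, ← h', map_pow, map_pow]
        ring
      smul_mem' := by
        rintro t a ⟨m, P, h⟩
        refine ⟨m, C t * P, ?_⟩
        rw [map_mul, ← h, Algebra.smul_def, IsScalarTower.algebraMap_apply ℂ (MvPolynomial J ℂ)
          (KK J), ← MvPolynomial.algebraMap_eq, mul_assoc] }
  have hx : ∀ j u, u ∈ V → (ι0 (X j) : KK J) * u ∈ V := by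
    rintro j u ⟨m, P, h⟩
    exact ⟨m, X j * P, by rw [map_mul, ← h]; ring⟩
  have hd : ∀ j u, u ∈ V → dd j u + ω j * u ∈ V := by
    rintro j u ⟨m, P, h⟩
    exact ⟨m + 1, _, der_frac ω Δ j (q j) (hq j) u m P h⟩
  refine ⟨V, ⟨?_, ?_⟩, fun u => Iff.rfl⟩
  · intro j u hu
    show (if S j then -(twist ω hω).d j else (twist ω hω).x j) u ∈ _
    by_cases h : S j
    · rw [if_pos h, LinearMap.neg_apply]
      exact Submodule.neg_mem _ (hd j u hu)
    · rw [if_neg h]
      exact hx j u hu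
  · intro j u hu
    show (if S j then (twist ω hω).x j else (twist ω hω).d j) u ∈ _
    by_cases h : S j
    · rw [if_pos h]
      exact hx j u hu
    · rw [if_neg h]
      exact hd j u hu

end Pool.Agent.H495.S7
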