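import Pool.Agent.H495.PosVf2

namespace Pool.Agent.H495.S8

open MvPolynomial Ix

theorem parity (p q l : Polynomial ℂ) (hp : p ≠ 0) (hq : q ≠ 0) (hl : l.natDegree ≤ 2)
    (hd : l.coeff 1 ^ 2 - 4 * l.coeff 0 * l.coeff 2 ≠ 0)
    (h : 2 * l * (q * Polynomial.derivative p - p * Polynomial.derivative q) =
      p * q * Polynomial.derivative l) : False := by
  have hlq : l = Polynomial.C (l.coeff 2) * Polynomial.X ^ 2 + Polynomial.C (l.coeff 1) * Polynomial.X
      + Polynomial.C (l.coeff 0) := Polynomial.eq_quadratic_of_degree_le_two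
        (Polynomial.natDegree_le_iff_degree_le.1 hl)
  have hroot : ∃ z, l.IsRoot z := by
    apply IsAlgClosed.exists_root
    intro h0
    have h1 : l.natDegree = 0 := Polynomial.natDegree_eq_of_degree_eq_some h0
    have h2 : l.coeff 1 = 0 := Polynomial.coeff_eq_zero_of_natDegree_lt (by omega)
    have h3 : l.coeff 2 = 0 := Polynomial.coeff_eq_zero_of_natDegree_lt (by omega)
    apply hd
    rw [h2, h3]
    ring
  obtain ⟨z, hz⟩ := hroot
  have hz' : l.coeff 2 * z ^ 2 + l.coeff 1 * z + l.coeff 0 = 0 := by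
    have := hz
    rw [hlq] at this
    simpa [Polynomial.IsRoot] using this
  have hder : (Polynomial.derivative l).eval z = 2 * l.coeff 2 * z + l.coeff 1 := by
    conv_lhs => rw [hlq]
    simp
    ring
  have hder0 : (Polynomial.derivative l).eval z ≠ 0 := by
    intro h0
    apply hd
    rw [hder] at h0
    have : l.coeff 1 ^ 2 - 4 * l.coeff 0 * l.coeff 2 =
        (2 * l.coeff 2 * z + l.coeff 1) ^ 2 -
          4 * l.coeff 2 * (l.coeff 2 * z ^ 2 + l.coeff 1 * z + l.coeff 0) := by ring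
    rw [this, h0, hz']
    ring
  obtain ⟨μ, hμ⟩ := Polynomial.dvd_iff_isRoot.2 hz
  have hμ0 : μ.eval z = (Polynomial.derivative l).eval z := by
    rw [hμ]
    simp
  obtain ⟨p1, hp1, hp2⟩ := Polynomial.exists_eq_pow_rootMultiplicity_mul_and_not_dvd p hp z
  obtain ⟨q1, hq1, hq2⟩ := Polynomial.exists_eq_pow_rootMultiplicity_mul_and_not_dvd q hq z
  generalize Polynomial.rootMultiplicity z p = a at hp1
  generalize Polynomial.rootMultiplicity z q = b at hq1
  have hp3 : p1.eval z ≠ 0 := fun h0 => hp2 (Polynomial.dvd_iff_isRoot.2 h0)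
  have hq3 : q1.eval z ≠ 0 := fun h0 => hq2 (Polynomial.dvd_iff_isRoot.2 h0)
  set Y : Polynomial ℂ := Polynomial.X - Polynomial.C z with hY
  have hYd : Polynomial.derivative Y = 1 := by rw [hY]; simp
  have dpow : ∀ (n : ℕ) (r : Polynomial ℂ), Y * Polynomial.derivative (Y ^ n * r) =
      Y ^ n * ((n : Polynomial ℂ) * r + Y * Polynomial.derivative r) := by
    intro n r
    rw [Polynomial.derivative_mul, Polynomial.derivative_pow, hYd]
    rcases n with _ | n
    · simp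
    · simp only [Nat.add_sub_cancel, map_natCast]
      ring
  have hrel : Y ^ (a + b) * (2 * μ * (q1 * ((a : Polynomial ℂ) * p1 + Y * Polynomial.derivative p1)
      - p1 * ((b : Polynomial ℂ) * q1 + Y * Polynomial.derivative q1))) =
      Y ^ (a + b) * (p1 * q1 * Polynomial.derivative l) := by
    have e1 := dpow a p1
    have e2 := dpow b q1
    rw [← hp1] at e1
    rw [← hq1] at e2
    have h2 : 2 * μ * (q * (Y * Polynomial.derivative p) - p * (Y * Polynomial.derivative q)) =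
        p * q * Polynomial.derivative l := by
      rw [← h]
      conv_rhs => rw [hμ]
      ring
    rw [e1, e2] at h2
    rw [hp1, hq1] at h2
    linear_combination h2
  have hY0 : Y ^ (a + b) ≠ 0 := pow_ne_zero _ (Polynomial.X_sub_C_ne_zero z)
  have h3 := mul_left_cancel₀ hY0 hrel
  have h4 := congrArg (Polynomial.eval z) h3
  have hYz : Polynomial.eval z Y = 0 := by rw [hY]; simp
  simp only [Polynomial.eval_mul, Polynomial.eval_sub, Polynomial.eval_add, Polynomial.eval_natCast,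
    Polynomial.eval_ofNat, hYz, zero_mul, add_zero, hμ0] at h4
  have h5 : ((2 * a : ℕ) : ℂ) = ((2 * b + 1 : ℕ) : ℂ) := by
    push_cast
    have h6 : (p1.eval z * q1.eval z * (Polynomial.derivative l).eval z) ≠ 0 :=
      mul_ne_zero (mul_ne_zero hp3 hq3) hder0
    apply mul_left_cancel₀ h6
    linear_combination h4
  have h6 := Nat.cast_injective h5
  omega

/-- The derivation. -/
noncomputable def DD : Derivation ℂ (RR 2) (RR 2) :=
  ∑ k : Fin 2, mα 2 k 0 • pd lev (e3 0) (b k)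

theorem DD_apply (f : RR 2) : DD f = ∑ k : Fin 2, mα 2 k 0 * pd lev (e3 0) (b k) f := by
  unfold DD
  rw [derivation_sum_apply]
  rfl

theorem DD_yv (p q : Ix 2) : DD (yv lev p q) =
    if p = e3 0 ∧ q = b 0 then mα 2 0 0 else if p = e3 0 ∧ q = b 1 then mα 2 1 0 else 0 := by
  rw [DD_apply]
  simp only [pd_yv, Fin.sum_univ_two]
  have hl : ∀ k : Fin 2, (lev (e3 0 : Ix 2)) = lev (b k : Ix 2) + 1 := fun k => by norm_num [lev]
  have hl0 := hl 0
  have hl1 := hl 1
  by_cases h0 : p = e3 0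
  · subst h0
    by_cases h1 : q = b 0
    · subst h1
      rw [if_pos ⟨rfl, rfl, hl0⟩, if_neg (by rintro ⟨-, h, -⟩; exact absurd h (by decide)),
        if_pos ⟨rfl, rfl⟩]
      ring
    · by_cases h2 : q = b 1
      · subst h2
        rw [if_neg (by rintro ⟨-, h, -⟩; exact absurd h (by decide)), if_pos ⟨rfl, rfl, hl1⟩,
          if_neg (by rintro ⟨-, h⟩; exact absurd h (by decide)), if_pos ⟨rfl, rfl⟩]
        ring
      · rw [if_neg (fun h => h1 h.2.1.symm), if_neg (fun h => h2 h.2.1.symm),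
          if_neg (fun h => h1 h.2), if_neg (fun h => h2 h.2)]
        ring
  · rw [if_neg (fun h => h0 h.1.symm), if_neg (fun h => h0 h.1.symm),
      if_neg (fun h => h0 h.1), if_neg (fun h => h0 h.1)]
    ring

theorem X_yv (j : J2) : (X j : RR 2) = yv lev j.1.1 j.1.2 := by
  unfold yv
  rw [dif_pos j.2]

theorem DD_α (k : Fin 2) (j : Fin 2) : DD (mα 2 k j) = 0 := by
  unfold mα
  rw [DD_yv, if_neg (by rintro ⟨h, -⟩; exact absurd h (by simp)),
    if_neg (by rintro ⟨h, -⟩; exact absurd h (by simp))]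

/-- The line through `pt` in the direction of `DD`. -/
noncomputable def ln (pt : J2 → ℂ) : RR 2 →ₐ[ℂ] Polynomial ℂ :=
  aeval (fun j => Polynomial.C (pt j) + Polynomial.C (eval pt (DD (X j))) * Polynomial.X)

theorem ln_X (pt : J2 → ℂ) (j : J2) : ln pt (X j) =
    Polynomial.C (pt j) + Polynomial.C (eval pt (DD (X j))) * Polynomial.X := by
  unfold ln
  rw [aeval_X]

theorem ln_yv (pt : J2 → ℂ) (p q : Ix 2) : ln pt (yv lev p q) =
    Polynomial.C (eval pt (yv lev p q)) +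
      Polynomial.C (eval pt (DD (yv lev p q))) * Polynomial.X := by
  by_cases h : lev p = lev q + 1
  · have : yv lev p q = (X ⟨(p, q), h⟩ : RR 2) := by
      unfold yv
      rw [dif_pos h]
    rw [this, ln_X, eval_X]
  · rw [yv_zero lev h]
    simp

theorem ln_α (pt : J2 → ℂ) (k j : Fin 2) : ln pt (mα 2 k j) = Polynomial.C (eval pt (mα 2 k j)) := by
  have h := DD_α k j
  unfold mα at h ⊢
  rw [ln_yv, h]
  simp

theorem ln_DD_yv (pt : J2 → ℂ) (p q : Ix 2) : ln pt (DD (yv lev p q)) =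
    Polynomial.C (eval pt (DD (yv lev p q))) := by
  rw [DD_yv]
  split_ifs
  · exact ln_α pt 0 0
  · exact ln_α pt 1 0
  · simp

theorem ln_der (pt : J2 → ℂ) (f : RR 2) :
    ln pt (DD f) = Polynomial.derivative (ln pt f) := by
  induction f using MvPolynomial.induction_on with
  | C a =>
    have h1 : DD (C a : RR 2) = 0 := by
      rw [← MvPolynomial.algebraMap_eq, Derivation.map_algebraMap]
    have h2 : ln pt (C a : RR 2) = Polynomial.C a := by
      unfold ln
      simp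
    rw [h1, h2]
    simp
  | add p q hp hq => rw [map_add, map_add, hp, hq, map_add, Polynomial.derivative_add]
  | mul_X p j hp =>
    have h1 : ln pt (DD (X j)) = Polynomial.derivative (ln pt (X j)) := by
      rw [X_yv, ln_DD_yv, ln_yv]
      simp
    rw [Derivation.leibniz, map_add, smul_eq_mul, smul_eq_mul, map_mul, map_mul, hp, h1, map_mul,
      Polynomial.derivative_mul]
    ring

theorem ln_eval (pt : J2 → ℂ) (f : RR 2) : (ln pt f).eval 0 = eval pt f := by
  induction f using MvPolynomial.induction_on with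
  | C a =>
    unfold ln
    simp
  | add p q hp hq => rw [map_add, Polynomial.eval_add, hp, hq, map_add]
  | mul_X p j hp => rw [map_mul, Polynomial.eval_mul, hp, map_mul, ln_X, eval_X]; simp

theorem ln_c (pt : J2 → ℂ) (k : Fin 2) (i : Fin 4) : ln pt (mc 2 k i) =
    Polynomial.C (eval pt (mc 2 k i)) +
      Polynomial.C (if i = 0 then eval pt (mα 2 k 0) else 0) * Polynomial.X := by
  unfold mc
  rw [ln_yv, DD_yv]
  congr 3
  by_cases hi : i = 0
  · subst hi
    rw [if_pos rfl]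
    fin_cases k
    · simp
    · simp
  · rw [if_neg hi, if_neg (by rintro ⟨h, -⟩; exact hi (by simpa using h)),
      if_neg (by rintro ⟨h, -⟩; exact hi (by simpa using h))]
    simp

theorem ln_β (pt : J2 → ℂ) (i : Fin 4) (l : Fin 2) : ln pt (mβ 2 i l) =
    Polynomial.C (eval pt (mβ 2 i l)) := by
  unfold mβ
  rw [ln_yv, DD_yv, if_neg (by rintro ⟨-, h⟩; exact absurd h (by simp)),
    if_neg (by rintro ⟨-, h⟩; exact absurd h (by simp))]
  simp

theorem ln_γ (pt : J2 → ℂ) (k : Fin 2) (i : Fin 4) : ln pt (mγ 2 k i) =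
    Polynomial.C (eval pt (mγ 2 k i)) := by
  unfold mγ
  rw [ln_yv, DD_yv, if_neg (by rintro ⟨-, h⟩; exact absurd h (by simp)),
    if_neg (by rintro ⟨-, h⟩; exact absurd h (by simp))]
  simp

theorem ln_d (pt : J2 → ℂ) (i : Fin 4) (l : Fin 2) : ln pt (md 2 i l) =
    Polynomial.C (eval pt (md 2 i l)) := by
  unfold md
  rw [ln_yv, DD_yv, if_neg (by rintro ⟨h, -⟩; exact absurd h (by simp)),
    if_neg (by rintro ⟨h, -⟩; exact absurd h (by simp))]
  simp

theorem ln_cb (pt : J2 → ℂ) (k l : Fin 2) : ln pt ((mc 2 * mβ 2) k l) =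
    Polynomial.C (eval pt ((mc 2 * mβ 2) k l)) +
      Polynomial.C (eval pt (mα 2 k 0) * eval pt (mβ 2 0 l)) * Polynomial.X := by
  simp only [Matrix.mul_apply, Fin.sum_univ_four, map_add, map_mul, ln_c, ln_β]
  have h1 : ((1 : Fin 4) = 0) = False := by decide
  have h2 : ((2 : Fin 4) = 0) = False := by decide
  have h3 : ((3 : Fin 4) = 0) = False := by decide
  simp only [h1, h2, h3, if_true, if_false, map_zero]
  ring

theorem ln_cd (pt : J2 → ℂ) (k l : Fin 2) : ln pt ((mc 2 * md 2) k l) =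
    Polynomial.C (eval pt ((mc 2 * md 2) k l)) +
      Polynomial.C (eval pt (mα 2 k 0) * eval pt (md 2 0 l)) * Polynomial.X := by
  simp only [Matrix.mul_apply, Fin.sum_univ_four, map_add, map_mul, ln_c, ln_d]
  have h1 : ((1 : Fin 4) = 0) = False := by decide
  have h2 : ((2 : Fin 4) = 0) = False := by decide
  have h3 : ((3 : Fin 4) = 0) = False := by decide
  simp only [h1, h2, h3, if_true, if_false, map_zero]
  ring

theorem ln_gb (pt : J2 → ℂ) (k l : Fin 2) : ln pt ((mγ 2 * mβ 2) k l) =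
    Polynomial.C (eval pt ((mγ 2 * mβ 2) k l)) := by
  simp only [Matrix.mul_apply, Fin.sum_univ_four, map_add, map_mul, ln_γ, ln_β]

theorem ln_gd (pt : J2 → ℂ) (k l : Fin 2) : ln pt ((mγ 2 * md 2) k l) =
    Polynomial.C (eval pt ((mγ 2 * md 2) k l)) := by
  simp only [Matrix.mul_apply, Fin.sum_univ_four, map_add, map_mul, ln_γ, ln_d]

theorem ln_v2 (pt : J2 → ℂ) : ln pt v2 = Polynomial.C (eval pt v2) := by
  unfold v2 det4 mn
  simp only [map_add, map_sub, map_mul, ln_β, ln_d]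

theorem ln_v1 (pt : J2 → ℂ) : ln pt v1 = Polynomial.C (eval pt v1) +
    Polynomial.C (
      (eval pt (mα 2 0 0) * eval pt (mc 2 1 1) - eval pt (mα 2 1 0) * eval pt (mc 2 0 1)) *
        eval pt (mn 2 3 (mγ 2 0) (mγ 2 1)) -
      (eval pt (mα 2 0 0) * eval pt (mc 2 1 2) - eval pt (mα 2 1 0) * eval pt (mc 2 0 2)) *
        eval pt (mn 1 3 (mγ 2 0) (mγ 2 1)) +
      (eval pt (mα 2 0 0) * eval pt (mc 2 1 3) - eval pt (mα 2 1 0) * eval pt (mc 2 0 3)) *
        eval pt (mn 1 2 (mγ 2 0) (mγ 2 1))) * Polynomial.X := by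
  unfold v1 det4 mn
  simp only [map_add, map_sub, map_mul, ln_c, ln_γ]
  have h1 : ((1 : Fin 4) = 0) = False := by decide
  have h2 : ((2 : Fin 4) = 0) = False := by decide
  have h3 : ((3 : Fin 4) = 0) = False := by decide
  simp only [h1, h2, h3, if_true, if_false, map_zero]
  ring

theorem ln_dt_cb (pt : J2 → ℂ) : ∃ x y : ℂ, ln pt (dt (mc 2 * mβ 2)) =
    Polynomial.C x + Polynomial.C y * Polynomial.X := by
  refine ⟨eval pt (dt (mc 2 * mβ 2)),
    eval pt ((mc 2 * mβ 2) 0 0) * (eval pt (mα 2 1 0) * eval pt (mβ 2 0 1)) +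
    (eval pt (mα 2 0 0) * eval pt (mβ 2 0 0)) * eval pt ((mc 2 * mβ 2) 1 1) -
    eval pt ((mc 2 * mβ 2) 0 1) * (eval pt (mα 2 1 0) * eval pt (mβ 2 0 0)) -
    (eval pt (mα 2 0 0) * eval pt (mβ 2 0 1)) * eval pt ((mc 2 * mβ 2) 1 0), ?_⟩
  unfold dt
  simp only [map_sub, map_mul, ln_cb, map_add]
  ring

theorem ln_dt_cd (pt : J2 → ℂ) : ∃ x y : ℂ, ln pt (dt (mc 2 * md 2)) =
    Polynomial.C x + Polynomial.C y * Polynomial.X := by
  refine ⟨eval pt (dt (mc 2 * md 2)),
    eval pt ((mc 2 * md 2) 0 0) * (eval pt (mα 2 1 0) * eval pt (md 2 0 1)) +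
    (eval pt (mα 2 0 0) * eval pt (md 2 0 0)) * eval pt ((mc 2 * md 2) 1 1) -
    eval pt ((mc 2 * md 2) 0 1) * (eval pt (mα 2 1 0) * eval pt (md 2 0 0)) -
    (eval pt (mα 2 0 0) * eval pt (md 2 0 1)) * eval pt ((mc 2 * md 2) 1 0), ?_⟩
  unfold dt
  simp only [map_sub, map_mul, ln_cd, map_add]
  ring

theorem ln_lam_deg (pt : J2 → ℂ) : (ln pt lam).natDegree ≤ 2 := by
  obtain ⟨x1, y1, h1⟩ := ln_dt_cb pt
  obtain ⟨x2, y2, h2⟩ := ln_dt_cd pt
  have h3 : ln pt (dt (mγ 2 * mβ 2)) = Polynomial.C (eval pt (dt (mγ 2 * mβ 2))) := by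
    unfold dt
    simp only [map_sub, map_mul, ln_gb]
  have h4 : ln pt (dt (mγ 2 * md 2)) = Polynomial.C (eval pt (dt (mγ 2 * md 2))) := by
    unfold dt
    simp only [map_sub, map_mul, ln_gd]
  have h4' : ln pt (4 : RR 2) = Polynomial.C 4 := by
    rw [map_ofNat]
    rfl
  unfold lam
  simp only [map_sub, map_mul, map_pow, h1, h2, h3, h4, ln_v1, ln_v2, h4']
  generalize eval pt (dt (mγ 2 * mβ 2)) = g1
  generalize eval pt (dt (mγ 2 * md 2)) = g2
  generalize eval pt v1 = g3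
  generalize eval pt v2 = g4
  generalize ((eval pt (mα 2 0 0) * eval pt (mc 2 1 1) - eval pt (mα 2 1 0) * eval pt (mc 2 0 1)) *
        eval pt (mn 2 3 (mγ 2 0) (mγ 2 1)) -
      (eval pt (mα 2 0 0) * eval pt (mc 2 1 2) - eval pt (mα 2 1 0) * eval pt (mc 2 0 2)) *
        eval pt (mn 1 3 (mγ 2 0) (mγ 2 1)) +
      (eval pt (mα 2 0 0) * eval pt (mc 2 1 3) - eval pt (mα 2 1 0) * eval pt (mc 2 0 3)) *
        eval pt (mn 1 2 (mγ 2 0) (mγ 2 1))) = g5
  compute_degree

/-- The special point. -/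
def vs : Ix 2 → Ix 2 → ℂ
  | .b i, .e1 j => if i = j then 1 else 0
  | .e3 i, .b k => if ((k : ℕ) = 0 ∧ (i : ℕ) = 3) ∨ ((k : ℕ) = 1 ∧ ((i : ℕ) = 1 ∨ (i : ℕ) = 2))
      then 1 else 0
  | .e3 i, .p2 l => if (i : ℕ) = l then 1 else 0
  | .p4 k, .e3 i => if ((k : ℕ) = 0 ∧ (i : ℕ) = 1) ∨ ((k : ℕ) = 1 ∧ ((i : ℕ) = 0 ∨ (i : ℕ) = 2))
      then 1 else 0
  | .b4 l, .e3 i => if ((l : ℕ) = 0 ∧ ((i : ℕ) = 1 ∨ (i : ℕ) = 3)) ∨ ((l : ℕ) = 1 ∧ (i : ℕ) = 2)
      then 1 else 0
  | _, _ => 0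

/-- The special point. -/
noncomputable def ps : J2 → ℂ := fun j => vs j.1.1 j.1.2

theorem ps_yv (p q : Ix 2) (h : lev p = lev q + 1) : eval ps (yv lev p q) = vs p q := by
  unfold yv
  rw [dif_pos h, eval_X]
  rfl

theorem gα (k j) : eval ps (mα 2 k j) = if k = j then 1 else 0 := ps_yv _ _ (by simp [lev])
theorem gc (k i) : eval ps (mc 2 k i) =
    if ((k : ℕ) = 0 ∧ (i : ℕ) = 3) ∨ ((k : ℕ) = 1 ∧ ((i : ℕ) = 1 ∨ (i : ℕ) = 2))
      then 1 else 0 := ps_yv _ _ (by norm_num [lev])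
theorem gβ (i l) : eval ps (mβ 2 i l) = if (i : ℕ) = l then 1 else 0 :=
  ps_yv _ _ (by norm_num [lev])
theorem gγ (k i) : eval ps (mγ 2 k i) =
    if ((k : ℕ) = 0 ∧ (i : ℕ) = 1) ∨ ((k : ℕ) = 1 ∧ ((i : ℕ) = 0 ∨ (i : ℕ) = 2))
      then 1 else 0 := ps_yv _ _ (by norm_num [lev])
theorem gd (i l) : eval ps (md 2 i l) =
    if ((l : ℕ) = 0 ∧ ((i : ℕ) = 1 ∨ (i : ℕ) = 3)) ∨ ((l : ℕ) = 1 ∧ (i : ℕ) = 2)
      then 1 else 0 := ps_yv _ _ (by norm_num [lev])

theorem gcb (k j) : eval ps ((mc 2 * mβ 2) k j) =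
    (!![0, 0; 0, 1] : Matrix (Fin 2) (Fin 2) ℂ) k j := by
  rw [Matrix.mul_apply, map_sum]
  simp only [map_mul, gc, gβ, Fin.sum_univ_four]
  fin_cases k <;> fin_cases j <;> simp
theorem gcd' (k j) : eval ps ((mc 2 * md 2) k j) =
    (!![1, 0; 1, 1] : Matrix (Fin 2) (Fin 2) ℂ) k j := by
  rw [Matrix.mul_apply, map_sum]
  simp only [map_mul, gc, gd, Fin.sum_univ_four]
  fin_cases k <;> fin_cases j <;> simp
theorem ggb (k j) : eval ps ((mγ 2 * mβ 2) k j) =
    (!![0, 1; 1, 0] : Matrix (Fin 2) (Fin 2) ℂ) k j := by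
  rw [Matrix.mul_apply, map_sum]
  simp only [map_mul, gγ, gβ, Fin.sum_univ_four]
  fin_cases k <;> fin_cases j <;> simp
theorem ggd (k j) : eval ps ((mγ 2 * md 2) k j) =
    (!![1, 0; 0, 1] : Matrix (Fin 2) (Fin 2) ℂ) k j := by
  rw [Matrix.mul_apply, map_sum]
  simp only [map_mul, gγ, gd, Fin.sum_univ_four]
  fin_cases k <;> fin_cases j <;> simp

theorem gv1 : eval ps v1 = 1 := by
  unfold v1 det4 mn; simp only [map_mul, map_sub, map_add, gc, gγ]; simp
theorem gv2 : eval ps v2 = -1 := by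
  unfold v2 det4 mn; simp only [map_mul, map_sub, map_add, gβ, gd]; simp

theorem ln_ps : ln ps lam = 4 * Polynomial.X + Polynomial.X ^ 2 := by
  have h1 : ln ps (dt (mc 2 * mβ 2)) = Polynomial.X := by
    unfold dt
    simp only [map_sub, map_mul, ln_cb, gcb, gα, gβ]
    simp
  have h2 : ln ps (dt (mc 2 * md 2)) = 1 := by
    unfold dt
    simp only [map_sub, map_mul, ln_cd, gcd', gα, gd]
    simp
  have h3 : ln ps (dt (mγ 2 * mβ 2)) = -1 := by
    unfold dt
    simp only [map_sub, map_mul, ln_gb, ggb]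
    simp
  have h4 : ln ps (dt (mγ 2 * md 2)) = 1 := by
    unfold dt
    simp only [map_sub, map_mul, ln_gd, ggd]
    simp
  have h5 : ln ps v1 = 1 := by
    rw [ln_v1]
    simp only [mn, map_sub, map_mul, gv1, gα, gc, gγ]
    simp
  have h6 : ln ps v2 = -1 := by
    rw [ln_v2, gv2]
    simp
  have h4' : ln ps (4 : RR 2) = 4 := by rw [map_ofNat]
  unfold lam
  simp only [map_sub, map_mul, map_pow, h1, h2, h3, h4, h5, h6, h4']
  ring

/-- The discriminant. -/
noncomputable def Dsc : RR 2 := DD lam ^ 2 - 2 * lam * DD (DD lam)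

theorem Dsc_eval (pt : J2 → ℂ) : eval pt Dsc =
    (ln pt lam).coeff 1 ^ 2 - 4 * (ln pt lam).coeff 0 * (ln pt lam).coeff 2 := by
  unfold Dsc
  rw [← ln_eval pt, map_sub, map_pow, map_mul, map_mul, map_ofNat, ln_der, ln_der, ln_der]
  have hl := Polynomial.eq_quadratic_of_degree_le_two
        (Polynomial.natDegree_le_iff_degree_le.1 (ln_lam_deg pt))
  generalize ln pt lam = l at hl
  generalize l.coeff 0 = c0 at hl
  generalize l.coeff 1 = c1 at hl
  generalize l.coeff 2 = c2 at hl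
  subst hl
  simp
  ring

theorem Dsc_ne : Dsc ≠ 0 := by
  intro h
  have h1 := Dsc_eval ps
  rw [h, ln_ps] at h1
  have e1 : (4 * Polynomial.X + Polynomial.X ^ 2 : Polynomial ℂ).coeff 1 = 4 := by
    rw [Polynomial.coeff_add, show (4 : Polynomial ℂ) = Polynomial.C 4 from rfl,
      Polynomial.coeff_C_mul, Polynomial.coeff_X_one, Polynomial.coeff_X_pow]
    norm_num
  have e0 : (4 * Polynomial.X + Polynomial.X ^ 2 : Polynomial ℂ).coeff 0 = 0 := by
    simp
  rw [e1, e0] at h1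
  norm_num at h1

theorem exD_DD (u : KK J2) : exD DD u =
    ∑ k : Fin 2, ι0 (mα 2 k 0) * pdK (e3 0) (b k) u := by
  unfold DD
  rw [exD_sum, derivation_sum_apply]
  refine Finset.sum_congr rfl fun k _ => ?_
  rw [exD_smul, Derivation.smul_apply, smul_eq_mul]
  rfl

theorem no_sol (u : KK J2) (hu : u ≠ 0)
    (h : 2 * ι0 lam * (∑ k : Fin 2, ι0 (mα 2 k 0) * pdK (e3 0) (b k) u) =
      u * ι0 (∑ k : Fin 2, mα 2 k 0 * pd lev (e3 0) (b k) lam)) : False := by
  rw [← exD_DD, ← DD_apply] at h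
  obtain ⟨P, Q, hQ, rfl⟩ := IsFractionRing.div_surjective (A := RR 2) u
  have hQ0 : Q ≠ 0 := nonZeroDivisors.ne_zero hQ
  have hP0 : P ≠ 0 := by
    rintro rfl
    apply hu
    rw [map_zero, zero_div]
  have hQ1 : (ι0 Q : KK J2) ≠ 0 := ι0_ne hQ0
  have hrel : 2 * lam * (Q * DD P - P * DD Q) = P * Q * DD lam := by
    apply IsFractionRing.injective (RR 2) (KK J2)
    rw [Derivation.leibniz_div, exD_alg, exD_alg] at h
    simp only [smul_eq_mul] at h
    simp only [map_mul, map_sub, map_ofNat]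
    have h2 : (2 * ι0 lam * (ι0 Q * ι0 (DD P) - ι0 P * ι0 (DD Q)) : KK J2) =
        ι0 Q ^ 2 * (2 * ι0 lam * ((ι0 Q ^ 2)⁻¹ * (ι0 Q * ι0 (DD P) - ι0 P * ι0 (DD Q)))) := by
      field_simp
    have h3 : (ι0 P * ι0 Q * ι0 (DD lam) : KK J2) =
        ι0 Q ^ 2 * (ι0 P / ι0 Q * ι0 (DD lam)) := by
      field_simp
    rw [h2, h3, ← inv_pow]
    exact congrArg (fun z => ι0 Q ^ 2 * z) h
  have hne : P * Q * Dsc ≠ 0 := mul_ne_zero (mul_ne_zero hP0 hQ0) Dsc_ne
  have hpt : ∃ pt : J2 → ℂ, eval pt (P * Q * Dsc) ≠ 0 := by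
    by_contra hno
    push Not at hno
    apply hne
    apply MvPolynomial.funext
    intro pt
    rw [hno pt, map_zero]
  obtain ⟨pt, hpt⟩ := hpt
  rw [map_mul, map_mul] at hpt
  have h1 : eval pt P ≠ 0 := fun h0 => hpt (by rw [h0, zero_mul, zero_mul])
  have h2 : eval pt Q ≠ 0 := fun h0 => hpt (by rw [h0, mul_zero, zero_mul])
  have h3 : eval pt Dsc ≠ 0 := fun h0 => hpt (by rw [h0, mul_zero])
  refine parity (ln pt P) (ln pt Q) (ln pt lam) ?_ ?_ (ln_lam_deg pt) ?_ ?_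
  · intro h0
    apply h1
    rw [← ln_eval, h0, Polynomial.eval_zero]
  · intro h0
    apply h2
    rw [← ln_eval, h0, Polynomial.eval_zero]
  · rw [← Dsc_eval]
    exact h3
  · have h4 := congrArg (ln pt) hrel
    simp only [map_mul, map_sub, ln_der, map_ofNat] at h4
    exact h4

end Pool.Agent.H495.S8
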