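import Pool.Agent.H495.Lie

/-!
SUBTASK S9 (helper495, MP_fe6ac3_nt), done by helper870: equivariance of the submodule generated
by a semi-invariant vector.
-/

namespace Pool.Agent.H495.S9

open MvPolynomial

section gen

variable {L : Type} [AddCommGroup L] [Module ℂ L]

/-- the vectors killed by a power of `T` -/
def nilp (T : Module.End ℂ L) : Submodule ℂ L where
  carrier := {u | ∃ k : ℕ, (T ^ k) u = 0}
  zero_mem' := ⟨0, map_zero _⟩
  add_mem' := by
    rintro a b ⟨k, hk⟩ ⟨l, hl⟩
    refine ⟨k + l, ?_⟩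
    have h1 : (T ^ (k + l)) a = 0 := by
      rw [add_comm, pow_add, Module.End.mul_apply, hk, map_zero]
    have h2 : (T ^ (k + l)) b = 0 := by
      rw [pow_add, Module.End.mul_apply, hl, map_zero]
    rw [map_add, h1, h2, add_zero]
  smul_mem' := by
    rintro c a ⟨k, hk⟩
    exact ⟨k, by rw [map_smul, hk, smul_zero]⟩

theorem pow_comm {T A Y : Module.End ℂ L} (h1 : T * A = A * T + Y) (h2 : T * Y = Y * T) (k : ℕ) :
    T ^ (k + 1) * A = A * T ^ (k + 1) + (k + 1 : ℕ) • (Y * T ^ k) := by
  have h3 : ∀ k : ℕ, T ^ k * Y = Y * T ^ k := fun k => by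
    have : Commute T Y := h2
    exact (this.pow_left k).eq
  induction k with
  | zero => rw [zero_add, pow_one, pow_zero, mul_one, one_smul, h1]
  | succ k ih =>
    rw [pow_succ' T (k + 1), mul_assoc, ih, mul_add, ← mul_assoc, h1, add_mul, mul_assoc,
      mul_smul_comm, ← mul_assoc T Y, h2, mul_assoc Y T, ← pow_succ' T k, add_assoc]
    congr 1
    rw [add_smul (k + 1) 1, one_smul, add_comm]

theorem nilp_stable {T A Y : Module.End ℂ L} (h1 : T * A = A * T + Y) (h2 : T * Y = Y * T)
    {u : L} (hu : u ∈ nilp T) : A u ∈ nilp T := by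
  obtain ⟨k, hk⟩ := hu
  refine ⟨k + 1, ?_⟩
  have h := congrArg (fun F : Module.End ℂ L => F u) (pow_comm h1 h2 k)
  simp only [Module.End.mul_apply, LinearMap.add_apply, LinearMap.smul_apply] at h
  rw [h, hk, map_zero, smul_zero, add_zero, pow_succ', Module.End.mul_apply, hk, map_zero,
    map_zero]

/-- the polynomial with the roots in `s` -/
noncomputable def pr (s : Finset ℤ) : Polynomial ℂ :=
  ∏ j ∈ s, (Polynomial.X - Polynomial.C (j : ℂ))

theorem pr_dvd {s t : Finset ℤ} (h : s ⊆ t) : pr s ∣ pr t :=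
  Finset.prod_dvd_prod_of_subset _ _ _ h

theorem kill_mono {T : Module.End ℂ L} {f g : Polynomial ℂ} (h : f ∣ g) {u : L}
    (hu : Polynomial.aeval T f u = 0) : Polynomial.aeval T g u = 0 := by
  obtain ⟨r, rfl⟩ := h
  rw [mul_comm, map_mul, Module.End.mul_apply, hu, map_zero]

/-- the vectors on which `T` is diagonalisable with integral eigenvalues -/
def diag (T : Module.End ℂ L) : Submodule ℂ L where
  carrier := {u | ∃ s : Finset ℤ, Polynomial.aeval T (pr s) u = 0}
  zero_mem' := ⟨∅, map_zero _⟩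
  add_mem' := by
    rintro a b ⟨s, hs⟩ ⟨t, ht⟩
    refine ⟨s ∪ t, ?_⟩
    rw [map_add, kill_mono (pr_dvd Finset.subset_union_left) hs,
      kill_mono (pr_dvd Finset.subset_union_right) ht, add_zero]
  smul_mem' := by
    rintro c a ⟨s, hs⟩
    exact ⟨s, by rw [map_smul, hs, smul_zero]⟩

theorem pr_comm {T A : Module.End ℂ L} {c : ℤ} (h : T * A = A * T + (c : ℂ) • A) (s : Finset ℤ) :
    Polynomial.aeval T (pr (s.image (· + c))) * A = A * Polynomial.aeval T (pr s) := by
  classical
  have hinj : Set.InjOn (fun j : ℤ => j + c) s := fun a _ b _ hab => by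
    simpa using hab
  unfold pr
  rw [Finset.prod_image hinj]
  induction s using Finset.induction_on with
  | empty => simp
  | insert a s ha ih =>
    rw [Finset.prod_insert ha, Finset.prod_insert ha, map_mul, map_mul, mul_assoc,
      ih (fun a _ b _ hab => by simpa using hab), ← mul_assoc, ← mul_assoc]
    congr 1
    rw [map_sub, map_sub, Polynomial.aeval_X, Polynomial.aeval_C, Polynomial.aeval_C, sub_mul,
      mul_sub, h, Int.cast_add, map_add, add_mul]
    have e1 : ∀ z : ℂ, algebraMap ℂ (Module.End ℂ L) z * A = z • A := fun z => by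
      rw [Algebra.smul_def]
    have e2 : A * algebraMap ℂ (Module.End ℂ L) (a : ℂ) = (a : ℂ) • A := by
      rw [← Algebra.commutes, Algebra.smul_def]
    rw [e1, e1, e2]
    abel

theorem diag_stable {T A : Module.End ℂ L} {c : ℤ} (h : T * A = A * T + (c : ℂ) • A)
    {u : L} (hu : u ∈ diag T) : A u ∈ diag T := by
  classical
  obtain ⟨s, hs⟩ := hu
  refine ⟨s.image (· + c), ?_⟩
  rw [← Module.End.mul_apply, pr_comm h, Module.End.mul_apply, hs, map_zero]

end gen

variable {ι : Type} [Fintype ι] [DecidableEq ι] {e : ι → ℚ} {L : Type} [AddCommGroup L]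
    [Module ℂ L] (W : WeylModule (Idx e) L)

theorem x_eq (j : Idx e) : W.x j = xop W j.1.1 j.1.2 := by
  rw [xop, dif_pos j.2]

theorem d_eq (j : Idx e) : W.d j = Pool.Agent.H495.dop W j.1.1 j.1.2 := by
  rw [Pool.Agent.H495.dop, dif_pos j.2]

theorem stable_nilp {p q : ι} (hpq : e p = e q) (hne : p ≠ q) :
    W.Stable (nilp (vf W p q)) := by
  have hx : xop W q p = 0 := xop_zero W (by rw [hpq]; simp)
  have hd : Pool.Agent.H495.dop W p q = 0 := dop_zero W (by rw [hpq]; simp)
  constructor
  · intro j u hu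
    rw [x_eq]
    refine nilp_stable (vf_xop W hpq _ _) ?_ hu
    have h1 : ∀ s, vf W p q * xop W q s = xop W q s * vf W p q := by
      intro s
      rw [vf_xop W hpq, if_neg hne, hx]
      simp
    have h2 : ∀ r, vf W p q * xop W r p = xop W r p * vf W p q := by
      intro r
      rw [vf_xop W hpq, if_neg hne.symm, hx]
      simp
    rw [mul_sub, sub_mul]
    congr 1
    · split_ifs
      · exact h1 _
      · simp
    · split_ifs
      · exact h2 _
      · simp
  · intro j u hu
    rw [d_eq]
    refine nilp_stable (vf_dop W hpq _ _) ?_ hu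
    have h1 : ∀ r, vf W p q * Pool.Agent.H495.dop W r q = Pool.Agent.H495.dop W r q * vf W p q := by
      intro r
      rw [vf_dop W hpq, if_neg hne, hd]
      simp
    have h2 : ∀ s, vf W p q * Pool.Agent.H495.dop W p s = Pool.Agent.H495.dop W p s * vf W p q := by
      intro s
      rw [vf_dop W hpq, if_neg hne.symm, hd]
      simp
    rw [mul_sub, sub_mul]
    congr 1
    · split_ifs
      · exact h1 _
      · simp
    · split_ifs
      · exact h2 _
      · simp

theorem stable_diag (p : ι) : W.Stable (diag (vf W p p)) := by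
  constructor
  · intro j u hu
    rw [x_eq]
    refine diag_stable (c := (if p = j.1.1 then 1 else 0) - (if p = j.1.2 then 1 else 0)) ?_ hu
    rw [vf_xop W rfl]
    congr 1
    by_cases h1 : p = j.1.1
    · by_cases h2 : p = j.1.2
      · rw [if_pos h1, if_pos h2, if_pos h1, if_pos h2, ← h1, ← h2]
        simp
      · rw [if_pos h1, if_neg h2, if_pos h1, if_neg h2, ← h1]
        simp
    · by_cases h2 : p = j.1.2
      · rw [if_neg h1, if_pos h2, if_neg h1, if_pos h2, ← h2]
        simp
      · rw [if_neg h1, if_neg h2, if_neg h1, if_neg h2]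
        simp
  · intro j u hu
    rw [d_eq]
    refine diag_stable (c := (if p = j.1.2 then 1 else 0) - (if p = j.1.1 then 1 else 0)) ?_ hu
    rw [vf_dop W rfl]
    congr 1
    by_cases h1 : p = j.1.1
    · by_cases h2 : p = j.1.2
      · rw [if_pos h1, if_pos h2, if_pos h1, if_pos h2, ← h1, ← h2]
        simp
      · rw [if_pos h1, if_neg h2, if_pos h1, if_neg h2, ← h1]
        simp
    · by_cases h2 : p = j.1.2
      · rw [if_neg h1, if_pos h2, if_neg h1, if_pos h2, ← h2]
        simp
      · rw [if_neg h1, if_neg h2, if_neg h1, if_neg h2]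
        simp

theorem eqv_span {ι : Type} [Fintype ι] [DecidableEq ι] {e : ι → ℚ} {L : Type} [AddCommGroup L]
    [Module ℂ L] (W : WeylModule (Idx e) L) (v0 : L)
    (h1 : ∀ p q, e p = e q → p ≠ q → vf W p q v0 = 0)
    (h2 : ∀ p, ∃ c : ℤ, vf W p p v0 = (c : ℂ) • v0) (V : Submodule ℂ L)
    (hV : ∀ V' : Submodule ℂ L, W.Stable V' → v0 ∈ V' → V ≤ V') (u : L) (hu : u ∈ V) :
    (∀ p q, e p = e q → p ≠ q → ∃ k : ℕ, ((vf W p q) ^ k) u = 0) ∧
    (∀ p, ∃ s : Finset ℤ,
      Polynomial.aeval (vf W p p) (∏ j ∈ s, (Polynomial.X - Polynomial.C (j : ℂ))) u = 0) := by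
  refine ⟨fun p q hpq hne => ?_, fun p => ?_⟩
  · exact hV _ (stable_nilp W hpq hne) ⟨1, by rw [pow_one]; exact h1 p q hpq hne⟩ hu
  · obtain ⟨c, hc⟩ := h2 p
    have h3 : v0 ∈ diag (vf W p p) := by
      refine ⟨{c}, ?_⟩
      unfold pr
      rw [Finset.prod_singleton, map_sub, Polynomial.aeval_X, Polynomial.aeval_C,
        LinearMap.sub_apply, hc, Module.algebraMap_end_apply, sub_self]
    exact hV _ (stable_diag W p) h3 hu

end Pool.Agent.H495.S9
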