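import Pool.Agent.H495.PosFF
import Pool.Agent.H495.PosVf6
import Pool.Agent.H495.Restr
import Pool.Agent.H495.S1
import Pool.Agent.H495.S2
import Pool.Agent.H495.S6
import Pool.Agent.H495.S7
import Pool.Agent.H495.S8
import Pool.Agent.H495.S9
import Pool.Agent.H495.S10
import Pool.Agent.H495.S11

/-! The positive half. -/

namespace Pool.Agent.H495

open MvPolynomial Ix WeylModule

theorem V_ne (p q : Ix 2) (h : lev p = lev q) (hne : p ≠ q) : vf WP p q 1 = 0 := by
  cases p with
  | e1 i =>
    cases q with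
    | e1 j => rw [V_E1, if_neg (fun hij => hne (by rw [hij]))]
    | b j => exact absurd h (by norm_num [lev])
    | p2 j => exact absurd h (by norm_num [lev])
    | e3 j => exact absurd h (by norm_num [lev])
    | p4 j => exact absurd h (by norm_num [lev])
    | b4 j => exact absurd h (by norm_num [lev])
    | e5 j => exact absurd h (by norm_num [lev])
  | b i =>
    cases q with
    | e1 j => exact absurd h (by norm_num [lev])
    | b j => rw [V_B, if_neg (fun hij => hne (by rw [hij]))]
    | p2 j => exact V_BP2 i j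
    | e3 j => exact absurd h (by norm_num [lev])
    | p4 j => exact absurd h (by norm_num [lev])
    | b4 j => exact absurd h (by norm_num [lev])
    | e5 j => exact absurd h (by norm_num [lev])
  | p2 i =>
    cases q with
    | e1 j => exact absurd h (by norm_num [lev])
    | b j => exact V_P2B i j
    | p2 j => rw [V_P2, if_neg (fun hij => hne (by rw [hij]))]
    | e3 j => exact absurd h (by norm_num [lev])
    | p4 j => exact absurd h (by norm_num [lev])
    | b4 j => exact absurd h (by norm_num [lev])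
    | e5 j => exact absurd h (by norm_num [lev])
  | e3 i =>
    cases q with
    | e1 j => exact absurd h (by norm_num [lev])
    | b j => exact absurd h (by norm_num [lev])
    | p2 j => exact absurd h (by norm_num [lev])
    | e3 j => rw [V_E3, if_neg (fun hij => hne (by rw [hij]))]
    | p4 j => exact absurd h (by norm_num [lev])
    | b4 j => exact absurd h (by norm_num [lev])
    | e5 j => exact absurd h (by norm_num [lev])
  | p4 i =>
    cases q with
    | e1 j => exact absurd h (by norm_num [lev])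
    | b j => exact absurd h (by norm_num [lev])
    | p2 j => exact absurd h (by norm_num [lev])
    | e3 j => exact absurd h (by norm_num [lev])
    | p4 j => rw [V_P4, if_neg (fun hij => hne (by rw [hij]))]
    | b4 j => exact V_P4B4 j i
    | e5 j => exact absurd h (by norm_num [lev])
  | b4 i =>
    cases q with
    | e1 j => exact absurd h (by norm_num [lev])
    | b j => exact absurd h (by norm_num [lev])
    | p2 j => exact absurd h (by norm_num [lev])
    | e3 j => exact absurd h (by norm_num [lev])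
    | p4 j => exact V_B4P4 i j
    | b4 j => rw [V_B4, if_neg (fun hij => hne (by rw [hij]))]
    | e5 j => exact absurd h (by norm_num [lev])
  | e5 i =>
    cases q with
    | e1 j => exact absurd h (by norm_num [lev])
    | b j => exact absurd h (by norm_num [lev])
    | p2 j => exact absurd h (by norm_num [lev])
    | e3 j => exact absurd h (by norm_num [lev])
    | p4 j => exact absurd h (by norm_num [lev])
    | b4 j => exact absurd h (by norm_num [lev])
    | e5 j => rw [V_E5, if_neg (fun hij => hne (by rw [hij]))]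

theorem V_diag (p : Ix 2) : ∃ c : ℤ, vf WP p p 1 = (c : ℂ) • (1 : KK J2) := by
  cases p with
  | e1 i => exact ⟨_, by rw [V_E1, if_pos rfl]⟩
  | b i => exact ⟨_, by rw [V_B, if_pos rfl]⟩
  | p2 i => exact ⟨_, by rw [V_P2, if_pos rfl]⟩
  | e3 i => exact ⟨_, by rw [V_E3, if_pos rfl]⟩
  | p4 i => exact ⟨_, by rw [V_P4, if_pos rfl]⟩
  | b4 i => exact ⟨_, by rw [V_B4, if_pos rfl]⟩
  | e5 i => exact ⟨_, by rw [V_E5, if_pos rfl]⟩

/-- The module generated by `1`. -/
noncomputable def V1 : Submodule ℂ (KK J2) := sInf {V | WP.Stable V ∧ (1 : KK J2) ∈ V}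

theorem V1_stable : WP.Stable V1 := by
  constructor
  · intro j u hu
    rw [V1, Submodule.mem_sInf] at hu ⊢
    exact fun V hV => hV.1.1 j u (hu V hV)
  · intro j u hu
    rw [V1, Submodule.mem_sInf] at hu ⊢
    exact fun V hV => hV.1.2 j u (hu V hV)

theorem one_mem_V1 : (1 : KK J2) ∈ V1 := by
  rw [V1, Submodule.mem_sInf]; exact fun V hV => hV.2

theorem V1_le {V : Submodule ℂ (KK J2)} (h : WP.Stable V) (h1 : (1 : KK J2) ∈ V) : V1 ≤ V :=
  sInf_le ⟨h, h1⟩

theorem V1_frac (u : KK J2) (hu : u ∈ V1) : ∃ (m : ℕ) (P : RR 2), u * ι0 ΔΔ ^ m = ι0 P := by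
  obtain ⟨V, hV, hm⟩ := S7.frac_stable Sf ω2 ω2_closed ΔΔ Δ_ne hq
  refine (hm u).1 (V1_le hV ?_ hu)
  rw [hm]
  exact ⟨0, 1, by simp⟩

theorem exists_min : ∃ U ≤ V1, WP.Stable U ∧ U ≠ ⊥ ∧
    ∀ U' ≤ U, WP.Stable U' → U' = ⊥ ∨ U' = U := by
  refine S7.growth Sf ω2 ω2_closed ΔΔ Δ_ne hq V1 V1_stable ?_ V1_frac
  intro h
  have := one_mem_V1
  rw [h, Submodule.mem_bot] at this
  exact one_ne_zero this

/-- `ff` is nowhere nilpotent. -/
theorem ff_not_nilp (u : KK J2) (hu : u ≠ 0) (k : ℕ) (h : ((WP.fn ff) ^ k) u = 0) : False := by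
  induction k with
  | zero => exact hu (by simpa using h)
  | succ k ih =>
    by_cases h0 : ((WP.fn ff) ^ k) u = 0
    · exact ih h0
    · rw [pow_succ', Module.End.mul_apply] at h
      refine S8.no_sol _ h0 ?_
      rw [ff_act, neg_eq_zero, sub_eq_zero] at h
      rw [h]
      have e3 : (ι0 lam : KK J2) ≠ 0 := ι0_ne lam_ne
      field_simp

theorem eval_yvP {x : Matrix (Ix 2) (Ix 2) ℂ} (hx : x ∈ Vogan (lev (m := 2))) (p q : Ix 2) :
    eval (coord lev x) (yv lev p q) = x p q := by
  unfold yv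
  by_cases h : lev p = lev q + 1
  · rw [dif_pos h, eval_X]; rfl
  · rw [dif_neg h, map_zero, hx p q h]

theorem eval_ffP {x : Matrix (Ix 2) (Ix 2) ℂ} (hx : x ∈ Vogan (lev (m := 2))) :
    eval (coord lev x) ff = (x * x) (e3 0) (e1 0) := by
  rw [ff, map_add, map_sum, map_sum, Matrix.mul_apply, sum_ix]
  simp only [map_mul, eval_yvP hx]
  have hz : ∀ p q : Ix 2, lev p ≠ lev q + 1 → x p q = 0 := hx
  simp only [hz (e3 _) (e1 _) (by norm_num [lev]), hz (e3 _) (e3 _) (by norm_num [lev]),
    hz (e3 _) (p4 _) (by norm_num [lev]), hz (e3 _) (b4 _) (by norm_num [lev]),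
    hz (e3 _) (e5 _) (by norm_num [lev]), zero_mul, Finset.sum_const_zero, add_zero, zero_add]

theorem pos_half : ∃ M ∈ Vogan (lev (m := 2)), (∃ i j, (M * M) (e3 i) (e1 j) ≠ 0) ∧
    InABV lev ksN.transpose M := by
  obtain ⟨U, hU1, hU2, hU3, hU4⟩ := exists_min
  have hs : (WP.restr U hU2).IsSimple := restr_simple WP U hU2 hU3 hU4
  have he : IsEquivariant (WP.restr U hU2) :=
    restr_equivariant WP U hU2 (S9.eqv_span WP 1 V_ne V_diag U fun V' hV' h1 =>
      hU1.trans (V1_le hV' h1))
  obtain ⟨M, hM, hsupp⟩ := S6.supp_orbit (fun x hx => S1.graded_jordan lev x hx)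
    (WP.restr U hU2) hs (fun x hx hsx g hg => S2.supp_stable _ he hx hsx hg)
  obtain ⟨u, hu, hu0⟩ := Submodule.exists_mem_ne_zero_of_ne_bot hU3
  refine ⟨M, hM, ?_, ?_⟩
  · by_contra hcon
    push Not at hcon
    have hvan : ∀ x ∈ (WP.restr U hU2).supp, eval x ff = 0 := by
      intro x hx
      rw [hsupp] at hx
      refine hx ff ?_
      rintro _ ⟨h, hh, rfl⟩
      rw [eval_ffP (S6.conj_vogan hh hM)]
      have hdet : IsUnit h.det := (Matrix.isUnit_iff_isUnit_det h).1 hh.1
      have h1 : h * M * h⁻¹ * (h * M * h⁻¹) = h * (M * M) * h⁻¹ := by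
        calc h * M * h⁻¹ * (h * M * h⁻¹) = h * M * (h⁻¹ * h) * M * h⁻¹ := by
              simp only [Matrix.mul_assoc]
          _ = h * (M * M) * h⁻¹ := by
              rw [Matrix.nonsing_inv_mul _ hdet, Matrix.mul_one]; simp only [Matrix.mul_assoc]
      rw [h1, Matrix.mul_apply]
      refine Finset.sum_eq_zero fun q _ => ?_
      by_cases hq : lev q = lev (e1 0 : Ix 2)
      · rw [Matrix.mul_apply, Finset.sum_mul]
        refine Finset.sum_eq_zero fun p _ => ?_
        by_cases hp : lev (e3 0 : Ix 2) = lev p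
        · have hMM : (M * M) p q = 0 := by
            cases p <;> cases q <;> first
              | exact hcon _ _
              | (exfalso; revert hp; norm_num [lev]; done)
              | (exfalso; revert hq; norm_num [lev]; done)
          rw [hMM, mul_zero, zero_mul]
        · rw [hh.2 _ _ hp, zero_mul, zero_mul]
      · rw [(S6.inv_hgroup hh).2 _ _ hq, mul_zero]
    have hnil := S6.mem_nilIdeal_of_vanish (WP.restr U hU2) ff hvan
    rw [S6.mem_nilIdeal] at hnil
    obtain ⟨k, hk⟩ := hnil ⟨u, hu⟩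
    rw [map_pow] at hk
    have h2 := congrArg (Subtype.val) hk
    rw [coe_pow (restr_fn WP U hU2 ff)] at h2
    exact ff_not_nilp u hu0 k h2
  · refine ⟨U, inferInstance, inferInstance, WP.restr U hU2, ⟨hs, he, hsupp⟩, fun ξ hξ => ?_⟩
    obtain ⟨pt, hX, hΞ⟩ := S11.phase_point ξ hξ
    refine ⟨⟨u, hu⟩, fun m P hP h0 => ?_⟩
    obtain ⟨n, P0, hP0⟩ := V1_frac u (hU1 hu)
    have h0' : WP.op P u = 0 := by
      rw [← restr_op WP U hU2 P ⟨u, hu⟩, h0]; rfl
    exact S10.char_point Sf ω2 (fun j => dd j Φ) ω2_closed hθ1 hl1 hθ0 hl0 ΔΔ Δ_ne 8 H_Δ u hu0 n P0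
      hP0 pt _ ξ hX hΞ m P hP h0'

end Pool.Agent.H495
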