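import Pool.Agent.H495.KSfun

/-! Function matrices for the positive half. -/

namespace Pool.Agent.H495

open MvPolynomial Ix

/-- Weights selecting the coordinates `c` and `d` for the Fourier transform. -/
def w2 : Ix 2 → ℕ
  | e1 _ => 5
  | b _ => 0
  | p2 _ => 7
  | e3 _ => 1
  | p4 _ => 9
  | b4 _ => 2
  | e5 _ => 11

noncomputable def ma : Matrix (Fin 2) (Fin 2) (RR 2) := fun l j => yv lev (p2 l) (e1 j)
noncomputable def mb : Matrix (Fin 2) (Fin 2) (RR 2) := fun i k => yv lev (e5 i) (p4 k)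

/-- The derivations of a group. -/
noncomputable def DD2 {n : ℕ} (pos : Fin n → Ix 2) (i j : Fin n) : Derivation ℂ (RR 2) (RR 2) :=
  der lev w2 (pos i) (pos j)

theorem E32_α : ScM (DD2 e3) 0 (mα 2) := by
  intro k l i j
  simp [DD2, der_yv, lev, w2, mα, mas, ma, mc, mβ, mγ, md, mδ, mbs, mb, eq_comm]
theorem E32_a : ScM (DD2 e3) 0 (ma) := by
  intro k l i j
  simp [DD2, der_yv, lev, w2, mα, mas, ma, mc, mβ, mγ, md, mδ, mbs, mb, eq_comm]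
theorem E32_c : ColM (DD2 e3) 0 (mc 2) := by
  intro k l i j
  simp [DD2, der_yv, lev, w2, mα, mas, ma, mc, mβ, mγ, md, mδ, mbs, mb, eq_comm]
theorem E32_β : RowM (DD2 e3) 0 (mβ 2) := by
  intro k l i j
  simp [DD2, der_yv, lev, w2, mα, mas, ma, mc, mβ, mγ, md, mδ, mbs, mb, eq_comm]
theorem E32_γ : ColM (DD2 e3) 0 (mγ 2) := by
  intro k l i j
  simp [DD2, der_yv, lev, w2, mα, mas, ma, mc, mβ, mγ, md, mδ, mbs, mb, eq_comm]
theorem E32_d : RowM (DD2 e3) 0 (md 2) := by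
  intro k l i j
  simp [DD2, der_yv, lev, w2, mα, mas, ma, mc, mβ, mγ, md, mδ, mbs, mb, eq_comm]
theorem E32_δ : ScM (DD2 e3) 0 (mδ 2) := by
  intro k l i j
  simp [DD2, der_yv, lev, w2, mα, mas, ma, mc, mβ, mγ, md, mδ, mbs, mb, eq_comm]
theorem E32_bb : ScM (DD2 e3) 0 (mb) := by
  intro k l i j
  simp [DD2, der_yv, lev, w2, mα, mas, ma, mc, mβ, mγ, md, mδ, mbs, mb, eq_comm]
theorem B2_α : RowM (DD2 b) 0 (mα 2) := by
  intro k l i j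
  simp [DD2, der_yv, lev, w2, mα, mas, ma, mc, mβ, mγ, md, mδ, mbs, mb, eq_comm]
theorem B2_a : ScM (DD2 b) 0 (ma) := by
  intro k l i j
  simp [DD2, der_yv, lev, w2, mα, mas, ma, mc, mβ, mγ, md, mδ, mbs, mb, eq_comm]
theorem B2_c : RowM (DD2 b) 0 (mc 2) := by
  intro k l i j
  simp [DD2, der_yv, lev, w2, mα, mas, ma, mc, mβ, mγ, md, mδ, mbs, mb, eq_comm]
theorem B2_β : ScM (DD2 b) 0 (mβ 2) := by
  intro k l i j
  simp [DD2, der_yv, lev, w2, mα, mas, ma, mc, mβ, mγ, md, mδ, mbs, mb, eq_comm]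
theorem B2_γ : ScM (DD2 b) 0 (mγ 2) := by
  intro k l i j
  simp [DD2, der_yv, lev, w2, mα, mas, ma, mc, mβ, mγ, md, mδ, mbs, mb, eq_comm]
theorem B2_d : ScM (DD2 b) 0 (md 2) := by
  intro k l i j
  simp [DD2, der_yv, lev, w2, mα, mas, ma, mc, mβ, mγ, md, mδ, mbs, mb, eq_comm]
theorem B2_δ : ScM (DD2 b) 0 (mδ 2) := by
  intro k l i j
  simp [DD2, der_yv, lev, w2, mα, mas, ma, mc, mβ, mγ, md, mδ, mbs, mb, eq_comm]
theorem B2_bb : ScM (DD2 b) 0 (mb) := by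
  intro k l i j
  simp [DD2, der_yv, lev, w2, mα, mas, ma, mc, mβ, mγ, md, mδ, mbs, mb, eq_comm]
theorem E12_α : ColM (DD2 e1) 0 (mα 2) := by
  intro k l i j
  simp [DD2, der_yv, lev, w2, mα, mas, ma, mc, mβ, mγ, md, mδ, mbs, mb, eq_comm]
theorem E12_a : ColM (DD2 e1) 0 (ma) := by
  intro k l i j
  simp [DD2, der_yv, lev, w2, mα, mas, ma, mc, mβ, mγ, md, mδ, mbs, mb, eq_comm]
theorem E12_c : ScM (DD2 e1) 0 (mc 2) := by
  intro k l i j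
  simp [DD2, der_yv, lev, w2, mα, mas, ma, mc, mβ, mγ, md, mδ, mbs, mb, eq_comm]
theorem E12_β : ScM (DD2 e1) 0 (mβ 2) := by
  intro k l i j
  simp [DD2, der_yv, lev, w2, mα, mas, ma, mc, mβ, mγ, md, mδ, mbs, mb, eq_comm]
theorem E12_γ : ScM (DD2 e1) 0 (mγ 2) := by
  intro k l i j
  simp [DD2, der_yv, lev, w2, mα, mas, ma, mc, mβ, mγ, md, mδ, mbs, mb, eq_comm]
theorem E12_d : ScM (DD2 e1) 0 (md 2) := by
  intro k l i j
  simp [DD2, der_yv, lev, w2, mα, mas, ma, mc, mβ, mγ, md, mδ, mbs, mb, eq_comm]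
theorem E12_δ : ScM (DD2 e1) 0 (mδ 2) := by
  intro k l i j
  simp [DD2, der_yv, lev, w2, mα, mas, ma, mc, mβ, mγ, md, mδ, mbs, mb, eq_comm]
theorem E12_bb : ScM (DD2 e1) 0 (mb) := by
  intro k l i j
  simp [DD2, der_yv, lev, w2, mα, mas, ma, mc, mβ, mγ, md, mδ, mbs, mb, eq_comm]
theorem E52_α : ScM (DD2 e5) 0 (mα 2) := by
  intro k l i j
  simp [DD2, der_yv, lev, w2, mα, mas, ma, mc, mβ, mγ, md, mδ, mbs, mb, eq_comm]
theorem E52_a : ScM (DD2 e5) 0 (ma) := by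
  intro k l i j
  simp [DD2, der_yv, lev, w2, mα, mas, ma, mc, mβ, mγ, md, mδ, mbs, mb, eq_comm]
theorem E52_c : ScM (DD2 e5) 0 (mc 2) := by
  intro k l i j
  simp [DD2, der_yv, lev, w2, mα, mas, ma, mc, mβ, mγ, md, mδ, mbs, mb, eq_comm]
theorem E52_β : ScM (DD2 e5) 0 (mβ 2) := by
  intro k l i j
  simp [DD2, der_yv, lev, w2, mα, mas, ma, mc, mβ, mγ, md, mδ, mbs, mb, eq_comm]
theorem E52_γ : ScM (DD2 e5) 0 (mγ 2) := by
  intro k l i j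
  simp [DD2, der_yv, lev, w2, mα, mas, ma, mc, mβ, mγ, md, mδ, mbs, mb, eq_comm]
theorem E52_d : ScM (DD2 e5) 0 (md 2) := by
  intro k l i j
  simp [DD2, der_yv, lev, w2, mα, mas, ma, mc, mβ, mγ, md, mδ, mbs, mb, eq_comm]
theorem E52_δ : RowM (DD2 e5) 0 (mδ 2) := by
  intro k l i j
  simp [DD2, der_yv, lev, w2, mα, mas, ma, mc, mβ, mγ, md, mδ, mbs, mb, eq_comm]
theorem E52_bb : RowM (DD2 e5) 0 (mb) := by
  intro k l i j
  simp [DD2, der_yv, lev, w2, mα, mas, ma, mc, mβ, mγ, md, mδ, mbs, mb, eq_comm]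
theorem P22_α : ScM (DD2 p2) 0 (mα 2) := by
  intro k l i j
  simp [DD2, der_yv, lev, w2, mα, mas, ma, mc, mβ, mγ, md, mδ, mbs, mb, eq_comm]
theorem P22_a : RowM (DD2 p2) 0 (ma) := by
  intro k l i j
  simp [DD2, der_yv, lev, w2, mα, mas, ma, mc, mβ, mγ, md, mδ, mbs, mb, eq_comm]
theorem P22_c : ScM (DD2 p2) 0 (mc 2) := by
  intro k l i j
  simp [DD2, der_yv, lev, w2, mα, mas, ma, mc, mβ, mγ, md, mδ, mbs, mb, eq_comm]
theorem P22_β : ColM (DD2 p2) 0 (mβ 2) := by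
  intro k l i j
  simp [DD2, der_yv, lev, w2, mα, mas, ma, mc, mβ, mγ, md, mδ, mbs, mb, eq_comm]
theorem P22_γ : ScM (DD2 p2) 0 (mγ 2) := by
  intro k l i j
  simp [DD2, der_yv, lev, w2, mα, mas, ma, mc, mβ, mγ, md, mδ, mbs, mb, eq_comm]
theorem P22_d : ScM (DD2 p2) 0 (md 2) := by
  intro k l i j
  simp [DD2, der_yv, lev, w2, mα, mas, ma, mc, mβ, mγ, md, mδ, mbs, mb, eq_comm]
theorem P22_δ : ScM (DD2 p2) 0 (mδ 2) := by
  intro k l i j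
  simp [DD2, der_yv, lev, w2, mα, mas, ma, mc, mβ, mγ, md, mδ, mbs, mb, eq_comm]
theorem P22_bb : ScM (DD2 p2) 0 (mb) := by
  intro k l i j
  simp [DD2, der_yv, lev, w2, mα, mas, ma, mc, mβ, mγ, md, mδ, mbs, mb, eq_comm]
theorem B42_α : ScM (DD2 b4) 0 (mα 2) := by
  intro k l i j
  simp [DD2, der_yv, lev, w2, mα, mas, ma, mc, mβ, mγ, md, mδ, mbs, mb, eq_comm]
theorem B42_a : ScM (DD2 b4) 0 (ma) := by
  intro k l i j
  simp [DD2, der_yv, lev, w2, mα, mas, ma, mc, mβ, mγ, md, mδ, mbs, mb, eq_comm]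
theorem B42_c : ScM (DD2 b4) 0 (mc 2) := by
  intro k l i j
  simp [DD2, der_yv, lev, w2, mα, mas, ma, mc, mβ, mγ, md, mδ, mbs, mb, eq_comm]
theorem B42_β : ScM (DD2 b4) 0 (mβ 2) := by
  intro k l i j
  simp [DD2, der_yv, lev, w2, mα, mas, ma, mc, mβ, mγ, md, mδ, mbs, mb, eq_comm]
theorem B42_γ : ScM (DD2 b4) 0 (mγ 2) := by
  intro k l i j
  simp [DD2, der_yv, lev, w2, mα, mas, ma, mc, mβ, mγ, md, mδ, mbs, mb, eq_comm]
theorem B42_d : ColM (DD2 b4) 0 (md 2) := by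
  intro k l i j
  simp [DD2, der_yv, lev, w2, mα, mas, ma, mc, mβ, mγ, md, mδ, mbs, mb, eq_comm]
theorem B42_δ : ColM (DD2 b4) 0 (mδ 2) := by
  intro k l i j
  simp [DD2, der_yv, lev, w2, mα, mas, ma, mc, mβ, mγ, md, mδ, mbs, mb, eq_comm]
theorem B42_bb : ScM (DD2 b4) 0 (mb) := by
  intro k l i j
  simp [DD2, der_yv, lev, w2, mα, mas, ma, mc, mβ, mγ, md, mδ, mbs, mb, eq_comm]
theorem P42_α : ScM (DD2 p4) 0 (mα 2) := by
  intro k l i j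
  simp [DD2, der_yv, lev, w2, mα, mas, ma, mc, mβ, mγ, md, mδ, mbs, mb, eq_comm]
theorem P42_a : ScM (DD2 p4) 0 (ma) := by
  intro k l i j
  simp [DD2, der_yv, lev, w2, mα, mas, ma, mc, mβ, mγ, md, mδ, mbs, mb, eq_comm]
theorem P42_c : ScM (DD2 p4) 0 (mc 2) := by
  intro k l i j
  simp [DD2, der_yv, lev, w2, mα, mas, ma, mc, mβ, mγ, md, mδ, mbs, mb, eq_comm]
theorem P42_β : ScM (DD2 p4) 0 (mβ 2) := by
  intro k l i j
  simp [DD2, der_yv, lev, w2, mα, mas, ma, mc, mβ, mγ, md, mδ, mbs, mb, eq_comm]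
theorem P42_γ : RowM (DD2 p4) 0 (mγ 2) := by
  intro k l i j
  simp [DD2, der_yv, lev, w2, mα, mas, ma, mc, mβ, mγ, md, mδ, mbs, mb, eq_comm]
theorem P42_d : ScM (DD2 p4) 0 (md 2) := by
  intro k l i j
  simp [DD2, der_yv, lev, w2, mα, mas, ma, mc, mβ, mγ, md, mδ, mbs, mb, eq_comm]
theorem P42_δ : ScM (DD2 p4) 0 (mδ 2) := by
  intro k l i j
  simp [DD2, der_yv, lev, w2, mα, mas, ma, mc, mβ, mγ, md, mδ, mbs, mb, eq_comm]
theorem P42_bb : ColM (DD2 p4) 0 (mb) := by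
  intro k l i j
  simp [DD2, der_yv, lev, w2, mα, mas, ma, mc, mβ, mγ, md, mδ, mbs, mb, eq_comm]

end Pool.Agent.H495
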