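import Pool.Agent.H495.PosFun

/-! The second order operators. -/

namespace Pool.Agent.H495

open Matrix

section

variable {K : Type} [Field K] [CharZero K] [Algebra ℂ K]

/-- `tr (s v)` with `s = a adj(α)`. -/
theorem trad_s (a α v : Matrix (Fin 2) (Fin 2) K) :
    trad a α v = ∑ l, ∑ k, (a * α.adjugate) l k * v k l := by
  rw [trad_eq]
  simp only [Fin.sum_univ_two, Matrix.mul_apply, Matrix.adjugate_fin_two]
  simp
  ring

theorem trad_alpha (a α v : Matrix (Fin 2) (Fin 2) K) (A : Fin 2 → Derivation ℂ K K) (k l : Fin 2)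
    (ha : ∀ j x y, A j (a x y) = 0) (hv : ∀ j x y, A j (v x y) = 0)
    (hα : ∀ j x y, A j (α x y) = if x = k ∧ y = j then 1 else 0) :
    dt α * ∑ j, a l j * A j (trad a α v) = trad a α v * (a * α.adjugate) l k -
      ∑ l', ∑ k', (a * α.adjugate) l k' * v k' l' * (a * α.adjugate) l' k := by
  rw [trad_eq]
  simp only [map_sub, map_add, Derivation.leibniz, ha, hv, hα, smul_eq_mul]
  fin_cases k <;> fin_cases l <;>
  simp [Fin.sum_univ_two, Matrix.mul_apply, Matrix.adjugate_fin_two, dt] <;> ring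

theorem dt_alpha (a α : Matrix (Fin 2) (Fin 2) K) (A : Fin 2 → Derivation ℂ K K) (k l : Fin 2)
    (hα : ∀ j x y, A j (α x y) = if x = k ∧ y = j then 1 else 0) :
    ∑ j, a l j * A j (dt α) = (a * α.adjugate) l k := by
  rw [dt]
  simp only [map_sub, Derivation.leibniz, hα, smul_eq_mul]
  fin_cases k <;> fin_cases l <;>
  simp [Fin.sum_univ_two, Matrix.mul_apply, Matrix.adjugate_fin_two]

theorem second (a α : Matrix (Fin 2) (Fin 2) K) (c : Matrix (Fin 2) (Fin 4) K)
    (β : Matrix (Fin 4) (Fin 2) K) (lm : K) (A : Fin 2 → Derivation ℂ K K)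
    (E G : Fin 4 → Derivation ℂ K K) (k l : Fin 2)
    (hdα : dt α ≠ 0) (hlm : lm ≠ 0)
    (Aa : ∀ j x y, A j (a x y) = 0) (Ac : ∀ j x y, A j (c x y) = 0)
    (Aβ : ∀ j x y, A j (β x y) = 0) (Al : ∀ j, A j lm = 0)
    (Aα : ∀ j x y, A j (α x y) = if x = k ∧ y = j then 1 else 0)
    (Ea : ∀ i x y, E i (a x y) = 0) (Eα : ∀ i x y, E i (α x y) = 0)
    (Eβ : ∀ i x y, E i (β x y) = 0)
    (Ec : ∀ i x y, E i (c x y) = if x = k ∧ y = i then 1 else 0)
    (Ga : ∀ i x y, G i (a x y) = 0) (Gα : ∀ i x y, G i (α x y) = 0)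
    (Gc : ∀ i x y, G i (c x y) = 0)
    (Gβ : ∀ i x y, G i (β x y) = if y = l ∧ x = i then 1 else 0)
    (e1 : ∀ l', ∑ i, β i l' * G i lm = if l' = l then 2 * lm else 0)
    (e2 : ∀ k', ∑ i, c k' i * E i lm = if k' = k then 2 * lm else 0)
    (hs : ∑ i, (2 * lm * E i (G i lm) - 3 * (E i lm * G i lm)) = 0)
    (L : Derivation ℂ K K → K) (hL : ∀ D, L D = D (trad a α (c * β) / dt α) -
      2 * (D (dt α) / dt α) - 1 / 2 * (D lm / lm)) :
    ∑ j, a l j * L (A j) + ∑ i, (E i (L (G i)) + L (E i) * L (G i)) = 0 := by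
  set s := a * α.adjugate with hsdef
  set v := c * β with hv
  set f := trad a α v with hf
  have Av : ∀ j x y, A j (v x y) = 0 := by
    intro j x y; rw [hv, der_mulM]; simp [Ac, Aβ]
  have Es : ∀ i x y, E i (s x y) = 0 := by
    intro i x y
    rw [hsdef, der_mulM]
    have : ∀ p q, E i (α.adjugate p q) = 0 := by
      intro p q; rw [adjugate_fin_two]; fin_cases p <;> fin_cases q <;> simp [Eα]
    simp [this, Ea]
  have Gs : ∀ i x y, G i (s x y) = 0 := by
    intro i x y
    rw [hsdef, der_mulM]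
    have : ∀ p q, G i (α.adjugate p q) = 0 := by
      intro p q; rw [adjugate_fin_two]; fin_cases p <;> fin_cases q <;> simp [Gα]
    simp [this, Ga]
  have Ev : ∀ i x y, E i (v x y) = if x = k then β i y else 0 := by
    intro i x y
    rw [hv, der_mulM]
    simp only [Eβ, Ec, mul_zero, zero_add, mul_ite, mul_one]
    by_cases h : x = k <;> simp [h]
  have Gv : ∀ i x y, G i (v x y) = if y = l then c x i else 0 := by
    intro i x y
    rw [hv, der_mulM]
    simp only [Gc, Gβ, mul_zero, add_zero, mul_ite, mul_one]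
    by_cases h : y = l <;> simp [h]
  have Ed : ∀ i, E i (dt α) = 0 := by
    intro i; rw [dt, map_sub, Derivation.leibniz, Derivation.leibniz]; simp [Eα]
  have Gd : ∀ i, G i (dt α) = 0 := by
    intro i; rw [dt, map_sub, Derivation.leibniz, Derivation.leibniz]; simp [Gα]
  have hfs : f = ∑ l, ∑ k, s l k * v k l := trad_s a α v
  have Ef : ∀ i, E i f = ∑ l', s l' k * β i l' := by
    intro i
    rw [hfs]
    simp only [map_sum, Derivation.leibniz, Es, Ev, smul_eq_mul, mul_zero, add_zero, mul_ite]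
    exact Finset.sum_congr rfl fun l' _ => by rw [Finset.sum_ite_eq']; simp
  have Gf : ∀ i, G i f = ∑ k', s l k' * c k' i := by
    intro i
    rw [hfs]
    simp only [map_sum, Derivation.leibniz, Gs, Gv, smul_eq_mul, mul_zero, add_zero, mul_ite]
    rw [Finset.sum_comm]
    exact Finset.sum_congr rfl fun l' _ => by rw [Finset.sum_ite_eq']; simp
  have EGf : ∀ i, E i (G i f) = s l k := by
    intro i
    rw [Gf]
    simp only [map_sum, Derivation.leibniz, Es, Ec, smul_eq_mul, mul_zero, add_zero, mul_ite,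
      mul_one]
    simp
  have hdiv : ∀ (D : Derivation ℂ K K) (x y : K), y ≠ 0 → D (x / y) = D x / y - x * D y / y ^ 2 := by
    intro D x y hy
    rw [Derivation.leibniz_div]
    simp only [smul_eq_mul]
    field_simp
  have LG : ∀ i, L (G i) = G i f / dt α - 1 / 2 * (G i lm / lm) := by
    intro i
    rw [hL, hdiv _ _ _ hdα, Gd]; simp
  have LE : ∀ i, L (E i) = E i f / dt α - 1 / 2 * (E i lm / lm) := by
    intro i
    rw [hL, hdiv _ _ _ hdα, Ed]; simp
  have LA : ∀ j, L (A j) = A j f / dt α - f * A j (dt α) / dt α ^ 2 -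
      2 * (A j (dt α) / dt α) := by
    intro i
    rw [hL, hdiv _ _ _ hdα, Al]; simp
  have hA1 := trad_alpha a α v A k l Aa Av Aα
  have hA2 := dt_alpha a α A k l Aα
  have hhalf : ∀ (D : Derivation ℂ K K) (x : K), D (1 / 2 * x) = 1 / 2 * D x := by
    intro D x
    have h2 : D (2 : K) = 0 := by simpa using D.map_natCast 2
    have h3 : D (2 * (1 / 2 * x)) = 2 * D (1 / 2 * x) := by rw [Derivation.leibniz, h2]; simp
    have e : (2 : K) * (1 / 2 * x) = x := by ring
    rw [e] at h3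
    rw [h3]; ring
  have ELG : ∀ i, E i (L (G i)) = s l k / dt α - 1 / 2 * (E i (G i lm) / lm -
      G i lm * E i lm / lm ^ 2) := by
    intro i
    rw [LG, map_sub, hhalf, hdiv _ _ _ hdα, hdiv _ _ _ hlm, EGf, Ed]; simp
  -- sums
  have S1 : ∑ j, a l j * L (A j) = -(∑ l', ∑ k', s l k' * v k' l' * s l' k) / dt α ^ 2 -
      2 * (s l k / dt α) := by
    have h1 : ∑ j, a l j * L (A j) = (∑ j, a l j * A j f) / dt α -
        f * (∑ j, a l j * A j (dt α)) / dt α ^ 2 - 2 * ((∑ j, a l j * A j (dt α)) / dt α) := by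
      simp only [Fin.sum_univ_two, LA]; ring
    have h2 : ∑ j, a l j * A j f = (f * s l k - ∑ l', ∑ k', s l k' * v k' l' * s l' k) / dt α := by
      rw [eq_div_iff hdα, mul_comm]; exact hA1
    rw [h1, h2, hA2]
    field_simp
    ring
  have S2 : ∑ i, E i f * G i f = ∑ l', ∑ k', s l k' * v k' l' * s l' k := by
    have hvv : ∀ k' l', v k' l' = ∑ i, c k' i * β i l' := fun k' l' => by
      rw [hv, Matrix.mul_apply]
    simp only [Ef, Gf, hvv, Fin.sum_univ_two, Fin.sum_univ_four]
    ring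
  have S3 : ∑ i, E i f * G i lm = 2 * lm * s l k := by
    have : ∑ i, E i f * G i lm = ∑ l', s l' k * ∑ i, β i l' * G i lm := by
      simp only [Ef, Fin.sum_univ_two, Fin.sum_univ_four]; ring
    rw [this]
    simp only [e1, mul_ite, mul_zero]
    rw [Finset.sum_ite_eq']; simp; ring
  have S4 : ∑ i, E i lm * G i f = 2 * lm * s l k := by
    have : ∑ i, E i lm * G i f = ∑ k', s l k' * ∑ i, c k' i * E i lm := by
      simp only [Gf, Fin.sum_univ_two, Fin.sum_univ_four]; ring
    rw [this]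
    simp only [e2, mul_ite, mul_zero]
    rw [Finset.sum_ite_eq']; simp; ring
  have S5 : ∑ i, (E i (L (G i)) + L (E i) * L (G i)) = 4 * (s l k / dt α) +
      (∑ i, E i f * G i f) / dt α ^ 2 - 1 / 2 * ((∑ i, E i f * G i lm) / (dt α * lm)) -
      1 / 2 * ((∑ i, E i lm * G i f) / (dt α * lm)) -
      1 / 4 * ((∑ i, (2 * lm * E i (G i lm) - 3 * (E i lm * G i lm))) / lm ^ 2) := by
    have hi : ∀ i, E i (L (G i)) + L (E i) * L (G i) = (s l k / dt α -
        1 / 2 * (E i (G i lm) / lm - G i lm * E i lm / lm ^ 2)) +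
        (E i f / dt α - 1 / 2 * (E i lm / lm)) * (G i f / dt α - 1 / 2 * (G i lm / lm)) := by
      intro i; rw [ELG, LE, LG]
    rw [Finset.sum_congr rfl fun i _ => hi i]
    simp only [Fin.sum_univ_four]
    field_simp
    ring
  rw [S1, S5, S2, S3, S4, hs]
  field_simp
  ring

end

end Pool.Agent.H495
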