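import Pool.Agent.H495.PosK
import Pool.Agent.H495.Second

/-! The constant function `1` is semi-invariant. -/

namespace Pool.Agent.H495

open MvPolynomial Ix WeylModule

section sc

variable {n : ℕ} {D : Fin n → Fin n → Derivation ℂ (RR 2) (RR 2)}

theorem lam_sc (hc : ScM D 0 (mc 2)) (hβ : ScM D 0 (mβ 2)) (hγ : ScM D 0 (mγ 2))
    (hd : ScM D 0 (md 2)) : Sc D 0 lam := by
  have m : ∀ {A B C : Type} [Fintype B] {M : Matrix A B (RR 2)} {N : Matrix B C (RR 2)},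
      ScM D 0 M → ScM D 0 N → ScM D 0 (M * N) := fun h1 h2 => (ScM.mul h1 h2).congr (by norm_num)
  have h1 : Sc D 0 (dt (mc 2 * mβ 2) * dt (mγ 2 * md 2)) :=
    ((dt_sc (m hc hβ)).mul (dt_sc (m hγ hd))).congr (by norm_num)
  have h2 : Sc D 0 (dt (mc 2 * md 2) * dt (mγ 2 * mβ 2)) :=
    ((dt_sc (m hc hd)).mul (dt_sc (m hγ hβ))).congr (by norm_num)
  have h3 : Sc D 0 (v1 * v2) :=
    (((det4_sc (mn_scpair hc) (mn_scpair hγ)).congr (by norm_num) : Sc D 0 v1).mul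
      ((det4_sc (mn_sc hβ) (mn_sc hd)).congr (by norm_num) : Sc D 0 v2)).congr (by norm_num)
  exact (Sc.kallen h1 h2 h3).congr (by norm_num)

theorem φ1_sc (ha : ScM D 0 ma) (hα : ScM D 0 (mα 2)) (hc : ScM D 0 (mc 2))
    (hβ : ScM D 0 (mβ 2)) : Sc D 0 φ1 :=
  trad_S ha hα ((ScM.mul hc hβ).congr (by norm_num))

theorem φ2_sc (hb : ScM D 0 mb) (hδ : ScM D 0 (mδ 2)) (hγ : ScM D 0 (mγ 2))
    (hd : ScM D 0 (md 2)) : Sc D 0 φ2 :=
  tradT_S hb hδ ((ScM.mul hγ hd).congr (by norm_num))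

end sc

/-- A derivation killing all entries of a matrix. -/
def Kil (D : Derivation ℂ (RR 2) (RR 2)) {A B : Type} (M : Matrix A B (RR 2)) : Prop :=
  ∀ a b, D (M a b) = 0

theorem Kil.sc {D : Derivation ℂ (RR 2) (RR 2)} {A B : Type} {M : Matrix A B (RR 2)}
    (h : Kil D M) : ScM (fun _ _ : Fin 1 => D) 0 M := fun a b i j => by
  rw [h a b]; simp

theorem of_sc {D : Derivation ℂ (RR 2) (RR 2)} {f : RR 2} (h : Sc (fun _ _ : Fin 1 => D) 0 f) :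
    D f = 0 := by
  have := h 0 0
  simpa using this

theorem lam_kil {D : Derivation ℂ (RR 2) (RR 2)} (hc : Kil D (mc 2)) (hβ : Kil D (mβ 2))
    (hγ : Kil D (mγ 2)) (hd : Kil D (md 2)) : D lam = 0 :=
  of_sc (lam_sc hc.sc hβ.sc hγ.sc hd.sc)

theorem φ1_kil {D : Derivation ℂ (RR 2) (RR 2)} (ha : Kil D ma) (hα : Kil D (mα 2))
    (hc : Kil D (mc 2)) (hβ : Kil D (mβ 2)) : D φ1 = 0 :=
  of_sc (φ1_sc ha.sc hα.sc hc.sc hβ.sc)

theorem φ2_kil {D : Derivation ℂ (RR 2) (RR 2)} (hb : Kil D mb) (hδ : Kil D (mδ 2))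
    (hγ : Kil D (mγ 2)) (hd : Kil D (md 2)) : D φ2 = 0 :=
  of_sc (φ2_sc hb.sc hδ.sc hγ.sc hd.sc)

theorem dα_kil {D : Derivation ℂ (RR 2) (RR 2)} (h : Kil D (mα 2)) : D dα = 0 :=
  of_sc (dt_sc h.sc)

theorem dδ_kil {D : Derivation ℂ (RR 2) (RR 2)} (h : Kil D (mδ 2)) : D dδ = 0 :=
  of_sc (dt_sc h.sc)

/-- the eight groups of coordinates -/
theorem kil_pd (p q : Ix 2) :
    ((∀ k j, (p, q) ≠ (b k, e1 j)) → Kil (pd lev p q) (mα 2)) ∧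
    ((∀ k j, (p, q) ≠ (p2 k, e1 j)) → Kil (pd lev p q) ma) ∧
    ((∀ k j, (p, q) ≠ (e3 j, b k)) → Kil (pd lev p q) (mc 2)) ∧
    ((∀ k j, (p, q) ≠ (e3 k, p2 j)) → Kil (pd lev p q) (mβ 2)) ∧
    ((∀ k j, (p, q) ≠ (p4 k, e3 j)) → Kil (pd lev p q) (mγ 2)) ∧
    ((∀ k j, (p, q) ≠ (b4 j, e3 k)) → Kil (pd lev p q) (md 2)) ∧
    ((∀ k j, (p, q) ≠ (e5 k, b4 j)) → Kil (pd lev p q) (mδ 2)) ∧
    ((∀ k j, (p, q) ≠ (e5 k, p4 j)) → Kil (pd lev p q) mb) := by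
  refine ⟨fun h a b => ?_, fun h a b => ?_, fun h a b => ?_, fun h a b => ?_, fun h a b => ?_,
    fun h a b => ?_, fun h a b => ?_, fun h a b => ?_⟩ <;>
  · simp only [mα, ma, mc, mβ, mγ, md, mδ, mb, pd_yv]
    rw [if_neg]
    rintro ⟨rfl, rfl, -⟩
    exact h _ _ rfl

/-! #### values of `om` -/

theorem pdK_alg (p q : Ix 2) (f : RR 2) : pdK p q (ι0 f) = ι0 (pd lev p q f) := exD_alg _ _

theorem om_pdK (p q : Ix 2) : om (pdK p q) = pdK p q Φ - 2 * (ι0 (pd lev p q dα) / ι0 dα) -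
    2 * (ι0 (pd lev p q dδ) / ι0 dδ) - 1 / 2 * (ι0 (pd lev p q lam) / ι0 lam) := by
  rw [om, pdK_alg, pdK_alg, pdK_alg]

theorem TD_one (E : Derivation ℂ (KK J2) (KK J2)) : TD E 1 = om E := by simp [TD]

theorem derK_alg {n : ℕ} {pos : Fin n → Ix 2} {c : ℤ} {f : RR 2} (h : Sc (DD2 pos) c f)
    (i j : Fin n) : derK (pos i) (pos j) (ι0 f) = if i = j then (c : KK J2) * ι0 f else 0 := by
  rw [derK]
  have h1 := h i j
  rw [DD2] at h1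
  rw [exD_alg, h1]
  split_ifs
  · rw [map_mul, map_intCast]
  · rw [map_zero]

theorem derK_div {n : ℕ} {pos : Fin n → Ix 2} {c : ℤ} {f g : RR 2} (hf : Sc (DD2 pos) c f)
    (hg : Sc (DD2 pos) c g) (h0 : ι0 g ≠ 0) (i j : Fin n) :
    derK (pos i) (pos j) (ι0 f / ι0 g) = 0 := by
  rw [Derivation.leibniz_div, derK_alg hf, derK_alg hg]
  split_ifs
  · simp only [smul_eq_mul]; ring
  · simp

end Pool.Agent.H495
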