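import Pool.Agent.H495.PosVf

/-! The constant function `1` is semi-invariant. -/

namespace Pool.Agent.H495

open MvPolynomial Ix WeylModule

/-- A generic point. -/
def val2 : Ix 2 → Ix 2 → ℂ
  | .b i, .e1 j => if i = j then 1 else 0
  | .e3 i, .b k => if (i : ℕ) = k ∨ ((i : ℕ) = 2 ∧ (k : ℕ) = 0) then 1 else 0
  | .e3 i, .p2 l => if (i : ℕ) = l then 1 else 0
  | .p4 k, .e3 i => if (i : ℕ) = k then 1 else 0
  | .b4 k, .e3 i => if (i : ℕ) = k ∨ (i : ℕ) = k + 2 then 1 else 0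
  | .e5 m', .b4 k => if m' = k then 1 else 0
  | _, _ => 0

noncomputable abbrev ev2 : RR 2 →+* ℂ := eval (fun j : J2 => val2 j.1.1 j.1.2)

theorem ev2_yv (p q : Ix 2) (h : lev p = lev q + 1) : ev2 (yv lev p q) = val2 p q := by
  unfold yv; rw [dif_pos h, eval_X]

theorem fα (k j) : ev2 (mα 2 k j) = if k = j then 1 else 0 := ev2_yv _ _ (by simp [lev])
theorem fc (k i) : ev2 (mc 2 k i) = if (i : ℕ) = k ∨ ((i : ℕ) = 2 ∧ (k : ℕ) = 0) then 1 else 0 :=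
  ev2_yv _ _ (by norm_num [lev])
theorem fβ (i l) : ev2 (mβ 2 i l) = if (i : ℕ) = l then 1 else 0 := ev2_yv _ _ (by norm_num [lev])
theorem fγ (k i) : ev2 (mγ 2 k i) = if (i : ℕ) = k then 1 else 0 := ev2_yv _ _ (by norm_num [lev])
theorem fd (i k) : ev2 (md 2 i k) = if (i : ℕ) = k ∨ (i : ℕ) = k + 2 then 1 else 0 :=
  ev2_yv _ _ (by norm_num [lev])
theorem fδ (i k) : ev2 (mδ 2 i k) = if i = k then 1 else 0 := ev2_yv _ _ (by norm_num [lev])

theorem fcb (k j) : ev2 ((mc 2 * mβ 2) k j) = (!![1, 0; 0, 1] : Matrix (Fin 2) (Fin 2) ℂ) k j := by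
  rw [Matrix.mul_apply, map_sum]
  simp only [map_mul, fc, fβ, Fin.sum_univ_four]
  fin_cases k <;> fin_cases j <;> simp
theorem fcd (k j) : ev2 ((mc 2 * md 2) k j) = (!![2, 0; 0, 1] : Matrix (Fin 2) (Fin 2) ℂ) k j := by
  rw [Matrix.mul_apply, map_sum]
  simp only [map_mul, fc, fd, Fin.sum_univ_four]
  fin_cases k <;> fin_cases j <;> simp <;> norm_num
theorem fgb (k j) : ev2 ((mγ 2 * mβ 2) k j) = (!![1, 0; 0, 1] : Matrix (Fin 2) (Fin 2) ℂ) k j := by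
  rw [Matrix.mul_apply, map_sum]
  simp only [map_mul, fγ, fβ, Fin.sum_univ_four]
  fin_cases k <;> fin_cases j <;> simp
theorem fgd (k j) : ev2 ((mγ 2 * md 2) k j) = (!![1, 0; 0, 1] : Matrix (Fin 2) (Fin 2) ℂ) k j := by
  rw [Matrix.mul_apply, map_sum]
  simp only [map_mul, fγ, fd, Fin.sum_univ_four]
  fin_cases k <;> fin_cases j <;> simp

theorem fv1 : ev2 v1 = 0 := by
  unfold v1 det4 mn; simp only [map_mul, map_sub, map_add, fc, fγ]; simp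
theorem flam : ev2 lam = 1 := by
  unfold lam dt
  simp only [map_mul, map_sub, map_pow, fcb, fcd, fgb, fgd, fv1]
  simp
  norm_num

theorem fdα : ev2 dα = 1 := by unfold dα dt; simp only [map_mul, map_sub, fα]; simp
theorem fdδ : ev2 dδ = 1 := by unfold dδ dt; simp only [map_mul, map_sub, fδ]; simp

theorem ne_of_ev2 {f : RR 2} (h : ev2 f ≠ 0) : f ≠ 0 := by
  rintro rfl; exact h (map_zero _)

theorem lam_ne : lam ≠ 0 := ne_of_ev2 (by rw [flam]; norm_num)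
theorem dα_ne : dα ≠ 0 := ne_of_ev2 (by rw [fdα]; norm_num)
theorem dδ_ne : dδ ≠ 0 := ne_of_ev2 (by rw [fdδ]; norm_num)
theorem gd_ne : (mγ 2 * md 2).det ≠ 0 := ne_of_ev2 (by
  rw [dt_eq, dt]; simp only [map_mul, map_sub, fgd]; simp)
theorem cb_ne : (mc 2 * mβ 2).det ≠ 0 := ne_of_ev2 (by
  rw [dt_eq, dt]; simp only [map_mul, map_sub, fcb]; simp)

theorem ι0_ne {f : RR 2} (h : f ≠ 0) : (ι0 f : KK J2) ≠ 0 := by
  rw [Ne, map_eq_zero_iff _ (IsFractionRing.injective (RR 2) (KK J2))]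
  exact h

/-! #### Levi directions -/

theorem om_grp {n : ℕ} {pos : Fin n → Ix 2} {c1 c2 c3 : ℤ} (h1 : Sc (DD2 pos) c1 dα)
    (h1' : Sc (DD2 pos) c1 φ1) (h2 : Sc (DD2 pos) c2 dδ) (h2' : Sc (DD2 pos) c2 φ2)
    (h3 : Sc (DD2 pos) (2 * c3) lam) (i j : Fin n) :
    om (derK (pos i) (pos j)) = if i = j then ((-2 * c1 - 2 * c2 - c3 : ℤ) : KK J2) else 0 := by
  have hΦ : derK (pos i) (pos j) Φ = 0 := by
    rw [Φ, map_add, derK_div h1' h1 (ι0_ne dα_ne), derK_div h2' h2 (ι0_ne dδ_ne), add_zero]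
  rw [om, hΦ, derK_alg h1, derK_alg h2, derK_alg h3]
  have e1 := ι0_ne dα_ne
  have e2 := ι0_ne dδ_ne
  have e3 := ι0_ne lam_ne
  by_cases h : i = j
  · simp only [h, if_true]
    rw [mul_div_cancel_right₀ _ e1, mul_div_cancel_right₀ _ e2, mul_div_cancel_right₀ _ e3]
    push_cast; ring
  · simp [h]

theorem card_ix2 (P : Ix 2 → Prop) [DecidablePred P] :
    (Finset.univ.filter P).card =
      (∑ i, if P (e1 i) then 1 else 0) + (∑ i, if P (b i) then 1 else 0) +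
      (∑ i, if P (p2 i) then 1 else 0) + (∑ i, if P (e3 i) then 1 else 0) +
      (∑ i, if P (p4 i) then 1 else 0) + (∑ i, if P (b4 i) then 1 else 0) +
      ∑ i, if P (e5 i) then 1 else 0 := by
  rw [Finset.card_filter, sum_ix]

theorem l1 (i) : kap lev w2 (e1 i : Ix 2) = 0 := by
  unfold kap; rw [card_ix2, card_ix2]; norm_num [lev, w2]
theorem l2 (i) : kap lev w2 (b i : Ix 2) = 4 := by
  unfold kap; rw [card_ix2, card_ix2]; norm_num [lev, w2]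
theorem l3 (i) : kap lev w2 (p2 i : Ix 2) = 0 := by
  unfold kap; rw [card_ix2, card_ix2]; norm_num [lev, w2]
theorem l4 (i) : kap lev w2 (e3 i : Ix 2) = 0 := by
  unfold kap; rw [card_ix2, card_ix2]; norm_num [lev, w2]
theorem l5 (i) : kap lev w2 (p4 i : Ix 2) = 0 := by
  unfold kap; rw [card_ix2, card_ix2]; norm_num [lev, w2]
theorem l6 (i) : kap lev w2 (b4 i : Ix 2) = -4 := by
  unfold kap; rw [card_ix2, card_ix2]; norm_num [lev, w2]
theorem l7 (i) : kap lev w2 (e5 i : Ix 2) = 0 := by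
  unfold kap; rw [card_ix2, card_ix2]; norm_num [lev, w2]

theorem vf_grp {n : ℕ} {pos : Fin n → Ix 2} (hi : Function.Injective pos)
    (hl : ∀ i j, lev (pos i) = lev (pos j)) (hw : ∀ i j, w2 (pos i) = w2 (pos j))
    {c1 c2 c3 : ℤ} (h1 : Sc (DD2 pos) c1 dα)
    (h1' : Sc (DD2 pos) c1 φ1) (h2 : Sc (DD2 pos) c2 dδ) (h2' : Sc (DD2 pos) c2 φ2)
    (h3 : Sc (DD2 pos) (2 * c3) lam) {k : ℤ} (hk : ∀ i, kap lev w2 (pos i) = k) (i j : Fin n) :
    vf WP (pos i) (pos j) 1 =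
      if i = j then ((-2 * c1 - 2 * c2 - c3 + k : ℤ) : ℂ) • (1 : KK J2) else 0 := by
  rw [vf_WP (hl i j) (hw i j), TD_one, om_grp h1 h1' h2 h2' h3]
  by_cases h : i = j
  · subst h
    rw [if_pos rfl, if_pos rfl, if_pos rfl, hk]
    push_cast
    simp only [Algebra.smul_def, map_add, map_sub, map_mul, map_neg, map_ofNat, map_intCast,
      mul_one]
  · rw [if_neg h, if_neg h, if_neg (fun h' => h (hi h')), add_zero]

theorem vf_grp' {n : ℕ} {pos : Fin n → Ix 2} (hi : Function.Injective pos)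
    (hl : ∀ i j, lev (pos i) = lev (pos j)) (hw : ∀ i j, w2 (pos i) = w2 (pos j))
    {c1 c2 c3 : ℤ} (h1 : Sc (DD2 pos) c1 dα)
    (h1' : Sc (DD2 pos) c1 φ1) (h2 : Sc (DD2 pos) c2 dδ) (h2' : Sc (DD2 pos) c2 φ2)
    (h3 : Sc (DD2 pos) c3 lam) (c m k : ℤ) (hc : c3 = 2 * c) (hm : -2 * c1 - 2 * c2 - c + k = m)
    (hk : ∀ i, kap lev w2 (pos i) = k) (i j : Fin n) :
    vf WP (pos i) (pos j) 1 = if i = j then ((m : ℤ) : ℂ) • (1 : KK J2) else 0 := by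
  subst hc hm
  exact vf_grp hi hl hw h1 h1' h2 h2' h3 hk i j

theorem V_E1 (i j : Fin 2) : vf WP (e1 i) (e1 j) 1 = if i = j then ((2 : ℤ) : ℂ) • 1 else 0 :=
  vf_grp' (fun _ _ h => by simpa using h) (fun _ _ => rfl) (fun _ _ => rfl) E12_dα E12_φ1 E12_dδ
    E12_φ2 E12_lam (0) (2) (0) (by norm_num) (by norm_num) l1 i j
theorem V_B (i j : Fin 2) : vf WP (b i) (b j) 1 = if i = j then ((1 : ℤ) : ℂ) • 1 else 0 :=
  vf_grp' (fun _ _ h => by simpa using h) (fun _ _ => rfl) (fun _ _ => rfl) B2_dα B2_φ1 B2_dδ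
    B2_φ2 B2_lam (1) (1) (4) (by norm_num) (by norm_num) l2 i j
theorem V_P2 (i j : Fin 2) : vf WP (p2 i) (p2 j) 1 = if i = j then ((1 : ℤ) : ℂ) • 1 else 0 :=
  vf_grp' (fun _ _ h => by simpa using h) (fun _ _ => rfl) (fun _ _ => rfl) P22_dα P22_φ1 P22_dδ
    P22_φ2 P22_lam (-1) (1) (0) (by norm_num) (by norm_num) l3 i j
theorem V_E3 (i j : Fin 4) : vf WP (e3 i) (e3 j) 1 = if i = j then ((0 : ℤ) : ℂ) • 1 else 0 :=
  vf_grp' (fun _ _ h => by simpa using h) (fun _ _ => rfl) (fun _ _ => rfl) E32_dα E32_φ1 E32_dδ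
    E32_φ2 E32_lam (0) (0) (0) (by norm_num) (by norm_num) l4 i j
theorem V_P4 (i j : Fin 2) : vf WP (p4 i) (p4 j) 1 = if i = j then ((-1 : ℤ) : ℂ) • 1 else 0 :=
  vf_grp' (fun _ _ h => by simpa using h) (fun _ _ => rfl) (fun _ _ => rfl) P42_dα P42_φ1 P42_dδ
    P42_φ2 P42_lam (1) (-1) (0) (by norm_num) (by norm_num) l5 i j
theorem V_B4 (i j : Fin 2) : vf WP (b4 i) (b4 j) 1 = if i = j then ((-1 : ℤ) : ℂ) • 1 else 0 :=
  vf_grp' (fun _ _ h => by simpa using h) (fun _ _ => rfl) (fun _ _ => rfl) B42_dα B42_φ1 B42_dδ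
    B42_φ2 B42_lam (-1) (-1) (-4) (by norm_num) (by norm_num) l6 i j
theorem V_E5 (i j : Fin 2) : vf WP (e5 i) (e5 j) 1 = if i = j then ((-2 : ℤ) : ℂ) • 1 else 0 :=
  vf_grp' (fun _ _ h => by simpa using h) (fun _ _ => rfl) (fun _ _ => rfl) E52_dα E52_φ1 E52_dδ
    E52_φ2 E52_lam (0) (-2) (0) (by norm_num) (by norm_num) l7 i j

end Pool.Agent.H495
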