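import Pool.Agent.H495.PosVf3

/-! The constant function `1` is semi-invariant: cross directions. -/

namespace Pool.Agent.H495

open MvPolynomial Ix WeylModule

/-- the direction `E_{b4,p4}` -/
theorem V_B4P4 (l k : Fin 2) : vf WP (b4 l) (p4 k) 1 = 0 := by
  have h1 : vf WP (b4 l) (p4 k) = ∑ i, FF w2 WP (mγ 2 k i) * FF w2 WP (md 2 i l) -
      ∑ m, FF w2 WP (mδ 2 m l) * ZZ w2 WP (e5 m) (p4 k) := by
    rw [vf, sum_ix]
    have hz : ∀ p q : Ix 2, lev p ≠ lev q + 1 → xop WP p q = 0 := fun p q h => xop_zero WP h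
    have hz' : ∀ p q : Ix 2, lev p ≠ lev q + 1 → dop WP p q = 0 := fun p q h => dop_zero WP h
    simp only [hz (p4 k) (b _) (by norm_num [lev]), hz (p4 k) (p2 _) (by norm_num [lev]),
      hz (p4 k) (e1 _) (by norm_num [lev]), hz (p4 k) (p4 _) (by norm_num [lev]),
      hz (p4 k) (b4 _) (by norm_num [lev]), hz (p4 k) (e5 _) (by norm_num [lev]),
      hz' (e1 _) (p4 k) (by norm_num [lev]), hz' (b _) (p4 k) (by norm_num [lev]),
      hz' (p2 _) (p4 k) (by norm_num [lev]), hz' (e3 _) (p4 k) (by norm_num [lev]),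
      hz' (p4 _) (p4 k) (by norm_num [lev]), hz' (b4 _) (p4 k) (by norm_num [lev]),
      mul_zero, zero_mul, sub_zero, zero_sub, Finset.sum_const_zero, add_zero, zero_add,
      Finset.sum_neg_distrib]
    simp only [mγ, md, mδ, FF_yv, ZZ_eq, w2]
    norm_num
    abel
  have hα' : ∀ j, Kil (pd lev (e5 j) (p4 k)) (mα 2) := fun j => (kil_pd _ _).1 (by simp)
  have ha' : ∀ j, Kil (pd lev (e5 j) (p4 k)) ma := fun j => (kil_pd _ _).2.1 (by simp)
  have hc' : ∀ j, Kil (pd lev (e5 j) (p4 k)) (mc 2) := fun j => (kil_pd _ _).2.2.1 (by simp)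
  have hβ' : ∀ j, Kil (pd lev (e5 j) (p4 k)) (mβ 2) := fun j => (kil_pd _ _).2.2.2.1 (by simp)
  have hγ' : ∀ j, Kil (pd lev (e5 j) (p4 k)) (mγ 2) := fun j => (kil_pd _ _).2.2.2.2.1 (by simp)
  have hd' : ∀ j, Kil (pd lev (e5 j) (p4 k)) (md 2) := fun j => (kil_pd _ _).2.2.2.2.2.1 (by simp)
  have hδ' : ∀ j, Kil (pd lev (e5 j) (p4 k)) (mδ 2) :=
    fun j => (kil_pd _ _).2.2.2.2.2.2.1 (by simp)
  have hgd : ∀ j x y, pd lev (e5 j) (p4 k) ((mγ 2 * md 2).transpose x y) = 0 := by
    intro j x y; rw [Matrix.transpose_apply, der_mulM]; simp [hγ' j _ _, hd' j _ _]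
  have hω : ∀ m, om (pdK (e5 m) (p4 k)) =
      ι0 (((mδ 2).transpose.adjugate * (mγ 2 * md 2).transpose) m k) / ι0 dδ := by
    intro m
    rw [om_of_kil' (φ1_kil (ha' m) (hα' m) (hc' m) (hβ' m)) (dα_kil (hα' m)),
      Derivation.leibniz_div, pdK_alg, pdK_alg, pdK_alg, dδ_kil (hδ' m),
      lam_kil (hc' m) (hβ' m) (hγ' m) (hd' m), φ2,
      trad_a mb.transpose (mδ 2).transpose (mγ 2 * md 2).transpose (pd lev (e5 m) (p4 k)) k m
        (fun x y => by
          simp only [mb, Matrix.transpose_apply, pd_yv]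
          by_cases h : x = k ∧ y = m
          · rw [if_pos h, if_pos (by obtain ⟨rfl, rfl⟩ := h; norm_num [lev])]
          · rw [if_neg h, if_neg (by rintro ⟨h1, h2, -⟩; apply h; simp at h1 h2; simp [h1, h2])])
        (fun x y => hδ' m y x) (hgd m)]
    have e1 := ι0_ne dδ_ne
    simp only [map_zero, zero_div, mul_zero, sub_zero, smul_eq_mul]
    field_simp
  rw [h1, LinearMap.sub_apply, LinearMap.sum_apply, LinearMap.sum_apply]
  simp only [Module.End.mul_apply, FF_WP, ZZ_WP, TD_one, hω, mul_one]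
  have h2 : ∑ m, ι0 (mδ 2 m l) *
      (ι0 (((mδ 2).transpose.adjugate * (mγ 2 * md 2).transpose) m k) / ι0 dδ) =
      ι0 ((mγ 2 * md 2) k l) := by
    have h3 : ∑ m, mδ 2 m l * ((mδ 2).transpose.adjugate * (mγ 2 * md 2).transpose) m k =
        dδ * (mγ 2 * md 2) k l := by
      have : ∀ m, mδ 2 m l = (mδ 2).transpose l m := fun _ => rfl
      simp only [this]
      rw [← Matrix.mul_apply, ← Matrix.mul_assoc, Matrix.mul_adjugate, Matrix.det_transpose,
        dt_eq, Matrix.smul_mul, Matrix.one_mul, Matrix.smul_apply, smul_eq_mul]; rfl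
    have h4 := congrArg (ι0 (J := J2)) h3
    rw [map_sum, map_mul] at h4
    simp only [map_mul] at h4
    simp only [← mul_div_assoc, ← Finset.sum_div]
    rw [h4, mul_div_cancel_left₀ _ (ι0_ne dδ_ne)]
  rw [h2, Matrix.mul_apply, map_sum, sub_eq_zero]
  exact Finset.sum_congr rfl fun i _ => by rw [map_mul]

/-! #### Euler identities -/

theorem lam_p2e1 (l j : Fin 2) : pd lev (p2 l) (e1 j) lam = 0 :=
  lam_kil ((kil_pd _ _).2.2.1 (by simp)) ((kil_pd _ _).2.2.2.1 (by simp))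
    ((kil_pd _ _).2.2.2.2.1 (by simp)) ((kil_pd _ _).2.2.2.2.2.1 (by simp))
theorem lam_be1 (l j : Fin 2) : pd lev (b l) (e1 j) lam = 0 :=
  lam_kil ((kil_pd _ _).2.2.1 (by simp)) ((kil_pd _ _).2.2.2.1 (by simp))
    ((kil_pd _ _).2.2.2.2.1 (by simp)) ((kil_pd _ _).2.2.2.2.2.1 (by simp))
theorem lam_e5b4 (l j : Fin 2) : pd lev (e5 l) (b4 j) lam = 0 :=
  lam_kil ((kil_pd _ _).2.2.1 (by simp)) ((kil_pd _ _).2.2.2.1 (by simp))
    ((kil_pd _ _).2.2.2.2.1 (by simp)) ((kil_pd _ _).2.2.2.2.2.1 (by simp))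
theorem lam_e5p4 (l j : Fin 2) : pd lev (e5 l) (p4 j) lam = 0 :=
  lam_kil ((kil_pd _ _).2.2.1 (by simp)) ((kil_pd _ _).2.2.2.1 (by simp))
    ((kil_pd _ _).2.2.2.2.1 (by simp)) ((kil_pd _ _).2.2.2.2.2.1 (by simp))

theorem eu_P2 (l' l : Fin 2) : ∑ i, mβ 2 i l' * pd lev (e3 i) (p2 l) lam =
    if l' = l then 2 * lam else 0 := by
  have h := P22_lam l' l
  rw [DD2, der, derivation_sum_apply, sum_ix] at h
  norm_num [w2, lev, yz2, pz2, lam_p2e1, Derivation.neg_apply, Derivation.smul_apply,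
    Derivation.add_apply, Finset.sum_neg_distrib, -Fin.sum_univ_two, -Fin.sum_univ_four] at h
  simp only [mβ]
  by_cases hl : l' = l
  · subst hl
    simp only [if_true] at h ⊢
    linear_combination -h
  · simp only [hl, if_false] at h ⊢
    linear_combination -h

theorem eu_B (k' k : Fin 2) : ∑ i, mc 2 k' i * pd lev (e3 i) (b k) lam =
    if k' = k then 2 * lam else 0 := by
  have h := B2_lam k k'
  rw [DD2, der, derivation_sum_apply, sum_ix] at h
  norm_num [w2, lev, yz2, pz2, lam_be1, Derivation.neg_apply, Derivation.smul_apply,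
    Derivation.add_apply, Finset.sum_neg_distrib, -Fin.sum_univ_two, -Fin.sum_univ_four] at h
  simp only [mc]
  by_cases hl : k' = k
  · subst hl
    simp only [if_true] at h ⊢
    linear_combination h
  · simp only [Ne.symm hl, hl, if_false] at h ⊢
    linear_combination h

theorem eu_P4 (k' k : Fin 2) : ∑ i, mγ 2 k' i * pd lev (p4 k) (e3 i) lam =
    if k' = k then 2 * lam else 0 := by
  have h := P42_lam k k'
  rw [DD2, der, derivation_sum_apply, sum_ix] at h
  norm_num [w2, lev, yz2, pz2, lam_e5p4, Derivation.neg_apply, Derivation.smul_apply,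
    Derivation.add_apply, Finset.sum_neg_distrib, -Fin.sum_univ_two, -Fin.sum_univ_four] at h
  simp only [mγ]
  by_cases hl : k' = k
  · subst hl
    simp only [if_true] at h ⊢
    linear_combination h
  · simp only [Ne.symm hl, hl, if_false] at h ⊢
    linear_combination h

theorem eu_B4 (l' l : Fin 2) : ∑ i, md 2 i l' * pd lev (b4 l) (e3 i) lam =
    if l' = l then 2 * lam else 0 := by
  have h := B42_lam l' l
  rw [DD2, der, derivation_sum_apply, sum_ix] at h
  norm_num [w2, lev, yz2, pz2, lam_e5b4, Derivation.neg_apply, Derivation.smul_apply,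
    Derivation.add_apply, Finset.sum_neg_distrib, -Fin.sum_univ_two, -Fin.sum_univ_four] at h
  simp only [md]
  by_cases hl : l' = l
  · subst hl
    simp only [if_true] at h ⊢
    linear_combination -h
  · simp only [hl, if_false] at h ⊢
    linear_combination -h

/-! #### second order directions -/

theorem star_c (k l : Fin 2) : ∑ i, (2 * lam * pd lev (e3 i) (b k) (pd lev (e3 i) (p2 l) lam) -
    3 * (pd lev (e3 i) (b k) lam * pd lev (e3 i) (p2 l) lam)) = 0 := by
  rw [lam_eq]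
  refine star_lam (fun i => pd lev (e3 i) (b k)) (fun i => pd lev (e3 i) (p2 l)) (mc 2) (mβ 2)
    (mγ 2) (md 2) k l gd_ne ?_ ?_ ?_ ?_ ?_ ?_ ?_ ?_ <;> intro i x y <;>
  simp [mc, mβ, mγ, md, pd_yv, lev, eq_comm, and_comm]

theorem star_d (k l : Fin 2) : ∑ i, (2 * lam * pd lev (b4 k) (e3 i) (pd lev (p4 l) (e3 i) lam) -
    3 * (pd lev (b4 k) (e3 i) lam * pd lev (p4 l) (e3 i) lam)) = 0 := by
  have hl : lam = lamM (md 2).transpose (mγ 2).transpose (mβ 2).transpose (mc 2).transpose := by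
    rw [lam_eq, lamM, lamM]
    simp only [← Matrix.transpose_mul, Matrix.det_transpose]
    have hb : (Matrix.fromBlocks (mγ 2 * md 2).transpose (mc 2 * md 2).transpose
        (mγ 2 * mβ 2).transpose (mc 2 * mβ 2).transpose).det =
        (Matrix.fromBlocks (mc 2 * mβ 2) (mc 2 * md 2) (mγ 2 * mβ 2) (mγ 2 * md 2)).det := by
      rw [← blk_swap, ← Matrix.det_transpose, Matrix.fromBlocks_transpose]
      simp only [Matrix.transpose_transpose]
    rw [hb]; ring
  rw [hl]
  refine star_lam (fun i => pd lev (b4 k) (e3 i)) (fun i => pd lev (p4 l) (e3 i))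
    (md 2).transpose (mγ 2).transpose (mβ 2).transpose (mc 2).transpose k l
    (by rw [← Matrix.transpose_mul, Matrix.det_transpose]; exact cb_ne)
    ?_ ?_ ?_ ?_ ?_ ?_ ?_ ?_ <;> intro i x y <;>
  first
  | (simp [mc, mβ, mγ, md, pd_yv, lev, eq_comm, and_comm, Matrix.transpose_apply]; done)
  | (simp [mc, mβ, mγ, md, pd_yv, lev, eq_comm, and_comm, Matrix.transpose_apply]; norm_num)

end Pool.Agent.H495
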