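import Pool.Agent.H495.PosVf4

/-! The constant function `1` is semi-invariant: second order directions. -/

namespace Pool.Agent.H495

open MvPolynomial Ix WeylModule

instance : CharZero (KK J2) :=
  charZero_of_injective_algebraMap (algebraMap ℂ (KK J2)).injective

theorem pdK_mp (p q : Ix 2) {A B : Type} (M : Matrix A B (RR 2)) (a : A) (b : B) :
    pdK p q (mp M a b) = ι0 (pd lev p q (M a b)) := pdK_alg _ _ _

theorem mp_kil {p q : Ix 2} {A B : Type} {M : Matrix A B (RR 2)} (h : Kil (pd lev p q) M)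
    (a : A) (b : B) : pdK p q (mp M a b) = 0 := by rw [pdK_mp, h a b, map_zero]

theorem V_BP2 (k l : Fin 2) : vf WP (b k) (p2 l) 1 = 0 := by
  have h1 : vf WP (b k) (p2 l) = ∑ j, FF w2 WP (ma l j) * ZZ w2 WP (b k) (e1 j) +
      ∑ i, ZZ w2 WP (e3 i) (b k) * ZZ w2 WP (e3 i) (p2 l) := by
    rw [vf, sum_ix]
    have hz : ∀ p q : Ix 2, lev p ≠ lev q + 1 → xop WP p q = 0 := fun p q h => xop_zero WP h
    have hz' : ∀ p q : Ix 2, lev p ≠ lev q + 1 → dop WP p q = 0 := fun p q h => dop_zero WP h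
    simp only [hz (p2 l) (b _) (by norm_num [lev]), hz (p2 l) (p2 _) (by norm_num [lev]),
      hz (p2 l) (e3 _) (by norm_num [lev]), hz (p2 l) (p4 _) (by norm_num [lev]),
      hz (p2 l) (b4 _) (by norm_num [lev]), hz (p2 l) (e5 _) (by norm_num [lev]),
      hz' (e1 _) (p2 l) (by norm_num [lev]), hz' (b _) (p2 l) (by norm_num [lev]),
      hz' (p2 _) (p2 l) (by norm_num [lev]), hz' (p4 _) (p2 l) (by norm_num [lev]),
      hz' (b4 _) (p2 l) (by norm_num [lev]), hz' (e5 _) (p2 l) (by norm_num [lev]),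
      mul_zero, zero_mul, sub_zero, zero_sub, Finset.sum_const_zero, add_zero,
      Finset.sum_neg_distrib]
    simp only [ma, FF_yv, ZZ_eq, w2]
    norm_num [-Finset.sum_neg_distrib]
    rw [← Finset.sum_neg_distrib]
    exact Finset.sum_congr rfl fun i _ => LinearMap.ext fun _ => rfl
  have KG := fun i => kil_pd (e3 i) (p2 l)
  have KE := fun i => kil_pd (e3 i) (b k)
  have KA := fun j => kil_pd (b k) (e1 j)
  have hG2 : ∀ i, om (pdK (e3 i) (p2 l)) = _ := fun i => om_of_kil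
    (φ2_kil ((KG i).2.2.2.2.2.2.2 (by simp)) ((KG i).2.2.2.2.2.2.1 (by simp))
      ((KG i).2.2.2.2.1 (by simp)) ((KG i).2.2.2.2.2.1 (by simp)))
    (dδ_kil ((KG i).2.2.2.2.2.2.1 (by simp)))
  have hE2 : ∀ i, om (pdK (e3 i) (b k)) = _ := fun i => om_of_kil
    (φ2_kil ((KE i).2.2.2.2.2.2.2 (by simp)) ((KE i).2.2.2.2.2.2.1 (by simp))
      ((KE i).2.2.2.2.1 (by simp)) ((KE i).2.2.2.2.2.1 (by simp)))
    (dδ_kil ((KE i).2.2.2.2.2.2.1 (by simp)))
  have hA2 : ∀ j, om (pdK (b k) (e1 j)) = _ := fun i => om_of_kil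
    (φ2_kil ((KA i).2.2.2.2.2.2.2 (by simp)) ((KA i).2.2.2.2.2.2.1 (by simp))
      ((KA i).2.2.2.2.1 (by simp)) ((KA i).2.2.2.2.2.1 (by simp)))
    (dδ_kil ((KA i).2.2.2.2.2.2.1 (by simp)))
  have key := second (mp ma) (mp (mα 2)) (mp (mc 2)) (mp (mβ 2)) (ι0 lam)
    (fun j => pdK (b k) (e1 j)) (fun i => pdK (e3 i) (b k)) (fun i => pdK (e3 i) (p2 l)) k l
    (by rw [mp_dt]; exact ι0_ne dα_ne) (ι0_ne lam_ne)
    (fun j => mp_kil ((KA j).2.1 (by simp))) (fun j => mp_kil ((KA j).2.2.1 (by simp)))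
    (fun j => mp_kil ((KA j).2.2.2.1 (by simp))) (fun j => by rw [pdK_alg, lam_be1, map_zero])
    (fun j x y => by rw [pdK_mp]; simp only [mα, pd_yv]; simp [lev, eq_comm])
    (fun j => mp_kil ((KE j).2.1 (by simp))) (fun j => mp_kil ((KE j).1 (by simp)))
    (fun j => mp_kil ((KE j).2.2.2.1 (by simp)))
    (fun j x y => by rw [pdK_mp]; simp only [mc, pd_yv]; simp [lev, eq_comm, and_comm])
    (fun j => mp_kil ((KG j).2.1 (by simp))) (fun j => mp_kil ((KG j).1 (by simp)))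
    (fun j => mp_kil ((KG j).2.2.1 (by simp)))
    (fun j x y => by rw [pdK_mp]; simp only [mβ, pd_yv]; simp [lev, eq_comm, and_comm])
    (fun l' => by
      have := congrArg (ι0 (J := J2)) (eu_P2 l' l)
      rw [map_sum] at this
      simp only [map_mul] at this
      simp only [pdK_alg, mp]
      rw [this]
      split_ifs
      · rw [map_mul, map_ofNat]
      · rw [map_zero])
    (fun k' => by
      have := congrArg (ι0 (J := J2)) (eu_B k' k)
      rw [map_sum] at this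
      simp only [map_mul] at this
      simp only [pdK_alg, mp]
      rw [this]
      split_ifs
      · rw [map_mul, map_ofNat]
      · rw [map_zero])
    (by
      have := congrArg (ι0 (J := J2)) (star_c k l)
      rw [map_sum, map_zero] at this
      simp only [pdK_alg]
      rw [← this]
      refine Finset.sum_congr rfl fun i _ => ?_
      simp only [map_sub, map_mul, map_ofNat])
    (fun D => D (trad (mp ma) (mp (mα 2)) (mp (mc 2) * mp (mβ 2)) / dt (mp (mα 2))) -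
      2 * (D (dt (mp (mα 2))) / dt (mp (mα 2))) - 1 / 2 * (D (ι0 lam) / ι0 lam)) (fun D => rfl)
  rw [← mp_mul, mp_trad, mp_dt] at key
  change ∑ j, mp ma l j * (pdK (b k) (e1 j) (ι0 φ1 / ι0 dα) -
    2 * (pdK (b k) (e1 j) (ι0 dα) / ι0 dα) - 1 / 2 * (pdK (b k) (e1 j) (ι0 lam) / ι0 lam)) +
    ∑ i, (pdK (e3 i) (b k) (pdK (e3 i) (p2 l) (ι0 φ1 / ι0 dα) -
      2 * (pdK (e3 i) (p2 l) (ι0 dα) / ι0 dα) - 1 / 2 * (pdK (e3 i) (p2 l) (ι0 lam) / ι0 lam)) +
      (pdK (e3 i) (b k) (ι0 φ1 / ι0 dα) - 2 * (pdK (e3 i) (b k) (ι0 dα) / ι0 dα) -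
        1 / 2 * (pdK (e3 i) (b k) (ι0 lam) / ι0 lam)) *
      (pdK (e3 i) (p2 l) (ι0 φ1 / ι0 dα) - 2 * (pdK (e3 i) (p2 l) (ι0 dα) / ι0 dα) -
        1 / 2 * (pdK (e3 i) (p2 l) (ι0 lam) / ι0 lam))) = 0 at key
  simp only [← hA2, ← hG2, ← hE2] at key
  rw [h1, LinearMap.add_apply, LinearMap.sum_apply, LinearMap.sum_apply]
  simp only [Module.End.mul_apply, FF_WP, ZZ_WP, TD_one]
  exact key

end Pool.Agent.H495
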