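import Pool.Agent.H495.Basic

/-!
# Existence of a simple submodule in a Weyl algebra module of minimal growth

Joseph's proof of Bernstein's inequality, and the resulting bound for the length of chains.
Subtask S3 of helper495 (`MP_fe6ac3_nt`).
-/

namespace Pool.Agent.H495.S3

open MvPolynomial

section ops

variable {J : Type} [DecidableEq J] {L : Type} [AddCommGroup L] [Module ℂ L]

/-- The normally ordered operator of a polynomial in the variables `d` (left) and `x` (right). -/
noncomputable def opp (W : WeylModule J L) (P : MvPolynomial (J ⊕ J) ℂ) : Module.End ℂ L :=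
  W.op (sumRingEquiv ℂ J J P)

theorem opp_add (W : WeylModule J L) (P Q : MvPolynomial (J ⊕ J) ℂ) :
    opp W (P + Q) = opp W P + opp W Q := by
  rw [opp, map_add, W.op_add, ← opp, ← opp]

theorem opp_C (W : WeylModule J L) (c : ℂ) : opp W (C c) = algebraMap ℂ _ c := by
  have h1 : (C (C c) : MvPolynomial J (MvPolynomial J ℂ)) = C (C c) * 1 := by rw [mul_one]
  rw [opp, sumRingEquiv_C, h1, W.op_C_mul, W.op_one, mul_one, W.fn_C]

theorem opp_mul_d (W : WeylModule J L) (P : MvPolynomial (J ⊕ J) ℂ) (j : J) :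
    opp W (P * X (Sum.inl j)) = opp W P * W.d j := by
  rw [opp, map_mul, sumRingEquiv_X_inl, W.op_mul_X, ← opp]

theorem opp_mul_x (W : WeylModule J L) (P : MvPolynomial (J ⊕ J) ℂ) (j : J) :
    opp W (P * X (Sum.inr j)) = W.x j * opp W P := by
  rw [opp, map_mul, sumRingEquiv_X_inr, mul_comm, W.op_C_mul, W.fn_X, ← opp]

theorem opp_zero (W : WeylModule J L) : opp W 0 = 0 := by
  have := opp_C W 0
  rwa [map_zero, map_zero] at this

theorem opp_C_mul (W : WeylModule J L) (c : ℂ) (P : MvPolynomial (J ⊕ J) ℂ) :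
    opp W (C c * P) = c • opp W P := by
  rw [opp, map_mul, sumRingEquiv_C, W.op_C_mul, W.fn_C, ← opp, Algebra.smul_def]

theorem opp_comm_x (W : WeylModule J L) (i : J) (P : MvPolynomial (J ⊕ J) ℂ) :
    opp W P * W.x i = W.x i * opp W P + opp W (pderiv (Sum.inl i) P) := by
  induction P using MvPolynomial.induction_on with
  | C a =>
    rw [pderiv_C, opp_zero, add_zero, opp_C]
    exact Algebra.commutes a (W.x i)
  | add p q hp hq =>
    rw [map_add, opp_add, opp_add, add_mul, mul_add, hp, hq]; abel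
  | mul_X p j hp =>
    rcases j with j | j
    · rw [Derivation.leibniz, opp_mul_d, mul_assoc, W.comm, mul_add, ← mul_assoc, hp, add_mul,
        mul_assoc, opp_add, smul_eq_mul, smul_eq_mul, mul_comm (X (Sum.inl j)), opp_mul_d,
        pderiv_X]
      by_cases h : j = i
      · subst h
        rw [if_pos rfl, Pi.single_eq_same, mul_one, mul_one]; abel
      · rw [if_neg h, Pi.single_eq_of_ne (fun h' => h (Sum.inl_injective h')), mul_zero, mul_zero,
          opp_zero]
        abel
    · rw [Derivation.leibniz, opp_mul_x, mul_assoc, hp, mul_add, ← mul_assoc, W.x_comm j i,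
        mul_assoc, opp_add, smul_eq_mul, smul_eq_mul, mul_comm (X (Sum.inr j)), opp_mul_x,
        pderiv_X, Pi.single_eq_of_ne (by simp), mul_zero, opp_zero]
      abel

theorem opp_comm_d (W : WeylModule J L) (i : J) (P : MvPolynomial (J ⊕ J) ℂ) :
    W.d i * opp W P = opp W P * W.d i + opp W (pderiv (Sum.inr i) P) := by
  induction P using MvPolynomial.induction_on with
  | C a =>
    rw [pderiv_C, opp_zero, add_zero, opp_C]
    exact (Algebra.commutes a (W.d i)).symm
  | add p q hp hq =>
    rw [map_add, opp_add, opp_add, add_mul, mul_add, hp, hq]; abel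
  | mul_X p j hp =>
    rcases j with j | j
    · rw [Derivation.leibniz, opp_mul_d, ← mul_assoc, hp, add_mul, mul_assoc, W.d_comm i j,
        ← mul_assoc, opp_add, smul_eq_mul, smul_eq_mul, mul_comm (X (Sum.inl j)), opp_mul_d,
        pderiv_X, Pi.single_eq_of_ne (by simp), mul_zero, opp_zero]
      abel
    · rw [Derivation.leibniz, opp_mul_x, ← mul_assoc, W.comm, add_mul, mul_assoc, hp, mul_add,
        ← mul_assoc, opp_add, smul_eq_mul, smul_eq_mul, mul_comm (X (Sum.inr j)), opp_mul_x,
        pderiv_X]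
      by_cases h : i = j
      · subst h
        rw [if_pos rfl, Pi.single_eq_same, mul_one, one_mul]; abel
      · rw [if_neg h, Pi.single_eq_of_ne (fun h' => h (Sum.inr_injective h').symm), mul_zero,
          zero_mul, opp_zero]
        abel

theorem opp_sum (W : WeylModule J L) {κ : Type*} (s : Finset κ)
    (P : κ → MvPolynomial (J ⊕ J) ℂ) : opp W (∑ i ∈ s, P i) = ∑ i ∈ s, opp W (P i) := by
  rw [opp, map_sum, W.op_sum]; rfl

/-- A polynomial of degree at most `m` whose operator kills the `m`-th piece of a filtration is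
zero. -/
theorem eq_zero_of_kill (W : WeylModule J L) (G : ℕ → Submodule ℂ L) (hmono : Monotone G)
    (hx : ∀ m j u, u ∈ G m → W.x j u ∈ G (m + 1)) (hd : ∀ m j u, u ∈ G m → W.d j u ∈ G (m + 1))
    (v : L) (hv : v ∈ G 0) (hv0 : v ≠ 0) :
    ∀ (m : ℕ) (P : MvPolynomial (J ⊕ J) ℂ), (∀ s, P.coeff s ≠ 0 → s.degree ≤ m) →
      (∀ u ∈ G m, opp W P u = 0) → P = 0 := by
  intro m
  induction m with
  | zero =>
    intro P hP hk
    have h1 : P = C (P.coeff 0) := by
      ext s
      rw [coeff_C]
      by_cases hs : (0 : (J ⊕ J) →₀ ℕ) = s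
      · rw [if_pos hs, hs]
      · rw [if_neg hs]
        by_contra hc
        have := hP s hc
        rw [Nat.le_zero, Finsupp.degree_eq_zero_iff] at this
        exact hs this.symm
    have h2 := hk v hv
    rw [h1, opp_C, Module.algebraMap_end_apply] at h2
    rcases smul_eq_zero.1 h2 with h3 | h3
    · rw [h1, h3, map_zero]
    · exact absurd h3 hv0
  | succ m ih =>
    intro P hP hk
    have hder : ∀ j, pderiv j P = 0 := by
      intro j
      apply ih
      · intro s hs
        rw [coeff_pderiv] at hs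
        have h1 := hP (s + Finsupp.single j 1) (fun h => hs (by rw [h, zero_mul]))
        rw [map_add, Finsupp.degree_single] at h1
        omega
      · intro u hu
        rcases j with j | j
        · have h1 := congrArg (fun T => T u) (opp_comm_x W j P)
          simp only [Module.End.mul_apply, LinearMap.add_apply] at h1
          rw [hk _ (hx m j u hu), hk u (hmono (Nat.le_succ m) hu), map_zero, zero_add] at h1
          exact h1.symm
        · have h1 := congrArg (fun T => T u) (opp_comm_d W j P)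
          simp only [Module.End.mul_apply, LinearMap.add_apply] at h1
          rw [hk _ (hd m j u hu), hk u (hmono (Nat.le_succ m) hu), map_zero, zero_add] at h1
          exact h1.symm
    refine ih P ?_ (fun u hu => hk u (hmono (Nat.le_succ m) hu))
    intro s hs
    by_contra hlt
    have hs0 : s ≠ 0 := by
      rintro rfl
      apply hlt; simp
    obtain ⟨j, hj⟩ := Finsupp.ne_iff.1 hs0
    rw [Finsupp.coe_zero, Pi.zero_apply] at hj
    have h1 := coeff_pderiv (i := j) P (s - Finsupp.single j 1)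
    have h2 : s - Finsupp.single j 1 + Finsupp.single j 1 = s := by
      apply tsub_add_cancel_of_le
      rw [Finsupp.single_le_iff]
      omega
    rw [hder j, coeff_zero, h2] at h1
    have h3 : (((s - Finsupp.single j 1 : (J ⊕ J) →₀ ℕ) j : ℕ) : ℂ) + 1 ≠ 0 :=
      Nat.cast_add_one_ne_zero _
    exact (mul_ne_zero hs h3) h1.symm

/-- A monomial of degree `d` raises the filtration by `d`. -/
theorem opp_monomial_mem (W : WeylModule J L) (G : ℕ → Submodule ℂ L)
    (hx : ∀ m j u, u ∈ G m → W.x j u ∈ G (m + 1)) (hd : ∀ m j u, u ∈ G m → W.d j u ∈ G (m + 1)) :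
    ∀ (d : ℕ) (s : (J ⊕ J) →₀ ℕ), s.degree = d → ∀ m u, u ∈ G m →
      opp W (monomial s 1) u ∈ G (m + d) := by
  intro d
  induction d with
  | zero =>
    intro s hs m u hu
    rw [Finsupp.degree_eq_zero_iff] at hs
    subst hs
    have : (monomial 0 1 : MvPolynomial (J ⊕ J) ℂ) = C 1 := rfl
    rw [this, opp_C, Module.algebraMap_end_apply, one_smul]
    exact hu
  | succ d ih =>
    intro s hs m u hu
    have hs0 : s ≠ 0 := by
      rintro rfl
      simp at hs
    obtain ⟨j, hj⟩ := Finsupp.ne_iff.1 hs0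
    rw [Finsupp.coe_zero, Pi.zero_apply] at hj
    have h2 : s - Finsupp.single j 1 + Finsupp.single j 1 = s := by
      apply tsub_add_cancel_of_le
      rw [Finsupp.single_le_iff]
      omega
    have h3 : (s - Finsupp.single j 1).degree = d := by
      have := congrArg Finsupp.degree h2
      rw [map_add, Finsupp.degree_single] at this
      omega
    have h4 : (monomial s 1 : MvPolynomial (J ⊕ J) ℂ)
        = monomial (s - Finsupp.single j 1) 1 * X j := by
      rw [X, monomial_mul, h2, mul_one]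
    rcases j with j | j
    · rw [h4, opp_mul_d, Module.End.mul_apply, show m + (d + 1) = (m + 1) + d by ring]
      exact ih _ h3 _ _ (hd m j u hu)
    · rw [h4, opp_mul_x, Module.End.mul_apply, ← add_assoc]
      exact hx _ j _ (ih _ h3 _ _ hu)

/-- Bernstein's inequality in filtered form. -/
theorem bernstein [Fintype J] (W : WeylModule J L) (G : ℕ → Submodule ℂ L) (hmono : Monotone G)
    (hx : ∀ m j u, u ∈ G m → W.x j u ∈ G (m + 1)) (hd : ∀ m j u, u ∈ G m → W.d j u ∈ G (m + 1))
    (hfin : ∀ m, FiniteDimensional ℂ (G m))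
    (v : L) (hv : v ∈ G 0) (hv0 : v ≠ 0) (k : ℕ) :
    (k + 1) ^ Fintype.card J ≤ Module.finrank ℂ (G (4 * Fintype.card J * k)) := by
  classical
  set n := Fintype.card J with hn
  set m := 2 * n * k with hm
  -- the exponents
  let e : (J ⊕ J → Fin (k + 1)) → ((J ⊕ J) →₀ ℕ) := fun s =>
    Finsupp.equivFunOnFinite.symm fun j => (s j : ℕ)
  have hedeg : ∀ s, (e s).degree ≤ m := by
    intro s
    rw [Finsupp.degree_eq_sum]
    calc ∑ i, (e s) i ≤ ∑ _i : J ⊕ J, k := Finset.sum_le_sum fun i _ => by
            change (s i : ℕ) ≤ k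
            exact Nat.lt_succ_iff.1 (s i).2
      _ = m := by
            rw [Finset.sum_const, Finset.card_univ, Fintype.card_sum, smul_eq_mul, hm, ← hn]; ring
  have heinj : Function.Injective e := by
    intro s t hst
    funext j
    apply Fin.ext
    have := congrArg (fun f : (J ⊕ J) →₀ ℕ => f j) hst
    exact this
  have hmem : ∀ s, ∀ u ∈ G m, opp W (monomial (e s) 1) u ∈ G (4 * n * k) := by
    intro s u hu
    refine hmono ?_ (opp_monomial_mem W G hx hd _ (e s) rfl m u hu)
    have := hedeg s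
    have h4 : 4 * n * k = m + m := by rw [hm]; ring
    omega
  let φ : (J ⊕ J → Fin (k + 1)) → (G m →ₗ[ℂ] G (4 * n * k)) := fun s =>
    (opp W (monomial (e s) 1)).restrict (hmem s)
  have hφ : LinearIndependent ℂ φ := by
    rw [Fintype.linearIndependent_iff]
    intro c hc s
    set P : MvPolynomial (J ⊕ J) ℂ := ∑ t, monomial (e t) (c t) with hP
    have hcoeff : ∀ r, P.coeff r = ∑ t, if e t = r then c t else 0 := by
      intro r
      rw [hP, coeff_sum]
      exact Finset.sum_congr rfl fun t _ => coeff_monomial _ _ _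
    have hP0 : P = 0 := by
      apply eq_zero_of_kill W G hmono hx hd v hv hv0 m
      · intro r hr
        rw [hcoeff] at hr
        obtain ⟨t, -, ht⟩ := Finset.exists_ne_zero_of_sum_ne_zero hr
        have : e t = r := by
          by_contra h
          rw [if_neg h] at ht
          exact ht rfl
        rw [← this]
        exact hedeg t
      · intro u hu
        have h1 := congrArg (fun T : G m →ₗ[ℂ] G (4 * n * k) => ((T ⟨u, hu⟩ : G (4 * n * k)) : L)) hc
        simp only [LinearMap.sum_apply, LinearMap.smul_apply, LinearMap.zero_apply,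
          ZeroMemClass.coe_zero, Submodule.coe_sum, Submodule.coe_smul] at h1
        rw [hP, opp_sum, LinearMap.sum_apply, ← h1]
        refine Finset.sum_congr rfl fun t _ => ?_
        have h2 : (monomial (e t) (c t) : MvPolynomial (J ⊕ J) ℂ) = C (c t) * monomial (e t) 1 := by
          rw [C_mul_monomial, mul_one]
        rw [h2, opp_C_mul, LinearMap.smul_apply]
        rfl
    have h3 := hcoeff (e s)
    rw [hP0, coeff_zero, Finset.sum_eq_single s] at h3
    · rw [if_pos rfl] at h3
      exact h3.symm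
    · intro t _ hts
      rw [if_neg (fun h => hts (heinj h))]
    · intro h; exact absurd (Finset.mem_univ s) h
  have hcard := hφ.fintype_card_le_finrank
  rw [Fintype.card_fun, Fintype.card_fin, Fintype.card_sum, Module.finrank_linearMap, ← hn] at hcard
  have hle : Module.finrank ℂ (G m) ≤ Module.finrank ℂ (G (4 * n * k)) := by
    apply Submodule.finrank_mono
    apply hmono
    rw [hm]; nlinarith
  have h5 : ((k + 1) ^ n) ^ 2 ≤ (Module.finrank ℂ (G (4 * n * k))) ^ 2 := by
    calc ((k + 1) ^ n) ^ 2 = (k + 1) ^ (n + n) := by rw [← pow_mul]; ring_nf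
      _ ≤ _ := hcard
      _ ≤ _ := by rw [sq]; exact Nat.mul_le_mul_right _ hle
  exact (Nat.pow_le_pow_iff_left (by norm_num)).1 h5

/-- The quotient of a Weyl module by a stable submodule. -/
def quot (W : WeylModule J L) (U : Submodule ℂ L) (hU : W.Stable U) : WeylModule J (L ⧸ U) where
  x j := U.mapQ U (W.x j) (fun u hu => hU.1 j u hu)
  d j := U.mapQ U (W.d j) (fun u hu => hU.2 j u hu)
  x_comm i j := by
    apply Submodule.linearMap_qext
    ext u
    have := congrArg (fun T => T u) (W.x_comm i j)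
    simp only [Module.End.mul_apply] at this
    simp only [LinearMap.comp_apply, Submodule.mkQ_apply, Module.End.mul_apply,
      Submodule.mapQ_apply, this]
  d_comm i j := by
    apply Submodule.linearMap_qext
    ext u
    have := congrArg (fun T => T u) (W.d_comm i j)
    simp only [Module.End.mul_apply] at this
    simp only [LinearMap.comp_apply, Submodule.mkQ_apply, Module.End.mul_apply,
      Submodule.mapQ_apply, this]
  comm i j := by
    apply Submodule.linearMap_qext
    ext u
    have := congrArg (fun T => T u) (W.comm i j)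
    by_cases h : i = j
    · subst h
      simp only [Module.End.mul_apply, LinearMap.add_apply, if_true, Module.End.one_apply] at this
      simp only [LinearMap.comp_apply, Submodule.mkQ_apply, Module.End.mul_apply,
        LinearMap.add_apply, Submodule.mapQ_apply, this, if_true, Module.End.one_apply,
        Submodule.Quotient.mk_add]
    · simp only [Module.End.mul_apply, if_neg h, add_zero] at this
      simp only [LinearMap.comp_apply, Submodule.mkQ_apply, Module.End.mul_apply,
        Submodule.mapQ_apply, this, if_neg h, add_zero]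

end ops

variable {J : Type} [Fintype J] [DecidableEq J] {L : Type} [AddCommGroup L] [Module ℂ L]

/-- One step of a chain costs at least `(k+1)^n` dimensions. -/
theorem step (W : WeylModule J L) (Γ : ℕ → Submodule ℂ L) (hmono : Monotone Γ)
    (hx : ∀ m j u, u ∈ Γ m → W.x j u ∈ Γ (m + 1)) (hd : ∀ m j u, u ∈ Γ m → W.d j u ∈ Γ (m + 1))
    (hfin : ∀ m, FiniteDimensional ℂ (Γ m)) (U U' : Submodule ℂ L) (hU : W.Stable U)
    (hU' : W.Stable U') (hle : U' ≤ U) (K : ℕ) (v : L) (hvK : v ∈ Γ K) (hvU : v ∈ U)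
    (hvU' : v ∉ U') (k : ℕ) :
    Module.finrank ℂ (Γ (K + 4 * Fintype.card J * k) ⊓ U' : Submodule ℂ L)
      + (k + 1) ^ Fintype.card J
      ≤ Module.finrank ℂ (Γ (K + 4 * Fintype.card J * k) ⊓ U : Submodule ℂ L) := by
  classical
  have hfin' : ∀ m, FiniteDimensional ℂ (Γ m ⊓ U : Submodule ℂ L) := fun m =>
    Submodule.finiteDimensional_inf_left _ _
  let G : ℕ → Submodule ℂ (L ⧸ U') := fun m => (Γ (K + m) ⊓ U).map U'.mkQ
  have hb := bernstein (quot W U' hU') G
    (fun a b hab => Submodule.map_mono (inf_le_inf_right _ (hmono (by omega))))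
    (by
      rintro m j _ ⟨w, hw, rfl⟩
      exact ⟨W.x j w, ⟨hx _ j w hw.1, hU.1 j w hw.2⟩, rfl⟩)
    (by
      rintro m j _ ⟨w, hw, rfl⟩
      exact ⟨W.d j w, ⟨hd _ j w hw.1, hU.2 j w hw.2⟩, rfl⟩)
    (fun m => inferInstance) (U'.mkQ v) ⟨v, ⟨hvK, hvU⟩, rfl⟩
    (by rwa [Submodule.mkQ_apply, Ne, Submodule.Quotient.mk_eq_zero]) k
  set M := K + 4 * Fintype.card J * k with hM
  -- rank nullity
  have hrn := LinearMap.finrank_range_add_finrank_ker (U'.mkQ.domRestrict (Γ M ⊓ U))
  have hrange : LinearMap.range (U'.mkQ.domRestrict (Γ M ⊓ U)) = G (4 * Fintype.card J * k) := by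
    rw [LinearMap.range_domRestrict]
  have hker : Module.finrank ℂ (LinearMap.ker (U'.mkQ.domRestrict (Γ M ⊓ U)))
      = Module.finrank ℂ (Γ M ⊓ U' : Submodule ℂ L) := by
    have hmap : (LinearMap.ker (U'.mkQ.domRestrict (Γ M ⊓ U))).map (Γ M ⊓ U).subtype
        = Γ M ⊓ U' := by
      ext w
      constructor
      · rintro ⟨⟨w, hw⟩, hk, rfl⟩
        refine ⟨hw.1, ?_⟩
        have hk' : U'.mkQ w = 0 := hk
        rwa [Submodule.mkQ_apply, Submodule.Quotient.mk_eq_zero] at hk'
      · rintro ⟨h1, h2⟩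
        refine ⟨⟨w, h1, hle h2⟩, ?_, rfl⟩
        change U'.mkQ w = 0
        rwa [Submodule.mkQ_apply, Submodule.Quotient.mk_eq_zero]
    rw [← hmap, Submodule.finrank_map_subtype_eq]
  rw [hrange, hker] at hrn
  omega

theorem exists_minimal {J : Type} [Fintype J] [DecidableEq J] {L : Type} [AddCommGroup L]
    [Module ℂ L] (W : WeylModule J L) (Γ : ℕ → Submodule ℂ L) (hmono : Monotone Γ)
    (hx : ∀ m j u, u ∈ Γ m → W.x j u ∈ Γ (m + 1)) (hd : ∀ m j u, u ∈ Γ m → W.d j u ∈ Γ (m + 1))
    (C : ℕ) (hfin : ∀ m, FiniteDimensional ℂ (Γ m))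
    (hdim : ∀ m, Module.finrank ℂ (Γ m) ≤ (C * (m + 1)) ^ Fintype.card J)
    (V : Submodule ℂ L) (hV : W.Stable V) (h0 : V ≠ ⊥) (hex : ∀ u ∈ V, ∃ m, u ∈ Γ m) :
    ∃ U ≤ V, W.Stable U ∧ U ≠ ⊥ ∧ ∀ U' ≤ U, W.Stable U' → U' = ⊥ ∨ U' = U := by
  classical
  by_contra hcon
  push Not at hcon
  let T := {U : Submodule ℂ L // U ≤ V ∧ W.Stable U ∧ U ≠ ⊥}
  have hstep : ∀ U : T, ∃ U' : T, U'.1 < U.1 := by
    rintro ⟨U, h1, h2, h3⟩
    obtain ⟨U', h4, h5, h6, h7⟩ := hcon U h1 h2 h3
    exact ⟨⟨U', h4.trans h1, h5, h6⟩, lt_of_le_of_ne h4 h7⟩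
  choose f hf using hstep
  let S : ℕ → T := fun i => f^[i] ⟨V, le_rfl, hV, h0⟩
  have hS : ∀ i, (S (i + 1)).1 < (S i).1 := by
    intro i
    change (f^[i + 1] _).1 < _
    rw [Function.iterate_succ_apply']
    exact hf _
  have hvex : ∀ i, ∃ v, v ∈ (S i).1 ∧ v ∉ (S (i + 1)).1 := fun i =>
    SetLike.exists_of_lt (hS i)
  choose v hv1 hv2 using hvex
  have hK : ∀ i, ∃ m, v i ∈ Γ m := fun i => hex _ ((S i).2.1 (hv1 i))
  choose κ hκ using hK
  set n := Fintype.card J with hn
  set r := (C * (4 * n + 2)) ^ n + 1 with hr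
  obtain ⟨K, hK⟩ : ∃ K, ∀ i < r, κ i ≤ K := by
    refine ⟨(Finset.range r).sup κ, fun i hi => Finset.le_sup (Finset.mem_range.2 hi)⟩
  have hmain : ∀ i ≤ r, Module.finrank ℂ (Γ (K + 4 * n * K) ⊓ (S i).1 : Submodule ℂ L)
      + i * (K + 1) ^ n ≤ Module.finrank ℂ (Γ (K + 4 * n * K) ⊓ (S 0).1 : Submodule ℂ L) := by
    intro i
    induction i with
    | zero => intro _; simp
    | succ i ih =>
      intro hi
      have h1 := ih (by omega)
      have h2 := step W Γ hmono hx hd hfin (S i).1 (S (i + 1)).1 (S i).2.2.1 (S (i + 1)).2.2.1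
        (hS i).le K (v i) (hmono (hK i (by omega)) (hκ i)) (hv1 i) (hv2 i) K
      rw [← hn] at h2
      rw [add_mul, one_mul]
      omega
  have h1 := hmain r le_rfl
  have h2 : Module.finrank ℂ (Γ (K + 4 * n * K) ⊓ (S 0).1 : Submodule ℂ L)
      ≤ Module.finrank ℂ (Γ (K + 4 * n * K)) := Submodule.finrank_mono inf_le_left
  have h3 := hdim (K + 4 * n * K)
  have h4 : (C * (K + 4 * n * K + 1)) ^ n ≤ (C * (4 * n + 2)) ^ n * (K + 1) ^ n := by
    rw [← mul_pow]
    apply Nat.pow_le_pow_left
    rw [mul_assoc C (4 * n + 2) (K + 1)]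
    apply Nat.mul_le_mul_left
    nlinarith
  have h5 : 0 < (K + 1) ^ n := by positivity
  have h6 : r * (K + 1) ^ n ≤ (C * (4 * n + 2)) ^ n * (K + 1) ^ n := by omega
  have h7 := Nat.le_of_mul_le_mul_right h6 h5
  omega

end Pool.Agent.H495.S3
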