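import Mathlib

/-! The second order identity for the discriminant of a pencil of `2 × 2` matrices. -/

namespace Pool.Agent.H495

section

variable {R : Type} [CommRing R]

/-- Cofactors. -/
def cof (M : Matrix (Fin 2) (Fin 2) R) (a b : Fin 2) : R := !![M 1 1, -M 1 0; -M 0 1, M 0 0] a b

/-- Determinant. -/
def dt (M : Matrix (Fin 2) (Fin 2) R) : R := M 0 0 * M 1 1 - M 0 1 * M 1 0

/-- Polarised determinant. -/
def mmx (Y Z : Matrix (Fin 2) (Fin 2) R) : R :=
  Y 0 0 * Z 1 1 + Z 0 0 * Y 1 1 - Y 0 1 * Z 1 0 - Z 0 1 * Y 1 0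

/-- Discriminant of the pencil. -/
def qq (Y Z : Matrix (Fin 2) (Fin 2) R) : R := mmx Y Z ^ 2 - 4 * dt Y * dt Z

/-- `∂q/∂Y_{ab}`. -/
def qY (Y Z : Matrix (Fin 2) (Fin 2) R) (a b : Fin 2) : R :=
  2 * mmx Y Z * cof Z a b - 4 * cof Y a b * dt Z

def qZ (Y Z : Matrix (Fin 2) (Fin 2) R) (a b : Fin 2) : R :=
  2 * mmx Y Z * cof Y a b - 4 * cof Z a b * dt Y

def eps (a b c d : Fin 2) : R := if a ≠ c ∧ b ≠ d then (if a = b then 1 else -1) else 0

def qYY (Y Z : Matrix (Fin 2) (Fin 2) R) (a l k b : Fin 2) : R :=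
  2 * cof Z k b * cof Z a l - 4 * dt Z * eps a l k b

def qYZ (Y Z : Matrix (Fin 2) (Fin 2) R) (a l k b : Fin 2) : R :=
  2 * cof Y k b * cof Z a l + 2 * mmx Y Z * eps a l k b - 4 * cof Y a l * cof Z k b

theorem qq_comm (Y Z : Matrix (Fin 2) (Fin 2) R) : qq Y Z = qq Z Y := by
  unfold qq mmx dt; ring

theorem star_id (Y Z : Matrix (Fin 2) (Fin 2) R) (k l : Fin 2) :
    2 * qq Y Z * (2 * qY Y Z k l + 2 * qY Z Y k l +
      ∑ a, ∑ b, (Y a b * qYY Y Z a l k b + Z a b * qYY Z Y a l k b)) -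
    3 * ∑ a, ∑ b, (Y a b * (qY Y Z k b * qY Y Z a l) + Z a b * (qY Z Y k b * qY Z Y a l)) = 0 := by
  simp only [Fin.sum_univ_two]
  fin_cases k <;> fin_cases l <;>
  simp [qq, qY, qYY, cof, mmx, dt, eps] <;> ring

end

section

variable {R : Type} [CommRing R] [Algebra ℂ R]

theorem der_qq (D : Derivation ℂ R R) (Y Z : Matrix (Fin 2) (Fin 2) R) :
    D (qq Y Z) = ∑ a, ∑ b, (qY Y Z a b * D (Y a b) + qY Z Y a b * D (Z a b)) := by
  have h4 : D (4 : R) = 0 := by
    have := D.map_natCast 4; simpa using this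
  simp only [Fin.sum_univ_two, qq, qY, cof, mmx, dt, map_sub, map_add, Derivation.leibniz,
    Derivation.leibniz_pow, smul_eq_mul, h4]
  simp
  ring

theorem der_qY (D : Derivation ℂ R R) (Y Z : Matrix (Fin 2) (Fin 2) R) (a l : Fin 2) :
    D (qY Y Z a l) = ∑ k, ∑ b, (qYY Y Z a l k b * D (Y k b) + qYZ Y Z a l k b * D (Z k b)) := by
  have h4 : D (4 : R) = 0 := by
    have := D.map_natCast 4; simpa using this
  have h2 : D (2 : R) = 0 := by
    have := D.map_natCast 2; simpa using this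
  fin_cases a <;> fin_cases l <;>
  simp only [Fin.sum_univ_two, qYY, qYZ, qY, cof, mmx, dt, map_sub, map_add, Derivation.leibniz,
    Derivation.leibniz_pow, smul_eq_mul, h4, h2, eps] <;>
  simp [h2, h4] <;>
  ring

/-- The second order identity. -/
theorem star (E G : Fin 4 → Derivation ℂ R R) (Y Z : Matrix (Fin 2) (Fin 2) R)
    (U V : Fin 4 → Fin 2 → R) (P Q : Fin 2 → Fin 4 → R) (n1 n2 : Fin 4 → R) (k l : Fin 2) (κ : R)
    (hEY : ∀ i a b, E i (Y a b) = if a = k then U i b else 0)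
    (hEZ : ∀ i a b, E i (Z a b) = if a = k then V i b else 0)
    (hGY : ∀ i a b, G i (Y a b) = if b = l then P a i else 0)
    (hGZ : ∀ i a b, G i (Z a b) = if b = l then Q a i else 0)
    (hEP : ∀ i a, E i (P a i) = if a = k then n1 i else 0)
    (hEQ : ∀ i a, E i (Q a i) = if a = k then n2 i else 0)
    (h1 : ∀ a b, ∑ i, U i b * P a i = κ * Y a b) (h2 : ∀ a b, ∑ i, V i b * P a i = 0)
    (h3 : ∀ a b, ∑ i, U i b * Q a i = 0) (h4 : ∀ a b, ∑ i, V i b * Q a i = κ * Z a b)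
    (h5 : ∑ i, n1 i = 2 * κ) (h6 : ∑ i, n2 i = 2 * κ) :
    ∑ i, (2 * qq Y Z * E i (G i (qq Y Z)) - 3 * (E i (qq Y Z) * G i (qq Y Z))) = 0 := by
  have hE : ∀ i, E i (qq Y Z) = ∑ b, (qY Y Z k b * U i b + qY Z Y k b * V i b) := by
    intro i
    rw [der_qq]
    simp only [hEY, hEZ]
    rw [Finset.sum_eq_single k]
    · simp
    · intro a _ ha; simp [ha]
    · intro h; exact absurd (Finset.mem_univ _) h
  have hG : ∀ i, G i (qq Y Z) = ∑ a, (qY Y Z a l * P a i + qY Z Y a l * Q a i) := by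
    intro i
    rw [der_qq]
    simp only [hGY, hGZ]
    refine Finset.sum_congr rfl fun a _ => ?_
    rw [Finset.sum_eq_single l]
    · simp
    · intro b _ hb; simp [hb]
    · intro h; exact absurd (Finset.mem_univ _) h
  have hEqY : ∀ i a, E i (qY Y Z a l) =
      ∑ b, (qYY Y Z a l k b * U i b + qYZ Y Z a l k b * V i b) := by
    intro i a
    rw [der_qY]
    simp only [hEY, hEZ]
    rw [Finset.sum_eq_single k]
    · simp
    · intro a _ ha; simp [ha]
    · intro h; exact absurd (Finset.mem_univ _) h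
  have hEqZ : ∀ i a, E i (qY Z Y a l) =
      ∑ b, (qYY Z Y a l k b * V i b + qYZ Z Y a l k b * U i b) := by
    intro i a
    rw [der_qY]
    simp only [hEY, hEZ]
    rw [Finset.sum_eq_single k]
    · simp
    · intro a _ ha; simp [ha]
    · intro h; exact absurd (Finset.mem_univ _) h
  have hEG : ∀ i, E i (G i (qq Y Z)) = ∑ a, ∑ b, (qYY Y Z a l k b * (U i b * P a i) +
      qYZ Y Z a l k b * (V i b * P a i) + qYY Z Y a l k b * (V i b * Q a i) +
      qYZ Z Y a l k b * (U i b * Q a i)) + (qY Y Z k l * n1 i + qY Z Y k l * n2 i) := by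
    intro i
    rw [hG, map_sum]
    have : ∀ a, E i (qY Y Z a l * P a i + qY Z Y a l * Q a i) =
        ∑ b, (qYY Y Z a l k b * (U i b * P a i) +
      qYZ Y Z a l k b * (V i b * P a i) + qYY Z Y a l k b * (V i b * Q a i) +
      qYZ Z Y a l k b * (U i b * Q a i)) + (if a = k then qY Y Z a l * n1 i + qY Z Y a l * n2 i
        else 0) := by
      intro a
      rw [map_add, Derivation.leibniz, Derivation.leibniz, hEP, hEQ, hEqY, hEqZ]
      simp only [Fin.sum_univ_two, smul_eq_mul]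
      split_ifs <;> ring
    simp only [this]
    rw [Finset.sum_add_distrib, Finset.sum_ite_eq']
    simp
  have key : ∀ i, 2 * qq Y Z * E i (G i (qq Y Z)) - 3 * (E i (qq Y Z) * G i (qq Y Z)) =
      2 * qq Y Z * (∑ a, ∑ b, (qYY Y Z a l k b * (U i b * P a i) +
      qYZ Y Z a l k b * (V i b * P a i) + qYY Z Y a l k b * (V i b * Q a i) +
      qYZ Z Y a l k b * (U i b * Q a i)) + (qY Y Z k l * n1 i + qY Z Y k l * n2 i)) -
      3 * ∑ a, ∑ b, (qY Y Z k b * qY Y Z a l * (U i b * P a i) +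
        qY Z Y k b * qY Y Z a l * (V i b * P a i) + qY Z Y k b * qY Z Y a l * (V i b * Q a i) +
        qY Y Z k b * qY Z Y a l * (U i b * Q a i)) := by
    intro i
    rw [hEG, hE, hG]
    simp only [Fin.sum_univ_two]
    ring
  have hsum : ∀ (c : Fin 2 → Fin 2 → R) (u : Fin 4 → Fin 2 → R) (p : Fin 2 → Fin 4 → R),
      ∑ i, ∑ a, ∑ b, c a b * (u i b * p a i) = ∑ a, ∑ b, c a b * ∑ i, u i b * p a i := by
    intro c u p
    rw [Finset.sum_comm]
    refine Finset.sum_congr rfl fun a _ => ?_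
    rw [Finset.sum_comm]
    refine Finset.sum_congr rfl fun b _ => ?_
    rw [Finset.mul_sum]
  have hs := star_id Y Z k l
  simp only [key, Finset.sum_sub_distrib, ← Finset.mul_sum, Finset.sum_add_distrib]
  rw [hsum, hsum, hsum, hsum, hsum, hsum, hsum, hsum]
  simp only [h1, h2, h3, h4, h5, h6, mul_zero, Finset.sum_const_zero, add_zero]
  simp only [Fin.sum_univ_two] at hs ⊢
  linear_combination κ * hs

end

end Pool.Agent.H495
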