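import Pool.Agent.H495.Exps

/-! The vanishing of `f₂ f₁` on the support. -/

namespace Pool.Agent.H495

open MvPolynomial Ix WeylModule

section

variable {L : Type} [AddCommGroup L] [Module ℂ L] {W : WeylModule (Idx (lev (m := 3))) L}

theorem TT_vanish (hs : W.IsSimple) (he : IsEquivariant W)
    (hinj : ∀ (f : RR 3) (n : ℕ), FTHom SS n f → ev f ≠ 0 → ∀ u : L,
      FF wt W f u = 0 → u = 0) (i : Fin 4) (j : Fin 2) (v : L) :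
    ∃ l, ((W.fn (TT i j)) ^ l) v = 0 := by
  obtain ⟨w, hw, hw0, mE1, mB, mP2, mE3, mP4, mB4, mE5, h1, h2, h3, h4, h5, h6, h7, hsum⟩ :=
    exists_eig he hs.1 hinj
  obtain ⟨n6, hn6⟩ : ∃ n6 : ℤ, mB = 2 * n6 + 2 := ⟨(mB - 2) / 2, by omega⟩
  obtain ⟨n5, hn5⟩ : ∃ n5 : ℤ, n5 = mE3 + 1 := ⟨_, rfl⟩
  obtain ⟨n1, hn1⟩ : ∃ n1 : ℤ, n1 = mE1 - 2 + n6 := ⟨_, rfl⟩
  obtain ⟨n4, hn4⟩ : ∃ n4 : ℤ, n4 = -mB4 - 2 - n5 - 2 * n6 := ⟨_, rfl⟩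
  obtain ⟨n3, hn3⟩ : ∃ n3 : ℤ, n3 = n4 - 2 - mE5 := ⟨_, rfl⟩
  obtain ⟨n2, hn2⟩ : ∃ n2 : ℤ, n2 = mP4 - n3 - n6 := ⟨_, rfl⟩
  have hpos : ∀ n : ℤ, ∃ a b : ℕ, (a : ℤ) - b = n := fun n => ⟨n.toNat, (-n).toNat, by omega⟩
  obtain ⟨a1, b1, hab1⟩ := hpos n1
  obtain ⟨a2, b2, hab2⟩ := hpos n2
  obtain ⟨a3, b3, hab3⟩ := hpos n3
  obtain ⟨a4, b4', hab4⟩ := hpos n4
  obtain ⟨a5, b5, hab5⟩ := hpos n5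
  obtain ⟨a6, b6, hab6⟩ := hpos n6
  set g := sp a1 a2 a3 a4 a5 a6 with hg
  set f := sp b1 b2 b3 b4' b5 b6 with hf
  have fE3 := Sc.sp E3_s1 E3_s2 E3_s3 E3_s4 E3_s5 E3_s6 b1 b2 b3 b4' b5 b6
  have fB := Sc.sp B_s1 B_s2 B_s3 B_s4 B_s5 B_s6 b1 b2 b3 b4' b5 b6
  have fE1 := Sc.sp E1_s1 E1_s2 E1_s3 E1_s4 E1_s5 E1_s6 b1 b2 b3 b4' b5 b6
  have fE5 := Sc.sp E5_s1 E5_s2 E5_s3 E5_s4 E5_s5 E5_s6 b1 b2 b3 b4' b5 b6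
  have fP2 := Sc.sp P2_s1 P2_s2 P2_s3 P2_s4 P2_s5 P2_s6 b1 b2 b3 b4' b5 b6
  have fB4 := Sc.sp B4_s1 B4_s2 B4_s3 B4_s4 B4_s5 B4_s6 b1 b2 b3 b4' b5 b6
  have fP4 := Sc.sp P4_s1 P4_s2 P4_s3 P4_s4 P4_s5 P4_s6 b1 b2 b3 b4' b5 b6
  have gE3' := Sc.sp E3_s1 E3_s2 E3_s3 E3_s4 E3_s5 E3_s6 a1 a2 a3 a4 a5 a6
  have gB' := Sc.sp B_s1 B_s2 B_s3 B_s4 B_s5 B_s6 a1 a2 a3 a4 a5 a6
  have gE1' := Sc.sp E1_s1 E1_s2 E1_s3 E1_s4 E1_s5 E1_s6 a1 a2 a3 a4 a5 a6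
  have gE5' := Sc.sp E5_s1 E5_s2 E5_s3 E5_s4 E5_s5 E5_s6 a1 a2 a3 a4 a5 a6
  have gP2' := Sc.sp P2_s1 P2_s2 P2_s3 P2_s4 P2_s5 P2_s6 a1 a2 a3 a4 a5 a6
  have gB4' := Sc.sp B4_s1 B4_s2 B4_s3 B4_s4 B4_s5 B4_s6 a1 a2 a3 a4 a5 a6
  have gP4' := Sc.sp P4_s1 P4_s2 P4_s3 P4_s4 P4_s5 P4_s6 a1 a2 a3 a4 a5 a6
  have hinjg : ∀ u : L, FF wt W g u = 0 → u = 0 :=
    hinj g _ (hsp a1 a2 a3 a4 a5 a6) (esp a1 a2 a3 a4 a5 a6)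
  have hinjf : ∀ u : L, FF wt W f u = 0 → u = 0 :=
    hinj f _ (hsp b1 b2 b3 b4' b5 b6) (esp b1 b2 b3 b4' b5 b6)
  have hw' : FF wt W f w ∈ UU W := UU_F fE3 fB fE1 fE5 fP2 fB4 fP4 hw
  have hne' : FF wt W f w ≠ 0 := fun h => hw0 (hinjf w h)
  have hcore := core W (g := g) hw' (fun i => KG_eig gE3 fE3 (h4 i))
    (fun i => KG_eig gB fB (h2 i)) (fun i => KG_eig gE1 fE1 (h1 i))
    (fun i => KG_eig gE5 fE5 (h7 i)) (fun i => KG_eig gP2 fP2 (h3 i))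
    (fun i => KG_eig gB4 fB4 (h6 i)) (fun i => KG_eig gP4 fP4 (h5 i))
    gE3' gB' gE1' gE5' gP2' gB4' gP4'
    (by omega) (by omega) (by omega) (by omega) (by omega) (by omega) (by omega)
  exact TT_nilp i j hs hne' hinjg (GG_zero hinj hcore.1 hcore.2 i j) v

end

end Pool.Agent.H495
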