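import Pool.Agent.H495.Peel3
import Pool.Agent.H495.LinAlgMod

/-! The equations satisfied by a normalised semi-invariant vector. -/

namespace Pool.Agent.H495

open MvPolynomial Ix WeylModule

section

variable {L : Type} [AddCommGroup L] [Module ℂ L] (W : WeylModule (Idx (lev (m := 3))) L)

/-- `g² ∂_{pq} (g⁻¹ w)`. -/
noncomputable def zz (g : RR 3) (w : L) (p q : Ix 3) : L :=
  FF wt W g (ZZ wt W p q w) - FF wt W (pd lev p q g) w

theorem FF_comm (f g : RR 3) (u : L) : FF wt W f (FF wt W g u) = FF wt W g (FF wt W f u) := by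
  rw [← Module.End.mul_apply, ← map_mul, mul_comm, map_mul, Module.End.mul_apply]

theorem zz_eq {p q : Ix 3} (hpq : lev p = lev q) (hw : wt p = wt q) (g : RR 3) (w : L) :
    ∑ r, ((if wt q = wt r + 1 then -FF wt W (yv lev p r) (zz W g w q r)
        else FF wt W (yv lev q r) (zz W g w p r)) +
      (if wt r = wt p + 1 then FF wt W (yv lev r q) (zz W g w r p)
        else -FF wt W (yv lev r p) (zz W g w r q))) =
    FF wt W g (vf W p q w) - FF wt W (der lev wt p q g) w -
      (if p = q then ((kap lev wt p : ℤ) : ℂ) • FF wt W g w else 0) := by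
  have key : ∀ a b c d : Ix 3, FF wt W (yv lev a b) (zz W g w c d) =
      FF wt W g (FF wt W (yv lev a b) (ZZ wt W c d w)) - FF wt W (yv lev a b * pd lev c d g) w := by
    intro a b c d
    rw [zz, map_sub, FF_comm, map_mul, Module.End.mul_apply]
  have h1 : ∀ r, ((if wt q = wt r + 1 then -FF wt W (yv lev p r) (zz W g w q r)
        else FF wt W (yv lev q r) (zz W g w p r)) +
      (if wt r = wt p + 1 then FF wt W (yv lev r q) (zz W g w r p)
        else -FF wt W (yv lev r p) (zz W g w r q))) =
      FF wt W g (((if wt q = wt r + 1 then -(FF wt W (yv lev p r) * ZZ wt W q r)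
        else FF wt W (yv lev q r) * ZZ wt W p r) +
      (if wt r = wt p + 1 then FF wt W (yv lev r q) * ZZ wt W r p
        else -(FF wt W (yv lev r p) * ZZ wt W r q))) w) -
      FF wt W (((if wt q = wt r + 1 then -(yv lev p r • pd lev q r) else yv lev q r • pd lev p r) +
    (if wt r = wt p + 1 then yv lev r q • pd lev r p else -(yv lev r p • pd lev r q)) :
      Derivation ℂ (RR 3) (RR 3)) g) w := by
    intro r
    rw [Derivation.add_apply, map_add, LinearMap.add_apply, LinearMap.add_apply, map_add]
    split_ifs <;>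
    simp only [Derivation.neg_apply, Derivation.smul_apply, smul_eq_mul, map_neg,
      LinearMap.neg_apply, Module.End.mul_apply, key] <;> abel
  rw [Finset.sum_congr rfl fun r _ => h1 r, Finset.sum_sub_distrib, ← map_sum,
    ← LinearMap.sum_apply, vf_mixed W hpq hw, der, derivation_sum_apply, map_sum,
    LinearMap.sum_apply, LinearMap.add_apply, map_add]
  by_cases h : p = q
  · simp only [if_pos h, LinearMap.smul_apply, Module.End.one_apply, map_smul]
    abel
  · simp only [if_neg h, LinearMap.zero_apply, map_zero]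
    abel

theorem zz_μ {f : RR 3} {w : L} (hf : FF wt W f w = 0) (g : RR 3) (p q : Ix 3) :
    FF wt W f (zz W g w p q) = -FF wt W (pd lev p q f) (FF wt W g w) := by
  have h1 := congrArg (fun T => T w) (ZZ_FF (W := W) (w := wt) p q f)
  simp only [Module.End.mul_apply, LinearMap.add_apply, hf, map_zero] at h1
  rw [zz, map_sub, FF_comm W f g, FF_comm W f (pd lev p q g), hf, map_zero, sub_zero,
    eq_neg_iff_add_eq_zero, FF_comm W _ g, ← map_add, ← h1, map_zero]

theorem grp_rhs {n : ℕ} {pos : Fin n → Ix 3} (hp : IsGrp pos) {w : L} (hw : w ∈ KG W pos) {m : ℤ}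
    (hm : ∀ i, vf W (pos i) (pos i) w = (m : ℂ) • w) {g : RR 3} {m' : ℤ}
    (hg : Sc (DD pos) m' g) {k : ℤ} (hk : ∀ i, kap lev wt (pos i) = k) (i j : Fin n) :
    ∑ r, ((if wt (pos j) = wt r + 1 then -FF wt W (yv lev (pos i) r) (zz W g w (pos j) r)
        else FF wt W (yv lev (pos j) r) (zz W g w (pos i) r)) +
      (if wt r = wt (pos i) + 1 then FF wt W (yv lev r (pos j)) (zz W g w r (pos i))
        else -FF wt W (yv lev r (pos i)) (zz W g w r (pos j)))) =
    if i = j then (m - k - m') • FF wt W g w else 0 := by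
  rw [zz_eq W (hp.lev i j) (hp.wt i j)]
  have h1 := hg i j
  simp only [DD] at h1
  rw [h1]
  by_cases h : i = j
  · subst h
    rw [if_pos rfl, if_pos rfl, if_pos rfl, hm, hk, map_smul, map_mul, map_intCast,
      Module.End.mul_apply]
    rw [Int.cast_smul_eq_zsmul, Int.cast_smul_eq_zsmul]
    rw [show ((m' : ℤ) : Module.End ℂ L) (FF wt W g w) = m' • FF wt W g w by
      rw [← zsmul_one]; simp]
    rw [sub_smul, sub_smul]; abel
  · rw [if_neg h, if_neg h, if_neg (fun h' => h (hp.inj h')), hw.1 i j h, map_zero]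
    simp

end

end Pool.Agent.H495
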