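import Pool.Agent.H495.ZZeq

/-! The equations satisfied by a normalised semi-invariant vector, group by group. -/

namespace Pool.Agent.H495

open MvPolynomial Ix WeylModule

theorem card_ix (P : Ix 3 → Prop) [DecidablePred P] :
    (Finset.univ.filter P).card =
      (∑ i, if P (e1 i) then 1 else 0) + (∑ i, if P (b i) then 1 else 0) +
      (∑ i, if P (p2 i) then 1 else 0) + (∑ i, if P (e3 i) then 1 else 0) +
      (∑ i, if P (p4 i) then 1 else 0) + (∑ i, if P (b4 i) then 1 else 0) +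
      ∑ i, if P (e5 i) then 1 else 0 := by
  rw [Finset.card_filter, sum_ix]

theorem kE1 (i) : kap lev wt (e1 i : Ix 3) = 2 := by
  unfold kap; rw [card_ix, card_ix]; norm_num [lev, wt]
theorem kB (i) : kap lev wt (b i : Ix 3) = 4 := by
  unfold kap; rw [card_ix, card_ix]; norm_num [lev, wt]
theorem kP2 (i) : kap lev wt (p2 i : Ix 3) = -2 := by
  unfold kap; rw [card_ix, card_ix]; norm_num [lev, wt]
theorem kE3 (i) : kap lev wt (e3 i : Ix 3) = -1 := by
  unfold kap; rw [card_ix, card_ix]; norm_num [lev, wt]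
theorem kP4 (i) : kap lev wt (p4 i : Ix 3) = 2 := by
  unfold kap; rw [card_ix, card_ix]; norm_num [lev, wt]
theorem kB4 (i) : kap lev wt (b4 i : Ix 3) = -4 := by
  unfold kap; rw [card_ix, card_ix]; norm_num [lev, wt]
theorem kE5 (i) : kap lev wt (e5 i : Ix 3) = -2 := by
  unfold kap; rw [card_ix, card_ix]; norm_num [lev, wt]

section

variable {L : Type} [AddCommGroup L] [Module ℂ L] (W : WeylModule (Idx (lev (m := 3))) L)
  {w : L} {g : RR 3} {m m' k : ℤ}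

theorem yz {p q : Ix 3} (h : ¬ lev p = lev q + 1) : yv lev p q = 0 := yv_zero lev h


theorem qE1 (hw : w ∈ KG W e1) (hm : ∀ i, vf W (e1 i) (e1 i) w = (m : ℂ) • w)
    (hg : Sc (DD (m := 3) e1) m' g) (h : m - m' = 2) (j j' : Fin 2) :
    ∑ k, FF wt W (mα 3 k j') (zz W g w (b k) (e1 j)) +
      ∑ l, FF wt W (mas 3 j l) (-zz W g w (p2 l) (e1 j')) = 0 := by
  have h1 := grp_rhs W gE1 hw hm hg kE1 j' j
  rw [sum_ix, show m - 2 - m' = 0 by omega, zero_smul, ite_self] at h1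
  norm_num [wt, lev, yz, Finset.sum_add_distrib, Finset.sum_neg_distrib, -Fin.sum_univ_two] at h1
  simp only [map_neg, Finset.sum_neg_distrib, mα, mas, mc, mβ, mγ, md, mδ, mbs]
  rw [← neg_eq_zero, ← h1]; abel

theorem qB (hw : w ∈ KG W b) (hm : ∀ i, vf W (b i) (b i) w = (m : ℂ) • w)
    (hg : Sc (DD (m := 3) b) m' g) (h : m - m' = 2) (k k' : Fin 3) :
    ∑ j, FF wt W (mα 3 k j) (zz W g w (b k') (e1 j)) -
      ∑ i, FF wt W (mc 3 k i) (-zz W g w (e3 i) (b k')) =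
      if k = k' then (-2 : ℤ) • FF wt W g w else 0 := by
  have h1 := grp_rhs W gB hw hm hg kB k' k
  rw [sum_ix, show m - 4 - m' = -2 by omega] at h1
  norm_num [wt, lev, yz, Finset.sum_add_distrib, Finset.sum_neg_distrib, -Fin.sum_univ_two] at h1
  simp only [map_neg, Finset.sum_neg_distrib, mα, mas, mc, mβ, mγ, md, mδ, mbs]
  rw [sub_neg_eq_add, h1]
  simp only [eq_comm, neg_smul]

theorem qP2 (hw : w ∈ KG W p2) (hm : ∀ i, vf W (p2 i) (p2 i) w = (m : ℂ) • w)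
    (hg : Sc (DD (m := 3) p2) m' g) (h : m - m' = 1) (l l' : Fin 2) :
    ∑ j, FF wt W (mas 3 j l') (-zz W g w (p2 l) (e1 j)) -
      ∑ i, FF wt W (mβ 3 i l') (zz W g w (e3 i) (p2 l)) =
      if l = l' then (3 : ℤ) • FF wt W g w else 0 := by
  have h1 := grp_rhs W gP2 hw hm hg kP2 l' l
  rw [sum_ix, show m - -2 - m' = 3 by omega] at h1
  norm_num [wt, lev, yz, Finset.sum_add_distrib, Finset.sum_neg_distrib, -Fin.sum_univ_two] at h1
  simp only [map_neg, Finset.sum_neg_distrib, mα, mas, mc, mβ, mγ, md, mδ, mbs]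
  rw [sub_eq_add_neg, h1]
  simp only [eq_comm]

theorem qE3 (hw : w ∈ KG W e3) (hm : ∀ i, vf W (e3 i) (e3 i) w = (m : ℂ) • w)
    (hg : Sc (DD (m := 3) e3) m' g) (h : m - m' = -1) (i i' : Fin 4) :
    ∑ k, FF wt W (mc 3 k i') (-zz W g w (e3 i) (b k)) +
      ∑ l, FF wt W (mβ 3 i l) (zz W g w (e3 i') (p2 l)) -
      ∑ k, FF wt W (mγ 3 k i') (zz W g w (p4 k) (e3 i)) -
      ∑ k, FF wt W (md 3 i k) (-zz W g w (b4 k) (e3 i')) = 0 := by
  have h1 := grp_rhs W gE3 hw hm hg kE3 i' i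
  rw [sum_ix, show m - -1 - m' = 0 by omega, zero_smul, ite_self] at h1
  norm_num [wt, lev, yz, Finset.sum_add_distrib, Finset.sum_neg_distrib, -Fin.sum_univ_two] at h1
  simp only [map_neg, Finset.sum_neg_distrib, mα, mas, mc, mβ, mγ, md, mδ, mbs]
  rw [← h1]; abel

theorem qP4 (hw : w ∈ KG W p4) (hm : ∀ i, vf W (p4 i) (p4 i) w = (m : ℂ) • w)
    (hg : Sc (DD (m := 3) p4) m' g) (h : m - m' = 0) (k k' : Fin 2) :
    ∑ i, FF wt W (mγ 3 k i) (zz W g w (p4 k') (e3 i)) -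
      ∑ i, FF wt W (mbs 3 k i) (-zz W g w (e5 i) (p4 k')) =
      if k = k' then (-2 : ℤ) • FF wt W g w else 0 := by
  have h1 := grp_rhs W gP4 hw hm hg kP4 k' k
  rw [sum_ix, show m - 2 - m' = -2 by omega] at h1
  norm_num [wt, lev, yz, Finset.sum_add_distrib, Finset.sum_neg_distrib, -Fin.sum_univ_two] at h1
  simp only [map_neg, Finset.sum_neg_distrib, mα, mas, mc, mβ, mγ, md, mδ, mbs]
  rw [sub_neg_eq_add, h1]
  simp only [eq_comm, neg_smul]

theorem qB4 (hw : w ∈ KG W b4) (hm : ∀ i, vf W (b4 i) (b4 i) w = (m : ℂ) • w)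
    (hg : Sc (DD (m := 3) b4) m' g) (h : m - m' = -2) (k k' : Fin 2) :
    ∑ i, FF wt W (md 3 i k') (-zz W g w (b4 k) (e3 i)) -
      ∑ i, FF wt W (mδ 3 i k') (zz W g w (e5 i) (b4 k)) =
      if k = k' then (2 : ℤ) • FF wt W g w else 0 := by
  have h1 := grp_rhs W gB4 hw hm hg kB4 k' k
  rw [sum_ix, show m - -4 - m' = 2 by omega] at h1
  norm_num [wt, lev, yz, Finset.sum_add_distrib, Finset.sum_neg_distrib, -Fin.sum_univ_two] at h1
  simp only [map_neg, Finset.sum_neg_distrib, mα, mas, mc, mβ, mγ, md, mδ, mbs]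
  rw [sub_eq_add_neg, h1]
  simp only [eq_comm]

theorem qE5 (hw : w ∈ KG W e5) (hm : ∀ i, vf W (e5 i) (e5 i) w = (m : ℂ) • w)
    (hg : Sc (DD (m := 3) e5) m' g) (h : m - m' = -2) (i i' : Fin 2) :
    ∑ k, FF wt W (mbs 3 k i') (-zz W g w (e5 i) (p4 k)) +
      ∑ k, FF wt W (mδ 3 i k) (zz W g w (e5 i') (b4 k)) = 0 := by
  have h1 := grp_rhs W gE5 hw hm hg kE5 i' i
  rw [sum_ix, show m - -2 - m' = 0 by omega, zero_smul, ite_self] at h1
  norm_num [wt, lev, yz, Finset.sum_add_distrib, Finset.sum_neg_distrib, -Fin.sum_univ_two] at h1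
  simp only [map_neg, Finset.sum_neg_distrib, mα, mas, mc, mβ, mγ, md, mδ, mbs]
  exact h1

theorem pdμ1 (p q : Ix 3) (k : Fin 3) (l : Fin 2) : pd lev p q (μ1 k l) =
    ∑ i, (mc 3 k i * pd lev p q (mβ 3 i l) + mβ 3 i l * pd lev p q (mc 3 k i)) -
    ∑ j, (mα 3 k j * pd lev p q (mas 3 j l) + mas 3 j l * pd lev p q (mα 3 k j)) := by
  rw [μ1, Matrix.sub_apply, Matrix.mul_apply, Matrix.mul_apply, map_sub, map_sum, map_sum]
  simp only [Derivation.leibniz, smul_eq_mul]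

theorem pdμ2 (p q : Ix 3) (k l : Fin 2) : pd lev p q (μ2 k l) =
    ∑ i, (mγ 3 k i * pd lev p q (md 3 i l) + md 3 i l * pd lev p q (mγ 3 k i)) -
    ∑ j, (mbs 3 k j * pd lev p q (mδ 3 j l) + mδ 3 j l * pd lev p q (mbs 3 k j)) := by
  rw [μ2, Matrix.sub_apply, Matrix.mul_apply, Matrix.mul_apply, map_sub, map_sum, map_sum]
  simp only [Derivation.leibniz, smul_eq_mul]



theorem pd1 (k' k : Fin 3) (j l : Fin 2) : pd lev (b k') (e1 j) (μ1 k l) =
    if k' = k then -mas 3 j l else 0 := by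
  rw [pdμ1]
  simp only [mα, mas, mc, mβ, mγ, md, mδ, mbs, pd_yv]
  norm_num [lev, ite_and, -Fin.sum_univ_two]
  simp [Finset.sum_add_distrib, -Fin.sum_univ_two]
  try (split_ifs <;> simp)
theorem pd2 (k : Fin 3) (l' j l : Fin 2) : pd lev (p2 l') (e1 j) (μ1 k l) =
    if l' = l then -mα 3 k j else 0 := by
  rw [pdμ1]
  simp only [mα, mas, mc, mβ, mγ, md, mδ, mbs, pd_yv]
  norm_num [lev, ite_and, -Fin.sum_univ_two]
  simp [Finset.sum_add_distrib, -Fin.sum_univ_two]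
  try (split_ifs <;> simp)
theorem pd3 (i : Fin 4) (l' : Fin 2) (k : Fin 3) (l : Fin 2) : pd lev (e3 i) (p2 l') (μ1 k l) =
    if l' = l then mc 3 k i else 0 := by
  rw [pdμ1]
  simp only [mα, mas, mc, mβ, mγ, md, mδ, mbs, pd_yv]
  norm_num [lev, ite_and, -Fin.sum_univ_two]
  simp [Finset.sum_add_distrib, -Fin.sum_univ_two]
  try (split_ifs <;> simp)
theorem pd4 (i : Fin 4) (k' k : Fin 3) (l : Fin 2) : pd lev (e3 i) (b k') (μ1 k l) =
    if k' = k then mβ 3 i l else 0 := by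
  rw [pdμ1]
  simp only [mα, mas, mc, mβ, mγ, md, mδ, mbs, pd_yv]
  norm_num [lev, ite_and, -Fin.sum_univ_two]
  simp [Finset.sum_add_distrib, -Fin.sum_univ_two]
  try (split_ifs <;> simp)
theorem pd5 (i k' k l : Fin 2) : pd lev (e5 i) (p4 k') (μ2 k l) =
    if k' = k then -mδ 3 i l else 0 := by
  rw [pdμ2]
  simp only [mα, mas, mc, mβ, mγ, md, mδ, mbs, pd_yv]
  norm_num [lev, ite_and, -Fin.sum_univ_two]
  simp [Finset.sum_add_distrib, -Fin.sum_univ_two]
  try (split_ifs <;> simp)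
theorem pd6 (i l' k l : Fin 2) : pd lev (e5 i) (b4 l') (μ2 k l) =
    if l' = l then -mbs 3 k i else 0 := by
  rw [pdμ2]
  simp only [mα, mas, mc, mβ, mγ, md, mδ, mbs, pd_yv]
  norm_num [lev, ite_and, -Fin.sum_univ_two]
  simp [Finset.sum_add_distrib, -Fin.sum_univ_two]
  try (split_ifs <;> simp)

theorem w1 (hw : w ∈ L0 W) (j l : Fin 2) :
    ∑ k, FF wt W (μ1 k l) (zz W g w (b k) (e1 j)) = (3 : ℤ) • FF wt W (mas 3 j l) (FF wt W g w) := by
  simp only [zz_μ W (hw.1 _ l), pd1, if_true, map_neg, LinearMap.neg_apply, neg_neg]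
  rw [Finset.sum_const, Finset.card_univ, Fintype.card_fin]; module

theorem wz2 (hw : w ∈ L0 W) (k : Fin 3) (j : Fin 2) :
    ∑ l, FF wt W (μ1 k l) (-zz W g w (p2 l) (e1 j)) =
      (-2 : ℤ) • FF wt W (mα 3 k j) (FF wt W g w) := by
  simp only [map_neg, zz_μ W (hw.1 k _), pd2, if_true, LinearMap.neg_apply, neg_neg]
  rw [Finset.sum_const, Finset.card_univ, Fintype.card_fin]; module

theorem w3 (hw : w ∈ L0 W) (k : Fin 3) (i : Fin 4) :
    ∑ l, FF wt W (μ1 k l) (zz W g w (e3 i) (p2 l)) =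
      (-2 : ℤ) • FF wt W (mc 3 k i) (FF wt W g w) := by
  simp only [map_neg, zz_μ W (hw.1 k _), pd3, if_true, LinearMap.neg_apply, neg_neg]
  rw [Finset.sum_const, Finset.card_univ, Fintype.card_fin]; module

theorem w4 (hw : w ∈ L0 W) (i : Fin 4) (l : Fin 2) :
    ∑ k, FF wt W (μ1 k l) (-zz W g w (e3 i) (b k)) =
      (3 : ℤ) • FF wt W (mβ 3 i l) (FF wt W g w) := by
  simp only [map_neg, zz_μ W (hw.1 _ l), pd4, if_true, LinearMap.neg_apply, neg_neg]
  rw [Finset.sum_const, Finset.card_univ, Fintype.card_fin]; module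

theorem w5 (hw : w ∈ L0 W) (i l : Fin 2) :
    ∑ k, FF wt W (μ2 k l) (-zz W g w (e5 i) (p4 k)) =
      (-2 : ℤ) • FF wt W (mδ 3 i l) (FF wt W g w) := by
  simp only [map_neg, zz_μ W (hw.2 _ l), pd5, if_true, LinearMap.neg_apply, neg_neg]
  rw [Finset.sum_const, Finset.card_univ, Fintype.card_fin]; module

theorem w6 (hw : w ∈ L0 W) (k i : Fin 2) :
    ∑ l, FF wt W (μ2 k l) (zz W g w (e5 i) (b4 l)) =
      (2 : ℤ) • FF wt W (mbs 3 k i) (FF wt W g w) := by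
  simp only [map_neg, zz_μ W (hw.2 k _), pd6, if_true, LinearMap.neg_apply, neg_neg]
  rw [Finset.sum_const, Finset.card_univ, Fintype.card_fin]; module

theorem w7 (hw : w ∈ L0 W) (k : Fin 3) (l : Fin 2) :
    FF wt W (μ1 k l) (FF wt W g w) = 0 := by
  rw [FF_comm, hw.1 k l, map_zero]

end

end Pool.Agent.H495
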